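import Pool.Agent.P.MP_49bf82_gt.Defs

open Manifold Set Filter Topology
open scoped ContDiff

namespace Pool.Agent.P.MP_49bf82_gt

open Pool.Agent.P.MP_e3ee0c_gt

variable {E : Type*} [NormedAddCommGroup E] [NormedSpace ℝ E] {V : Type*} [TopologicalSpace V]
  [ChartedSpace E V]

/-- The form d(α/|Φ|). On an open page it is the completed symplectic form of the page. -/
noncomputable def pageForm (α : V → E →L[ℝ] ℝ) (Φ : V → ℂ) (v : V) (a b : E) : ℝ :=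
  extD (fun w => ‖Φ w‖⁻¹ • α w) v a b

/-- The vector a is tangent to the page through v. -/
def PageTangent (Φ : V → ℂ) (v : V) (a : E) : Prop := ∃ c : ℝ, dif E ℂ Φ v a = c * Φ v

/-- ψ preserves the form d(α/|Φ|) on vectors tangent to the open pages. -/
def PageSymplectic (α : V → E →L[ℝ] ℝ) (Φ : V → ℂ) (ψ : V → V) : Prop :=
  ∀ v, Φ v ≠ 0 → ∀ a b, PageTangent Φ v a → PageTangent Φ v b →
    pageForm α Φ (ψ v) (dif E E ψ v a) (dif E E ψ v b) = pageForm α Φ v a b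

/-- A monodromy flow that is symplectic on the pages and preserves α and |Φ| near the binding. -/
structure IsSymplecticMonodromyFlow (α : V → E →L[ℝ] ℝ) (Φ : V → ℂ) (f : ℝ → V → V) : Prop where
  flow : IsMonodromyFlow E Φ f
  pages : ∀ t, PageSymplectic α Φ (f t)
  strict : ∀ᶠ v in 𝓝ˢ {v | Φ v = 0}, ∀ t,
    ‖Φ (f t v)‖ = ‖Φ v‖ ∧ ∀ u, α (f t v) (dif E E (f t) v u) = α v u

/-- ψ is smoothly isotopic to the identity through diffeomorphisms of V that preserve every page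
and its symplectic form and are the identity on a fixed neighbourhood of the binding. -/
def SymplecticallyTrivial (α : V → E →L[ℝ] ℝ) (Φ : V → ℂ) (ψ : V → V) : Prop :=
  ∃ g g' : ℝ → V → V,
    ContMDiff (𝓘(ℝ, ℝ).prod 𝓘(ℝ, E)) 𝓘(ℝ, E) ∞ (fun q : ℝ × V => g q.1 q.2) ∧
    ContMDiff (𝓘(ℝ, ℝ).prod 𝓘(ℝ, E)) 𝓘(ℝ, E) ∞ (fun q : ℝ × V => g' q.1 q.2) ∧
    (∀ τ v, g' τ (g τ v) = v ∧ g τ (g' τ v) = v) ∧ (∀ v, g 0 v = v ∧ g 1 v = ψ v) ∧
    (∀ τ v, ∃ c : ℝ, 0 < c ∧ Φ (g τ v) = c * Φ v) ∧ (∀ τ, PageSymplectic α Φ (g τ)) ∧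
    ∀ᶠ v in 𝓝ˢ {v | Φ v = 0}, ∀ τ, g τ v = v

end Pool.Agent.P.MP_49bf82_gt
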