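import Pool.Agent.P.MP_49bf82_gt.Base

open Manifold Set Filter Topology
open scoped ContDiff RealInnerProductSpace

namespace Pool.Agent.P.MP_49bf82_gt

open Pool.Agent.P.MP_e3ee0c_gt

open MeasureTheory

universe u

theorem avg_nat {k : ℕ} {X : Type u} [NormedAddCommGroup X] [NormedSpace ℝ X] (n : ℕ) :
    ∀ {B : Type u} [NormedAddCommGroup B] [NormedSpace ℝ B] [CompleteSpace B]
      {g : (Fin k → ℝ) × X → B} {w₀ : X},
      (∀ t ∈ Metric.closedBall (0 : Fin k → ℝ) 1, ContDiffAt ℝ (n + 1 : ℕ) g (t, w₀)) →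
      ContDiffAt ℝ n (fun w => ∫ t in cube k, g (t, w)) w₀ := by
  have near : ∀ (j : ℕ) {B : Type u} [NormedAddCommGroup B] [NormedSpace ℝ B]
      {g : (Fin k → ℝ) × X → B} {w₀ : X},
      (∀ t ∈ Metric.closedBall (0 : Fin k → ℝ) 1, ContDiffAt ℝ (j + 1 : ℕ) g (t, w₀)) →
      ∀ᶠ w in 𝓝 w₀, ∀ t ∈ Metric.closedBall (0 : Fin k → ℝ) 1, ContDiffAt ℝ 1 g (t, w) := by
    intro j B _ _ g w₀ hg
    refine (isCompact_closedBall (0 : Fin k → ℝ) 1).eventually_forall_of_forall_eventually
      fun t ht => ?_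
    have h1 : ContDiffAt ℝ 1 g (t, w₀) := (hg t ht).of_le (by exact_mod_cast Nat.le_add_left 1 j)
    exact (continuous_swap.tendsto (w₀, t)).eventually (h1.eventually (by simp))
  induction n with
  | zero =>
    intro B _ _ _ g w₀ hg
    rw [Nat.cast_zero, contDiffAt_zero]
    exact ⟨_, near 0 hg, fun w hw => (avg_hasFDerivAt hw).continuousAt.continuousWithinAt⟩
  | succ n ih =>
    intro B _ _ _ g w₀ hg
    rw [Nat.cast_succ, contDiffAt_succ_iff_hasFDerivAt]
    refine ⟨fun w => ∫ t in cube k, (fderiv ℝ g (t, w)).comp (ContinuousLinearMap.inr ℝ _ X),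
      ⟨_, near _ hg, fun w hw => avg_hasFDerivAt hw⟩, ?_⟩
    refine ih (g := fun z => (fderiv ℝ g z).comp (ContinuousLinearMap.inr ℝ _ X)) fun t ht => ?_
    exact ((hg t ht).fderiv_right (m := (n + 1 : ℕ)) (by norm_cast)).clm_comp contDiffAt_const

/-- Averages over the cube depend smoothly on parameters. -/
theorem avg_contDiffAt {k : ℕ} {X B : Type u} [NormedAddCommGroup X] [NormedSpace ℝ X]
    [FiniteDimensional ℝ X] [NormedAddCommGroup B] [NormedSpace ℝ B] [CompleteSpace B]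
    {g : (Fin k → ℝ) × X → B} {w₀ : X}
    (hg : ∀ t ∈ Metric.closedBall (0 : Fin k → ℝ) 1, ContDiffAt ℝ ∞ g (t, w₀)) :
    ContDiffAt ℝ ∞ (fun w => ∫ t in cube k, g (t, w)) w₀ := by
  rw [contDiffAt_infty]
  exact fun n => avg_nat n fun t ht => (hg t ht).of_le (by exact_mod_cast le_top)

/-- The average of a function with values in a closed convex set. -/
theorem avg_mem {k : ℕ} {B : Type*} [NormedAddCommGroup B] [NormedSpace ℝ B] [CompleteSpace B]
    {g : (Fin k → ℝ) → B} (hg : Continuous g) {C : Set B} (hC : Convex ℝ C) (hc : IsClosed C)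
    (h : ∀ t, g t ∈ C) : ∫ t in cube k, g t ∈ C := by
  haveI : IsProbabilityMeasure (volume.restrict (cube k)) := ⟨by
    rw [Measure.restrict_apply_univ, ← ENNReal.toReal_eq_one_iff]; exact cube_real⟩
  exact hC.integral_mem hc (Eventually.of_forall h) (integrableOn_cube hg)

theorem avg_const {k : ℕ} {B : Type*} [NormedAddCommGroup B] [NormedSpace ℝ B] [CompleteSpace B]
    (b : B) : ∫ _ in cube k, b = b := by
  rw [setIntegral_const, cube_real, one_smul]

end Pool.Agent.P.MP_49bf82_gt
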