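import Pool.Agent.P.MP_49bf82_gt.Gen
import Pool.Agent.P.MP_49bf82_gt.Avg

open Manifold Set Filter Topology
open scoped ContDiff RealInnerProductSpace

namespace Pool.Agent.P.MP_49bf82_gt

open Pool.Agent.P.MP_e3ee0c_gt

variable {F : Type*} [NormedAddCommGroup F] [NormedSpace ℝ F] [FiniteDimensional ℝ F]
  {W : Type*} [TopologicalSpace W] [ChartedSpace F W] [IsManifold 𝓘(ℝ, F) ∞ W]

variable {φ : R2 → W → W}

/-- The field pulled back by the action of t. -/
noncomputable def avgvf_A (φ : R2 → W → W) (Y : W → F) (t : R2) (x : W) : F :=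
  dif F F (φ (-t)) (φ t x) (Y (φ t x))

theorem avgvf_back (h : IsAction F φ) (t : R2) (x : W) : φ (-t) (φ t x) = x := by
  rw [← h.add, neg_add_cancel, h.zero]

theorem avgvf_smooth (h : IsAction F φ) {Y : W → F} (hY : VF Y) (p : W) (t : R2) {x : W}
    (hx : x ∈ (chartAt F p).source) :
    ContMDiffAt (𝓘(ℝ, R2).prod 𝓘(ℝ, F)) 𝓘(ℝ, F) ∞
      (fun q : R2 × W => dif F F (chartAt F p) q.2 (avgvf_A φ Y q.1 q.2)) (t, x) := by
  have hv : ContMDiffAt (𝓘(ℝ, R2).prod 𝓘(ℝ, F)) 𝓘(ℝ, F).tangent ∞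
      (fun q : R2 × W => (⟨φ q.1 q.2, Y (φ q.1 q.2)⟩ : TangentBundle 𝓘(ℝ, F) W)) (t, x) :=
    ContMDiffAt.comp (t, x) (g := fun z => (⟨z, Y z⟩ : TangentBundle 𝓘(ℝ, F) W))
      (f := fun q : R2 × W => φ q.1 q.2) (hY (φ t x)) (h.smooth (t, x))
  have hn : ContMDiff ((𝓘(ℝ, R2).prod 𝓘(ℝ, F)).prod 𝓘(ℝ, F)) (𝓘(ℝ, R2).prod 𝓘(ℝ, F)) ∞
      (fun r : (R2 × W) × W => (-r.1.1, r.2)) :=
    ((contDiff_neg.contMDiff).comp (contMDiff_fst.comp contMDiff_fst)).prodMk contMDiff_snd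
  have h1 := push (fun q : R2 × W => φ (-q.1)) (fun q : R2 × W => φ q.1 q.2)
    (fun q : R2 × W => Y (φ q.1 q.2)) (x₀ := (t, x)) ((h.smooth.comp hn) _) hv
  have h2 := push_one (chartAt F p) (fun q : R2 × W => φ (-q.1) (φ q.1 q.2))
    (fun q : R2 × W => avgvf_A φ Y q.1 q.2) (x₀ := (t, x))
    (chart_smooth p (by rw [avgvf_back h]; exact hx)) h1
  have h3 : ContMDiffAt (𝓘(ℝ, R2).prod 𝓘(ℝ, F)) 𝓘(ℝ, F) ∞
      (fun q : R2 × W => dif F F (chartAt F p) (φ (-q.1) (φ q.1 q.2)) (avgvf_A φ Y q.1 q.2))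
      (t, x) := ((tangent_model_iff _ _ _).1 h2).2
  simpa only [avgvf_back h] using h3

theorem avgvf_cont (h : IsAction F φ) {Y : W → F} (hY : VF Y) (x : W) :
    Continuous fun t => avgvf_A φ Y t x := by
  refine continuous_iff_continuousAt.2 fun t => ?_
  have h1 := (avgvf_smooth h hY x t (mem_chart_source F x)).continuousAt
  have h2 := ContinuousAt.comp (f := fun s : R2 => (s, x)) h1 (by fun_prop)
  simpa only [Function.comp_def, dif_chart_self, ContinuousLinearMap.id_apply] using h2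

theorem avgvf_periodic (h : IsAction F φ) (Y : W → F) (m : Fin 2 → ℤ) (t : R2) (x : W) :
    avgvf_A φ Y (rv m + t) x = avgvf_A φ Y t x := by
  have h1 : -(rv m + t) = rv (-m) + -t := by
    funext i
    simp [rv]
    ring
  rw [avgvf_A, avgvf_A, h1, h.rv_add, h.rv_add]

theorem avgvf_shift (h : IsAction F φ) (Y : W → F) (s t : R2) (x : W) :
    dif F F (φ s) x (avgvf_A φ Y (s + t) x) = avgvf_A φ Y t (φ s x) := by
  have h1 := h.dif_add s (-(s + t)) (φ (s + t) x) (Y (φ (s + t) x))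
  rw [avgvf_back h] at h1
  have h2 : s + -(s + t) = -t := by abel
  rw [avgvf_A, ← h1, h2, avgvf_A, ← h.add, add_comm t s]

/-- Averaging a vector field over the torus. -/
theorem IsAction.average (h : IsAction F φ) {Y : W → F} (hY : VF Y) :
    ∃ Z : W → F, VF Z ∧ Inv φ Z ∧ ∀ x (C : Set F), Convex ℝ C → IsClosed C →
      (∀ t, dif F F (φ (-t)) (φ t x) (Y (φ t x)) ∈ C) → Z x ∈ C := by
  have hi : ∀ x, MeasureTheory.IntegrableOn (fun t => avgvf_A φ Y t x) (cube 2) :=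
    fun x => integrableOn_cube (avgvf_cont h hY x)
  refine ⟨fun x => ∫ t in cube 2, avgvf_A φ Y t x, fun p => ?_, fun s x => ?_,
    fun x C hC hc hm => avg_mem (avgvf_cont h hY x) hC hc hm⟩
  · rw [vfAt_iff_chart p (mem_chart_source F p)]
    have h1 : chartField (fun x => ∫ t in cube 2, avgvf_A φ Y t x) p = fun z => ∫ t in cube 2,
        dif F F (chartAt F p) ((chartAt F p).symm z) (avgvf_A φ Y t ((chartAt F p).symm z)) :=
      funext fun z => (ContinuousLinearMap.integral_comp_comm _ (hi _)).symm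
    rw [h1]
    refine avg_contDiffAt (g := fun r : R2 × F => dif F F (chartAt F p) ((chartAt F p).symm r.2)
      (avgvf_A φ Y r.1 ((chartAt F p).symm r.2))) fun t _ => ?_
    have h2 : ContMDiffAt 𝓘(ℝ, R2 × F) (𝓘(ℝ, R2).prod 𝓘(ℝ, F)) ∞
        (fun r : R2 × F => (r.1, (chartAt F p).symm r.2)) (t, chartAt F p p) :=
      (contDiff_fst.contMDiff _).prodMk (ContMDiffAt.comp (t, chartAt F p p)
        (f := fun r : R2 × F => r.2) (chart_symm_smooth p (mem_chart_target F p))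
        (contDiff_snd.contMDiff _))
    have h3 := avgvf_smooth h hY p t
      ((chartAt F p).map_target (mem_chart_target F p))
    exact contMDiffAt_iff_contDiffAt.1 (ContMDiffAt.comp (t, chartAt F p p)
      (f := fun r : R2 × F => (r.1, (chartAt F p).symm r.2)) h3 h2)
  · rw [← ContinuousLinearMap.integral_comp_comm _ (hi x),
      ← avg_translate (f := fun t => dif F F (φ s) x (avgvf_A φ Y t x))
        (fun m t => by rw [avgvf_periodic h]) s]
    simp only [avgvf_shift h]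

/-- Invariant fields with values in an invariant family of closed convex sets. -/
theorem IsAction.exists_field [T2Space W] [SigmaCompactSpace W] (h : IsAction F φ)
    (C : W → Set F) (hC : ∀ x, Convex ℝ (C x)) (hc : ∀ x, IsClosed (C x))
    (hi : ∀ t x, ∀ y ∈ C x, dif F F (φ t) x y ∈ C (φ t x))
    (hl : ∀ x, ∃ Y : W → F, ∀ᶠ z in 𝓝 x, VFAt Y z ∧ Y z ∈ C z) :
    ∃ Z : W → F, VF Z ∧ Inv φ Z ∧ ∀ x, Z x ∈ C x := by
  obtain ⟨Y, hY⟩ := exists_contMDiffSection_forall_mem_convex_of_local (n := ⊤) (F_fiber := F)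
    𝓘(ℝ, F) (TangentSpace 𝓘(ℝ, F) : W → Type _) C hC (fun x => by
      obtain ⟨Y, hY⟩ := hl x
      exact ⟨_, hY, Y, fun z hz => hz.1.contMDiffWithinAt, fun z hz => hz.2⟩)
  obtain ⟨Z, hZ, hZi, hZm⟩ := h.average (Y := fun x => Y x) fun x => Y.contMDiff x
  refine ⟨Z, hZ, hZi, fun x => hZm x (C x) (hC x) (hc x) fun t => ?_⟩
  have h1 := hi (-t) (φ t x) _ (hY (φ t x))
  rwa [avgvf_back h] at h1

end Pool.Agent.P.MP_49bf82_gt
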