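import Pool.Agent.P.MP_49bf82_gt.Defs
import Pool.Agent.P.MP_e3ee0c_gt.Forms
import Pool.Agent.P.MP_e3ee0c_gt.Average

open Manifold Set Filter Topology
open scoped ContDiff RealInnerProductSpace

namespace Pool.Agent.P.MP_49bf82_gt

open Pool.Agent.P.MP_e3ee0c_gt

/-- Near x the strict sublevel set of g is connected and dense in the level set. -/
def Good {X : Type*} [TopologicalSpace X] (g : X → ℝ) (x : X) (T : Set X) : Prop :=
  ∃ U, IsOpen U ∧ x ∈ U ∧ U ⊆ T ∧ IsPreconnected (U ∩ {y | g y < g x}) ∧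
    U ∩ {y | g y = g x} ⊆ closure (U ∩ {y | g y < g x})

/-- The pairing of ξ with the moment map written as a complex number. -/
noncomputable def pr (ξ : R2) : ℂ →L[ℝ] ℝ := ξ 0 • Complex.reCLM - ξ 1 • Complex.imCLM

theorem pr_apply (ξ : R2) (z : ℂ) : pr ξ z = ξ 0 * z.re - ξ 1 * z.im := by
  simp [pr]

/-- An irrational direction. -/
noncomputable def theta : R2 := ![1, √2]

section model

variable {G : Type*} [NormedAddCommGroup G] [InnerProductSpace ℝ G]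

/-- A skew operator A that is infinitesimally symplectic for the nondegenerate skew form B. -/
structure Pair (A : G →L[ℝ] G) (B : G →L[ℝ] G →L[ℝ] ℝ) : Prop where
  skewA : ∀ u v, ⟪A u, v⟫ = -⟪u, A v⟫
  skew : ∀ u v, B u v = -B v u
  nondeg : ∀ u, (∀ v, B u v = 0) → u = 0
  symm : ∀ u v, B (A u) v = B (A v) u

/-- g is a Hamiltonian function of the linear field A for the form Ω near the origin. -/
structure Model (A : G →L[ℝ] G) (Ω : G → G →L[ℝ] G →L[ℝ] ℝ) (g : G → ℝ) : Prop where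
  skewA : ∀ u v, ⟪A u, v⟫ = -⟪u, A v⟫
  skew : ∀ u v, Ω 0 u v = -Ω 0 v u
  nondeg : ∀ u, (∀ v, Ω 0 u v = 0) → u = 0
  smooth : ContDiffAt ℝ 1 Ω 0
  deriv : ∀ᶠ y in 𝓝 (0 : G), HasFDerivAt g (-(Ω y (A y))) y

/-- Projections to the positive part N and the negative part P of the form B (A u) u. -/
structure Split (A : G →L[ℝ] G) (B : G →L[ℝ] G →L[ℝ] ℝ) (N P : G →L[ℝ] G) (l : ℝ) : Prop where
  pos : 0 < l
  ker : ∀ y, A y = A (N y) + A (P y)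
  NN : ∀ y, N (N y) = N y
  PP : ∀ y, P (P y) = P y
  NP : ∀ y, N (P y) = 0
  PN : ∀ y, P (N y) = 0
  big : ∀ y, l * ‖N y‖ ^ 2 ≤ B (A (N y)) (N y)
  small : ∀ y, B (A (P y)) (P y) ≤ -(l * ‖P y‖ ^ 2)
  orth : ∀ y z, B (A (N y)) (P z) = 0 ∧ B (A (P z)) (N y) = 0
  rank : (∃ y, N y ≠ 0) → 1 < Module.rank ℝ (LinearMap.range (N : G →ₗ[ℝ] G))

end model

variable {E F : Type*} [NormedAddCommGroup E] [NormedSpace ℝ E] [NormedAddCommGroup F]
  [NormedSpace ℝ F] {V W : Type*} [TopologicalSpace V] [TopologicalSpace W] [ChartedSpace E V]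
  [ChartedSpace F W]

/-- A vector field that is smooth at x. -/
def VFAt [IsManifold 𝓘(ℝ, F) ∞ W] (Y : W → F) (x : W) : Prop :=
  ContMDiffAt 𝓘(ℝ, F) 𝓘(ℝ, F).tangent ∞ (fun z => (⟨z, Y z⟩ : TangentBundle 𝓘(ℝ, F) W)) x

/-- A smooth vector field. -/
def VF [IsManifold 𝓘(ℝ, F) ∞ W] (Y : W → F) : Prop := ∀ x, VFAt Y x

/-- An invariant vector field. -/
def Inv (φ : R2 → W → W) (Y : W → F) : Prop := ∀ t x, dif F F (φ t) x (Y x) = Y (φ t x)

/-- A smooth global flow of Y. -/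
structure IsFlow (Y : W → F) (P : ℝ → W → W) : Prop where
  smooth : ContMDiff (𝓘(ℝ, ℝ).prod 𝓘(ℝ, F)) 𝓘(ℝ, F) ∞ (fun q : ℝ × W => P q.1 q.2)
  zero : ∀ x, P 0 x = x
  add : ∀ s t x, P (s + t) x = P s (P t x)
  curve : ∀ x, IsMIntegralCurve (I := 𝓘(ℝ, F)) (fun t => P t x) Y

variable (E F) in
/-- The normalised moment map m as a complex valued function. -/
structure Core (Φ : V → ℂ) (ι : ℝ × V × R2 → W) (φ : R2 → W → W) (m : W → ℂ) : Prop where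
  action : IsAction F φ
  isEnd : IsEnd E F ι φ
  smoothV : ContMDiff 𝓘(ℝ, E) 𝓘(ℝ, ℂ) ∞ Φ
  smooth : ContMDiff 𝓘(ℝ, F) 𝓘(ℝ, ℂ) ∞ m
  onEnd : ∀ y : ℝ × V × R2, 0 < y.1 → m (ι y) = Real.exp y.1 * Φ y.2.1
  invariant : ∀ t x, m (φ t x) = m x

/-- m is a moment map. -/
structure Ham (σ : W → F →L[ℝ] F →L[ℝ] ℝ) (φ : R2 → W → W) (m : W → ℂ) : Prop where
  symplectic : IsSymplectic σ
  ham : ∀ x ξ w, pr ξ (dif F ℂ m x w) = -σ x (gen F φ ξ x) w

variable (F) in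
/-- A proper invariant function that is the height s far out on the end. -/
structure IsHeight (ι : ℝ × V × R2 → W) (φ : R2 → W → W) (h : W → ℝ) : Prop where
  smooth : ContMDiff 𝓘(ℝ, F) 𝓘(ℝ, ℝ) ∞ h
  invariant : ∀ t x, h (φ t x) = h x
  onEnd : ∀ y : ℝ × V × R2, 2 ≤ y.1 → h (ι y) = y.1
  big : ∀ x, 2 ≤ h x → ∃ y : ℝ × V × R2, 2 ≤ y.1 ∧ ι y = x
  compact : ∀ c, IsCompact {x | h x ≤ c}

variable (E) in
/-- The monodromy flow with its cocycle. -/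
structure Turn (Φ : V → ℂ) (f : ℝ → V → V) (a : ℝ × V → ℝ) : Prop where
  flow : IsMonodromyFlow E Φ f
  smooth : ContMDiff (𝓘(ℝ, ℝ).prod 𝓘(ℝ, E)) 𝓘(ℝ, ℝ) ∞ a
  turn : ∀ t v, Φ (f t v) = Complex.exp (a (t, v) + 2 * Real.pi * t * Complex.I) * Φ v
  cocycle : ∀ s t v, a (s + t, v) = a (s, f t v) + a (t, v)
  zero : ∀ v, a (0, v) = 0
  fix : ∀ t v, Φ v = 0 → a (t, v) = 0
  near : ∀ᶠ v in 𝓝ˢ {v | Φ v = 0}, f 1 v = v ∧ a (1, v) = 0

/-- The lift of the monodromy flow to the product; it preserves the modulus of e^s Φ. -/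
def ft (f : ℝ → V → V) (a : ℝ × V → ℝ) (t : ℝ) (y : ℝ × V × R2) : ℝ × V × R2 :=
  (y.1 - a (t, y.2.1), f t y.2.1, y.2.2)

/-- Z generates the lifted flow on the end. -/
structure IsRot [IsManifold 𝓘(ℝ, F) ∞ W] (ι : ℝ × V × R2 → W) (f : ℝ → V → V) (a : ℝ × V → ℝ)
    (Z : W → F) : Prop where
  smooth : ∀ y : ℝ × V × R2, 0 < y.1 → VFAt Z (ι y)
  curve : ∀ y t, 0 < (ft f a t y).1 → HasMFDerivAt 𝓘(ℝ, ℝ) 𝓘(ℝ, F) (fun s => ι (ft f a s y)) t
    ((1 : ℝ →L[ℝ] ℝ).smulRight (Z (ι (ft f a t y))))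

variable (F) in
/-- An equivariant flow that changes the height at bounded speed. -/
structure Mover (φ : R2 → W → W) (h : W → ℝ) (C : ℝ) (P : ℝ → W → W) : Prop where
  smooth : ContMDiff (𝓘(ℝ, ℝ).prod 𝓘(ℝ, F)) 𝓘(ℝ, F) ∞ (fun q : ℝ × W => P q.1 q.2)
  zero : ∀ x, P 0 x = x
  add : ∀ s t x, P (s + t) x = P s (P t x)
  equiv : ∀ s t x, P s (φ t x) = φ t (P s x)
  height : ∀ s x, |h (P s x) - h x| ≤ C * |s|

variable (F) in
/-- An equivariant isotopy G of W with inverse G' that preserves m. -/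
structure Isotopy (φ : R2 → W → W) (m : W → ℂ) (G G' : ℝ → W → W) : Prop where
  smooth : ContMDiff (𝓘(ℝ, ℝ).prod 𝓘(ℝ, F)) 𝓘(ℝ, F) ∞ (fun q : ℝ × W => G q.1 q.2)
  smooth' : ContMDiff (𝓘(ℝ, ℝ).prod 𝓘(ℝ, F)) 𝓘(ℝ, F) ∞ (fun q : ℝ × W => G' q.1 q.2)
  left : ∀ τ x, G' τ (G τ x) = x
  right : ∀ τ x, G τ (G' τ x) = x
  zero : ∀ x, G 0 x = x
  pres : ∀ τ x, m (G τ x) = m x
  equiv : ∀ τ t x, G τ (φ t x) = φ t (G τ x)

section chart

variable {G : Type*} [NormedAddCommGroup G] [InnerProductSpace ℝ G]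

variable (F) in
/-- A smooth chart centred at p. -/
structure SChart (e : OpenPartialHomeomorph W G) (p : W) : Prop where
  mem : p ∈ e.source
  zero : e p = 0
  smooth : ∀ x ∈ e.source, ContMDiffAt 𝓘(ℝ, F) 𝓘(ℝ, G) ∞ e x
  smooth_symm : ∀ y ∈ e.target, ContMDiffAt 𝓘(ℝ, G) 𝓘(ℝ, F) ∞ e.symm y

variable (F) in
/-- A chart centred at p in which the action is linear and orthogonal with generators A ξ. -/
structure IsLin (ψ : R2 → W → W) (p : W) (e : OpenPartialHomeomorph W G)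
    (A : R2 →L[ℝ] G →L[ℝ] G) : Prop where
  chart : SChart F e p
  skew : ∀ ξ u v, ⟪A ξ u, v⟫ = -⟪u, A ξ v⟫
  comm : ∀ ξ η u, A ξ (A η u) = A η (A ξ u)
  gen : ∀ x ∈ e.source, ∀ ξ, dif F G e x (gen F ψ ξ x) = A ξ (e x)

/-- The form σ written in the chart e. -/
noncomputable def pull (σ : W → F →L[ℝ] F →L[ℝ] ℝ) (e : OpenPartialHomeomorph W G) (y : G) :
    G →L[ℝ] G →L[ℝ] ℝ :=
  (σ (e.symm y)).bilinearComp (dif G F e.symm y) (dif G F e.symm y)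

end chart

end Pool.Agent.P.MP_49bf82_gt
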