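import Pool.Agent.P.MP_49bf82_gt.Gen
import Pool.Agent.P.MP_49bf82_gt.Avg

open Manifold Set Filter Topology
open scoped ContDiff RealInnerProductSpace

namespace Pool.Agent.P.MP_49bf82_gt

open Pool.Agent.P.MP_e3ee0c_gt

variable {F : Type*} [NormedAddCommGroup F] [NormedSpace ℝ F] [FiniteDimensional ℝ F]
  {W : Type*} [TopologicalSpace W] [ChartedSpace F W] [IsManifold 𝓘(ℝ, F) ∞ W]

variable {ψ : R2 → W → W}

omit [FiniteDimensional ℝ F] in
theorem bocha_smooth (h : IsAction F ψ) (p : W) {t : R2} {z : F} (hz : z ∈ (chartAt F p).target)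
    (ht : ψ t ((chartAt F p).symm z) ∈ (chartAt F p).source) :
    ContDiffAt ℝ ∞ (fun q : R2 × F => chartAt F p (ψ q.1 ((chartAt F p).symm q.2))) (t, z) := by
  have h1 : ContMDiffAt 𝓘(ℝ, R2 × F) (𝓘(ℝ, R2).prod 𝓘(ℝ, F)) ∞
      (fun q : R2 × F => (q.1, (chartAt F p).symm q.2)) (t, z) :=
    contDiff_fst.contMDiff.contMDiffAt.prodMk
      (ContMDiffAt.comp (f := fun q : R2 × F => q.2) (t, z) (chart_symm_smooth p hz)
        contDiff_snd.contMDiff.contMDiffAt)
  have h2 : ContMDiffAt 𝓘(ℝ, R2 × F) 𝓘(ℝ, F) ∞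
      (fun q : R2 × F => ψ q.1 ((chartAt F p).symm q.2)) (t, z) :=
    ContMDiffAt.comp (f := fun q : R2 × F => (q.1, (chartAt F p).symm q.2)) (t, z)
      (h.smooth _) h1
  exact contMDiffAt_iff_contDiffAt.1
    (ContMDiffAt.comp (f := fun q : R2 × F => ψ q.1 ((chartAt F p).symm q.2)) (t, z)
      (chart_smooth p ht) h2)

omit [FiniteDimensional ℝ F] in
theorem bocha_smooth_self (h : IsAction F ψ) {p : W} (hp : ∀ t, ψ t p = p) (t : R2) :
    ContDiffAt ℝ ∞ (fun q : R2 × F => chartAt F p (ψ q.1 ((chartAt F p).symm q.2)))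
      (t, chartAt F p p) := by
  refine bocha_smooth h p (mem_chart_target F p) ?_
  rw [(chartAt F p).left_inv (mem_chart_source F p), hp]
  exact mem_chart_source F p

theorem bocha_fderiv (h : IsAction F ψ) {p : W} (hp : ∀ t, ψ t p = p) (t : R2) :
    fderiv ℝ (fun z => chartAt F p (ψ t ((chartAt F p).symm z))) (chartAt F p p)
      = dif F F (ψ t) p := by
  have e : (chartAt F p).symm (chartAt F p p) = p := (chartAt F p).left_inv (mem_chart_source F p)
  have d1 : MDifferentiableAt 𝓘(ℝ, F) 𝓘(ℝ, F) (chartAt F p).symm (chartAt F p p) :=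
    (chart_symm_smooth p (mem_chart_target F p)).mdifferentiableAt (by simp)
  have d2 : MDifferentiableAt 𝓘(ℝ, F) 𝓘(ℝ, F) (ψ t) ((chartAt F p).symm (chartAt F p p)) :=
    (h.smooth_at t _).mdifferentiableAt (by simp)
  have d3 : MDifferentiableAt 𝓘(ℝ, F) 𝓘(ℝ, F) (chartAt F p)
      (ψ t ((chartAt F p).symm (chartAt F p p))) := by
    rw [e, hp]
    exact (chart_smooth p (mem_chart_source F p)).mdifferentiableAt (by simp)
  rw [← dif_fderiv, dif_comp (f := fun z => ψ t ((chartAt F p).symm z)) d3 (d2.comp _ d1),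
    dif_comp d2 d1, e, hp, dif_chart_self]
  ext u
  simp [dif_chart_symm_self]

theorem bocha_all (h : IsAction F ψ) {S : Set W} {x : W}
    (hx : ∀ t ∈ Metric.closedBall (0 : R2) 1, ψ t x ∈ S) (t : R2) : ψ t x ∈ S := by
  have e : t = rv (fun i => ⌊t i⌋) + fun i => Int.fract (t i) := by
    funext i
    exact (Int.floor_add_fract (t i)).symm
  rw [e, h.rv_add]
  refine hx _ ?_
  rw [mem_closedBall_zero_iff, pi_norm_le_iff_of_nonneg zero_le_one]
  intro i
  rw [Real.norm_of_nonneg (Int.fract_nonneg _)]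
  exact (Int.fract_lt_one _).le

theorem bocha_open (h : IsAction F ψ) {S : Set W} (hS : IsOpen S) :
    IsOpen {x | ∀ t, ψ t x ∈ S} := by
  rw [isOpen_iff_mem_nhds]
  intro x hx
  have hc : Continuous fun z : W × R2 => ψ z.2 z.1 := h.smooth.continuous.comp continuous_swap
  have h1 := (isCompact_closedBall (0 : R2) 1).eventually_forall_of_forall_eventually (x₀ := x)
    (P := fun y t => ψ t y ∈ S) fun t _ => hc.continuousAt.preimage_mem_nhds (hS.mem_nhds (hx t))
  filter_upwards [h1] with y hy
  exact bocha_all h hy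

/-- The linearised action at a fixed point is smooth in the group. -/
theorem IsAction.dif_smooth (h : IsAction F ψ) {p : W} (hp : ∀ t, ψ t p = p) :
    ContDiff ℝ ∞ (fun t => dif F F (ψ t) p) := by
  simp only [← bocha_fderiv h hp]
  exact contDiff_iff_contDiffAt.2 fun t =>
    ContDiffAt.fderiv (f := fun (t : R2) z => chartAt F p (ψ t ((chartAt F p).symm z)))
      (bocha_smooth_self h hp t) contDiffAt_const (by simp)

/-- The averaged chart. -/
theorem IsAction.exists_psi (h : IsAction F ψ) {p : W} (hp : ∀ t, ψ t p = p) :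
    ∃ (Ψ : W → F) (U : Set W), IsOpen U ∧ p ∈ U ∧ Ψ p = 0 ∧
      (∀ x ∈ U, ContMDiffAt 𝓘(ℝ, F) 𝓘(ℝ, F) ∞ Ψ x) ∧ (∀ u, dif F F Ψ p u = u) ∧
      ∀ x ∈ U, ∀ t, Ψ (ψ t x) = dif F F (ψ t) p (Ψ x) := by
  have : CompleteSpace F := FiniteDimensional.complete ℝ F
  have hρ := h.dif_smooth hp
  have hadd : ∀ s t u, dif F F (ψ (s + t)) p u = dif F F (ψ s) p (dif F F (ψ t) p u) := by
    intro s t u
    rw [h.dif_add, hp]
  set g : R2 × F → F := fun q => dif F F (ψ (-q.1)) p
    (chartAt F p (ψ q.1 ((chartAt F p).symm q.2)) - chartAt F p p) with hg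
  have hgs : ∀ x ∈ (chartAt F p).source, ∀ t, ψ t x ∈ (chartAt F p).source →
      ContDiffAt ℝ ∞ g (t, chartAt F p x) := by
    intro x hx t ht
    refine ContDiffAt.clm_apply (hρ.comp contDiff_fst.neg).contDiffAt
      (ContDiffAt.sub (bocha_smooth h p ((chartAt F p).map_source hx) ?_) contDiffAt_const)
    rwa [(chartAt F p).left_inv hx]
  set Ψ : W → F := fun x => ∫ t in cube 2,
    dif F F (ψ (-t)) p (chartAt F p (ψ t x) - chartAt F p p) with hΨ
  have hev : ∀ x ∈ (chartAt F p).source,
      Ψ =ᶠ[𝓝 x] fun y => (fun z => ∫ t in cube 2, g (t, z)) (chartAt F p y) := by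
    intro x hx
    filter_upwards [(chartAt F p).open_source.mem_nhds hx] with y hy
    simp only [hΨ, hg, (chartAt F p).left_inv hy]
  have hpU : ∀ t, ψ t p ∈ (chartAt F p).source := fun t => by
    rw [hp]
    exact mem_chart_source F p
  refine ⟨Ψ, {x | ∀ t, ψ t x ∈ (chartAt F p).source}, bocha_open h (chartAt F p).open_source,
    hpU, by simp [hΨ, hp], fun x hx => ?_, fun u => ?_, fun x hx s => ?_⟩
  · have hx0 : x ∈ (chartAt F p).source := by simpa [h.zero] using hx 0
    refine ContMDiffAt.congr_of_eventuallyEq ?_ (hev x hx0)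
    exact ContMDiffAt.comp (g := fun z => ∫ t in cube 2, g (t, z)) x
      (avg_contDiffAt fun t _ => hgs x hx0 t (hx t)).contMDiffAt (chart_smooth p hx0)
  · have hp0 := mem_chart_source F p
    have h1 := avg_hasFDerivAt (g := g) (w₀ := chartAt F p p)
      fun t _ => (hgs p hp0 t (hpU t)).of_le (by simp)
    have h2 : ∀ t, (fderiv ℝ g (t, chartAt F p p)).comp (ContinuousLinearMap.inr ℝ R2 F)
        = ContinuousLinearMap.id ℝ F := by
      intro t
      have a1 : HasFDerivAt (fun w => g (t, w))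
          ((fderiv ℝ g (t, chartAt F p p)).comp (ContinuousLinearMap.inr ℝ R2 F))
          (chartAt F p p) :=
        ((hgs p hp0 t (hpU t)).differentiableAt (by simp)).hasFDerivAt.comp _
          (hasFDerivAt_prodMk_right t (chartAt F p p))
      have a2 : DifferentiableAt ℝ (fun z => chartAt F p (ψ t ((chartAt F p).symm z)))
          (chartAt F p p) :=
        ((bocha_smooth_self h hp t).differentiableAt (by simp)).comp _
          (hasFDerivAt_prodMk_right t (chartAt F p p)).differentiableAt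
      have a3 := a2.hasFDerivAt
      rw [bocha_fderiv h hp] at a3
      have a4 : HasFDerivAt (fun w => g (t, w)) ((dif F F (ψ (-t)) p).comp (dif F F (ψ t) p))
          (chartAt F p p) :=
        (dif F F (ψ (-t)) p).hasFDerivAt.comp _ (a3.sub_const (chartAt F p p))
      rw [a1.unique a4]
      ext v
      rw [ContinuousLinearMap.comp_apply, ← hadd, neg_add_cancel, h.dif_zero]
      rfl
    simp only [h2, avg_const] at h1
    rw [dif_congr (hev p hp0), dif_comp (g := fun z => ∫ t in cube 2, g (t, z))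
      h1.differentiableAt.mdifferentiableAt
      ((chart_smooth p hp0).mdifferentiableAt (by simp)), dif_fderiv, h1.fderiv, dif_chart_self]
    rfl
  · have hc : Continuous fun t => dif F F (ψ (-t)) p (chartAt F p (ψ t x) - chartAt F p p) := by
      refine (hρ.continuous.comp continuous_neg).clm_apply (Continuous.sub ?_ continuous_const)
      exact (chartAt F p).continuousOn.comp_continuous (h.smooth_orbit x).continuous hx
    have hper : ∀ (m : Fin 2 → ℤ) (t : R2),
        dif F F (ψ (-(rv m + t))) p (chartAt F p (ψ (rv m + t) x) - chartAt F p p)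
          = dif F F (ψ (-t)) p (chartAt F p (ψ t x) - chartAt F p p) := by
      intro m t
      have e : -(rv m + t) = rv (-m) + -t := by
        funext i
        simp [rv, add_comm]
      rw [e, h.rv_add, h.rv_add]
    have h1 := avg_translate
      (f := fun t => dif F F (ψ (-t)) p (chartAt F p (ψ t x) - chartAt F p p)) hper s
    have hc' : Continuous fun t =>
        dif F F (ψ (-(s + t))) p (chartAt F p (ψ (s + t) x) - chartAt F p p) :=
      hc.comp (continuous_const_add s)
    simp only [hΨ]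
    rw [← h1, ← ContinuousLinearMap.integral_comp_comm _ (integrableOn_cube hc')]
    refine MeasureTheory.integral_congr_ae (Eventually.of_forall fun t => ?_)
    have e : s + -(s + t) = -t := by abel
    simp only
    rw [← hadd, ← h.add, add_comm t s, e]

end Pool.Agent.P.MP_49bf82_gt
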