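import Pool.Agent.P.MP_49bf82_gt.Base

open Manifold Set Filter Topology
open scoped ContDiff RealInnerProductSpace

namespace Pool.Agent.P.MP_49bf82_gt

open Pool.Agent.P.MP_e3ee0c_gt

variable {F : Type*} [NormedAddCommGroup F] [NormedSpace ℝ F] [FiniteDimensional ℝ F]

theorem invip_form (B : LinearMap.BilinForm ℝ F) (hs : ∀ u v, B u v = B v u)
    (hp : ∀ u, u ≠ 0 → 0 < B u u) :
    ∃ (n : ℕ) (L : F ≃L[ℝ] EuclideanSpace ℝ (Fin n)), ∀ u v, ⟪L u, L v⟫ = B u v := by
  obtain ⟨b, hb⟩ := LinearMap.BilinForm.exists_orthogonal_basis (B := B) ⟨fun u v => hs u v⟩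
  have hb' : ∀ i j, i ≠ j → B (b i) (b j) = 0 := fun i j h => hb h
  have hq : ∀ i, 0 < √(B (b i) (b i)) := fun i => Real.sqrt_pos.2 (hp _ (b.ne_zero i))
  have hu : ∀ i, IsUnit (√(B (b i) (b i)))⁻¹ := fun i => (inv_pos.2 (hq i)).ne'.isUnit
  have hc : ∀ i j, B (b.isUnitSMul hu i) (b.isUnitSMul hu j) = if i = j then 1 else 0 := by
    intro i j
    rw [Module.Basis.isUnitSMul_apply, Module.Basis.isUnitSMul_apply, map_smul, map_smul,
      LinearMap.smul_apply, smul_eq_mul, smul_eq_mul]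
    split_ifs with h
    · subst h
      have h1 := Real.mul_self_sqrt (hp _ (b.ne_zero i)).le
      have h2 := (hq i).ne'
      generalize √(B (b i) (b i)) = q at h1 h2
      rw [← h1]
      field_simp
    · rw [hb' i j h, mul_zero, mul_zero]
  generalize b.isUnitSMul hu = c at hc
  refine ⟨_, (c.equivFun.trans (WithLp.linearEquiv 2 ℝ _).symm).toContinuousLinearEquiv,
    fun u v => ?_⟩
  conv_rhs => rw [← c.sum_repr u, ← c.sum_repr v]
  simp only [map_sum, map_smul, LinearMap.sum_apply, LinearMap.smul_apply, hc, smul_eq_mul,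
    mul_ite, mul_one, mul_zero, Finset.sum_ite_eq', Finset.mem_univ, if_true]
  rw [PiLp.inner_apply]
  refine Finset.sum_congr rfl fun i _ => ?_
  simp

/-- A continuous representation of the torus is orthogonal in suitable coordinates. -/
theorem exists_orth {ρ : R2 → F →L[ℝ] F} (hc : Continuous ρ) (h0 : ∀ u, ρ 0 u = u)
    (hadd : ∀ s t u, ρ (s + t) u = ρ s (ρ t u)) (hper : ∀ (k : Fin 2 → ℤ) u, ρ (rv k) u = u) :
    ∃ (n : ℕ) (L : F ≃L[ℝ] EuclideanSpace ℝ (Fin n)),
      ∀ t u v, ⟪L (ρ t u), L (ρ t v)⟫ = ⟪L u, L v⟫ := by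
  let L0 := toEuclidean (E := F)
  have c1 : ∀ u v, Continuous fun t => ⟪L0 (ρ t u), L0 (ρ t v)⟫ := fun u v =>
    (L0.continuous.comp (hc.clm_apply continuous_const)).inner
      (L0.continuous.comp (hc.clm_apply continuous_const))
  let B : LinearMap.BilinForm ℝ F := LinearMap.mk₂ ℝ
    (fun u v => ∫ t in cube 2, ⟪L0 (ρ t u), L0 (ρ t v)⟫)
    (fun u u' v => by
      simp only [map_add, inner_add_left]
      exact MeasureTheory.integral_add (integrableOn_cube (c1 u v)) (integrableOn_cube (c1 u' v)))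
    (fun a u v => by
      simp only [map_smul, real_inner_smul_left, smul_eq_mul]
      exact MeasureTheory.integral_const_mul _ _)
    (fun u v v' => by
      simp only [map_add, inner_add_right]
      exact MeasureTheory.integral_add (integrableOn_cube (c1 u v)) (integrableOn_cube (c1 u v')))
    (fun a u v => by
      simp only [map_smul, real_inner_smul_right, smul_eq_mul]
      exact MeasureTheory.integral_const_mul _ _)
  have hB : ∀ u v, B u v = ∫ t in cube 2, ⟪L0 (ρ t u), L0 (ρ t v)⟫ := fun u v => rfl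
  obtain ⟨n, L, hL⟩ := invip_form B (fun u v => by
    rw [hB, hB]
    simp only [real_inner_comm]) fun u hu => by
    rw [hB]
    refine lt_of_le_of_ne (MeasureTheory.integral_nonneg fun t => real_inner_self_nonneg)
      (avg_ne_zero (c1 u u) fun t h => hu ?_).symm
    have h1 : ρ t u = 0 := by simpa using h
    have h2 := hadd (-t) t u
    rwa [neg_add_cancel, h0, h1, map_zero] at h2
  refine ⟨n, L, fun s u v => ?_⟩
  rw [hL, hL, hB, hB, ← avg_translate (f := fun t => ⟪L0 (ρ t u), L0 (ρ t v)⟫)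
    (fun m t => by simp only [hadd, hper]) s]
  simp only [← hadd, add_comm s]

/-- The generators of a differentiable orthogonal representation are skew and commute. -/
theorem gen_orth {G : Type*} [NormedAddCommGroup G] [InnerProductSpace ℝ G]
    {ρ : R2 → G →L[ℝ] G} {A : R2 →L[ℝ] G →L[ℝ] G} (hd : HasFDerivAt ρ A 0) (h0 : ∀ u, ρ 0 u = u)
    (hadd : ∀ s t u, ρ (s + t) u = ρ s (ρ t u)) (ho : ∀ t u v, ⟪ρ t u, ρ t v⟫ = ⟪u, v⟫) :
    (∀ ξ u v, ⟪A ξ u, v⟫ = -⟪u, A ξ v⟫) ∧ ∀ ξ η u, A ξ (A η u) = A η (A ξ u) := by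
  have d1 : ∀ w, HasFDerivAt (fun s => ρ s w) ((ContinuousLinearMap.apply ℝ G w).comp A) 0 :=
    fun w => (ContinuousLinearMap.apply ℝ G w).hasFDerivAt.comp 0 hd
  constructor
  · intro ξ u v
    have h1 := (d1 u).inner ℝ (d1 v)
    simp only [ho] at h1
    have h2 := congrArg (fun T => T ξ) (h1.unique (hasFDerivAt_const _ _))
    simp only [ContinuousLinearMap.comp_apply, ContinuousLinearMap.prod_apply, fderivInnerCLM_apply,
      ContinuousLinearMap.apply_apply, h0, zero_apply] at h2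
    linarith
  · have h3 : ∀ t ξ u, A ξ (ρ t u) = ρ t (A ξ u) := fun t ξ u => by
      have h1 := (ρ t).hasFDerivAt.comp 0 (d1 u)
      have h2 : (ρ t ∘ fun s => ρ s u) = fun s => ρ s (ρ t u) := by
        funext s
        show ρ t (ρ s u) = _
        rw [← hadd, ← hadd, add_comm]
      rw [h2] at h1
      exact congrArg (fun T => T ξ) ((d1 (ρ t u)).unique h1)
    intro ξ η u
    have h1 := (A ξ).hasFDerivAt.comp 0 (d1 u)
    have h2 : (A ξ ∘ fun s => ρ s u) = fun s => ρ s (A ξ u) := funext fun s => h3 s ξ u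
    rw [h2] at h1
    exact congrArg (fun T => T η) (h1.unique (d1 (A ξ u)))

end Pool.Agent.P.MP_49bf82_gt
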