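import Pool.Agent.P.MP_49bf82_gt.BochA
import Pool.Agent.P.MP_49bf82_gt.InvIP

open Manifold Set Filter Topology
open scoped ContDiff RealInnerProductSpace

namespace Pool.Agent.P.MP_49bf82_gt

open Pool.Agent.P.MP_e3ee0c_gt

variable {F : Type*} [NormedAddCommGroup F] [NormedSpace ℝ F] [FiniteDimensional ℝ F]
  {W : Type*} [TopologicalSpace W] [ChartedSpace F W] [IsManifold 𝓘(ℝ, F) ∞ W]

variable {ψ : R2 → W → W}

/-- Inverse function theorem. -/
theorem exists_schart {G : Type*} [NormedAddCommGroup G] [InnerProductSpace ℝ G]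
    [FiniteDimensional ℝ G] {Ψ : W → G} {U : Set W} {p : W} (hU : IsOpen U) (hp : p ∈ U)
    (h0 : Ψ p = 0) (hs : ∀ x ∈ U, ContMDiffAt 𝓘(ℝ, F) 𝓘(ℝ, G) ∞ Ψ x) (L : F ≃L[ℝ] G)
    (hL : ∀ u, dif F G Ψ p u = L u) :
    ∃ e : OpenPartialHomeomorph W G, SChart F e p ∧ e.source ⊆ U ∧ EqOn e Ψ e.source := by
  have : CompleteSpace F := FiniteDimensional.complete ℝ F
  let c := chartAt F p
  let f : F → G := fun z => Ψ (c.symm z)
  let O : Set F := c.target ∩ c.symm ⁻¹' U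
  have hO : IsOpen O := c.isOpen_inter_preimage_symm hU
  have hpc : p ∈ c.source := mem_chart_source F p
  have hpO : c p ∈ O := ⟨c.map_source hpc, by
    show c.symm (c p) ∈ U
    rwa [c.left_inv hpc]⟩
  have hf : ∀ z ∈ O, ContDiffAt ℝ ∞ f z := fun z hz =>
    contMDiffAt_iff_contDiffAt.1 ((hs _ hz.2).comp z (chart_symm_smooth p hz.1))
  have hfO : ContDiffOn ℝ ∞ f O := fun z hz => (hf z hz).contDiffWithinAt
  have hd : fderiv ℝ f (c p) = (L : F →L[ℝ] G) := by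
    rw [← dif_fderiv]
    have h1 : MDifferentiableAt 𝓘(ℝ, F) 𝓘(ℝ, G) Ψ (c.symm (c p)) :=
      (hs _ hpO.2).mdifferentiableAt (by simp)
    have h2 : MDifferentiableAt 𝓘(ℝ, F) 𝓘(ℝ, F) c.symm (c p) :=
      (chart_symm_smooth p hpO.1).mdifferentiableAt (by simp)
    ext u
    rw [show dif F G f (c p) = _ from dif_comp h1 h2, ContinuousLinearMap.comp_apply,
      dif_chart_symm_self, c.left_inv hpc, hL]
    rfl
  let O' : Set F := O ∩ fderiv ℝ f ⁻¹' range ((↑) : (F ≃L[ℝ] G) → F →L[ℝ] G)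
  have hO' : IsOpen O' := (hfO.continuousOn_fderiv_of_isOpen hO (by simp)).isOpen_inter_preimage hO
    ContinuousLinearEquiv.isOpen
  have hf' : HasFDerivAt f (L : F →L[ℝ] G) (c p) :=
    hd ▸ ((hf _ hpO).differentiableAt (by simp)).hasFDerivAt
  let e0 := (hf _ hpO).toOpenPartialHomeomorph f hf' (by simp)
  let e1 := e0.restrOpen O' hO'
  have he1 : (e1 : F → G) = f := rfl
  have hs1 : e1.source ⊆ O' := fun z hz => hz.2
  have hp1 : c p ∈ e1.source :=
    ⟨(hf _ hpO).mem_toOpenPartialHomeomorph_source hf' (by simp), hpO, ⟨L, hd.symm⟩⟩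
  have hsrc : ∀ x ∈ (c.trans e1).source, x ∈ c.source ∧ c x ∈ e1.source := fun x hx => hx
  have hsub : (c.trans e1).source ⊆ U := fun x hx => by
    have h1 : c.symm (c x) ∈ U := (hs1 (hsrc x hx).2).1.2
    rwa [c.left_inv (hsrc x hx).1] at h1
  have heq : EqOn (c.trans e1) Ψ (c.trans e1).source := fun x hx => by
    show Ψ (c.symm (c x)) = Ψ x
    rw [c.left_inv (hsrc x hx).1]
  refine ⟨c.trans e1, ⟨⟨hpc, hp1⟩, ?_, fun x hx => ?_, fun y hy => ?_⟩, hsub, heq⟩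
  · rw [heq ⟨hpc, hp1⟩, h0]
  · exact (hs x (hsub hx)).congr_of_eventuallyEq
      (heq.eventuallyEq_of_mem ((c.trans e1).open_source.mem_nhds hx))
  · have hy1 : y ∈ e1.target := hy.1
    have hz : e1.symm y ∈ O' := hs1 (e1.map_target hy1)
    obtain ⟨L', hL'⟩ := hz.2
    have h1 : HasFDerivAt e1 (L' : F →L[ℝ] G) (e1.symm y) := by
      rw [he1, hL']; exact ((hf _ hz.1).differentiableAt (by simp)).hasFDerivAt
    have h2 : ContDiffAt ℝ ∞ e1.symm y := e1.contDiffAt_symm hy1 h1 (hf _ hz.1)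
    exact (chart_symm_smooth p hz.1.1).comp y (contMDiffAt_iff_contDiffAt.2 h2)

/-- Bochner linearisation. -/
theorem IsAction.bochner (h : IsAction F ψ) {p : W} (hp : ∀ t, ψ t p = p) :
    ∃ (n : ℕ) (e : OpenPartialHomeomorph W (EuclideanSpace ℝ (Fin n)))
      (A : R2 →L[ℝ] EuclideanSpace ℝ (Fin n) →L[ℝ] EuclideanSpace ℝ (Fin n)), IsLin F ψ p e A := by
  obtain ⟨Ψ, U, hU, hpU, h0, hs, hd, heq⟩ := h.exists_psi hp
  let ρ : R2 → F →L[ℝ] F := fun t => dif F F (ψ t) p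
  have hρ : ContDiff ℝ ∞ ρ := h.dif_smooth hp
  have hρ0 : ∀ u, ρ 0 u = u := h.dif_zero p
  have hρa : ∀ s t u, ρ (s + t) u = ρ s (ρ t u) := fun s t u => by
    have := h.dif_add s t p u
    rwa [hp] at this
  obtain ⟨n, L, hL⟩ := exists_orth hρ.continuous hρ0 hρa (fun k u => by
    have e : ψ (rv k) = ψ 0 := by simpa using h.rv_add k 0
    show dif F F (ψ (rv k)) p u = u
    rw [e]; exact hρ0 u)
  let ρ' : R2 → EuclideanSpace ℝ (Fin n) →L[ℝ] EuclideanSpace ℝ (Fin n) := fun t =>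
    (L : F →L[ℝ] _).comp ((ρ t).comp (L.symm : _ →L[ℝ] F))
  have hρ' : ContDiff ℝ ∞ ρ' := contDiff_const.clm_comp (hρ.clm_comp contDiff_const)
  have hA : HasFDerivAt ρ' (fderiv ℝ ρ' 0) 0 := (hρ'.differentiable (by simp) 0).hasFDerivAt
  obtain ⟨hskew, hcomm⟩ := gen_orth hA (fun u => by simp [ρ', hρ0])
    (fun s t u => by simp [ρ', hρa]) (fun t u v => by simp [ρ', hL])
  have hLs : ContMDiff 𝓘(ℝ, F) 𝓘(ℝ, EuclideanSpace ℝ (Fin n)) ∞ L :=
    (L : F →L[ℝ] EuclideanSpace ℝ (Fin n)).contMDiff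
  obtain ⟨e, he, heU, heΨ⟩ := exists_schart (F := F) (Ψ := fun x => L (Ψ x)) hU hpU
    (by simp [h0]) (fun x hx => (hLs _).comp x (hs x hx)) L (fun u => by
      rw [dif_comp ((hLs _).mdifferentiableAt (by simp)) ((hs p hpU).mdifferentiableAt (by simp)),
        ContinuousLinearMap.comp_apply, hd, dif_fderiv, L.fderiv]
      rfl)
  refine ⟨n, e, fderiv ℝ ρ' 0, he, hskew, hcomm, fun x hx ξ => ?_⟩
  have ho := h.smooth_orbit x
  have hev : (fun t => e (ψ t x)) =ᶠ[𝓝 0] fun t => ρ' t (e x) := by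
    have h1 : ∀ᶠ t in 𝓝 (0 : R2), ψ t x ∈ e.source :=
      ho.continuous.continuousAt.eventually_mem (by
        rw [h.zero]; exact e.open_source.mem_nhds hx)
    filter_upwards [h1] with t ht
    rw [heΨ ht, heΨ hx]
    simp [ρ', ρ, heq x (heU hx) t]
  have h1 : MDifferentiableAt 𝓘(ℝ, F) 𝓘(ℝ, EuclideanSpace ℝ (Fin n)) e (ψ 0 x) := by
    rw [h.zero]; exact (he.smooth x hx).mdifferentiableAt (by simp)
  have h2 := dif_comp (f := fun t => ψ t x) (x := 0) h1 ((ho 0).mdifferentiableAt (by simp))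
  rw [dif_congr hev, dif_fderiv, (hA.clm_apply (hasFDerivAt_const (e x) 0)).fderiv, h.zero] at h2
  have h3 := congrArg (fun M : R2 →L[ℝ] EuclideanSpace ℝ (Fin n) => M ξ) h2
  simp only [ContinuousLinearMap.comp_zero, zero_add, ContinuousLinearMap.flip_apply,
    ContinuousLinearMap.comp_apply] at h3
  exact h3.symm

end Pool.Agent.P.MP_49bf82_gt
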