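import Pool.Agent.P.MP_49bf82_gt.Base

open Manifold Set Filter Topology
open scoped ContDiff RealInnerProductSpace

namespace Pool.Agent.P.MP_49bf82_gt

open Pool.Agent.P.MP_e3ee0c_gt

variable {E F : Type*} [NormedAddCommGroup E] [NormedSpace ℝ E] [FiniteDimensional ℝ E]
  [NormedAddCommGroup F] [NormedSpace ℝ F] [FiniteDimensional ℝ F]
  {V W : Type*} [TopologicalSpace V] [ChartedSpace E V] [IsManifold 𝓘(ℝ, E) ∞ V]
  [TopologicalSpace W] [ChartedSpace F W] [IsManifold 𝓘(ℝ, F) ∞ W]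
  {Φ : V → ℂ} {ι : ℝ × V × R2 → W} {φ : R2 → W → W} {m : W → ℂ} {h : W → ℝ}
  {f : ℝ → V → V} {a : ℝ × V → ℝ} {σ : W → F →L[ℝ] F →L[ℝ] ℝ}

theorem cocycle_norm (x t : ℝ) (z : ℂ) :
    ‖Complex.exp (x + 2 * Real.pi * t * Complex.I) * z‖ = Real.exp x * ‖z‖ := by
  rw [norm_mul, Complex.norm_exp]
  simp

theorem cocycle_half (x : ℝ) :
    Complex.exp (x + 2 * Real.pi * ((1 / 2 : ℝ) : ℂ) * Complex.I) = -(Real.exp x : ℂ) := by
  have e : (2 * Real.pi * ((1 / 2 : ℝ) : ℂ) * Complex.I : ℂ) = Real.pi * Complex.I := by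
    push_cast; ring
  rw [e, Complex.exp_add, Complex.exp_pi_mul_I, Complex.ofReal_exp]
  ring

theorem cocycle_quarter (x : ℝ) :
    Complex.exp (x + 2 * Real.pi * ((1 / 4 : ℝ) : ℂ) * Complex.I) =
      (Real.exp x : ℂ) * Complex.I := by
  have e : (2 * Real.pi * ((1 / 4 : ℝ) : ℂ) * Complex.I : ℂ) = Real.pi / 2 * Complex.I := by
    push_cast; ring
  rw [e, Complex.exp_add, Complex.exp_pi_div_two_mul_I, Complex.ofReal_exp]

theorem IsMonodromyFlow.exists_turn (hf : IsMonodromyFlow E Φ f) (hd : Dense {v | Φ v ≠ 0}) :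
    ∃ a, Turn E Φ f a := by
  obtain ⟨a, ha, ht⟩ := hf.turn
  have hn : ∀ t v, ‖Φ (f t v)‖ = Real.exp (a (t, v)) * ‖Φ v‖ := fun t v => by
    rw [ht, cocycle_norm]
  have hac : Continuous a := ha.continuous
  have hfc : Continuous fun q : ℝ × V => f q.1 q.2 := hf.smooth.continuous
  have hco : ∀ s t v, a (s + t, v) = a (s, f t v) + a (t, v) := fun s t => by
    have h1 : Continuous fun v => a (s + t, v) := hac.comp (continuous_const.prodMk continuous_id)
    have h2 : Continuous fun v => a (s, f t v) + a (t, v) :=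
      (hac.comp (continuous_const.prodMk (hfc.comp (continuous_const.prodMk continuous_id)))).add
        (hac.comp (continuous_const.prodMk continuous_id))
    refine congrFun (Continuous.ext_on hd h1 h2 fun v hv => ?_)
    have h3 := hn (s + t) v
    rw [hf.add, hn, hn, ← mul_assoc, ← Real.exp_add] at h3
    exact (Real.exp_injective (mul_right_cancel₀ (norm_ne_zero_iff.2 hv) h3)).symm
  have hz : ∀ v, a (0, v) = 0 := fun v => by
    have := hco 0 0 v
    rw [add_zero, hf.zero] at this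
    linarith
  have hnear : ∀ᶠ v in 𝓝ˢ {v | Φ v = 0}, f 1 v = v ∧ a (1, v) = 0 := by
    obtain ⟨O, hO, h1, h2⟩ := mem_nhdsSet_iff_exists.1 hf.near
    refine mem_nhdsSet_iff_exists.2 ⟨O, hO, h1, fun v hv => ⟨h2 hv, ?_⟩⟩
    have hc : IsClosed {w | a (1, w) = 0} :=
      isClosed_eq (hac.comp (continuous_const.prodMk continuous_id)) continuous_const
    refine closure_minimal (fun w hw => ?_) hc (hd.open_subset_closure_inter hO hv)
    have h3 := hn 1 w
    have h4 : f 1 w = w := h2 hw.1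
    rw [h4] at h3
    have h5 : Real.exp (a (1, w)) = Real.exp 0 :=
      mul_right_cancel₀ (norm_ne_zero_iff.2 hw.2) (by rw [Real.exp_zero, one_mul]; exact h3.symm)
    exact Real.exp_injective h5
  refine ⟨a, hf, ha, ht, hco, hz, fun t v hv => ?_, hnear⟩
  let g : ℝ →+ ℝ :=
    { toFun := fun t => a (t, v)
      map_zero' := hz v
      map_add' := fun s t => by rw [hco, hf.fix t v hv] }
  have hg : Continuous g := hac.comp (continuous_id.prodMk continuous_const)
  have h1 : g 1 = 0 := (hnear.self_of_nhdsSet v hv).2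
  have h2 := map_real_smul g hg t 1
  rw [h1, smul_zero, smul_eq_mul, mul_one] at h2
  exact h2

theorem IsMonodromyFlow.exists_neg [Nonempty V] (hf : IsMonodromyFlow E Φ f)
    (hd : Dense {v | Φ v ≠ 0}) : ∃ v, pr theta (Φ v) < 0 := by
  obtain ⟨a, -, ht⟩ := hf.turn
  have key : ∀ v, pr theta (Φ v) ≠ 0 → ∃ w, pr theta (Φ w) < 0 := fun v hv => by
    rcases lt_or_gt_of_ne hv with h | h
    · exact ⟨v, h⟩
    · refine ⟨f (1 / 2) v, ?_⟩
      rw [ht, cocycle_half, neg_mul, map_neg, ← Complex.real_smul, map_smul, smul_eq_mul]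
      have := Real.exp_pos (a (1 / 2, v))
      nlinarith
  obtain ⟨v, hv⟩ := hd.nonempty
  by_cases h : pr theta (Φ v) = 0
  · refine key (f (1 / 4) v) fun h1 => hv ?_
    rw [ht, cocycle_quarter, mul_assoc, ← Complex.real_smul, map_smul, smul_eq_mul,
      mul_eq_zero] at h1
    have h2 := h1.resolve_left (Real.exp_pos _).ne'
    rw [pr_apply] at h h2
    simp only [theta, Matrix.cons_val_zero, Matrix.cons_val_one, one_mul, Complex.mul_re,
      Complex.mul_im, Complex.I_re, Complex.I_im, zero_mul, zero_sub, zero_add] at h h2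
    have h3 : √2 * √2 = 2 := Real.mul_self_sqrt (by norm_num)
    have h4 : (Φ v).re = √2 * (Φ v).im := by linarith
    have h5 : (Φ v).im = 0 := by
      rw [h4, ← mul_assoc, h3] at h2
      linarith
    exact Complex.ext (by rw [h4, h5, mul_zero]; rfl) h5
  · exact key v h

theorem Turn.ft_zero (ht : Turn E Φ f a) (y : ℝ × V × R2) : ft f a 0 y = y := by
  simp only [ft, ht.zero, ht.flow.zero, sub_zero]

theorem Turn.ft_add (ht : Turn E Φ f a) (s t : ℝ) (y : ℝ × V × R2) :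
    ft f a (s + t) y = ft f a s (ft f a t y) := by
  simp only [ft, ht.cocycle, ht.flow.add]
  congr 1
  ring

theorem Turn.ft_smooth (ht : Turn E Φ f a) :
    ContMDiff (𝓘(ℝ, ℝ).prod (I3 E)) (I3 E) ∞ (fun q : ℝ × ℝ × V × R2 => ft f a q.1 q.2) := by
  have h1 : ContMDiff (𝓘(ℝ, ℝ).prod (I3 E)) (𝓘(ℝ, ℝ).prod 𝓘(ℝ, E)) ∞
      (fun q : ℝ × ℝ × V × R2 => (q.1, q.2.2.1)) :=
    contMDiff_fst.prodMk (contMDiff_fst.comp (contMDiff_snd.comp contMDiff_snd))
  exact ((contMDiff_fst.comp contMDiff_snd).sub (ht.smooth.comp h1)).prodMk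
    ((ht.flow.smooth.comp h1).prodMk (contMDiff_snd.comp (contMDiff_snd.comp contMDiff_snd)))

theorem Turn.ft_exp (ht : Turn E Φ f a) (t : ℝ) (y : ℝ × V × R2) :
    (Real.exp (ft f a t y).1 : ℂ) * Φ (ft f a t y).2.1 =
      Complex.exp (2 * Real.pi * Complex.I * t) * (Real.exp y.1 * Φ y.2.1) := by
  simp only [ft, ht.turn]
  rw [Complex.ofReal_exp, Complex.ofReal_exp, ← mul_assoc, ← mul_assoc, ← Complex.exp_add,
    ← Complex.exp_add]
  congr 2
  push_cast
  ring

/-- Where Φ is small the monodromy is the identity. -/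
theorem Turn.exists_delta [CompactSpace V] (ht : Turn E Φ f a) (hΦ : Continuous Φ) :
    ∃ δ > 0, ∀ v, ‖Φ v‖ < δ → f 1 v = v ∧ a (1, v) = 0 := by
  obtain ⟨O, hO, h1, h2⟩ := mem_nhdsSet_iff_exists.1 ht.near
  rcases (Oᶜ).eq_empty_or_nonempty with h | h
  · refine ⟨1, one_pos, fun v _ => h2 ?_⟩
    by_contra hv
    exact (notMem_empty v) (h ▸ hv)
  · obtain ⟨w, hw, hmin⟩ := hO.isClosed_compl.isCompact.exists_isMinOn h hΦ.norm.continuousOn
    refine ⟨‖Φ w‖, norm_pos_iff.2 fun h0 => hw (h1 h0), fun v hv => h2 ?_⟩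
    by_contra hvO
    exact absurd (hmin hvO) (not_le.2 hv)

end Pool.Agent.P.MP_49bf82_gt
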