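import Pool.Agent.P.MP_49bf82_gt.Gen

open Manifold Set Filter Topology
open scoped ContDiff RealInnerProductSpace

namespace Pool.Agent.P.MP_49bf82_gt

open Pool.Agent.P.MP_e3ee0c_gt

variable {F : Type*} [NormedAddCommGroup F] [NormedSpace ℝ F] [FiniteDimensional ℝ F]
  {W : Type*} [TopologicalSpace W] [ChartedSpace F W] [IsManifold 𝓘(ℝ, F) ∞ W]

variable {φ : R2 → W → W}

omit [FiniteDimensional ℝ F] [IsManifold 𝓘(ℝ, F) ∞ W] in
theorem fix_all [T2Space W] (h : IsAction F φ) {ξ : R2} (h0 : ξ 0 ≠ 0)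
    (hi : Irrational (ξ 1 / ξ 0)) {x : W} (hx : ∀ s : ℝ, φ (s • ξ) x = x) (t : R2) :
    φ t x = x := by
  let S : AddSubgroup ℝ :=
    { carrier := {b | φ ![0, b] x = x}
      add_mem' := fun {a b} ha hb => by
        have e : (![0, a + b] : R2) = ![0, a] + ![0, b] := by simp
        change φ ![0, a + b] x = x
        rw [e, h.add, hb, ha]
      zero_mem' := by
        have e : (![0, 0] : R2) = 0 := by simp
        change φ ![0, 0] x = x
        rw [e, h.zero]
      neg_mem' := fun {a} ha => by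
        have e : (![0, -a] : R2) + ![0, a] = 0 := by simp
        change φ ![0, -a] x = x
        have := h.add ![0, -a] ![0, a] x
        rwa [e, h.zero, ha, eq_comm] at this }
  have hc : IsClosed (S : Set ℝ) := by
    refine isClosed_eq (h.smooth.continuous.comp (f := fun b : ℝ => ((![0, b] : R2), x)) ?_)
      continuous_const
    fun_prop
  have h1 : AddSubgroup.closure {ξ 1 / ξ 0, 1} ≤ S := by
    rw [AddSubgroup.closure_le]
    rintro b (rfl | rfl)
    · have e : (![0, ξ 1 / ξ 0] : R2) = (fun i => (((![-1, 0] : Fin 2 → ℤ) i : ℤ) : ℝ)) +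
          (ξ 0)⁻¹ • ξ := by
        ext i
        fin_cases i
        · simp [h0]
        · simp [div_eq_inv_mul]
      change φ ![0, ξ 1 / ξ 0] x = x
      rw [e, h.add, hx, h.periodic]
    · have e : (![0, 1] : R2) = fun i => (((![0, 1] : Fin 2 → ℤ) i : ℤ) : ℝ) := by
        ext i
        fin_cases i <;> simp
      change φ ![0, 1] x = x
      rw [e, h.periodic]
  have h2 : Dense (S : Set ℝ) :=
    (dense_addSubgroupClosure_pair_iff.2 (by rwa [div_one])).mono h1
  have h3 : ∀ b, φ ![0, b] x = x := fun b => hc.closure_subset (h2 b)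
  have e : t = ![0, t 1 - t 0 / ξ 0 * ξ 1] + (t 0 / ξ 0) • ξ := by
    ext i
    fin_cases i
    · simp [h0]
    · simp
  rw [e, h.add, hx, h3]

/-- A point fixed by a line is fixed by a circle subgroup. -/
theorem IsAction.fix_circle [T2Space W] (h : IsAction F φ) {ξ : R2} (hξ : ξ ≠ 0) {x : W}
    (hx : ∀ s : ℝ, φ (s • ξ) x = x) :
    ∃ k : Fin 2 → ℤ, rv k ≠ 0 ∧ ∀ s : ℝ, φ (s • rv k) x = x := by
  have n01 : rv ![0, 1] ≠ 0 := fun e => by simpa [rv] using congrFun e 1
  by_cases h0 : ξ 0 = 0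
  · have h1 : ξ 1 ≠ 0 := fun h1 => hξ (by
      ext i
      fin_cases i
      · exact h0
      · exact h1)
    refine ⟨![0, 1], n01, fun s => ?_⟩
    have e : s • rv ![0, 1] = (s / ξ 1) • ξ := by
      ext i
      fin_cases i
      · simp [rv, h0]
      · simp [rv, h1]
    rw [e, hx]
  by_cases hi : Irrational (ξ 1 / ξ 0)
  · exact ⟨![0, 1], n01, fun s => fix_all h h0 hi hx _⟩
  obtain ⟨q, hq⟩ := not_not.1 hi
  have hd : (q.den : ℝ) ≠ 0 := by exact_mod_cast q.den_nz
  refine ⟨![q.den, q.num], fun e => hd (by simpa [rv] using congrFun e 0), fun s => ?_⟩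
  have e : s • rv ![q.den, q.num] = (s * q.den / ξ 0) • ξ := by
    ext i
    fin_cases i
    · simp [rv, h0]
    · rw [Rat.cast_def, div_eq_div_iff hd h0] at hq
      simp only [rv, Pi.smul_apply, smul_eq_mul]
      change s * (q.num : ℝ) = s * q.den / ξ 0 * ξ 1
      field_simp
      linear_combination s * hq
  rw [e, hx]

/-- A point fixed by an irrational line is fixed by the torus. -/
theorem IsAction.fix_theta [T2Space W] (h : IsAction F φ) {x : W}
    (hx : ∀ s : ℝ, φ (s • theta) x = x) (t : R2) : φ t x = x :=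
  fix_all h (ξ := theta) (by simp [theta]) (by simpa [theta] using irrational_sqrt_two) hx t

/-- A function with zero differential on a connected open set is constant there. -/
theorem const_of_mfderiv {E₀ H₀ N G : Type*} [NormedAddCommGroup E₀] [NormedSpace ℝ E₀]
    [TopologicalSpace H₀] {J : ModelWithCorners ℝ E₀ H₀} [J.Boundaryless] [TopologicalSpace N]
    [ChartedSpace H₀ N] [IsManifold J ∞ N] [NormedAddCommGroup G] [NormedSpace ℝ G] {g : N → G}
    {U : Set N} (hU : IsOpen U) (hc : IsPreconnected U)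
    (hg : ∀ x ∈ U, HasMFDerivAt J 𝓘(ℝ, G) g x 0) {x y : N} (hx : x ∈ U) (hy : y ∈ U) :
    g x = g y := by
  refine hc.induction₂' (fun a b => g a = g b) (fun p hp => ?_) (fun _ _ _ _ _ _ => Eq.trans)
    hx hy
  have hT : IsOpen ((extChartAt J p).target ∩ (extChartAt J p).symm ⁻¹' U) :=
    (continuousOn_extChartAt_symm p).isOpen_inter_preimage (isOpen_extChartAt_target p) hU
  have hd : ∀ z ∈ (extChartAt J p).target ∩ (extChartAt J p).symm ⁻¹' U,
      HasFDerivAt (g ∘ (extChartAt J p).symm) (0 : E₀ →L[ℝ] G) z := by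
    intro z hz
    have h1 := ((contMDiffOn_extChartAt_symm (I := J) (n := ∞) p).contMDiffAt
      ((isOpen_extChartAt_target p).mem_nhds hz.1)).mdifferentiableAt (by simp)
    have h2 := (hg _ hz.2).comp z h1.hasMFDerivAt
    rw [ContinuousLinearMap.zero_comp] at h2
    exact hasMFDerivAt_iff_hasFDerivAt.1 h2
  have h3 := hT.isOpen_inter_preimage_of_fderiv_eq_zero (𝕜 := ℝ)
    (fun z hz => (hd z hz).differentiableAt.differentiableWithinAt)
    (fun z hz => (hd z hz).fderiv) {g p}
  have h4 := (continuousAt_extChartAt (I := J) p).preimage_mem_nhds (h3.mem_nhds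
    ⟨⟨mem_extChartAt_target p, by simpa using hp⟩, by simp⟩)
  filter_upwards [nhdsWithin_le_nhds h4, nhdsWithin_le_nhds (extChartAt_source_mem_nhds (I := J) p)]
    with y h5 h6
  have h7 : g ((extChartAt J p).symm (extChartAt J p y)) = g p := h5.2
  rw [(extChartAt J p).left_inv h6] at h7
  exact ⟨h7.symm, h7⟩

end Pool.Agent.P.MP_49bf82_gt
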