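import Pool.Agent.P.MP_49bf82_gt.Base

open Manifold Set Filter Topology
open scoped ContDiff RealInnerProductSpace

namespace Pool.Agent.P.MP_49bf82_gt

open Pool.Agent.P.MP_e3ee0c_gt

variable {G : Type*} [NormedAddCommGroup G] [InnerProductSpace ℝ G] [FiniteDimensional ℝ G]

theorem exists_eigen {T : G →L[ℝ] G} (hT : ∀ u v, ⟪T u, v⟫ = ⟪u, T v⟫) (M : Submodule ℝ G)
    (hM : ∀ u ∈ M, T u ∈ M) (h0 : ∃ u ∈ M, u ≠ 0) : ∃ u ∈ M, u ≠ 0 ∧ ∃ c : ℝ, T u = c • u := by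
  obtain ⟨u, hu, hu0⟩ := h0
  have : Nontrivial M := ⟨⟨⟨u, hu⟩, 0, fun e => hu0 (congrArg Subtype.val e)⟩⟩
  have hS : (T : G →ₗ[ℝ] G).IsSymmetric := hT
  obtain ⟨v, hv⟩ := ((hS.restrict_invariant (V := M) hM).hasEigenvalue_iSup_of_finiteDimensional
    ).exists_hasEigenvector
  exact ⟨v, v.2, fun e => hv.2 (Subtype.ext e), _, congrArg Subtype.val hv.apply_eq_smul⟩

/-- B is nondegenerate on the kernel of A. -/
theorem Pair.ker_pair {A : G →L[ℝ] G} {B : G →L[ℝ] G →L[ℝ] ℝ} (h : Pair A B) {x : G}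
    (hx : A x = 0) (h0 : x ≠ 0) : ∃ v, A v = 0 ∧ B x v ≠ 0 := by
  by_contra hn
  push Not at hn
  refine h0 (h.nondeg x fun v => ?_)
  obtain ⟨y, ⟨w, rfl⟩, z, hz, rfl⟩ :=
    (LinearMap.range (A : G →ₗ[ℝ] G)).exists_add_mem_mem_orthogonal v
  have h1 : A z = 0 := by
    rw [← inner_self_eq_zero (𝕜 := ℝ), h.skewA, real_inner_comm, neg_eq_zero]
    exact hz _ ⟨A z, rfl⟩
  rw [map_add, hn z h1, add_zero, h.skew]
  show -B (A w) x = 0
  rw [h.symm, hx, map_zero, zero_apply, neg_zero]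

theorem linb_pos {S : G →L[ℝ] G} (hS : ∀ u v, ⟪S u, v⟫ = ⟪u, S v⟫) {u : G} (hu : 0 < ⟪S u, u⟫) :
    ∃ (l : ℝ) (w : G), 0 < l ∧ w ≠ 0 ∧ S w = l • w := by
  have hS' : (S : G →ₗ[ℝ] G).IsSymmetric := hS
  by_contra hn
  push Not at hn
  refine absurd hu (not_lt.2 ?_)
  rw [← (hS'.eigenvectorBasis rfl).sum_inner_mul_inner]
  refine Finset.sum_nonpos fun i _ => ?_
  have h1 : S (hS'.eigenvectorBasis rfl i)
      = hS'.eigenvalues rfl i • hS'.eigenvectorBasis rfl i := hS'.apply_eigenvectorBasis rfl i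
  have h2 : hS'.eigenvalues rfl i ≤ 0 := not_lt.1 fun h3 =>
    hn _ _ h3 ((hS'.eigenvectorBasis rfl).orthonormal.ne_zero i) h1
  rw [hS, h1, real_inner_smul_right, real_inner_comm u, mul_assoc]
  exact mul_nonpos_of_nonpos_of_nonneg h2 (mul_self_nonneg _)

/-- The eigenspace of T for the value l. -/
def linbE (T : G →L[ℝ] G) (l : ℝ) : Submodule ℝ G where
  carrier := {u | T u = l • u}
  add_mem' := fun {a b} (ha : T a = l • a) (hb : T b = l • b) => show T (a + b) = l • (a + b) by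
    rw [map_add, ha, hb, smul_add]
  zero_mem' := show T 0 = l • (0 : G) by rw [map_zero, smul_zero]
  smul_mem' := fun c {a} (ha : T a = l • a) => show T (c • a) = l • (c • a) by
    rw [map_smul, ha, smul_comm]

omit [FiniteDimensional ℝ G] in
theorem linb_mem {T U : G →L[ℝ] G} {l : ℝ} (h : ∀ u, T (U u) = U (T u)) {u : G}
    (hu : u ∈ linbE T l) : U u ∈ linbE T l := by
  have h1 : T u = l • u := hu
  show T (U u) = l • U u
  rw [h, h1, map_smul]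

/-- A direction of descent that is killed by some generator. -/
theorem exists_common {A : R2 →L[ℝ] G →L[ℝ] G} {B : G →L[ℝ] G →L[ℝ] ℝ} (h : ∀ ξ, Pair (A ξ) B)
    (hc : ∀ ξ η u, A ξ (A η u) = A η (A ξ u)) {θ : R2} (hθ : θ 1 ≠ 0)
    (h0 : ∃ u, 0 < B (A θ u) u) : ∃ u ξ, ξ ≠ 0 ∧ A ξ u = 0 ∧ 0 < B (A θ u) u := by
  obtain ⟨S, hS⟩ : ∃ S : G →L[ℝ] G, ∀ u v, ⟪S u, v⟫ = B (A θ u) v :=
    ⟨InnerProductSpace.continuousLinearMapOfBilin (𝕜 := ℝ) (B.comp (A θ)),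
      fun u v => InnerProductSpace.continuousLinearMapOfBilin_apply _ u v⟩
  have sS : ∀ u v, ⟪S u, v⟫ = ⟪u, S v⟫ := fun u v => by
    rw [real_inner_comm (S v), hS, hS, (h θ).symm]
  have cS : ∀ ξ u, S (A ξ u) = A ξ (S u) := fun ξ u => ext_inner_right ℝ fun v => by
    rw [hS, hc, (h ξ).symm, (h ξ).skew, (h ξ).skewA, hS]
  have sA : ∀ ξ u v, ⟪((A θ).comp (A ξ)) u, v⟫ = ⟪u, ((A θ).comp (A ξ)) v⟫ := fun ξ u v => by
    show ⟪A θ (A ξ u), v⟫ = ⟪u, A θ (A ξ v)⟫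
    rw [(h θ).skewA, (h ξ).skewA, neg_neg, hc]
  have cT : ∀ ξ u, ((A θ).comp (A θ)) (A ξ u) = A ξ (((A θ).comp (A θ)) u) := fun ξ u => by
    show A θ (A θ (A ξ u)) = A ξ (A θ (A θ u))
    rw [hc θ ξ, hc θ ξ]
  obtain ⟨u₀, hu₀⟩ := h0
  obtain ⟨l, w₀, hl, hw₀, e₀⟩ := linb_pos sS (u := u₀) (by rwa [hS])
  obtain ⟨w, hw, hw0, k₁, e₁⟩ := exists_eigen (sA θ) (linbE S l)
    (fun u hu => linb_mem (cS θ) (linb_mem (cS θ) hu)) ⟨w₀, e₀, hw₀⟩
  have hk : k₁ ≠ 0 := by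
    rintro rfl
    have h1 : A θ (A θ w) = 0 := by rw [← zero_smul ℝ w]; exact e₁
    have h2 : A θ w = 0 := by
      rw [← inner_self_eq_zero (𝕜 := ℝ), (h θ).skewA, h1, inner_zero_right, neg_zero]
    have h3 : S w = l • w := hw
    have h4 : S w = 0 := ext_inner_right ℝ fun v => by
      rw [hS, h2, map_zero, zero_apply, inner_zero_left]
    rw [h4] at h3
    exact smul_ne_zero hl.ne' hw0 h3.symm
  obtain ⟨u, hu, hu0, k, e⟩ := exists_eigen (sA ![1, 0]) (linbE S l ⊓ linbE ((A θ).comp (A θ)) k₁)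
    (fun u hu => ⟨linb_mem (cS θ) (linb_mem (cS _) hu.1), linb_mem (cT θ) (linb_mem (cT _) hu.2)⟩)
    ⟨w, ⟨hw, e₁⟩, hw0⟩
  refine ⟨u, k₁ • ![1, 0] - k • θ, fun e0 => ?_, ?_, ?_⟩
  · have a0 := congrFun e0 0
    have a1 := congrFun e0 1
    simp [hθ] at a0 a1
    simp [a1, hk] at a0
  · have h1 : A θ (A θ (A ![1, 0] u)) = k₁ • A ![1, 0] u := linb_mem (cT _) hu.2
    have h2 : A θ (A ![1, 0] u) = k • u := e
    rw [h2, map_smul] at h1
    rw [map_sub, map_smul, map_smul, sub_apply, smul_apply,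
      smul_apply, h1, sub_self]
  · have h1 : S u = l • u := hu.1
    rw [← hS, h1, real_inner_smul_left]
    exact mul_pos hl (real_inner_self_pos.2 hu0)

end Pool.Agent.P.MP_49bf82_gt
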