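import Pool.Agent.P.MP_49bf82_gt.Base

open Manifold Set Filter Topology
open scoped ContDiff RealInnerProductSpace

namespace Pool.Agent.P.MP_49bf82_gt

open Pool.Agent.P.MP_e3ee0c_gt

variable {G : Type*} [NormedAddCommGroup G] [InnerProductSpace ℝ G] [FiniteDimensional ℝ G]

variable {A : G →L[ℝ] G} {Ω : G → G →L[ℝ] G →L[ℝ] ℝ} {g : G → ℝ}

omit [FiniteDimensional ℝ G] in
theorem quada_ball (h : Model A Ω g) {ε : ℝ} (hε : 0 < ε) :
    ∃ r > 0, ∀ y, ‖y‖ < r → HasFDerivAt g (-(Ω y (A y))) y ∧ ‖Ω y - Ω 0‖ ≤ ε := by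
  have h1 : ∀ᶠ y in 𝓝 (0 : G), ‖Ω y - Ω 0‖ ≤ ε := by
    have := h.smooth.continuousAt.eventually (Metric.closedBall_mem_nhds (Ω 0) hε)
    filter_upwards [this] with y hy
    exact (dist_eq_norm (Ω y) (Ω 0)).symm.trans_le hy
  obtain ⟨r, hr, H⟩ := Metric.eventually_nhds_iff.1 (h.deriv.and h1)
  exact ⟨r, hr, fun y hy => H (by rwa [dist_zero_right])⟩

omit [FiniteDimensional ℝ G] in
theorem quada_mvt {r : ℝ} (H : ∀ y, ‖y‖ < r → HasFDerivAt g (-(Ω y (A y))) y) {z w : G}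
    (hr : ‖z‖ + ‖w‖ < r) : ∃ c : ℝ, 0 < c ∧ c < 1 ∧ ‖z + c • w‖ < r ∧
      g (z + w) - g z = -(Ω (z + c • w) (A (z + c • w)) w) := by
  have hb : ∀ s ∈ Icc (0 : ℝ) 1, ‖z + s • w‖ < r := by
    intro s hs
    have a1 : ‖s • w‖ ≤ ‖w‖ := by
      rw [norm_smul, Real.norm_of_nonneg hs.1]
      exact mul_le_of_le_one_left (norm_nonneg _) hs.2
    linarith [norm_add_le z (s • w)]
  have hd : ∀ s ∈ Icc (0 : ℝ) 1, HasDerivAt (fun s : ℝ => g (z + s • w))
      (-(Ω (z + s • w) (A (z + s • w)) w)) s := by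
    intro s hs
    have c1 : HasDerivAt (fun s : ℝ => z + s • w) w s := by
      simpa using ((hasDerivAt_id s).smul_const w).const_add z
    exact (H _ (hb s hs)).comp_hasDerivAt s c1
  obtain ⟨c, hc, e⟩ := exists_hasDerivAt_eq_slope (fun s : ℝ => g (z + s • w))
    (fun s => -(Ω (z + s • w) (A (z + s • w)) w)) zero_lt_one
    (fun s hs => (hd s hs).continuousAt.continuousWithinAt)
    (fun s hs => hd s (Ioo_subset_Icc_self hs))
  refine ⟨c, hc.1, hc.2, hb c (Ioo_subset_Icc_self hc), ?_⟩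
  rw [e]
  simp

omit [FiniteDimensional ℝ G] in
theorem quada_err {B C : G →L[ℝ] G →L[ℝ] ℝ} {ε : ℝ} (h : ‖C - B‖ ≤ ε) (u v : G) :
    |C (A u) v - B (A u) v| ≤ ε * ‖A‖ * (‖u‖ * ‖v‖) := by
  have e : C (A u) v - B (A u) v = (C - B) (A u) v := rfl
  have hε : 0 ≤ ε := (norm_nonneg (C - B)).trans h
  rw [e, ← Real.norm_eq_abs]
  calc ‖(C - B) (A u) v‖ ≤ ‖C - B‖ * ‖A u‖ * ‖v‖ := (C - B).le_opNorm₂ _ _
    _ ≤ ε * (‖A‖ * ‖u‖) * ‖v‖ := by
      refine mul_le_mul_of_nonneg_right ?_ (norm_nonneg _)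
      exact mul_le_mul h (A.le_opNorm u) (norm_nonneg _) hε
    _ = ε * ‖A‖ * (‖u‖ * ‖v‖) := by ring

/-- Symmetry of the second derivative. -/
theorem Model.pair (h : Model A Ω g) : Pair A (Ω 0) := by
  refine ⟨h.skewA, h.skew, h.nondeg, fun u v => ?_⟩
  have hΩ : HasFDerivAt Ω (fderiv ℝ Ω 0) 0 :=
    (h.smooth.differentiableAt one_ne_zero).hasFDerivAt
  have hd := (hΩ.clm_apply (A.hasFDerivAt (x := 0))).neg
  have := second_derivative_symmetric_of_eventually_of_real h.deriv hd u v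
  simpa using this

theorem Model.neg_dir (h : Model A Ω g) {u : G} (hu : 0 < Ω 0 (A u) u) :
    ∀ᶠ τ in 𝓝[>] (0 : ℝ), g (τ • u) < g 0 := by
  have hK : 0 < ‖A‖ * (‖u‖ * ‖u‖) + 1 := by positivity
  obtain ⟨r, hr, H⟩ := quada_ball h (div_pos hu hK)
  have h1 : ∀ᶠ τ in 𝓝 (0 : ℝ), ‖τ • u‖ < r := by
    have c : Continuous fun τ : ℝ => ‖τ • u‖ := by fun_prop
    exact c.continuousAt.eventually_lt continuousAt_const (by simpa using hr)
  filter_upwards [h1.filter_mono nhdsWithin_le_nhds, self_mem_nhdsWithin] with τ h2 (hτ : 0 < τ)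
  obtain ⟨c, c0, -, hc, e⟩ := quada_mvt (fun y hy => (H y hy).1) (z := 0) (w := τ • u)
    (by simpa using h2)
  have b := (abs_le.1 (quada_err (A := A) (H _ hc).2 u u)).1
  have b2 : Ω 0 (A u) u / (‖A‖ * (‖u‖ * ‖u‖) + 1) * ‖A‖ * (‖u‖ * ‖u‖) < Ω 0 (A u) u := by
    rw [mul_assoc, div_mul_eq_mul_div, div_lt_iff₀ hK]
    exact mul_lt_mul_of_pos_left (lt_add_one _) hu
  have b3 : 0 < Ω (0 + c • τ • u) (A u) u := by linarith
  generalize Ω (0 + c • τ • u) = C at e b3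
  simp only [zero_add, map_smul, smul_apply, smul_eq_mul] at e
  have b4 : 0 < τ * (c * (τ * C (A u) u)) := by positivity
  linarith

/-- The three estimates on a small ball. Write y = z + n + p with n = N y, p = P y. -/
theorem Model.estimates (h : Model A Ω g) {N P : G →L[ℝ] G} {l : ℝ} (hs : Split A (Ω 0) N P l) :
    ∃ η > 0, ∃ r > 0, (∀ y, ‖y‖ < r → DifferentiableAt ℝ g y) ∧
      ∀ y, ‖y - N y - P y‖ + ‖N y‖ + ‖P y‖ < r →
        (N y ≠ 0 → ‖P y‖ ≤ η * ‖N y‖ → g y < g 0) ∧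
        (N y = 0 → g 0 ≤ g y ∧ (P y ≠ 0 → g 0 < g y)) ∧
        (P y ≠ 0 → η * ‖N y‖ ≤ ‖P y‖ → 0 < fderiv ℝ g y (P y)) := by
  have hl := hs.pos
  obtain ⟨K, hK⟩ : ∃ K, K = ‖Ω 0‖ * ‖A‖ := ⟨_, rfl⟩
  have K0 : 0 ≤ K := by rw [hK]; positivity
  obtain ⟨η, η0, η1, ηK⟩ : ∃ η : ℝ, 0 < η ∧ η ≤ 1 ∧ K * η ≤ l / 4 := by
    refine ⟨min 1 (l / 4 / (K + 1)), lt_min one_pos (by positivity), min_le_left _ _, ?_⟩
    have a1 : min 1 (l / 4 / (K + 1)) ≤ l / 4 / (K + 1) := min_le_right _ _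
    rw [le_div_iff₀ (by positivity)] at a1
    have a2 : 0 ≤ min 1 (l / 4 / (K + 1)) := le_min one_pos.le (by positivity)
    nlinarith
  obtain ⟨ε, ε0, hε⟩ : ∃ ε : ℝ, 0 < ε ∧ ε * ‖A‖ * 16 ≤ l * η := by
    refine ⟨l * η / 16 / (‖A‖ + 1), by positivity, ?_⟩
    rw [div_mul_eq_mul_div, div_mul_eq_mul_div, div_le_iff₀ (by positivity)]
    have : 0 < l * η := by positivity
    nlinarith
  obtain ⟨a, ha⟩ : ∃ a, a = ε * ‖A‖ := ⟨_, rfl⟩
  have a0 : 0 ≤ a := by rw [ha]; positivity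
  rw [← ha] at hε
  have a1 : a * 16 ≤ l := hε.trans (mul_le_of_le_one_right hl.le η1)
  obtain ⟨r, hr, H⟩ := quada_ball h ε0
  refine ⟨η, η0, r, hr, fun y hy => (H y hy).1.differentiableAt, fun y hy => ?_⟩
  have hAz : A (y - N y - P y) = 0 := by
    rw [map_sub, map_sub, hs.ker y]
    abel
  have hw := norm_add_le (N y) (P y)
  have hy' : y = y - N y - P y + (N y + P y) := by abel
  have o1 := (hs.orth y y).1
  have o2 := (hs.orth y y).2
  have hbig := hs.big y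
  have hsmall := hs.small y
  have hlow : -(K * (‖P y‖ * ‖P y‖)) ≤ Ω 0 (A (P y)) (P y) := by
    have := quada_err (A := A) (B := 0) (C := Ω 0) (ε := ‖Ω 0‖)
      (congrArg norm (sub_zero (Ω 0))).le (P y) (P y)
    rw [← hK] at this
    simpa using (abs_le.1 this).1
  have hAy : A y = A (N y + P y) := by rw [map_add, hs.ker y]
  generalize y - N y - P y = z at hy hy' hAz
  generalize N y = n at *
  generalize P y = p at *
  have n0 := norm_nonneg n
  have p0 := norm_nonneg p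
  have z0 := norm_nonneg z
  have w0 := norm_nonneg (n + p)
  have hz : g z = g 0 := by
    obtain ⟨c, -, -, -, e⟩ := quada_mvt (fun y hy => (H y hy).1) (z := 0) (w := z)
      (by rw [norm_zero]; linarith)
    rw [map_add, map_zero, map_smul, hAz] at e
    simp only [zero_add, smul_zero, map_zero, zero_apply, neg_zero] at e
    linarith
  obtain ⟨c, c0, -, hc, e⟩ := quada_mvt (fun y hy => (H y hy).1) (z := z) (w := n + p)
    (by linarith)
  have b := abs_le.1 (quada_err (A := A) (H _ hc).2 (n + p) (n + p))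
  rw [← ha] at b
  generalize Ω (z + c • (n + p)) = C at e b
  rw [← hy', hz, map_add A z, hAz, zero_add, map_smul, map_smul, smul_apply,
    smul_eq_mul] at e
  have hB : Ω 0 (A (n + p)) (n + p) = Ω 0 (A n) n + Ω 0 (A p) p := by
    simp only [map_add, add_apply, o1, o2]
    ring
  rw [hB] at b
  refine ⟨fun hn hp => ?_, fun hn => ?_, fun hp hn => ?_⟩
  · have n1 : 0 < ‖n‖ := norm_pos_iff.2 hn
    have t0 : η * ‖n‖ ≤ ‖n‖ := mul_le_of_le_one_left n0 η1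
    have t1 : ‖n + p‖ * ‖n + p‖ ≤ 2 * ‖n‖ * (2 * ‖n‖) :=
      mul_self_le_mul_self w0 (by linarith)
    have t2 : ‖p‖ * ‖p‖ ≤ η * ‖n‖ * ‖n‖ := mul_le_mul hp (hp.trans t0) p0 (by positivity)
    have t3 := mul_le_mul_of_nonneg_left t1 a0
    have t4 := mul_le_mul_of_nonneg_left t2 K0
    have q : 0 < ‖n‖ * ‖n‖ := mul_pos n1 n1
    have t5 := mul_le_mul_of_nonneg_right ηK q.le
    have t6 := mul_le_mul_of_nonneg_right a1 q.le
    have t7 := mul_pos hl q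
    have t8 : 0 < C (A (n + p)) (n + p) := by nlinarith [b.1]
    have t9 := mul_pos c0 t8
    linarith
  · subst hn
    simp only [zero_add, map_zero] at b e
    have q : 0 ≤ ‖p‖ * ‖p‖ := mul_nonneg p0 p0
    have t6 := mul_le_mul_of_nonneg_right a1 q
    have t8 : C (A p) p ≤ -(l / 2 * (‖p‖ * ‖p‖)) := by nlinarith [b.2, mul_nonneg hl.le q]
    have t9 := mul_le_mul_of_nonneg_left t8 c0.le
    constructor
    · have : 0 ≤ c * (l / 2 * (‖p‖ * ‖p‖)) := by positivity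
      linarith
    · intro hp
      have p1 : 0 < ‖p‖ := norm_pos_iff.2 hp
      have : 0 < c * (l / 2 * (‖p‖ * ‖p‖)) := by positivity
      linarith
  · have p1 : 0 < ‖p‖ := norm_pos_iff.2 hp
    have hyr : ‖y‖ < r := by
      rw [hy']
      linarith [norm_add_le z (n + p)]
    have d := (abs_le.1 (quada_err (A := A) (H y hyr).2 (n + p) p)).2
    rw [← ha] at d
    have hB2 : Ω 0 (A (n + p)) p = Ω 0 (A p) p := by
      simp only [map_add, add_apply, o1, zero_add]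
    rw [hB2] at d
    rw [(H y hyr).1.fderiv, hAy, neg_apply]
    have t0 : η * ‖p‖ ≤ ‖p‖ := mul_le_of_le_one_left p0 η1
    have t1 : η * ‖n + p‖ ≤ 2 * ‖p‖ := by nlinarith [mul_le_mul_of_nonneg_left hw η0.le]
    have t2 : a * 16 * ‖n + p‖ ≤ l * (2 * ‖p‖) := by
      calc a * 16 * ‖n + p‖ ≤ l * η * ‖n + p‖ := mul_le_mul_of_nonneg_right hε w0
        _ = l * (η * ‖n + p‖) := by ring
        _ ≤ l * (2 * ‖p‖) := mul_le_mul_of_nonneg_left t1 hl.le
    have t3 := mul_le_mul_of_nonneg_right t2 p0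
    have t4 := mul_pos hl (mul_pos p1 p1)
    nlinarith

end Pool.Agent.P.MP_49bf82_gt
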