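import Pool.Agent.P.MP_49bf82_gt.LinA
import Pool.Agent.P.MP_49bf82_gt.QuadA

open Manifold Set Filter Topology
open scoped ContDiff RealInnerProductSpace

namespace Pool.Agent.P.MP_49bf82_gt

open Pool.Agent.P.MP_e3ee0c_gt

variable {G : Type*} [NormedAddCommGroup G] [InnerProductSpace ℝ G] [FiniteDimensional ℝ G]

variable {A : G →L[ℝ] G} {Ω : G → G →L[ℝ] G →L[ℝ] ℝ} {g : G → ℝ}

/-- The adapted norm. -/
noncomputable def quadbNu (N P : G →L[ℝ] G) (y : G) : ℝ := ‖y - N y - P y‖ + ‖N y‖ + ‖P y‖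

omit [FiniteDimensional ℝ G] in
theorem quadb_cont (N P : G →L[ℝ] G) : Continuous (quadbNu N P) := by
  unfold quadbNu
  fun_prop

omit [FiniteDimensional ℝ G] in
theorem quadb_zero (N P : G →L[ℝ] G) : quadbNu N P 0 = 0 := by
  simp [quadbNu]

omit [FiniteDimensional ℝ G] in
theorem quadb_norm_le (N P : G →L[ℝ] G) (y : G) : ‖y‖ ≤ quadbNu N P y := by
  have h : y = (y - N y - P y) + N y + P y := by abel
  calc ‖y‖ = ‖(y - N y - P y) + N y + P y‖ := by rw [← h]
    _ ≤ _ := norm_add₃_le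

omit [FiniteDimensional ℝ G] in
/-- The point z + n + t p and its components. -/
theorem quadb_slide {B : G →L[ℝ] G →L[ℝ] ℝ} {N P : G →L[ℝ] G} {l : ℝ} (hs : Split A B N P l)
    (y : G) {t : ℝ} (h0 : 0 ≤ t) (h1 : t ≤ 1) :
    N (y - P y + t • P y) = N y ∧ P (y - P y + t • P y) = t • P y ∧
      quadbNu N P (y - P y + t • P y) ≤ quadbNu N P y := by
  have e1 : N (y - P y + t • P y) = N y := by simp [hs.NP]
  have e2 : P (y - P y + t • P y) = t • P y := by simp [hs.PP]
  refine ⟨e1, e2, ?_⟩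
  unfold quadbNu
  rw [e1, e2]
  have e3 : y - P y + t • P y - N y - t • P y = y - N y - P y := by abel
  rw [e3, norm_smul, Real.norm_of_nonneg h0]
  have := mul_le_of_le_one_left (norm_nonneg (P y)) h1
  linarith

omit [FiniteDimensional ℝ G] in
/-- The point n + t z and its components. -/
theorem quadb_shrink {B : G →L[ℝ] G →L[ℝ] ℝ} {N P : G →L[ℝ] G} {l : ℝ} (hs : Split A B N P l)
    (y : G) {t : ℝ} (h0 : 0 ≤ t) (h1 : t ≤ 1) :
    N (N y + t • (y - N y - P y)) = N y ∧ P (N y + t • (y - N y - P y)) = 0 ∧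
      quadbNu N P (N y + t • (y - N y - P y)) ≤ quadbNu N P y := by
  have e1 : N (N y + t • (y - N y - P y)) = N y := by simp [hs.NP, hs.NN]
  have e2 : P (N y + t • (y - N y - P y)) = 0 := by simp [hs.PP, hs.PN]
  refine ⟨e1, e2, ?_⟩
  unfold quadbNu
  rw [e1, e2]
  have e3 : N y + t • (y - N y - P y) - N y - 0 = t • (y - N y - P y) := by abel
  rw [e3, norm_smul, Real.norm_of_nonneg h0, norm_zero]
  have := mul_le_of_le_one_left (norm_nonneg (y - N y - P y)) h1
  have := norm_nonneg (P y)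
  linarith

omit [FiniteDimensional ℝ G] in
/-- g increases along the slide in the cone around the range of P. -/
theorem quadb_mono {B : G →L[ℝ] G →L[ℝ] ℝ} {N P : G →L[ℝ] G} {l η r : ℝ} (hs : Split A B N P l)
    (hd : ∀ y, ‖y‖ < r → DifferentiableAt ℝ g y)
    (h3 : ∀ y, quadbNu N P y < r → P y ≠ 0 → η * ‖N y‖ ≤ ‖P y‖ → 0 < fderiv ℝ g y (P y))
    {y : G} (hy : quadbNu N P y < r) (hp : P y ≠ 0) {t : ℝ} (ht : 0 < t)
    (hc : η * ‖N y‖ ≤ t * ‖P y‖) :
    StrictMonoOn (fun s : ℝ => g (y - P y + s • P y)) (Icc t 1) := by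
  have key : ∀ s ∈ Icc t 1, HasDerivAt (fun s : ℝ => g (y - P y + s • P y))
      (fderiv ℝ g (y - P y + s • P y) (P y)) s := by
    intro s hs'
    obtain ⟨-, -, e3⟩ := quadb_slide hs y (ht.le.trans hs'.1) hs'.2
    have hg := (hd _ (((quadb_norm_le N P _).trans e3).trans_lt hy)).hasFDerivAt
    have hl : HasDerivAt (fun s : ℝ => y - P y + s • P y) (P y) s := by
      simpa using ((hasDerivAt_id s).smul_const (P y)).const_add (y - P y)
    exact hg.comp_hasDerivAt s hl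
  refine strictMonoOn_of_deriv_pos (convex_Icc t 1)
    (fun s hs' => (key s hs').continuousAt.continuousWithinAt) ?_
  intro s hs'
  have hs'' : s ∈ Icc t 1 := interior_subset hs'
  rw [(key s hs'').deriv]
  have hs0 : 0 < s := ht.trans_le hs''.1
  obtain ⟨e1, e2, e3⟩ := quadb_slide hs y hs0.le hs''.2
  have h := h3 _ (e3.trans_lt hy) (by rw [e2]; exact smul_ne_zero hs0.ne' hp) (by
    rw [e1, e2, norm_smul, Real.norm_of_nonneg hs0.le]
    exact hc.trans (mul_le_mul_of_nonneg_right hs''.1 (norm_nonneg _)))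
  rw [e2, map_smul, smul_eq_mul] at h
  exact (pos_iff_pos_of_mul_pos h).1 hs0

theorem Model.min (h : Model A Ω g) (h0 : ∀ u, Ω 0 (A u) u ≤ 0) : IsLocalMin g 0 := by
  obtain ⟨N, P, l, hs⟩ := h.pair.exists_split
  obtain ⟨η, -, r, hr, -, he⟩ := h.estimates hs
  have hN : ∀ y, N y = 0 := by
    intro y
    have h1 := (hs.big y).trans (h0 (N y))
    have h2 : ‖N y‖ ^ 2 ≤ 0 := by
      by_contra hc
      exact absurd h1 (not_le.2 (mul_pos hs.pos (not_le.1 hc)))
    exact norm_eq_zero.1 (pow_eq_zero_iff (two_ne_zero) |>.1 (le_antisymm h2 (by positivity)))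
  have hU : {y | quadbNu N P y < r} ∈ 𝓝 (0 : G) :=
    (isOpen_lt (quadb_cont N P) continuous_const).mem_nhds (by
      show quadbNu N P 0 < r
      rw [quadb_zero]; exact hr)
  filter_upwards [hU] with y hy
  exact ((he y hy).2.1 (hN y)).1

theorem Model.good (h : Model A Ω g) (h0 : ∃ u, 0 < Ω 0 (A u) u) {T : Set G} (hT : T ∈ 𝓝 0) :
    Good g 0 T := by
  have hpair := h.pair
  obtain ⟨N, P, l, hs⟩ := hpair.exists_split
  obtain ⟨η, hη, r0, hr0, hd0, he0⟩ := h.estimates hs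
  obtain ⟨ρ, hρ, hρT⟩ := Metric.mem_nhds_iff.1 hT
  have hN0 : ∃ y, N y ≠ 0 := by
    by_contra hc
    push Not at hc
    obtain ⟨u, hu⟩ := h0
    have e1 : A u = A (P u) := by rw [hs.ker u, hc u, map_zero, zero_add]
    have e2 : Ω 0 (A u) u = Ω 0 (A (P u)) (P u) := by
      calc Ω 0 (A u) u = Ω 0 (A (P u)) u := by rw [← e1]
        _ = Ω 0 (A u) (P u) := hpair.symm _ _
        _ = Ω 0 (A (P u)) (P u) := by rw [← e1]
    have e3 := hs.small u
    have e4 : 0 ≤ l * ‖P u‖ ^ 2 := mul_nonneg hs.pos.le (by positivity)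
    linarith
  set r := Min.min r0 ρ with hrdef
  have hr : 0 < r := lt_min hr0 hρ
  have hr1 : r ≤ r0 := min_le_left _ _
  have hr2 : r ≤ ρ := min_le_right _ _
  have hd : ∀ y, ‖y‖ < r → DifferentiableAt ℝ g y := fun y hy => hd0 y (hy.trans_le hr1)
  have c1 : ∀ y, quadbNu N P y < r → N y ≠ 0 → ‖P y‖ ≤ η * ‖N y‖ → g y < g 0 :=
    fun y hy => (he0 y (hy.trans_le hr1)).1
  have c2 : ∀ y, quadbNu N P y < r → N y = 0 → g 0 ≤ g y ∧ (P y ≠ 0 → g 0 < g y) :=
    fun y hy => (he0 y (hy.trans_le hr1)).2.1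
  have c3 : ∀ y, quadbNu N P y < r → P y ≠ 0 → η * ‖N y‖ ≤ ‖P y‖ → 0 < fderiv ℝ g y (P y) :=
    fun y hy => (he0 y (hy.trans_le hr1)).2.2
  have hUo : IsOpen {y | quadbNu N P y < r} := isOpen_lt (quadb_cont N P) continuous_const
  have c0 : ∀ y, quadbNu N P y < r → N y ≠ 0 → P y = 0 → g y < g 0 := fun y hy hn hp =>
    c1 y hy hn (by rw [hp, norm_zero]; positivity)
  refine ⟨{y | quadbNu N P y < r}, hUo, ?_, ?_, ?_, ?_⟩
  · show quadbNu N P 0 < r
    rw [quadb_zero]; exact hr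
  · intro y hy
    exact hρT (mem_ball_zero_iff.2 (((quadb_norm_le N P y).trans_lt hy).trans_le hr2))
  · set M := LinearMap.range (N : G →ₗ[ℝ] G) with hM
    set E : Set G := (fun q : M × ℝ => q.2 • (q.1 : G)) '' (Metric.sphere 0 1 ×ˢ Ioo 0 r) with hE
    have hEc : IsPreconnected E :=
      ((isPreconnected_sphere (hs.rank hN0) (0 : M) 1).prod isPreconnected_Ioo).image _
        (by fun_prop)
    have hES : E ⊆ {y | quadbNu N P y < r} ∩ {y | g y < g 0} := by
      rintro _ ⟨⟨⟨u, w, rfl⟩, s⟩, ⟨hu, hs1⟩, rfl⟩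
      have hu1 : ‖N w‖ = 1 := by simpa using hu
      have e1 : N (s • N w) = s • N w := by rw [map_smul, hs.NN]
      have e2 : P (s • N w) = 0 := by rw [map_smul, hs.PN, smul_zero]
      have e3 : quadbNu N P (s • N w) < r := by
        unfold quadbNu
        rw [e1, e2, norm_smul, hu1, Real.norm_of_nonneg hs1.1.le]
        simpa using hs1.2
      refine ⟨e3, c0 _ e3 ?_ e2⟩
      show N (s • N w) ≠ 0
      rw [e1]
      refine smul_ne_zero hs1.1.ne' ?_
      intro hw
      rw [hw, norm_zero] at hu1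
      exact zero_ne_one hu1
    have hEN : ∀ y, N y ≠ 0 → ‖N y‖ < r → N y ∈ E := by
      intro y hn hlt
      have hpos : 0 < ‖N y‖ := norm_pos_iff.2 hn
      refine ⟨(⟨‖N y‖⁻¹ • N y, M.smul_mem _ ⟨y, rfl⟩⟩, ‖N y‖), ⟨?_, hpos, hlt⟩, ?_⟩
      · rw [mem_sphere_zero_iff_norm]
        show ‖‖N y‖⁻¹ • N y‖ = 1
        rw [norm_smul, norm_inv, norm_norm, inv_mul_cancel₀ hpos.ne']
      · show ‖N y‖ • ‖N y‖⁻¹ • N y = N y
        rw [smul_smul, mul_inv_cancel₀ hpos.ne', one_smul]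
    by_cases hne : ({y | quadbNu N P y < r} ∩ {y | g y < g 0}).Nonempty
    swap
    · rw [not_nonempty_iff_eq_empty.1 hne]
      exact isPreconnected_empty
    have hNn : ∀ y, quadbNu N P y < r → g y < g 0 → N y ≠ 0 ∧ ‖N y‖ < r := by
      intro y hy hg
      refine ⟨fun hn => absurd (c2 y hy hn).1 (not_le.2 hg), lt_of_le_of_lt ?_ hy⟩
      unfold quadbNu
      have := norm_nonneg (y - N y - P y)
      have := norm_nonneg (P y)
      linarith
    obtain ⟨x, hx1, hx2⟩ := hne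
    refine isPreconnected_of_forall (N x) ?_
    rintro y ⟨hy1, hy2⟩
    obtain ⟨hn, hlt⟩ := hNn y hy1 hy2
    refine ⟨(E ∪ (fun t : ℝ => N y + t • (y - N y - P y)) '' Icc 0 1) ∪
      (fun t : ℝ => y - P y + t • P y) '' Icc 0 1, ?_, ?_, ?_, ?_⟩
    · refine union_subset (union_subset hES ?_) ?_
      · rintro _ ⟨t, ht, rfl⟩
        obtain ⟨e1, e2, e3⟩ := quadb_shrink hs y ht.1 ht.2
        exact ⟨e3.trans_lt hy1, c0 _ (e3.trans_lt hy1) (by rw [e1]; exact hn) e2⟩
      · rintro _ ⟨t, ht, rfl⟩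
        obtain ⟨e1, e2, e3⟩ := quadb_slide hs y ht.1 ht.2
        refine ⟨e3.trans_lt hy1, ?_⟩
        by_cases hc : t * ‖P y‖ ≤ η * ‖N y‖
        · refine c1 _ (e3.trans_lt hy1) (by rw [e1]; exact hn) ?_
          rw [e1, e2, norm_smul, Real.norm_of_nonneg ht.1]
          exact hc
        · have hc' := not_le.1 hc
          have hpos : 0 < t * ‖P y‖ := lt_of_le_of_lt (by positivity) hc'
          have ht0 : 0 < t := lt_of_le_of_ne ht.1 (by rintro rfl; simp at hpos)
          have hp : P y ≠ 0 := by rintro hp; simp [hp] at hpos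
          have hm := (quadb_mono hs hd c3 hy1 hp ht0 hc'.le).monotoneOn
            ⟨le_rfl, ht.2⟩ ⟨ht.2, le_rfl⟩ ht.2
          simp only [one_smul, sub_add_cancel] at hm
          exact lt_of_le_of_lt hm hy2
    · exact Or.inl (Or.inl (hEN x (hNn x hx1 hx2).1 (hNn x hx1 hx2).2))
    · exact Or.inr ⟨1, ⟨zero_le_one, le_rfl⟩, by simp⟩
    · refine IsPreconnected.union (y - P y) (Or.inr ⟨1, ⟨zero_le_one, le_rfl⟩, ?_⟩)
        ⟨0, ⟨le_rfl, zero_le_one⟩, by simp⟩
        (IsPreconnected.union (N y) (hEN y hn hlt) ⟨0, ⟨le_rfl, zero_le_one⟩, by simp⟩ hEc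
          (isPreconnected_Icc.image _ (by fun_prop))) (isPreconnected_Icc.image _ (by fun_prop))
      show N y + (1 : ℝ) • (y - N y - P y) = y - P y
      rw [one_smul]
      abel
  · rintro y ⟨hy1, hy2⟩
    have hy2' : g y = g 0 := hy2
    by_cases hn : N y = 0
    · have hp : P y = 0 := by
        by_contra hp
        exact absurd hy2' ((c2 y hy1 hn).2 hp).ne'
      obtain ⟨w, hw⟩ := hN0
      have ht : Tendsto (fun s : ℝ => y + s • N w) (𝓝[>] 0) (𝓝 y) := by
        have hc : Continuous (fun s : ℝ => y + s • N w) := by fun_prop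
        have := hc.tendsto 0
        simp only [zero_smul, add_zero] at this
        exact this.mono_left nhdsWithin_le_nhds
      refine mem_closure_of_tendsto ht ?_
      filter_upwards [ht.eventually (hUo.mem_nhds hy1), self_mem_nhdsWithin] with s h1 h2
      refine ⟨h1, c0 _ h1 ?_ ?_⟩
      · rw [map_add, map_smul, hn, zero_add, hs.NN]
        exact smul_ne_zero (ne_of_gt h2) hw
      · rw [map_add, map_smul, hp, hs.PN, smul_zero, add_zero]
    · have hc : η * ‖N y‖ < ‖P y‖ := by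
        by_contra hc
        exact absurd hy2' (c1 y hy1 hn (not_lt.1 hc)).ne
      have hpos : 0 < η * ‖N y‖ := mul_pos hη (norm_pos_iff.2 hn)
      have hpp : 0 < ‖P y‖ := hpos.trans hc
      have ht0 : 0 < η * ‖N y‖ / ‖P y‖ := div_pos hpos hpp
      have ht1 : η * ‖N y‖ / ‖P y‖ < 1 := (div_lt_one hpp).2 hc
      have hm := quadb_mono hs hd c3 hy1 (norm_pos_iff.1 hpp) ht0
        (le_of_eq (div_mul_cancel₀ _ hpp.ne').symm)
      have ht : Tendsto (fun s : ℝ => y - P y + s • P y) (𝓝[<] 1) (𝓝 y) := by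
        have hc : Continuous (fun s : ℝ => y - P y + s • P y) := by fun_prop
        have := hc.tendsto 1
        simp only [one_smul, sub_add_cancel] at this
        exact this.mono_left nhdsWithin_le_nhds
      refine mem_closure_of_tendsto ht ?_
      filter_upwards [ht.eventually (hUo.mem_nhds hy1), Ioo_mem_nhdsLT ht1] with s h1 h2
      refine ⟨h1, ?_⟩
      have := hm ⟨h2.1.le, h2.2.le⟩ ⟨ht1.le, le_rfl⟩ h2.2
      simp only [one_smul, sub_add_cancel] at this
      exact lt_of_lt_of_eq this hy2'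

end Pool.Agent.P.MP_49bf82_gt
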