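import Pool.Agent.P.MP_49bf82_gt.Base

open Manifold Set Filter Topology
open scoped ContDiff RealInnerProductSpace

namespace Pool.Agent.P.MP_49bf82_gt

open Pool.Agent.P.MP_e3ee0c_gt

variable {F : Type*} [NormedAddCommGroup F] [NormedSpace ℝ F] [FiniteDimensional ℝ F]
  {W : Type*} [TopologicalSpace W] [ChartedSpace F W] [IsManifold 𝓘(ℝ, F) ∞ W]

theorem good_of_fderiv {g : F → ℝ} {x : F} (hg : ContDiffAt ℝ 1 g x) (h : fderiv ℝ g x ≠ 0)
    {T : Set F} (hT : T ∈ 𝓝 x) : Good g x T := by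
  obtain ⟨v, hv⟩ : ∃ v, fderiv ℝ g x v < 0 := by
    obtain ⟨w, hw⟩ : ∃ w, fderiv ℝ g x w ≠ 0 := by
      by_contra hc
      exact h (ContinuousLinearMap.ext fun w => by_contra fun hw => hc ⟨w, hw⟩)
    rcases lt_or_gt_of_ne hw with h1 | h1
    · exact ⟨w, h1⟩
    · exact ⟨-w, by rw [map_neg]; linarith⟩
  have c1 : ContinuousAt (fun z => fderiv ℝ g z v) x :=
    (hg.continuousAt_fderiv (by simp)).clm_apply continuousAt_const
  have e1 : ∀ᶠ z in 𝓝 x, z ∈ T ∧ DifferentiableAt ℝ g z ∧ fderiv ℝ g z v < 0 := by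
    filter_upwards [hT, hg.eventually (by simp), c1.eventually_lt_const hv] with z a b c
    exact ⟨a, b.differentiableAt (by simp), c⟩
  obtain ⟨R, hR, hball⟩ := Metric.eventually_nhds_iff_ball.1 e1
  have slide : ∀ (y : F) (s : ℝ), (∀ t ∈ Icc (0 : ℝ) s, y + t • v ∈ Metric.ball x R) →
      StrictAntiOn (fun t : ℝ => g (y + t • v)) (Icc 0 s) := by
    intro y s hs
    have hd : ∀ t ∈ Icc (0 : ℝ) s,
        HasDerivAt (fun t : ℝ => g (y + t • v)) (fderiv ℝ g (y + t • v) v) t := by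
      intro t ht
      have h1 : HasDerivAt (fun t : ℝ => y + t • v) v t := by
        simpa using ((hasDerivAt_id t).smul_const v).const_add y
      exact (hball _ (hs t ht)).2.1.hasFDerivAt.comp_hasDerivAt t h1
    refine strictAntiOn_of_deriv_neg (convex_Icc 0 s)
      (fun t ht => (hd t ht).continuousAt.continuousWithinAt) fun t ht => ?_
    have ht' := interior_subset ht
    rw [(hd t ht').deriv]
    exact (hball _ (hs t ht')).2.2
  set d : ℝ := R / (2 * (‖v‖ + 1)) with hd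
  have hd0 : 0 < d := by positivity
  have hdv : ∀ s ∈ Icc (0 : ℝ) d, dist (x + s • v) x ≤ R / 2 := by
    intro s hs
    rw [dist_self_add_left, norm_smul, Real.norm_of_nonneg hs.1]
    have h1 : d * (‖v‖ + 1) = R / 2 := by
      rw [hd]
      field_simp
    nlinarith [hs.1, hs.2, norm_nonneg v]
  have hmem : ∀ s ∈ Icc (0 : ℝ) d, x + s • v ∈ Metric.ball x R := fun s hs =>
    (hdv s hs).trans_lt (half_lt_self hR)
  have hlt : g (x + d • v) < g x := by
    simpa using slide x d hmem ⟨le_rfl, hd0.le⟩ ⟨hd0.le, le_rfl⟩ hd0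
  have e2 : ∀ᶠ z in 𝓝 (x + d • v), g z < g x :=
    (hball _ (hmem d ⟨hd0.le, le_rfl⟩)).2.1.continuousAt.eventually_lt_const hlt
  obtain ⟨r0, hr0, hb0⟩ := Metric.eventually_nhds_iff_ball.1 e2
  set r : ℝ := min r0 (R / 2) with hr
  have hr1 : 0 < r := lt_min hr0 (half_pos hR)
  have hb : ∀ z ∈ Metric.ball (x + d • v) r, g z < g x := fun z hz =>
    hb0 z (Metric.ball_subset_ball (min_le_left _ _) hz)
  set U : Set F := ⋃ s ∈ Icc (0 : ℝ) d, Metric.ball (x + s • v) r with hU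
  have hUR : U ⊆ Metric.ball x R := by
    intro y hy
    obtain ⟨s, hs, hy⟩ := mem_iUnion₂.1 hy
    have h1 := dist_triangle y (x + s • v) x
    have h2 : dist y (x + s • v) < r := hy
    have h3 : r ≤ R / 2 := min_le_right _ _
    have h4 := hdv s hs
    exact (show dist y x < R by linarith)
  have hmove : ∀ (y : F) (s t : ℝ), y ∈ Metric.ball (x + s • v) r →
      y + t • v ∈ Metric.ball (x + (s + t) • v) r := by
    intro y s t hy
    rw [Metric.mem_ball, add_smul, ← add_assoc, dist_add_right]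
    exact hy
  have hin : ∀ (y : F) (s : ℝ), s ∈ Icc (0 : ℝ) d → y ∈ Metric.ball (x + s • v) r →
      ∀ t ∈ Icc (0 : ℝ) (d - s), y + t • v ∈ U := fun y s hs hy t ht =>
    mem_iUnion₂.2 ⟨s + t, ⟨add_nonneg hs.1 ht.1, by linarith [ht.2]⟩, hmove y s t hy⟩
  have hdown : ∀ (y : F) (s : ℝ), s ∈ Icc (0 : ℝ) d → y ∈ Metric.ball (x + s • v) r →
      ∀ t ∈ Ioc (0 : ℝ) (d - s), g (y + t • v) < g y := by
    intro y s hs hy t ht
    simpa using slide y (d - s) (fun t ht => hUR (hin y s hs hy t ht))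
      ⟨le_rfl, sub_nonneg.2 hs.2⟩ ⟨ht.1.le, ht.2⟩ ht.1
  have hBU : Metric.ball (x + d • v) r ⊆ U := fun z hz => mem_iUnion₂.2 ⟨d, ⟨hd0.le, le_rfl⟩, hz⟩
  refine ⟨U, isOpen_biUnion fun _ _ => Metric.isOpen_ball,
    mem_iUnion₂.2 ⟨0, ⟨le_rfl, hd0.le⟩, by simpa using hr1⟩, fun y hy => (hball y (hUR hy)).1,
    isPreconnected_of_forall (x + d • v) fun y hy => ?_, fun y hy => ?_⟩
  · obtain ⟨s, hs, hys⟩ := mem_iUnion₂.1 hy.1
    have hy2 : g y < g x := hy.2
    refine ⟨(fun t : ℝ => y + t • v) '' Icc 0 (d - s) ∪ Metric.ball (x + d • v) r, ?_,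
      Or.inr (Metric.mem_ball_self hr1), Or.inl ⟨0, ⟨le_rfl, sub_nonneg.2 hs.2⟩, by simp⟩, ?_⟩
    · rintro z (⟨t, ht, rfl⟩ | hz)
      · refine ⟨hin y s hs hys t ht, ?_⟩
        rcases ht.1.eq_or_lt with h0 | h0
        · simpa [← h0] using hy2
        · exact (hdown y s hs hys t ⟨h0, ht.2⟩).trans hy2
      · exact ⟨hBU hz, hb z hz⟩
    · refine IsPreconnected.union (y + (d - s) • v) ⟨d - s, ⟨sub_nonneg.2 hs.2, le_rfl⟩, rfl⟩ ?_
        (isPreconnected_Icc.image _ (by fun_prop)) (convex_ball _ _).isPreconnected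
      simpa using hmove y s (d - s) hys
  · obtain ⟨s, hs, hys⟩ := mem_iUnion₂.1 hy.1
    have hy2 : g y = g x := hy.2
    have hsd : 0 < d - s := by
      rcases hs.2.eq_or_lt with h0 | h0
      · exact absurd hy2 (hb y (h0 ▸ hys)).ne
      · exact sub_pos.2 h0
    have ht : Tendsto (fun t : ℝ => y + t • v) (𝓝[>] 0) (𝓝 y) := by
      have h1 : Continuous fun t : ℝ => y + t • v := by fun_prop
      simpa using (h1.tendsto 0).mono_left (nhdsWithin_le_nhds (s := Ioi 0))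
    refine mem_closure_of_tendsto ht ?_
    filter_upwards [Ioc_mem_nhdsGT hsd] with t ht
    exact ⟨hin y s hs hys t ⟨ht.1.le, ht.2⟩, (hdown y s hs hys t ht).trans_eq hy2⟩

theorem Good.chart {X Y : Type*} [TopologicalSpace X] [TopologicalSpace Y]
    (e : OpenPartialHomeomorph X Y) {g : X → ℝ} {x : X} (hx : x ∈ e.source) {T : Set X}
    (h : Good (g ∘ e.symm) (e x) (e.target ∩ e.symm ⁻¹' T)) : Good g x T := by
  obtain ⟨U, hU, hxU, hUT, hc, hd⟩ := h
  have hx' : (g ∘ e.symm) (e x) = g x := by simp [e.left_inv hx]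
  rw [hx'] at hc hd
  have himg : (e.source ∩ e ⁻¹' U) ∩ {y | g y < g x} =
      e.symm '' (U ∩ {z | (g ∘ e.symm) z < g x}) := by
    ext y
    constructor
    · rintro ⟨⟨h1, h2⟩, h3⟩
      refine ⟨e y, ⟨h2, ?_⟩, e.left_inv h1⟩
      change g (e.symm (e y)) < g x
      rw [e.left_inv h1]
      exact h3
    · rintro ⟨z, ⟨h1, h2⟩, rfl⟩
      refine ⟨⟨e.map_target (hUT h1).1, ?_⟩, h2⟩
      change e (e.symm z) ∈ U
      rw [e.right_inv (hUT h1).1]
      exact h1
  refine ⟨e.source ∩ e ⁻¹' U, e.isOpen_inter_preimage hU, ⟨hx, hxU⟩, fun y hy => ?_, ?_,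
    fun y hy => ?_⟩
  · have h1 : e.symm (e y) ∈ T := (hUT hy.2).2
    rwa [e.left_inv hy.1] at h1
  · rw [himg]
    exact hc.image _ (e.continuousOn_symm.mono fun z hz => (hUT hz.1).1)
  · rw [himg]
    have h1 : e y ∈ closure (U ∩ {z | (g ∘ e.symm) z < g x}) := by
      refine hd ⟨hy.1.2, ?_⟩
      change g (e.symm (e y)) = g x
      rw [e.left_inv hy.1.1]
      exact hy.2
    have h2 := (e.continuousAt_symm (e.map_source hy.1.1)).continuousWithinAt.mem_closure_image h1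
    rwa [e.left_inv hy.1.1] at h2

theorem Good.congr {X : Type*} [TopologicalSpace X] {g g' : X → ℝ} {x : X} {T : Set X}
    (h : Good g x T) (he : EqOn g g' T) : Good g' x univ := by
  obtain ⟨U, hU, hxU, hUT, hc, hd⟩ := h
  have h1 : U ∩ {y | g' y < g' x} = U ∩ {y | g y < g x} := by
    ext y
    refine and_congr_right fun hy => ?_
    change g' y < g' x ↔ g y < g x
    rw [he (hUT hy), he (hUT hxU)]
  have h2 : U ∩ {y | g' y = g' x} = U ∩ {y | g y = g x} := by
    ext y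
    refine and_congr_right fun hy => ?_
    change g' y = g' x ↔ g y = g x
    rw [he (hUT hy), he (hUT hxU)]
  exact ⟨U, hU, hxU, subset_univ _, h1 ▸ hc, h1 ▸ h2 ▸ hd⟩

theorem isLocalMin_chart {X Y : Type*} [TopologicalSpace X] [TopologicalSpace Y]
    (e : OpenPartialHomeomorph X Y) {g : X → ℝ} {x : X} (hx : x ∈ e.source)
    (h : IsLocalMin (g ∘ e.symm) (e x)) : IsLocalMin g x := by
  have h1 : ∀ᶠ y in 𝓝 x, g (e.symm (e x)) ≤ g (e.symm (e y)) := (e.continuousAt hx).eventually h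
  filter_upwards [h1, e.open_source.mem_nhds hx] with y hy hy'
  rwa [e.left_inv hx, e.left_inv hy'] at hy

theorem good_of_dif {g : W → ℝ} {x : W} (hg : ContMDiffAt 𝓘(ℝ, F) 𝓘(ℝ, ℝ) ∞ g x)
    (h : dif F ℝ g x ≠ 0) {T : Set W} (hT : T ∈ 𝓝 x) : Good g x T := by
  have hx := mem_chart_source F x
  have hx' := (chartAt F x).map_source hx
  have hl := (chartAt F x).left_inv hx
  have s1 := chart_symm_smooth (E := F) x hx'
  have hg' : ContMDiffAt 𝓘(ℝ, F) 𝓘(ℝ, ℝ) ∞ g ((chartAt F x).symm (chartAt F x x)) := by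
    rw [hl]
    exact hg
  refine Good.chart (chartAt F x) hx (good_of_fderiv
    ((contMDiffAt_iff_contDiffAt.1 (hg'.comp _ s1)).of_le (by simp)) (fun h0 => h ?_) ?_)
  · have h1 := dif_comp (hg'.mdifferentiableAt (by simp)) (s1.mdifferentiableAt (by simp))
    rw [dif_fderiv, hl] at h1
    ext v
    have h2 := congrArg (fun L : F →L[ℝ] ℝ => L v) (h1.symm.trans h0)
    simpa [dif_chart_symm_self] using h2
  · refine inter_mem ((chartAt F x).open_target.mem_nhds hx')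
      (((chartAt F x).continuousAt_symm hx').preimage_mem_nhds ?_)
    rw [hl]
    exact hT

end Pool.Agent.P.MP_49bf82_gt
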