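import Pool.Agent.P.MP_49bf82_gt.VF

open Manifold Set Filter Topology
open scoped ContDiff RealInnerProductSpace

namespace Pool.Agent.P.MP_49bf82_gt

open Pool.Agent.P.MP_e3ee0c_gt

variable {F : Type*} [NormedAddCommGroup F] [NormedSpace ℝ F] [FiniteDimensional ℝ F]
  {W : Type*} [TopologicalSpace W] [ChartedSpace F W] [IsManifold 𝓘(ℝ, F) ∞ W]

variable {G : Type*} [NormedAddCommGroup G] [InnerProductSpace ℝ G] [FiniteDimensional ℝ G]

variable {σ : W → F →L[ℝ] F →L[ℝ] ℝ} {e : OpenPartialHomeomorph W G} {p : W}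

omit [FiniteDimensional ℝ F] [IsManifold 𝓘(ℝ, F) ∞ W] [FiniteDimensional ℝ G] in
theorem trans_md (h : SChart F e p) {x : W} (hx : x ∈ e.source) :
    MDifferentiableAt 𝓘(ℝ, F) 𝓘(ℝ, G) e x ∧ MDifferentiableAt 𝓘(ℝ, G) 𝓘(ℝ, F) e.symm (e x) :=
  ⟨(h.smooth x hx).mdifferentiableAt (by simp),
    (h.smooth_symm _ (e.map_source hx)).mdifferentiableAt (by simp)⟩

omit [FiniteDimensional ℝ F] [FiniteDimensional ℝ G] in
theorem trans_bil {S : G → F →L[ℝ] F →L[ℝ] ℝ} {D : G → G →L[ℝ] F} {y : G}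
    (hS : ContDiffAt ℝ 1 S y) (hD : ContDiffAt ℝ 1 D y) :
    ContDiffAt ℝ 1 (fun z => (S z).bilinearComp (D z) (D z)) y := by
  have h1 : ContDiffAt ℝ 1 (fun z => ((ContinuousLinearMap.compL ℝ G F ℝ).flip (D z)).comp
      ((S z).comp (D z))) y :=
    (contDiffAt_const.clm_apply hD).clm_comp (hS.clm_comp hD)
  refine h1.congr_of_eventuallyEq (Eventually.of_forall fun z => ?_)
  ext u v
  simp

theorem SChart.symm_dif (h : SChart F e p) {x : W} (hx : x ∈ e.source) (u : F) :
    dif G F e.symm (e x) (dif F G e x u) = u := by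
  obtain ⟨h1, h2⟩ := trans_md h hx
  have h3 := dif_comp h2 h1
  rw [dif_congr (g := id) (e.eventually_left_inverse hx)] at h3
  have h4 : dif F F (id : W → W) x = ContinuousLinearMap.id ℝ F := mfderiv_id
  exact (congrArg (fun L : F →L[ℝ] F => L u) (h3.symm.trans h4))

theorem SChart.dif_symm (h : SChart F e p) {x : W} (hx : x ∈ e.source) (v : G) :
    dif F G e x (dif G F e.symm (e x) v) = v := by
  obtain ⟨h1, h2⟩ := trans_md h hx
  have h3 := dif_comp (g := e) (f := e.symm) (x := e x) (by rwa [e.left_inv hx]) h2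
  rw [dif_congr (g := id) (e.eventually_right_inverse' hx), e.left_inv hx] at h3
  have h4 : dif G G (id : G → G) (e x) = ContinuousLinearMap.id ℝ G := mfderiv_id
  exact (congrArg (fun L : G →L[ℝ] G => L v) (h3.symm.trans h4))

/-- The derivative of a function with given Hamiltonian vector, in the chart. -/
theorem SChart.hasFDerivAt (h : SChart F e p) {g : W → ℝ} {x : W} (hx : x ∈ e.source)
    (hg : MDifferentiableAt 𝓘(ℝ, F) 𝓘(ℝ, ℝ) g x) {X : F} (hX : ∀ w, dif F ℝ g x w = -σ x X w) :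
    HasFDerivAt (g ∘ e.symm) (-(pull σ e (e x) (dif F G e x X))) (e x) := by
  obtain ⟨-, h2⟩ := trans_md h hx
  have hg' : MDifferentiableAt 𝓘(ℝ, F) 𝓘(ℝ, ℝ) g (e.symm (e x)) := by rwa [e.left_inv hx]
  have h3 : DifferentiableAt ℝ (g ∘ e.symm) (e x) :=
    mdifferentiableAt_iff_differentiableAt.1 (hg'.comp (e x) h2)
  have h4 : fderiv ℝ (g ∘ e.symm) (e x) = -(pull σ e (e x) (dif F G e x X)) := by
    rw [← dif_fderiv]
    refine (dif_comp hg' h2).trans ?_
    ext v
    simp only [pull, ContinuousLinearMap.comp_apply, neg_apply,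
      ContinuousLinearMap.bilinearComp_apply, e.left_inv hx, h.symm_dif hx, hX]
  exact h4 ▸ h3.hasFDerivAt

theorem SChart.model (h : SChart F e p) (hσ : IsSymplectic σ) {g : W → ℝ}
    (hg : ContMDiff 𝓘(ℝ, F) 𝓘(ℝ, ℝ) ∞ g) {X : W → F} (hX : ∀ x w, dif F ℝ g x w = -σ x (X x) w)
    {A : G →L[ℝ] G} (hA : ∀ u v, ⟪A u, v⟫ = -⟪u, A v⟫)
    (hl : ∀ x ∈ e.source, dif F G e x (X x) = A (e x)) : Model A (pull σ e) (g ∘ e.symm) := by
  have h0 : (0 : G) ∈ e.target := h.zero ▸ e.map_source h.mem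
  have hp : e.symm 0 = p := by rw [← h.zero, e.left_inv h.mem]
  refine ⟨hA, fun u v => ?_, fun u hu => ?_, ?_, ?_⟩
  · simp only [pull, ContinuousLinearMap.bilinearComp_apply]
    exact hσ.skew _ _ _
  · have h1 : dif G F e.symm (e p) u = 0 := hσ.nondeg p _ fun w => by
      have := hu (dif F G e p w)
      simp only [pull, ContinuousLinearMap.bilinearComp_apply, hp] at this
      rwa [← h.zero, h.symm_dif h.mem] at this
    rw [← h.dif_symm h.mem u, h1, map_zero]
  · have h1 : ContDiffAt ℝ ∞ (fun y => chartAt F p (e.symm y)) 0 :=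
      contMDiffAt_iff_contDiffAt.1
        ((chart_smooth p (hp ▸ mem_chart_source F p)).comp 0 (h.smooth_symm 0 h0))
    have h2 : ContDiffAt ℝ 1 (fun y => chartForm σ p (chartAt F p (e.symm y))) 0 :=
      (ContDiffAt.comp (g := chartForm σ p) 0 (by rw [hp]; exact hσ.smooth p) h1).of_le
        (by norm_cast)
    refine (trans_bil h2 (h1.fderiv_right (by norm_cast))).congr_of_eventuallyEq ?_
    have h3 : ∀ᶠ y in 𝓝 (0 : G), e.symm y ∈ (chartAt F p).source :=
      (e.continuousAt_symm h0).eventually_mem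
        ((chartAt F p).open_source.mem_nhds (hp ▸ mem_chart_source F p))
    filter_upwards [h3, e.open_target.mem_nhds h0] with y a1 a2
    ext u v
    rw [← dif_fderiv, dif_comp ((chart_smooth p a1).mdifferentiableAt (by simp))
      ((h.smooth_symm y a2).mdifferentiableAt (by simp))]
    simp only [pull, ContinuousLinearMap.bilinearComp_apply, ContinuousLinearMap.comp_apply,
      chartForm_apply σ p a1]
  · filter_upwards [e.open_target.mem_nhds h0] with y a1
    have h1 := h.hasFDerivAt (σ := σ) (e.map_target a1) ((hg _).mdifferentiableAt (by simp))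
      (hX _)
    rwa [hl _ (e.map_target a1), e.right_inv a1] at h1

end Pool.Agent.P.MP_49bf82_gt
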