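import Pool.Agent.P.MP_49bf82_gt.BochB
import Pool.Agent.P.MP_49bf82_gt.Trans
import Pool.Agent.P.MP_49bf82_gt.QuadB
import Pool.Agent.P.MP_49bf82_gt.LinB
import Pool.Agent.P.MP_49bf82_gt.Fix
import Pool.Agent.P.MP_49bf82_gt.Reg

open Manifold Set Filter Topology
open scoped ContDiff RealInnerProductSpace

namespace Pool.Agent.P.MP_49bf82_gt

open Pool.Agent.P.MP_e3ee0c_gt

variable {F : Type*} [NormedAddCommGroup F] [NormedSpace ℝ F] [FiniteDimensional ℝ F]
  {W : Type*} [TopologicalSpace W] [ChartedSpace F W] [IsManifold 𝓘(ℝ, F) ∞ W]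

variable {φ : R2 → W → W} {m : W → ℂ} {σ : W → F →L[ℝ] F →L[ℝ] ℝ}

theorem Ham.dif_pr (hH : Ham σ φ m) (hm : ContMDiff 𝓘(ℝ, F) 𝓘(ℝ, ℂ) ∞ m) (ξ : R2) :
    ContMDiff 𝓘(ℝ, F) 𝓘(ℝ, ℝ) ∞ (fun x => pr ξ (m x)) ∧
      ∀ x w, dif F ℝ (fun x => pr ξ (m x)) x w = -σ x (gen F φ ξ x) w := by
  refine ⟨(pr ξ).contMDiff.comp hm, fun x w => ?_⟩
  rw [dif_comp (E := F) (F := ℂ) (G := ℝ) (g := pr ξ) (f := m)
    (((pr ξ).contMDiff (n := ∞)).mdifferentiableAt (by simp))
    (hm.mdifferentiableAt (by simp)), dif_fderiv, ContinuousLinearMap.fderiv]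
  exact hH.ham x ξ w

/-- A linearised field vanishes along a line in the kernel. -/
theorem crita_kill {G : Type*} [NormedAddCommGroup G] [InnerProductSpace ℝ G]
    [FiniteDimensional ℝ G] {e : OpenPartialHomeomorph W G} {p : W} (he : SChart F e p)
    {X : W → F} {A : G →L[ℝ] G} (hl : ∀ x ∈ e.source, dif F G e x (X x) = A (e x)) {v : G}
    (hv : A v = 0) : ∀ᶠ s in 𝓝 (0 : ℝ), X (e.symm (s • v)) = 0 := by
  have h0 : (0 : G) ∈ e.target := he.zero ▸ e.map_source he.mem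
  have hc : Continuous fun s : ℝ => s • v := by fun_prop
  have ht : ∀ᶠ s in 𝓝 (0 : ℝ), s • v ∈ e.target :=
    hc.continuousAt.eventually_mem (e.open_target.mem_nhds (by simpa using h0))
  filter_upwards [ht] with s hs
  have h1 := he.symm_dif (e.map_target hs) (X (e.symm (s • v)))
  rw [hl _ (e.map_target hs), e.right_inv hs, map_smul, hv, smul_zero, map_zero] at h1
  exact h1.symm

omit [FiniteDimensional ℝ F] [IsManifold 𝓘(ℝ, F) ∞ W] in
theorem crita_symm {G : Type*} [NormedAddCommGroup G] [InnerProductSpace ℝ G]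
    {e : OpenPartialHomeomorph W G} {p : W} (he : SChart F e p) : e.symm 0 = p := by
  rw [← he.zero]
  exact e.left_inv he.mem

theorem crita_model {G : Type*} [NormedAddCommGroup G] [InnerProductSpace ℝ G]
    [FiniteDimensional ℝ G] (hH : Ham σ φ m) (hm : ContMDiff 𝓘(ℝ, F) 𝓘(ℝ, ℂ) ∞ m)
    {e : OpenPartialHomeomorph W G} {p : W} {A : R2 →L[ℝ] G →L[ℝ] G} (he : IsLin F φ p e A)
    (ξ : R2) : Model (A ξ) (pull σ e) ((fun z => pr ξ (m z)) ∘ e.symm) :=
  he.chart.model hH.symplectic (hH.dif_pr hm ξ).1 (hH.dif_pr hm ξ).2 (he.skew ξ)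
    fun x hx => he.gen x hx ξ

/-- At a critical point the component of the moment map has a local minimum or is good. -/
theorem Ham.crit_good [T2Space W] (hH : Ham σ φ m) (hφ : IsAction F φ)
    (hm : ContMDiff 𝓘(ℝ, F) 𝓘(ℝ, ℂ) ∞ m) {x : W} (hx : gen F φ theta x = 0) {T : Set W}
    (hT : T ∈ 𝓝 x) :
    IsLocalMin (fun z => pr theta (m z)) x ∨ Good (fun z => pr theta (m z)) x T := by
  obtain ⟨n, e, A, he⟩ := hφ.bochner (hφ.fix_theta (hφ.fix_of_gen hx))
  have hM := crita_model hH hm he theta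
  by_cases h0 : ∃ u, 0 < pull σ e 0 (A theta u) u
  · refine Or.inr (Good.chart e he.chart.mem ?_)
    rw [he.chart.zero]
    refine hM.good h0 ?_
    have h1 : (0 : EuclideanSpace ℝ (Fin n)) ∈ e.target := he.chart.zero ▸ e.map_source he.chart.mem
    refine inter_mem (e.open_target.mem_nhds h1) ((e.continuousAt_symm h1).preimage_mem_nhds ?_)
    rwa [crita_symm he.chart]
  · refine Or.inl (isLocalMin_chart e he.chart.mem ?_)
    rw [he.chart.zero]
    exact hM.min fun u => not_lt.1 fun h => h0 ⟨u, h⟩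

/-- A minimum on the set of points with infinite stabiliser is fixed by the torus. -/
theorem Ham.min_fixed [T2Space W] (hH : Ham σ φ m) (hφ : IsAction F φ)
    (hm : ContMDiff 𝓘(ℝ, F) 𝓘(ℝ, ℂ) ∞ m) {p : W} (hp : ∃ ξ, ξ ≠ 0 ∧ gen F φ ξ p = 0)
    (hmin : ∀ x, (∃ ξ, ξ ≠ 0 ∧ gen F φ ξ x = 0) → pr theta (m p) ≤ pr theta (m x)) :
    gen F φ theta p = 0 := by
  by_contra hne
  obtain ⟨ξ, hξ, hp⟩ := hp
  obtain ⟨k, hk, hfix⟩ := hφ.fix_circle hξ (hφ.fix_of_gen hp)
  obtain ⟨hψ, hgen⟩ := hφ.circle k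
  obtain ⟨n, e, A, he⟩ := hψ.bochner (p := p) fun t => hfix (t 0)
  have hl : ∀ x ∈ e.source, dif F (EuclideanSpace ℝ (Fin n)) e x (gen F φ (rv k) x) =
      A ![1, 0] (e x) := fun x hx => by rw [← hgen]; exact he.gen x hx _
  have hP := (he.chart.model hH.symplectic (hH.dif_pr hm (rv k)).1 (hH.dif_pr hm (rv k)).2
    (he.skew ![1, 0]) hl).pair
  have hx0 : dif F (EuclideanSpace ℝ (Fin n)) e p (gen F φ theta p) ≠ 0 := by
    intro h
    have h1 := he.chart.symm_dif he.chart.mem (gen F φ theta p)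
    rw [h, map_zero] at h1
    exact hne h1.symm
  have hA : A ![1, 0] (dif F (EuclideanSpace ℝ (Fin n)) e p (gen F φ theta p)) = 0 := by
    have g0 : φ ((0 : ℝ) • theta) p = p := by rw [zero_smul, hφ.zero]
    have h1 := hasDerivAt_comp_curve (g := e) (hφ.gen_curve theta p 0) (by
      rw [g0]
      exact (he.chart.smooth p he.chart.mem).mdifferentiableAt (by simp))
    beta_reduce at h1
    rw [g0] at h1
    have h2 := (A ![1, 0]).hasFDerivAt.comp_hasDerivAt (0 : ℝ) h1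
    have h3 : ∀ᶠ s in 𝓝 (0 : ℝ), φ (s • theta) p ∈ e.source :=
      (hφ.gen_curve theta p).continuous.continuousAt.eventually_mem
        (e.open_source.mem_nhds (by rw [g0]; exact he.chart.mem))
    refine h2.unique
      ((hasDerivAt_const (0 : ℝ) (0 : EuclideanSpace ℝ (Fin n))).congr_of_eventuallyEq ?_)
    filter_upwards [h3] with s hs
    show A ![1, 0] (e (φ (s • theta) p)) = 0
    rw [← hl _ hs, ← hφ.gen_inv (rv k) (s • theta) p, hφ.gen_of_fix hfix, map_zero, map_zero]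
  obtain ⟨v, hv, hB⟩ := hP.ker_pair hA hx0
  have h1 := he.chart.hasFDerivAt he.chart.mem
    ((hH.dif_pr hm theta).1.mdifferentiableAt (by simp)) ((hH.dif_pr hm theta).2 p)
  rw [he.chart.zero] at h1
  have h2 : HasDerivAt (fun s : ℝ => s • v) v 0 := by
    simpa using (hasDerivAt_id (0 : ℝ)).smul_const v
  have h3 := HasFDerivAt.comp_hasDerivAt_of_eq (0 : ℝ) h1 h2 (zero_smul ℝ v).symm
  refine hB (neg_eq_zero.1 (IsLocalMin.hasDerivAt_eq_zero ?_ h3))
  filter_upwards [crita_kill he.chart hl hv] with s hs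
  show pr theta (m (e.symm ((0 : ℝ) • v))) ≤ pr theta (m (e.symm (s • v)))
  rw [zero_smul, crita_symm he.chart]
  exact hmin _ ⟨rv k, hk, hs⟩

/-- and is a local minimum. -/
theorem Ham.min_local [T2Space W] (hH : Ham σ φ m) (hφ : IsAction F φ)
    (hm : ContMDiff 𝓘(ℝ, F) 𝓘(ℝ, ℂ) ∞ m) {p : W} (hp : gen F φ theta p = 0)
    (hmin : ∀ x, (∃ ξ, ξ ≠ 0 ∧ gen F φ ξ x = 0) → pr theta (m p) ≤ pr theta (m x)) :
    IsLocalMin (fun z => pr theta (m z)) p := by
  obtain ⟨n, e, A, he⟩ := hφ.bochner (hφ.fix_theta (hφ.fix_of_gen hp))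
  have hM := crita_model hH hm he
  refine isLocalMin_chart e he.chart.mem ?_
  rw [he.chart.zero]
  refine (hM theta).min fun u => not_lt.1 fun h => ?_
  obtain ⟨v, ξ, hξ, hv, h0⟩ := exists_common (fun ξ => (hM ξ).pair) he.comm (θ := theta)
    (by simp [theta]) ⟨u, h⟩
  obtain ⟨s, h1, h2⟩ := (((hM theta).neg_dir h0).and
    ((crita_kill he.chart (fun x hx => he.gen x hx ξ) hv).filter_mono nhdsWithin_le_nhds)).exists
  refine absurd h1 (not_lt.2 ?_)
  show pr theta (m (e.symm 0)) ≤ pr theta (m (e.symm (s • v)))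
  rw [crita_symm he.chart]
  exact hmin _ ⟨ξ, hξ, h2⟩

end Pool.Agent.P.MP_49bf82_gt
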