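import Pool.Agent.P.MP_49bf82_gt.Height

open Manifold Set Filter Topology
open scoped ContDiff RealInnerProductSpace

namespace Pool.Agent.P.MP_49bf82_gt

open Pool.Agent.P.MP_e3ee0c_gt

variable {E F : Type*} [NormedAddCommGroup E] [NormedSpace ℝ E] [FiniteDimensional ℝ E]
  [NormedAddCommGroup F] [NormedSpace ℝ F] [FiniteDimensional ℝ F]
  {V W : Type*} [TopologicalSpace V] [ChartedSpace E V] [IsManifold 𝓘(ℝ, E) ∞ V]
  [TopologicalSpace W] [ChartedSpace F W] [IsManifold 𝓘(ℝ, F) ∞ W]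
  {Φ : V → ℂ} {ι : ℝ × V × R2 → W} {φ : R2 → W → W} {m : W → ℂ} {h : W → ℝ}
  {f : ℝ → V → V} {a : ℝ × V → ℝ} {σ : W → F →L[ℝ] F →L[ℝ] ℝ}

theorem IsEnd.bijective (he : IsEnd E F ι φ) {y : ℝ × V × R2} (hy : 0 < y.1) :
    Function.Bijective (dEnd E F ι y) :=
  ((he.localDiffeo y hy).mfderivToContinuousLinearEquiv (by simp)).bijective

theorem endd_mdiff (he : IsEnd E F ι φ) {y : ℝ × V × R2} (hy : 0 < y.1) :
    MDifferentiableAt (I3 E) 𝓘(ℝ, F) ι y :=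
  (he.localDiffeo y hy).mdifferentiableAt (by simp)

theorem IsEnd.gen_eq (he : IsEnd E F ι φ) {y : ℝ × V × R2} (hy : 0 < y.1) (ξ : R2) :
    gen F φ ξ (ι y) = dEnd E F ι y (0, 0, ξ) := by
  obtain ⟨s, v, u⟩ := y
  have h1 : ∀ z, z = (s, v, u) → HasMFDerivAt (I3 E) 𝓘(ℝ, F) ι z (dEnd E F ι (s, v, u)) := by
    rintro _ rfl
    exact (endd_mdiff he hy).hasMFDerivAt
  have h2 : HasMFDerivAt 𝓘(ℝ, R2) 𝓘(ℝ, R2) (fun t : R2 => u + t) 0 (ContinuousLinearMap.id ℝ R2) :=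
    ((hasFDerivAt_id (0 : R2)).const_add u).hasMFDerivAt
  have h3 := (hasMFDerivAt_const (I := 𝓘(ℝ, R2)) (I' := 𝓘(ℝ, ℝ)) s (0 : R2)).prodMk
    ((hasMFDerivAt_const (I := 𝓘(ℝ, R2)) (I' := 𝓘(ℝ, E)) v (0 : R2)).prodMk h2)
  have h4 := (HasMFDerivAt.comp (0 : R2) (h1 _ (by simp)) h3).mfderiv
  rw [gen, funext fun t => he.equivariant s v u t hy]
  exact congrArg (fun L : R2 →L[ℝ] F => L ξ) h4

/-- Chain rule through the end. -/
theorem IsEnd.dif_dEnd (he : IsEnd E F ι φ) {G : Type*} [NormedAddCommGroup G] [NormedSpace ℝ G]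
    {g : W → G} {y : ℝ × V × R2} (hy : 0 < y.1)
    (hg : MDifferentiableAt 𝓘(ℝ, F) 𝓘(ℝ, G) g (ι y)) (b : ℝ × E × R2) :
    dif F G g (ι y) (dEnd E F ι y b) = mfderiv (I3 E) 𝓘(ℝ, G) (fun z => g (ι z)) y b :=
  (congrArg (fun L : (ℝ × E × R2) →L[ℝ] G => L b) (mfderiv_comp y hg (endd_mdiff he hy))).symm

theorem hasMFDerivAt_expPhi (hΦ : ContMDiff 𝓘(ℝ, E) 𝓘(ℝ, ℂ) ∞ Φ) (y : ℝ × V × R2) :
    MDifferentiableAt (I3 E) 𝓘(ℝ, ℂ) (fun z : ℝ × V × R2 => (Real.exp z.1 : ℂ) * Φ z.2.1) y ∧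
    ∀ b : ℝ × E × R2, mfderiv (I3 E) 𝓘(ℝ, ℂ) (fun z : ℝ × V × R2 => (Real.exp z.1 : ℂ) * Φ z.2.1)
      y b = (Real.exp y.1 : ℂ) * ((b.1 : ℂ) * Φ y.2.1 + dif E ℂ Φ y.2.1 b.2.1) := by
  have h1 := HasMFDerivAt.comp y
    (Real.hasDerivAt_exp y.1).ofReal_comp.hasFDerivAt.hasMFDerivAt
    (hasMFDerivAt_fst (I := 𝓘(ℝ, ℝ)) (I' := 𝓘(ℝ, E).prod 𝓘(ℝ, R2)) y)
  have h2 := HasMFDerivAt.comp y (hasMF_dif (hΦ.mdifferentiableAt (x := y.2.1) (by simp)))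
    (HasMFDerivAt.comp y (hasMFDerivAt_fst (I := 𝓘(ℝ, E)) (I' := 𝓘(ℝ, R2)) y.2)
      (hasMFDerivAt_snd (I := 𝓘(ℝ, ℝ)) (I' := 𝓘(ℝ, E).prod 𝓘(ℝ, R2)) y))
  have h3 := h1.mul' h2
  refine ⟨h3.mdifferentiableAt, fun b => ?_⟩
  refine (congrArg (fun L : (ℝ × E × R2) →L[ℝ] ℂ => L b) h3.mfderiv).trans ?_
  show (Real.exp y.1 : ℂ) * dif E ℂ Φ y.2.1 b.2.1 + (b.1 • (Real.exp y.1 : ℂ)) * Φ y.2.1 = _
  rw [Complex.real_smul]
  ring

theorem endd_pos {c : ℝ} {y : ℝ × V × R2} (hy : c < y.1) : ∀ᶠ z : ℝ × V × R2 in 𝓝 y, c < z.1 :=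
  (isOpen_lt continuous_const continuous_fst).mem_nhds hy

theorem Core.dif_m (hc : Core E F Φ ι φ m) {y : ℝ × V × R2} (hy : 0 < y.1) (b : ℝ × E × R2) :
    dif F ℂ m (ι y) (dEnd E F ι y b) =
      (Real.exp y.1 : ℂ) * ((b.1 : ℂ) * Φ y.2.1 + dif E ℂ Φ y.2.1 b.2.1) := by
  rw [hc.isEnd.dif_dEnd hy (hc.smooth.mdifferentiableAt (by simp)),
    ← (hasMFDerivAt_expPhi hc.smoothV y).2 b]
  exact congrArg (fun L : (ℝ × E × R2) →L[ℝ] ℂ => L b)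
    (Filter.EventuallyEq.mfderiv_eq ((endd_pos hy).mono hc.onEnd))

theorem IsHeight.dif_h (hh : IsHeight F ι φ h) (he : IsEnd E F ι φ) {y : ℝ × V × R2}
    (hy : 2 < y.1) (b : ℝ × E × R2) : dif F ℝ h (ι y) (dEnd E F ι y b) = b.1 := by
  rw [he.dif_dEnd (by linarith) (hh.smooth.mdifferentiableAt (by simp))]
  have h1 := (hasMFDerivAt_fst (I := 𝓘(ℝ, ℝ)) (I' := 𝓘(ℝ, E).prod 𝓘(ℝ, R2)) y).congr_of_eventuallyEq
    (f₁ := fun z => h (ι z)) ((endd_pos hy).mono fun z hz => hh.onEnd z hz.le)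
  exact congrArg (fun L : (ℝ × E × R2) →L[ℝ] ℝ => L b) h1.mfderiv

theorem Core.dense_ne (hc : Core E F Φ ι φ m)
    (hs : ∀ y : ℝ × V × R2, 0 < y.1 → Function.Surjective (dif F ℂ m (ι y))) :
    Dense {v | Φ v ≠ 0} := by
  intro v
  by_contra hv
  have h1 : Φ =ᶠ[𝓝 v] fun _ => 0 := by
    filter_upwards [isClosed_closure.isOpen_compl.mem_nhds hv] with w hw
    by_contra c
    exact hw (subset_closure c)
  have h2 : dif E ℂ Φ v = 0 := (dif_congr h1).trans mfderiv_const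
  obtain ⟨w, hw⟩ := hs (1, v, 0) one_pos 1
  obtain ⟨b, rfl⟩ := (hc.isEnd.bijective (y := (1, v, 0)) one_pos).2 w
  rw [hc.dif_m one_pos] at hw
  simp [h2, h1.self_of_nhds] at hw

theorem Ham.surjective_iff (hH : Ham σ φ m) (x : W) :
    Function.Surjective (dif F ℂ m x) ↔ ∀ ξ, gen F φ ξ x = 0 → ξ = 0 := by
  refine ⟨fun hs ξ h0 => ?_, fun h0 => ?_⟩
  · have h1 : ∀ z, pr ξ z = 0 := fun z => by
      obtain ⟨w, rfl⟩ := hs z
      rw [hH.ham, h0]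
      simp
    have h2 := h1 1
    have h3 := h1 Complex.I
    ext i
    fin_cases i
    · simpa [pr_apply] using h2
    · simpa [pr_apply] using h3
  · by_contra hs
    obtain ⟨l, l0, l1⟩ := Submodule.exists_le_ker_of_lt_top
      (LinearMap.range (dif F ℂ m x : F →ₗ[ℝ] ℂ))
      (lt_top_iff_ne_top.2 fun c => hs (LinearMap.range_eq_top.1 c))
    have h1 : ∀ z, pr ![l 1, -l Complex.I] z = l z := fun z => by
      conv_rhs => rw [← Complex.re_add_im z, ← mul_one (z.re : ℂ), ← Complex.real_smul,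
        ← Complex.real_smul, map_add, map_smul, map_smul]
      simp [pr_apply, mul_comm]
    have h2 := h0 ![l 1, -l Complex.I] (hH.symplectic.nondeg x _ fun w => by
      have := hH.ham x ![l 1, -l Complex.I] w
      rw [h1, show l (dif F ℂ m x w) = 0 from l1 ⟨w, rfl⟩] at this
      linarith)
    refine l0 (LinearMap.ext fun z => ?_)
    rw [← h1, h2]
    simp [pr_apply]

theorem Ham.surjective_end (hH : Ham σ φ m) (he : IsEnd E F ι φ) (y : ℝ × V × R2) (hy : 0 < y.1) :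
    Function.Surjective (dif F ℂ m (ι y)) := by
  refine (hH.surjective_iff _).2 fun ξ h0 => ?_
  rw [he.gen_eq hy, ← map_zero (dEnd E F ι y)] at h0
  exact congrArg (fun b : ℝ × E × R2 => b.2.2) ((he.bijective hy).1 h0)

end Pool.Agent.P.MP_49bf82_gt
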