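import Pool.Agent.P.MP_49bf82_gt.VF

open Manifold Set Filter Topology
open scoped ContDiff RealInnerProductSpace

namespace Pool.Agent.P.MP_49bf82_gt

open Pool.Agent.P.MP_e3ee0c_gt

variable {F : Type*} [NormedAddCommGroup F] [NormedSpace ℝ F] [FiniteDimensional ℝ F]
  {W : Type*} [TopologicalSpace W] [ChartedSpace F W] [IsManifold 𝓘(ℝ, F) ∞ W]

variable {G : Type*} [NormedAddCommGroup G] [NormedSpace ℝ G] [FiniteDimensional ℝ G]

omit [FiniteDimensional ℝ F] [FiniteDimensional ℝ G] in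
theorem lift_smooth {m : W → G} (hm : ContMDiff 𝓘(ℝ, F) 𝓘(ℝ, G) ∞ m) (p : W) {x : W}
    (hx : x ∈ (chartAt F p).source) :
    ContDiffAt ℝ ∞ (fun z => m ((chartAt F p).symm z)) (chartAt F p x) :=
  contMDiffAt_iff_contDiffAt.1
    ((hm _).comp _ (chart_symm_smooth p ((chartAt F p).map_source hx)))

omit [FiniteDimensional ℝ F] [FiniteDimensional ℝ G] in
theorem lift_fderiv {m : W → G} (hm : ContMDiff 𝓘(ℝ, F) 𝓘(ℝ, G) ∞ m) (p : W) {x : W}
    (hx : x ∈ (chartAt F p).source) (v : F) :
    fderiv ℝ (fun z => m ((chartAt F p).symm z)) (chartAt F p x) v =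
      dif F G m x (dif F F (chartAt F p).symm (chartAt F p x) v) := by
  rw [← dif_fderiv, dif_comp ((hm _).mdifferentiableAt (by simp))
    ((chart_symm_smooth p ((chartAt F p).map_source hx)).mdifferentiableAt (by simp)),
    (chartAt F p).left_inv hx]
  rfl

omit [FiniteDimensional ℝ F] [FiniteDimensional ℝ G] in
theorem lift_smooth' {m : W → G} (hm : ContMDiff 𝓘(ℝ, F) 𝓘(ℝ, G) ∞ m) (p : W) {x : W}
    (hx : x ∈ (chartAt F p).source) :
    ContDiffAt ℝ ∞ (fderiv ℝ (fun z => m ((chartAt F p).symm z))) (chartAt F p x) :=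
  (lift_smooth hm p hx).fderiv_right (by simp)

omit [FiniteDimensional ℝ F] in
theorem lift_inv {m : W → G} (hm : ContMDiff 𝓘(ℝ, F) 𝓘(ℝ, G) ∞ m) {p : W}
    (hs : Function.Surjective (dif F G m p)) : ∃ R : G →L[ℝ] F, ∀ᶠ x in 𝓝 p,
      x ∈ (chartAt F p).source ∧
      ((fderiv ℝ (fun z => m ((chartAt F p).symm z)) (chartAt F p x)).comp R).IsInvertible := by
  have : CompleteSpace G := FiniteDimensional.complete ℝ G
  have hp := mem_chart_source F p
  obtain ⟨R, hR⟩ := (dif F G m p).exists_rightInverse_of_surjective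
    (LinearMap.range_eq_top.2 hs)
  have h0 : (fderiv ℝ (fun z => m ((chartAt F p).symm z)) (chartAt F p p)).comp R =
      (ContinuousLinearEquiv.refl ℝ G : G →L[ℝ] G) := by
    ext v
    rw [ContinuousLinearMap.comp_apply, lift_fderiv hm p hp, dif_chart_symm_self]
    exact congrArg (fun L : G →L[ℝ] G => L v) hR
  have h1 : ContinuousAt
      (fun x => (fderiv ℝ (fun z => m ((chartAt F p).symm z)) (chartAt F p x)).comp R) p :=
    ((lift_smooth' hm p hp).continuousAt.comp ((chartAt F p).continuousAt hp)).clm_comp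
      continuousAt_const
  have h2 := h1.eventually_mem (h0 ▸ (ContinuousLinearEquiv.refl ℝ G).nhds)
  refine ⟨R, ?_⟩
  filter_upwards [(chartAt F p).open_source.mem_nhds hp, h2] with x hx hx2
  exact ⟨hx, hx2⟩

/-- Local lifts through a submersion. -/
theorem local_lift {m w : W → G} (hm : ContMDiff 𝓘(ℝ, F) 𝓘(ℝ, G) ∞ m)
    (hw : ContMDiff 𝓘(ℝ, F) 𝓘(ℝ, G) ∞ w) {p : W} (hs : Function.Surjective (dif F G m p)) {y : F}
    (hy : dif F G m p y = w p) :
    ∃ Y : W → F, Y p = y ∧ ∀ᶠ x in 𝓝 p, VFAt Y x ∧ dif F G m x (Y x) = w x := by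
  have : CompleteSpace G := FiniteDimensional.complete ℝ G
  obtain ⟨R, hR⟩ := lift_inv hm hs
  have hp := mem_chart_source F p
  refine ⟨fun x => dif F F (chartAt F p).symm (chartAt F p x)
    ((fun z => y + R (((fderiv ℝ (fun z => m ((chartAt F p).symm z)) z).comp R).inverse
      (w ((chartAt F p).symm z) - fderiv ℝ (fun z => m ((chartAt F p).symm z)) z y)))
        (chartAt F p x)), ?_, ?_⟩
  · simp only
    rw [dif_chart_symm_self, lift_fderiv hm p hp, dif_chart_symm_self, (chartAt F p).left_inv hp,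
      hy, sub_self, map_zero, map_zero, add_zero]
  · filter_upwards [hR] with x hx
    have h1 := lift_smooth' hm p hx.1
    have h0 : ContDiffAt ℝ ∞
        (fun z => (fderiv ℝ (fun z => m ((chartAt F p).symm z)) z).comp R) (chartAt F p x) :=
      h1.clm_comp contDiffAt_const
    have h2 := (ContDiffAt.comp (g := ContinuousLinearMap.inverse) (chartAt F p x)
      hx.2.contDiffAt_map_inverse h0).clm_apply
      ((lift_smooth hw p hx.1).sub (h1.clm_apply (contDiffAt_const (c := y))))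
    have h3 : ContDiffAt ℝ ∞
        (fun z => y + R (((fderiv ℝ (fun z => m ((chartAt F p).symm z)) z).comp R).inverse
          (w ((chartAt F p).symm z) - fderiv ℝ (fun z => m ((chartAt F p).symm z)) z y)))
        (chartAt F p x) := contDiffAt_const.add (R.contDiff.contDiffAt.comp _ h2)
    refine ⟨vfAt_of_chart p hx.1 h3, ?_⟩
    rw [← lift_fderiv hm p hx.1, map_add, ← ContinuousLinearMap.comp_apply _ R,
      hx.2.self_apply_inverse, (chartAt F p).left_inv hx.1, add_sub_cancel]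

theorem isOpen_surjective {m : W → G} (hm : ContMDiff 𝓘(ℝ, F) 𝓘(ℝ, G) ∞ m) :
    IsOpen {x | Function.Surjective (dif F G m x)} := by
  refine isOpen_iff_mem_nhds.2 fun p hs => ?_
  obtain ⟨R, hR⟩ := lift_inv hm hs
  filter_upwards [hR] with x hx v
  obtain ⟨u, hu⟩ := hx.2.surjective v
  exact ⟨_, (lift_fderiv hm p hx.1 (R u)).symm.trans hu⟩

/-- On a compact manifold a function without degenerate zeros is large at its critical points. -/
theorem exists_gap [CompactSpace W] {g : W → ℝ} (hg : ContMDiff 𝓘(ℝ, F) 𝓘(ℝ, ℝ) ∞ g)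
    (h : ∀ x, dif F ℝ g x = 0 → g x ≠ 0) : ∃ δ > 0, ∀ x, dif F ℝ g x = 0 → δ ≤ |g x| := by
  have h1 : {x | dif F ℝ g x = 0} = {x | Function.Surjective (dif F ℝ g x)}ᶜ := by
    ext x
    constructor
    · intro h0 hs
      obtain ⟨v, hv⟩ := hs 1
      rw [show dif F ℝ g x = 0 from h0] at hv
      exact zero_ne_one hv
    · intro hs
      by_contra h0
      obtain ⟨v, hv⟩ := DFunLike.ne_iff.1 h0
      refine hs fun t => ⟨(t / dif F ℝ g x v) • v, ?_⟩
      rw [map_smul, smul_eq_mul, div_mul_cancel₀ _ hv]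
  have h2 : IsCompact {x | dif F ℝ g x = 0} := by
    rw [h1]
    exact (isOpen_surjective hg).isClosed_compl.isCompact
  exact h2.exists_forall_le' (f := fun x => |g x|) hg.continuous.abs.continuousOn
    fun x hx => abs_pos.2 (h x hx)

end Pool.Agent.P.MP_49bf82_gt
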