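import Pool.Agent.P.MP_49bf82_gt.Base

open Manifold Set Filter Topology
open scoped ContDiff RealInnerProductSpace

namespace Pool.Agent.P.MP_49bf82_gt

open Pool.Agent.P.MP_e3ee0c_gt

theorem top_link {X : Type*} [TopologicalSpace X] [LocallyConnectedSpace X] {g : X → ℝ}
    (hg : Continuous g) {A : Set X} (hA : IsPreconnected A) {I : Set ℝ}
    (hI : ∀ a ∈ I, ∀ b ∈ I, max a b ∈ I) (h : ∀ x ∈ A, ∃ c ∈ I, g x < c) {p q : X} (hp : p ∈ A)
    (hq : q ∈ A) : ∃ c ∈ I, q ∈ connectedComponentIn {y | g y < c} p := by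
  refine hA.induction₂' (fun x y => ∃ c ∈ I, y ∈ connectedComponentIn {y | g y < c} x)
    (fun x hx => ?_) ?_ hp hq
  · obtain ⟨c, hc, hx'⟩ := h x hx
    have o : IsOpen (connectedComponentIn {y | g y < c} x) :=
      (isOpen_lt hg continuous_const).connectedComponentIn
    have m : x ∈ connectedComponentIn {y | g y < c} x := mem_connectedComponentIn hx'
    filter_upwards [mem_nhdsWithin_of_mem_nhds (o.mem_nhds m)] with y hy
    exact ⟨⟨c, hc, hy⟩, c, hc, connectedComponentIn_eq hy ▸ m⟩
  · rintro x y z - - - ⟨a, ha, h1⟩ ⟨b, hb, h2⟩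
    have k1 := connectedComponentIn_mono x (F := {y | g y < a}) (G := {y | g y < max a b})
      (fun w (hw : g w < a) => hw.trans_le (le_max_left a b)) h1
    have k2 := connectedComponentIn_mono y (F := {y | g y < b}) (G := {y | g y < max a b})
      (fun w (hw : g w < b) => hw.trans_le (le_max_right a b)) h2
    exact ⟨max a b, hI a ha b hb, connectedComponentIn_eq k1 ▸ k2⟩

theorem top_not_min {X : Type*} [TopologicalSpace X] {g : X → ℝ} {A : Set X} {x : X}
    (hA : ∀ y ∈ A, g y < g x) (hx : x ∈ closure A) : ¬ IsLocalMin g x := fun h => by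
  obtain ⟨y, h1, h2⟩ := mem_closure_iff_nhds.1 hx _ h
  exact absurd (hA y h2) (not_lt.2 h1)

/-- Mountain pass: a proper function that is good at every point above the level of a local
minimum which is not a local minimum has no smaller value. -/
theorem pass {X : Type*} [TopologicalSpace X] [T2Space X] [ConnectedSpace X]
    [LocallyConnectedSpace X] {g : X → ℝ} (hg : Continuous g) (hc : ∀ c, IsCompact {x | g x ≤ c})
    {p q : X} (hq : g q < g p) (hp : IsLocalMin g p)
    (hloc : ∀ x, g p ≤ g x → IsLocalMin g x ∨ Good g x univ) : False := by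
  let S : Set ℝ := {c | q ∈ connectedComponentIn {y | g y < c} p}
  have Sn : S.Nonempty := by
    obtain ⟨c, -, h⟩ := top_link hg isPreconnected_univ (I := univ) (fun _ _ _ _ => mem_univ _)
      (fun x _ => ⟨g x + 1, mem_univ _, lt_add_one _⟩) (mem_univ p) (mem_univ q)
    exact ⟨c, h⟩
  have Sb : g p ∈ lowerBounds S := fun c h =>
    le_of_lt (connectedComponentIn_nonempty_iff.1 ⟨q, h⟩ : p ∈ {y | g y < c})
  obtain ⟨m, m1, m2, m3⟩ : ∃ m, g p ≤ m ∧ (∀ c ∈ S, m ≤ c) ∧ ∀ c, m < c → c ∈ S := by
    refine ⟨sInf S, le_csInf Sn Sb, fun c h => csInf_le ⟨_, Sb⟩ h, fun c h => ?_⟩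
    obtain ⟨a, ha, hac⟩ := exists_lt_of_csInf_lt Sn h
    exact connectedComponentIn_mono p (fun w hw => lt_trans hw hac) ha
  have oO : IsOpen {y | g y < m} := isOpen_lt hg continuous_const
  have cl : IsClosed {y | g y ≤ m} := isClosed_le hg continuous_const
  set A := connectedComponentIn {y | g y < m} q with hAd
  have As : A ⊆ {y | g y < m} := connectedComponentIn_subset _ _
  have qA : q ∈ A := mem_connectedComponentIn (hq.trans_le m1)
  have Ds : closure A ⊆ {y | g y ≤ m} :=
    closure_minimal (fun y hy => show g y ≤ m from le_of_lt (As hy)) cl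
  have grab : ∀ B : Set X, IsPreconnected B → B ⊆ {y | g y < m} → (B ∩ A).Nonempty → B ⊆ A := by
    rintro B h1 h2 ⟨y, y1, y2⟩
    rw [hAd, connectedComponentIn_eq y2]
    exact h1.subset_connectedComponentIn y1 h2
  have low : ∀ x ∈ closure A, g x < m → x ∈ A := fun x hx h => by
    have k : x ∈ connectedComponentIn {y | g y < m} x := mem_connectedComponentIn h
    exact grab _ isPreconnected_connectedComponentIn (connectedComponentIn_subset _ _)
      (mem_closure_iff.1 hx _ oO.connectedComponentIn k) k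
  have rel : ∀ x ∈ closure A, ∃ U, IsOpen U ∧ x ∈ U ∧ U ∩ {y | g y ≤ m} ⊆ closure A := by
    intro x hx
    rcases lt_or_eq_of_le (show g x ≤ m from Ds hx) with h | h
    · exact ⟨A, oO.connectedComponentIn, low x hx h, fun y hy => subset_closure hy.1⟩
    · obtain ⟨U, u1, u2, -, u3, u4⟩ := (hloc x (h ▸ m1)).resolve_left
        (top_not_min (fun y hy => h ▸ As hy) hx)
      rw [h] at u3 u4
      obtain ⟨y, y1, y2⟩ := mem_closure_iff.1 hx U u1 u2
      have k := grab _ u3 inter_subset_right ⟨y, ⟨y1, As y2⟩, y2⟩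
      refine ⟨U, u1, u2, fun z hz => ?_⟩
      rcases lt_or_eq_of_le (show g z ≤ m from hz.2) with e | e
      · exact subset_closure (k ⟨hz.1, e⟩)
      · exact closure_mono k (u4 ⟨hz.1, e⟩)
  have pD : p ∉ closure A := fun hx => by
    rcases lt_or_eq_of_le m1 with h | h
    · obtain ⟨c, c1, c2⟩ := top_link hg (A := A) isPreconnected_connectedComponentIn (I := Iio m)
        (fun a ha b hb => mem_Iio.2 (max_lt ha hb)) (fun x hx => (exists_between (As hx)).imp
          fun c k => ⟨k.2, k.1⟩) (low p hx h) qA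
      exact absurd (m2 c c2) (not_le.2 c1)
    · exact top_not_min (fun y hy => h ▸ As hy) hx hp
  have c2 : IsClosed ({y | g y ≤ m} \ closure A) := by
    rw [← isOpen_compl_iff, isOpen_iff_forall_mem_open]
    intro x hx
    by_cases h : x ∈ closure A
    · obtain ⟨U, u1, u2, u3⟩ := rel x h
      exact ⟨U, fun y hy k => k.2 (u3 ⟨hy, k.1⟩), u1, u2⟩
    · exact ⟨{y | g y ≤ m}ᶜ, fun y hy k => hy k.1, cl.isOpen_compl, fun k => hx ⟨k, h⟩⟩
  obtain ⟨u, v, uo, vo, h1, h2, huv⟩ := SeparatedNhds.of_isCompact_isCompact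
    ((hc m).of_isClosed_subset isClosed_closure Ds) ((hc m).of_isClosed_subset c2 sdiff_subset)
    disjoint_sdiff_right
  obtain ⟨a, a1, a2⟩ := ((hc (m + 1)).diff (uo.union vo)).exists_forall_le' (a := m)
    hg.continuousOn fun x hx => lt_of_not_ge fun k => hx.2 (by
      by_cases h : x ∈ closure A
      · exact Or.inl (h1 h)
      · exact Or.inr (h2 ⟨k, h⟩))
  have hm : m < min a (m + 1) := lt_min a1 (lt_add_one m)
  have sub : connectedComponentIn {y | g y < min a (m + 1)} p ⊆ u ∪ v := fun x hx => by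
    have k : g x < min a (m + 1) :=
      connectedComponentIn_subset {y | g y < min a (m + 1)} p hx
    by_contra n
    exact absurd (a2 x ⟨(k.trans_le (min_le_right _ _)).le, n⟩)
      (not_le.2 (k.trans_le (min_le_left _ _)))
  have := isPreconnected_connectedComponentIn.subset_left_of_subset_union uo vo huv sub
    ⟨q, m3 _ hm, h1 (subset_closure qA)⟩ (mem_connectedComponentIn (m1.trans_lt hm))
  exact disjoint_left.1 huv this (h2 ⟨m1, pD⟩)

end Pool.Agent.P.MP_49bf82_gt
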