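import Pool.Agent.P.MP_49bf82_gt.CritA
import Pool.Agent.P.MP_49bf82_gt.EndD
import Pool.Agent.P.MP_49bf82_gt.Lift
import Pool.Agent.P.MP_49bf82_gt.Top

open Manifold Set Filter Topology
open scoped ContDiff RealInnerProductSpace

namespace Pool.Agent.P.MP_49bf82_gt

open Pool.Agent.P.MP_e3ee0c_gt

variable {E F : Type*} [NormedAddCommGroup E] [NormedSpace ℝ E] [FiniteDimensional ℝ E]
  [NormedAddCommGroup F] [NormedSpace ℝ F] [FiniteDimensional ℝ F]
  {V W : Type*} [TopologicalSpace V] [ChartedSpace E V] [IsManifold 𝓘(ℝ, E) ∞ V]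
  [TopologicalSpace W] [ChartedSpace F W] [IsManifold 𝓘(ℝ, F) ∞ W]
  {Φ : V → ℂ} {ι : ℝ × V × R2 → W} {φ : R2 → W → W} {m : W → ℂ} {h : W → ℝ}
  {f : ℝ → V → V} {a : ℝ × V → ℝ} {σ : W → F →L[ℝ] F →L[ℝ] ℝ}

theorem critb_k : ∃ k k' : ℝ → ℝ, ContDiff ℝ ∞ k ∧ (∀ x, HasDerivAt k (k' x) x) ∧
    (∀ x ≤ 0, k x = 0) ∧ (∀ x ≥ 1, k x = x ^ 2) ∧ (∀ x, k x ≤ x ^ 2) ∧ (∀ x ≥ 0, 0 ≤ k' x) ∧
    ∀ x ≥ 1, 2 * x ≤ k' x := by
  have hs : ContDiff ℝ ∞ Real.smoothTransition := Real.smoothTransition.contDiff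
  have hd : ∀ x, 0 ≤ deriv Real.smoothTransition x := fun x =>
    Real.smoothTransition.monotone.deriv_nonneg
  refine ⟨fun x => x ^ 2 * Real.smoothTransition x,
    fun x => 2 * x * Real.smoothTransition x + x ^ 2 * deriv Real.smoothTransition x,
    (contDiff_id.pow 2).mul hs, fun x => ?_, fun x hx => ?_, fun x hx => ?_, fun x => ?_,
    fun x hx => ?_, fun x hx => ?_⟩
  · have h1 : HasDerivAt (fun x : ℝ => x ^ 2) (2 * x) x := by simpa using hasDerivAt_pow 2 x
    exact h1.mul (hs.differentiable (by simp) x).hasDerivAt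
  · simp [Real.smoothTransition.zero_of_nonpos hx]
  · simp [Real.smoothTransition.one_of_one_le hx]
  · exact mul_le_of_le_one_right (sq_nonneg x) (Real.smoothTransition.le_one x)
  · have := Real.smoothTransition.nonneg x
    have := hd x
    positivity
  · have := mul_nonneg (sq_nonneg x) (hd x)
    simp only [Real.smoothTransition.one_of_one_le hx]
    linarith

omit [FiniteDimensional ℝ F] [IsManifold 𝓘(ℝ, F) ∞ W] in
theorem critb_pr (hm : ContMDiff 𝓘(ℝ, F) 𝓘(ℝ, ℂ) ∞ m) (ξ : R2) :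
    ContMDiff 𝓘(ℝ, F) 𝓘(ℝ, ℝ) ∞ (fun x => pr ξ (m x)) ∧
      ∀ x w, dif F ℝ (fun x => pr ξ (m x)) x w = pr ξ (dif F ℂ m x w) := by
  refine ⟨(pr ξ).contDiff.contMDiff.comp hm, fun x w => ?_⟩
  rw [dif_comp (g := pr ξ) (pr ξ).differentiableAt.mdifferentiableAt
    (hm.mdifferentiableAt (by simp)), dif_fderiv, ContinuousLinearMap.fderiv]
  rfl

theorem critb_pr_mul (ξ : R2) (r : ℝ) (z : ℂ) : pr ξ ((r : ℂ) * z) = r * pr ξ z := by
  rw [← Complex.real_smul, map_smul, smul_eq_mul]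

theorem critb_pr_end (hc : Core E F Φ ι φ m) {y : ℝ × V × R2} (hy : 0 < y.1) (b : ℝ × E × R2) :
    pr theta (dif F ℂ m (ι y) (dEnd E F ι y b)) = Real.exp y.1 *
      (b.1 * pr theta (Φ y.2.1) + dif E ℝ (fun v => pr theta (Φ v)) y.2.1 b.2.1) := by
  rw [hc.dif_m hy, critb_pr_mul, map_add, critb_pr_mul, (critb_pr hc.smoothV theta).2]

theorem critb_gap [CompactSpace V] (hc : Core E F Φ ι φ m) (hH : Ham σ φ m) :
    ∃ δ > 0, ∀ v, dif E ℝ (fun v => pr theta (Φ v)) v = 0 → δ ≤ |pr theta (Φ v)| := by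
  refine exists_gap (critb_pr hc.smoothV theta).1 fun v hv h0 => ?_
  have hy : (0 : ℝ) < ((1, v, 0) : ℝ × V × R2).1 := one_pos
  obtain ⟨w, hw⟩ := hH.surjective_end hc.isEnd _ hy 1
  obtain ⟨b, rfl⟩ := (hc.isEnd.bijective hy).2 w
  have := critb_pr_end hc hy b
  rw [hw, hv, h0] at this
  simp [pr_apply, theta] at this

omit [FiniteDimensional ℝ F] [IsManifold 𝓘(ℝ, F) ∞ W] in
theorem critb_dif {G : W → ℝ} (hG : ContMDiff 𝓘(ℝ, F) 𝓘(ℝ, ℝ) ∞ G)
    (hh : ContMDiff 𝓘(ℝ, F) 𝓘(ℝ, ℝ) ∞ h) {k : ℝ → ℝ} {d R : ℝ} {x : W}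
    (hk : HasDerivAt k d (Real.exp (h x) - R)) (w : F) :
    dif F ℝ (fun z => G z + k (Real.exp (h z) - R)) x w =
      dif F ℝ G x w + d * Real.exp (h x) * dif F ℝ h x w := by
  have h1 : HasDerivAt (fun s => k (Real.exp s - R)) (d * Real.exp (h x)) (h x) :=
    HasDerivAt.comp (h := fun s => Real.exp s - R) (h x) hk
      ((Real.hasDerivAt_exp (h x)).sub_const R)
  have h2 := h1.hasFDerivAt.hasMFDerivAt.comp x (hasMF_dif (hh.mdifferentiableAt (by simp)))
  have h3 := (hasMF_dif (hG.mdifferentiableAt (x := x) (by simp))).add h2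
  have h4 : dif F ℝ (fun z => G z + k (Real.exp (h z) - R)) x = _ := h3.mfderiv
  rw [h4]
  show dif F ℝ G x w + dif F ℝ h x w • (d * Real.exp (h x)) = _
  rw [smul_eq_mul]
  ring

/-- A proper modification of the component of the moment map: equal to it below the height
log R, with critical values above that height at most c. -/
theorem Core.exists_proper [CompactSpace V] (hc : Core E F Φ ι φ m) (hH : Ham σ φ m)
    (hh : IsHeight F ι φ h) (c : ℝ) : ∃ R₀, ∀ R ≥ R₀, ∃ g : W → ℝ,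
      ContMDiff 𝓘(ℝ, F) 𝓘(ℝ, ℝ) ∞ g ∧ (∀ b, IsCompact {x | g x ≤ b}) ∧
      (∀ x, h x ≤ Real.log R → g x = pr theta (m x)) ∧
      ∀ x, 3 ≤ h x → dif F ℝ g x = 0 → Real.log R ≤ h x → g x < c := by
  obtain ⟨k, k', hk, hk', k0, k1, kle, kpos, kbig⟩ := critb_k
  obtain ⟨δ, hδ, hgap⟩ := critb_gap hc hH
  obtain ⟨M₀, hM₀⟩ := isCompact_univ.exists_bound_of_continuousOn
    (critb_pr hc.smoothV theta).1.continuous.continuousOn
  obtain ⟨M, hM0, hM⟩ : ∃ M, 0 ≤ M ∧ ∀ v, -M ≤ pr theta (Φ v) :=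
    ⟨max M₀ 0, le_max_right _ _, fun v => by
      have := abs_le.1 ((hM₀ v trivial).trans (le_max_left M₀ 0))
      exact this.1⟩
  have hG := (critb_pr hc.smooth theta).1
  refine ⟨max 1 (((1 + M) ^ 2 - c) / δ + 1), fun R hR => ?_⟩
  have hR1 : 1 ≤ R := (le_max_left _ _).trans hR
  have hR2 : (1 + M) ^ 2 - c < R * δ := by
    have : ((1 + M) ^ 2 - c) / δ < R := by linarith [(le_max_right _ _).trans hR]
    exact (div_lt_iff₀ hδ).1 this
  have hsm : ContMDiff 𝓘(ℝ, F) 𝓘(ℝ, ℝ) ∞ fun x => pr theta (m x) + k (Real.exp (h x) - R) :=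
    hG.add ((hk.comp (Real.contDiff_exp.sub contDiff_const)).contMDiff.comp hh.smooth)
  have hval : ∀ y : ℝ × V × R2, 2 ≤ y.1 →
      pr theta (m (ι y)) = Real.exp y.1 * pr theta (Φ y.2.1) := fun y hy => by
    rw [hc.onEnd y (by linarith), critb_pr_mul]
  refine ⟨fun x => pr theta (m x) + k (Real.exp (h x) - R), hsm, fun b => ?_, fun x hx => ?_,
    fun x h3 hx hl => ?_⟩
  · refine (hh.compact (max 2 (R + (M + |b| + M * R + 1)))).of_isClosed_subset
      (isClosed_le hsm.continuous continuous_const) fun x hx => ?_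
    by_contra hn
    have hn' : max 2 (R + (M + |b| + M * R + 1)) < h x := not_le.1 hn
    obtain ⟨y, hy, rfl⟩ := hh.big x ((le_max_left _ _).trans hn'.le)
    have hx' : pr theta (m (ι y)) + k (Real.exp (h (ι y)) - R) ≤ b := hx
    have h2 := (le_max_right _ _).trans_lt hn'
    rw [hh.onEnd y hy] at hx' h2
    have h3 := Real.add_one_le_exp y.1
    have h4 := abs_nonneg b
    have h5 := le_abs_self b
    have h6 : 0 ≤ M * R := by positivity
    have h7 := hM y.2.1
    rw [hval y hy, k1 _ (by linarith)] at hx'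
    obtain ⟨t, ht⟩ : ∃ t, Real.exp y.1 = t + R := ⟨Real.exp y.1 - R, by ring⟩
    rw [ht] at hx' h3
    have h8 : M + |b| + M * R + 1 < t := by linarith
    have h9 : -M * (t + R) ≤ (t + R) * pr theta (Φ y.2.1) := by nlinarith
    nlinarith
  · have : Real.exp (h x) ≤ R := by
      rw [← Real.exp_log (by linarith : 0 < R)]
      exact Real.exp_le_exp.2 hx
    simp only [k0 _ (by linarith : Real.exp (h x) - R ≤ 0), add_zero]
  · obtain ⟨y, hy, rfl⟩ := hh.big x (by linarith)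
    have hR3 : R ≤ Real.exp (h (ι y)) := by
      rw [← Real.exp_log (by linarith : 0 < R)]
      exact Real.exp_le_exp.2 hl
    have key : ∀ b : ℝ × E × R2, b.1 * pr theta (Φ y.2.1) +
        dif E ℝ (fun v => pr theta (Φ v)) y.2.1 b.2.1 + k' (Real.exp y.1 - R) * b.1 = 0 := by
      intro b
      have h1 := critb_dif hG hh.smooth (hk' (Real.exp (h (ι y)) - R)) (dEnd E F ι y b)
      rw [hx, (critb_pr hc.smooth theta).2, critb_pr_end hc (by linarith),
        hh.dif_h hc.isEnd (by rw [hh.onEnd y hy] at h3; linarith), hh.onEnd y hy] at h1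
      have h2 : Real.exp y.1 * (b.1 * pr theta (Φ y.2.1) +
          dif E ℝ (fun v => pr theta (Φ v)) y.2.1 b.2.1 + k' (Real.exp y.1 - R) * b.1) = 0 := by
        have h0 : (0 : F →L[ℝ] ℝ) (dEnd E F ι y b) = 0 := rfl
        linarith
      exact (mul_eq_zero.1 h2).resolve_left (Real.exp_pos _).ne'
    have e1 : pr theta (Φ y.2.1) = -k' (Real.exp y.1 - R) := by
      have := key (1, 0, 0)
      simp only [map_zero] at this
      linarith
    have e2 : dif E ℝ (fun v => pr theta (Φ v)) y.2.1 = 0 := by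
      ext η
      simpa using key (0, η, 0)
    show pr theta (m (ι y)) + k (Real.exp (h (ι y)) - R) < c
    rw [hh.onEnd y hy] at hR3 ⊢
    rw [hval y hy]
    obtain ⟨t, ht⟩ : ∃ t, Real.exp y.1 = t + R := ⟨Real.exp y.1 - R, by ring⟩
    rw [ht] at hR3 e1 ⊢
    rw [add_sub_cancel_right] at e1 ⊢
    have ht0 : 0 ≤ t := by linarith
    have e3 := kpos t ht0
    have e4 := hgap _ e2
    rw [abs_of_nonpos (by linarith)] at e4
    have e5 : t ≤ 1 + M := by
      by_contra hn
      have := kbig t (by linarith)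
      have := hM y.2.1
      linarith
    have e6 : k t ≤ (1 + M) ^ 2 := (kle t).trans (by gcongr)
    nlinarith

/-- The moment map is a submersion. -/
theorem Core.surjective [CompactSpace V] [T2Space W] [ConnectedSpace W] (hc : Core E F Φ ι φ m)
    (hH : Ham σ φ m) (hh : IsHeight F ι φ h) (hneg : ∃ v, pr theta (Φ v) < 0) (x : W) :
    Function.Surjective (dif F ℂ m x) := by
  by_contra hx
  obtain ⟨v, hv⟩ := hneg
  have hG := hH.dif_pr hc.smooth theta
  have hZ : IsCompact {x | ¬ Function.Surjective (dif F ℂ m x)} := by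
    refine (hh.compact 2).of_isClosed_subset (isOpen_surjective hc.smooth).isClosed_compl
      fun z hz => ?_
    by_contra hn
    obtain ⟨y, hy, rfl⟩ := hh.big z (not_le.1 hn).le
    exact hz (hH.surjective_end hc.isEnd y (by linarith))
  obtain ⟨p, hp, hmin⟩ := hZ.exists_isMinOn ⟨x, hx⟩ hG.1.continuous.continuousOn
  have hiff : ∀ z, ¬ Function.Surjective (dif F ℂ m z) ↔ ∃ ξ, ξ ≠ 0 ∧ gen F φ ξ z = 0 := by
    intro z
    rw [hH.surjective_iff]
    push Not
    exact ⟨fun ⟨ξ, a, b⟩ => ⟨ξ, b, a⟩, fun ⟨ξ, a, b⟩ => ⟨ξ, b, a⟩⟩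
  have hmin' : ∀ z, (∃ ξ, ξ ≠ 0 ∧ gen F φ ξ z = 0) → pr theta (m p) ≤ pr theta (m z) :=
    fun z hz => hmin ((hiff z).2 hz)
  have hloc := hH.min_local hc.action hc.smooth
    (hH.min_fixed hc.action hc.smooth ((hiff p).1 hp) hmin') hmin'
  have hp2 : h p < 2 := by
    by_contra hn
    obtain ⟨y, hy, rfl⟩ := hh.big p (not_lt.1 hn)
    exact hp (hH.surjective_end hc.isEnd y (by linarith))
  obtain ⟨R₀, hR₀⟩ := hc.exists_proper hH hh (pr theta (m p))
  obtain ⟨R, hR1, hR2, hR3⟩ : ∃ R, R₀ ≤ R ∧ Real.exp 3 ≤ R ∧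
      R * pr theta (Φ v) < pr theta (m p) := by
    refine ⟨max (max R₀ (Real.exp 3)) (pr theta (m p) / pr theta (Φ v) + 1),
      (le_max_left _ _).trans (le_max_left _ _), (le_max_right _ _).trans (le_max_left _ _), ?_⟩
    rw [← div_lt_iff_of_neg hv]
    exact (lt_add_one _).trans_le (le_max_right _ _)
  have hR0 : 0 < R := (Real.exp_pos 3).trans_le hR2
  have hl : 3 ≤ Real.log R := (Real.le_log_iff_exp_le hR0).2 hR2
  obtain ⟨g, hg, hgc, hge, hgx⟩ := hR₀ R hR1
  have hT : IsOpen {z | h z < Real.log R} := isOpen_lt hh.smooth.continuous continuous_const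
  have hev : ∀ z, h z < Real.log R → (fun z => pr theta (m z)) =ᶠ[𝓝 z] g := fun z hz => by
    filter_upwards [hT.mem_nhds hz] with w hw
    exact (hge w (le_of_lt hw)).symm
  have hgp : g p = pr theta (m p) := hge p (by linarith)
  have : LocallyConnectedSpace W := ChartedSpace.locallyConnectedSpace F W
  refine pass (q := ι (Real.log R, v, 0)) hg.continuous hgc ?_
    (hloc.congr (hev p (by linarith))) fun z hz => ?_
  · rw [hgp, hge _ (hh.onEnd (Real.log R, v, 0) (by simp only; linarith)).le,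
      hc.onEnd _ (by simp only; linarith), critb_pr_mul, Real.exp_log hR0]
    exact hR3
  · by_cases hd : dif F ℝ g z = 0
    · by_cases hz' : h z < Real.log R
      · have h0 : gen F φ theta z = 0 := by
          refine hH.symplectic.nondeg z _ fun w => ?_
          have := hG.2 z w
          rw [dif_congr (hev z hz'), hd] at this
          simpa using this
        rcases hH.crit_good hc.action hc.smooth h0 (hT.mem_nhds hz') with h1 | h1
        · exact Or.inl (h1.congr (hev z hz'))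
        · exact Or.inr (h1.congr fun w hw => (hge w (le_of_lt hw)).symm)
      · have := hgx z (by linarith) hd (not_lt.1 hz')
        linarith
    · exact Or.inr (good_of_dif (hg z) hd univ_mem)

end Pool.Agent.P.MP_49bf82_gt
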