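import Pool.Agent.P.MP_e3ee0c_gt.Defs

open Manifold Set Filter Topology Matrix
open scoped ContDiff

namespace Pool.Agent.P.MP_49bf82_gt

open Pool.Agent.P.MP_e3ee0c_gt

/-- The plane; the torus is its quotient by the integer lattice. -/
abbrev R2 : Type := Fin 2 → ℝ

/-- The model of the product of a line, a manifold modelled on E and the plane. -/
noncomputable abbrev I3 (E : Type*) [NormedAddCommGroup E] [NormedSpace ℝ E] :=
  𝓘(ℝ, ℝ).prod (𝓘(ℝ, E).prod 𝓘(ℝ, R2))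

variable {E F : Type*} [NormedAddCommGroup E] [NormedSpace ℝ E] [NormedAddCommGroup F]
  [NormedSpace ℝ F] {V W : Type*} [TopologicalSpace V] [TopologicalSpace W] [ChartedSpace E V]
  [ChartedSpace F W]

variable (E F) in
/-- The differential of a map defined on the product. -/
noncomputable def dEnd (ι : ℝ × V × R2 → W) (y : ℝ × V × R2) : (ℝ × E × R2) →L[ℝ] F :=
  mfderiv (I3 E) 𝓘(ℝ, F) ι y

/-- A 1-form written in the chart at p. -/
noncomputable def chartOne (α : V → E →L[ℝ] ℝ) (p : V) (z : E) : E →L[ℝ] ℝ :=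
  (α ((chartAt E p).symm z)).comp (dif E E (chartAt E p).symm z)

/-- The exterior derivative of a 1-form. -/
noncomputable def extD (α : V → E →L[ℝ] ℝ) (p : V) (a b : E) : ℝ :=
  fderiv ℝ (chartOne α p) (chartAt E p p) a b - fderiv ℝ (chartOne α p) (chartAt E p p) b a

/-- The Bourgeois form β = α + Φ₁ dx - Φ₂ dy at a point over v. -/
def bour (α : V → E →L[ℝ] ℝ) (Φ : V → ℂ) (v : V) (a : E × R2) : ℝ :=
  α v a.1 + (Φ v).re * a.2 0 - (Φ v).im * a.2 1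

/-- The form d(e^s β) = e^s (ds ∧ β + dα + dΦ₁ ∧ dx - dΦ₂ ∧ dy) at a point over (s, v). -/
noncomputable def symp (α : V → E →L[ℝ] ℝ) (Φ : V → ℂ) (s : ℝ) (v : V) (a b : ℝ × E × R2) : ℝ :=
  Real.exp s * (a.1 * bour α Φ v b.2 - b.1 * bour α Φ v a.2 + extD α v a.2.1 b.2.1 +
    ((dif E ℂ Φ v a.2.1).re * b.2.2 0 - (dif E ℂ Φ v b.2.1).re * a.2.2 0) -
    ((dif E ℂ Φ v a.2.1).im * b.2.2 1 - (dif E ℂ Φ v b.2.1).im * a.2.2 1))

variable (F) in
/-- A smooth action of the torus. -/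
structure IsAction (φ : R2 → W → W) : Prop where
  smooth : ContMDiff (𝓘(ℝ, R2).prod 𝓘(ℝ, F)) 𝓘(ℝ, F) ∞ (fun q : R2 × W => φ q.1 q.2)
  zero : ∀ x, φ 0 x = x
  add : ∀ s t x, φ (s + t) x = φ s (φ t x)
  periodic : ∀ (k : Fin 2 → ℤ) x, φ (fun i => (k i : ℝ)) x = x

variable (F) in
/-- The vector field generated by ξ. -/
noncomputable def gen (φ : R2 → W → W) (ξ : R2) (x : W) : F := dif R2 F (fun t => φ t x) 0 ξ

variable (E F) in
/-- ι induces an equivariant open embedding of (0, ∞) × V × T² onto an end of W whose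
complement is compact. -/
structure IsEnd (ι : ℝ × V × R2 → W) (φ : R2 → W → W) : Prop where
  localDiffeo : ∀ y : ℝ × V × R2, 0 < y.1 → IsLocalDiffeomorphAt (I3 E) 𝓘(ℝ, F) ∞ ι y
  inj : ∀ y z : ℝ × V × R2, 0 < y.1 → 0 < z.1 → ι y = ι z →
    y.1 = z.1 ∧ y.2.1 = z.2.1 ∧ ∃ k : Fin 2 → ℤ, y.2.2 = z.2.2 + fun i => (k i : ℝ)
  compact : ∀ a, 0 < a → IsCompact (ι '' {y | a < y.1})ᶜ
  closed : ∀ a, 0 < a → IsClosed (ι '' {y | a ≤ y.1})
  equivariant : ∀ s v u t, 0 < s → φ t (ι (s, v, u)) = ι (s, v, u + t)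

/-- (W, σ) is the completion of a strong filling of (V × T², ker β), and the translation action of
the torus on the end extends to a Hamiltonian action φ on W with moment map μ. -/
structure IsEquivariantFilling (α : V → E →L[ℝ] ℝ) (Φ : V → ℂ) (σ : W → F →L[ℝ] F →L[ℝ] ℝ)
    (ι : ℝ × V × R2 → W) (φ : R2 → W → W) (μ : W → R2) : Prop where
  symplectic : IsSymplectic σ
  action : IsAction F φ
  isEnd : IsEnd E F ι φ
  form : ∀ y : ℝ × V × R2, 0 < y.1 → ∀ a b,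
    σ (ι y) (dEnd E F ι y a) (dEnd E F ι y b) = symp α Φ y.1 y.2.1 a b
  smooth : ContMDiff 𝓘(ℝ, F) 𝓘(ℝ, R2) ∞ μ
  invariant : ∀ t x, μ (φ t x) = μ x
  hamiltonian : ∀ x ξ w, dif F R2 μ x w ⬝ᵥ ξ = -σ x (gen F φ ξ x) w

variable (E) in
/-- A smooth flow on V that turns the pages once in time 1, fixes the binding pointwise and whose
time 1 map is the identity near the binding. The time 1 map is the monodromy. -/
structure IsMonodromyFlow (Φ : V → ℂ) (f : ℝ → V → V) : Prop where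
  smooth : ContMDiff (𝓘(ℝ, ℝ).prod 𝓘(ℝ, E)) 𝓘(ℝ, E) ∞ (fun q : ℝ × V => f q.1 q.2)
  zero : ∀ v, f 0 v = v
  add : ∀ s t v, f (s + t) v = f s (f t v)
  turn : ∃ a : ℝ × V → ℝ, ContMDiff (𝓘(ℝ, ℝ).prod 𝓘(ℝ, E)) 𝓘(ℝ, ℝ) ∞ a ∧ ∀ t v,
    Φ (f t v) = Complex.exp (a (t, v) + 2 * Real.pi * t * Complex.I) * Φ v
  fix : ∀ t v, Φ v = 0 → f t v = v
  near : ∀ᶠ v in 𝓝ˢ {v | Φ v = 0}, f 1 v = v

variable (E) in
/-- ψ is smoothly isotopic to the identity through diffeomorphisms of V that preserve every page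
and are the identity on a fixed neighbourhood of the binding. -/
def SmoothlyTrivial (Φ : V → ℂ) (ψ : V → V) : Prop :=
  ∃ g g' : ℝ → V → V,
    ContMDiff (𝓘(ℝ, ℝ).prod 𝓘(ℝ, E)) 𝓘(ℝ, E) ∞ (fun q : ℝ × V => g q.1 q.2) ∧
    ContMDiff (𝓘(ℝ, ℝ).prod 𝓘(ℝ, E)) 𝓘(ℝ, E) ∞ (fun q : ℝ × V => g' q.1 q.2) ∧
    (∀ τ v, g' τ (g τ v) = v ∧ g τ (g' τ v) = v) ∧ (∀ v, g 0 v = v ∧ g 1 v = ψ v) ∧
    (∀ τ v, ∃ c : ℝ, 0 < c ∧ Φ (g τ v) = c * Φ v) ∧ ∀ᶠ v in 𝓝ˢ {v | Φ v = 0}, ∀ τ, g τ v = v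

end Pool.Agent.P.MP_49bf82_gt
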