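import Pool.Agent.P.MP_49bf82_gt.Height

open Manifold Set Filter Topology
open scoped ContDiff RealInnerProductSpace

namespace Pool.Agent.P.MP_49bf82_gt

open Pool.Agent.P.MP_e3ee0c_gt

variable {E F : Type*} [NormedAddCommGroup E] [NormedSpace ℝ E] [FiniteDimensional ℝ E]
  [NormedAddCommGroup F] [NormedSpace ℝ F] [FiniteDimensional ℝ F]
  {V W : Type*} [TopologicalSpace V] [ChartedSpace E V] [IsManifold 𝓘(ℝ, E) ∞ V]
  [TopologicalSpace W] [ChartedSpace F W] [IsManifold 𝓘(ℝ, F) ∞ W]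
  {Φ : V → ℂ} {ι : ℝ × V × R2 → W} {φ : R2 → W → W} {m : W → ℂ} {h : W → ℝ}
  {f : ℝ → V → V} {a : ℝ × V → ℝ} {σ : W → F →L[ℝ] F →L[ℝ] ℝ}

omit [FiniteDimensional ℝ F] [IsManifold 𝓘(ℝ, F) ∞ W] in
theorem desc_symm {G G' : ℝ → W → W} (hG : Isotopy F φ m G G') : Isotopy F φ m G' G where
  smooth := hG.smooth'
  smooth' := hG.smooth
  left := hG.right
  right := hG.left
  zero x := by
    have := hG.left 0 x
    rwa [hG.zero] at this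
  pres τ x := by
    have := hG.pres τ (G' τ x)
    rw [hG.right] at this
    exact this.symm
  equiv τ t x := by
    have h1 : φ t x = G τ (φ t (G' τ x)) := by rw [hG.equiv, hG.right]
    rw [h1, hG.left]

/-- The section of the level of radius R. -/
noncomputable def descJ (Φ : V → ℂ) (ι : ℝ × V × R2 → W) (R : ℝ) (v : V) : W :=
  ι (Real.log (R / ‖Φ v‖), v, 0)

open Classical in
/-- The descended isotopy. -/
noncomputable def descG (Φ : V → ℂ) (ι : ℝ × V × R2 → W) (R : ℝ) (p : W → V)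
    (G : ℝ → W → W) (τ : ℝ) (v : V) : V :=
  if Φ v = 0 then v else p (G τ (descJ Φ ι R v))

omit [FiniteDimensional ℝ E] [FiniteDimensional ℝ F] [IsManifold 𝓘(ℝ, E) ∞ V]
  [IsManifold 𝓘(ℝ, F) ∞ W] in
theorem desc_m (hc : Core E F Φ ι φ m) {R : ℝ} (hR : 0 < R)
    (hR₂ : ∀ v, Φ v ≠ 0 → 3 < Real.log (R / ‖Φ v‖)) {v : V} (hv : Φ v ≠ 0) :
    m (descJ Φ ι R v) = ((R / ‖Φ v‖ : ℝ) : ℂ) * Φ v ∧ ‖m (descJ Φ ι R v)‖ = R := by
  have hn : 0 < ‖Φ v‖ := norm_pos_iff.2 hv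
  have h1 : m (descJ Φ ι R v) = ((R / ‖Φ v‖ : ℝ) : ℂ) * Φ v := by
    have := hc.onEnd (Real.log (R / ‖Φ v‖), v, 0) (by linarith [hR₂ v hv])
    rw [descJ, this]
    simp only
    rw [Real.exp_log (div_pos hR hn)]
  refine ⟨h1, ?_⟩
  rw [h1, norm_mul, Complex.norm_real, Real.norm_of_nonneg (div_pos hR hn).le]
  field_simp

omit [FiniteDimensional ℝ E] [FiniteDimensional ℝ F] [IsManifold 𝓘(ℝ, E) ∞ V]
  [IsManifold 𝓘(ℝ, F) ∞ W] in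
theorem desc_key (hc : Core E F Φ ι φ m) (hh : IsHeight F ι φ h)
    {G G' : ℝ → W → W} (hG : Isotopy F φ m G G') {R : ℝ} (hR : 0 < R)
    (hR₁ : ∀ x, ‖m x‖ = R → 3 < h x) (hR₂ : ∀ v, Φ v ≠ 0 → 3 < Real.log (R / ‖Φ v‖))
    {p : W → V} (hp : ∀ y : ℝ × V × R2, 0 < y.1 → p (ι y) = y.2.1) (τ : ℝ) {v : V}
    (hv : Φ v ≠ 0) :
    (∃ y : ℝ × V × R2, 0 < y.1 ∧ ι y = G τ (descJ Φ ι R v)) ∧
    Φ (p (G τ (descJ Φ ι R v))) ≠ 0 ∧
    (∃ u, G τ (descJ Φ ι R v) = φ u (descJ Φ ι R (p (G τ (descJ Φ ι R v))))) ∧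
    ∃ c : ℝ, 0 < c ∧ Φ (p (G τ (descJ Φ ι R v))) = c * Φ v := by
  obtain ⟨h1, h2⟩ := desc_m hc hR hR₂ hv
  have hn : 0 < ‖Φ v‖ := norm_pos_iff.2 hv
  have h3 : 3 < h (G τ (descJ Φ ι R v)) := hR₁ _ (by rw [hG.pres, h2])
  obtain ⟨⟨s, w, u⟩, hs, hy⟩ := hh.big _ (by linarith : 2 ≤ h (G τ (descJ Φ ι R v)))
  simp only at hs
  have hs0 : 0 < s := by linarith
  have hw : p (G τ (descJ Φ ι R v)) = w := by rw [← hy]; exact hp _ hs0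
  have h4 : (Real.exp s : ℂ) * Φ w = ((R / ‖Φ v‖ : ℝ) : ℂ) * Φ v := by
    have := hc.onEnd (s, w, u) hs0
    rw [hy, hG.pres, h1] at this
    exact this.symm
  have he : (Real.exp s : ℂ) ≠ 0 := Complex.ofReal_ne_zero.2 (Real.exp_pos s).ne'
  have h5 : Φ w = (((Real.exp s)⁻¹ * (R / ‖Φ v‖) : ℝ) : ℂ) * Φ v := by
    rw [Complex.ofReal_mul, mul_assoc, ← h4, Complex.ofReal_inv, ← mul_assoc,
      inv_mul_cancel₀ he, one_mul]
  have hcpos : 0 < (Real.exp s)⁻¹ * (R / ‖Φ v‖) :=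
    mul_pos (inv_pos.2 (Real.exp_pos s)) (div_pos hR hn)
  have h6 : ‖Φ w‖ = (Real.exp s)⁻¹ * R := by
    rw [h5, norm_mul, Complex.norm_real, Real.norm_of_nonneg hcpos.le]
    field_simp
  have h7 : Real.log (R / ‖Φ w‖) = s := by
    rw [h6]
    have : R / ((Real.exp s)⁻¹ * R) = Real.exp s := by field_simp
    rw [this, Real.log_exp]
  rw [hw]
  refine ⟨⟨(s, w, u), hs0, hy⟩, ?_, ⟨u, ?_⟩, _, hcpos, h5⟩
  · rw [h5]
    exact mul_ne_zero (Complex.ofReal_ne_zero.2 hcpos.ne') hv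
  · rw [← hy, descJ, h7, hc.isEnd.equivariant _ _ _ _ hs0, zero_add]

omit [FiniteDimensional ℝ E] [FiniteDimensional ℝ F] [IsManifold 𝓘(ℝ, E) ∞ V]
  [IsManifold 𝓘(ℝ, F) ∞ W] in
theorem desc_inv (hc : Core E F Φ ι φ m) (hh : IsHeight F ι φ h)
    {G G' : ℝ → W → W} (hG : Isotopy F φ m G G') {R : ℝ} (hR : 0 < R)
    (hR₁ : ∀ x, ‖m x‖ = R → 3 < h x) (hR₂ : ∀ v, Φ v ≠ 0 → 3 < Real.log (R / ‖Φ v‖))
    {p : W → V} (hp : ∀ y : ℝ × V × R2, 0 < y.1 → p (ι y) = y.2.1) (τ : ℝ) (v : V) :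
    descG Φ ι R p G' τ (descG Φ ι R p G τ v) = v := by
  by_cases hv : Φ v = 0
  · simp [descG, hv]
  obtain ⟨-, h1, ⟨u, hu⟩, -⟩ := desc_key hc hh hG hR hR₁ hR₂ hp τ hv
  have e1 : descG Φ ι R p G τ v = p (G τ (descJ Φ ι R v)) := by simp [descG, hv]
  rw [e1]
  set w := p (G τ (descJ Φ ι R v)) with hw
  have e2 : descG Φ ι R p G' τ w = p (G' τ (descJ Φ ι R w)) := by simp [descG, h1]
  rw [e2]
  have h2 : descJ Φ ι R v = φ u (G' τ (descJ Φ ι R w)) := by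
    rw [← (desc_symm hG).equiv, ← hu, hG.left]
  have h3 : G' τ (descJ Φ ι R w) = φ (-u) (descJ Φ ι R v) := by
    rw [h2, ← hc.action.add, neg_add_cancel, hc.action.zero]
  have hs : 0 < Real.log (R / ‖Φ v‖) := by linarith [hR₂ v hv]
  rw [h3, descJ, hc.isEnd.equivariant _ _ _ _ hs]
  exact hp _ hs

omit [FiniteDimensional ℝ E] [FiniteDimensional ℝ F] [IsManifold 𝓘(ℝ, E) ∞ V]
  [IsManifold 𝓘(ℝ, F) ∞ W] in
theorem desc_near (hc : Core E F Φ ι φ m) (hh : IsHeight F ι φ h)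
    {G : ℝ → W → W} {R N : ℝ} (hR : 0 < R)
    (hR₂ : ∀ v, Φ v ≠ 0 → 3 < Real.log (R / ‖Φ v‖))
    (hN : ∀ τ x, ‖m x‖ ≤ R → N ≤ h x → G τ x = x)
    {p : W → V} (hp : ∀ y : ℝ × V × R2, 0 < y.1 → p (ι y) = y.2.1) (τ : ℝ) {v : V}
    (hv : ‖Φ v‖ < R * Real.exp (-N)) : descG Φ ι R p G τ v = v := by
  by_cases h0 : Φ v = 0
  · simp [descG, h0]
  have e1 : descG Φ ι R p G τ v = p (G τ (descJ Φ ι R v)) := by simp [descG, h0]
  have hn : 0 < ‖Φ v‖ := norm_pos_iff.2 h0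
  have h3 := hR₂ v h0
  have h4 : h (descJ Φ ι R v) = Real.log (R / ‖Φ v‖) := hh.onEnd _ (by simp only; linarith)
  have h5 : N ≤ Real.log (R / ‖Φ v‖) := by
    rw [Real.le_log_iff_exp_le (div_pos hR hn), le_div_iff₀ hn]
    have h6 : Real.exp N * ‖Φ v‖ ≤ Real.exp N * (R * Real.exp (-N)) :=
      mul_le_mul_of_nonneg_left hv.le (Real.exp_pos N).le
    have h7 : Real.exp N * (R * Real.exp (-N)) = R := by
      rw [Real.exp_neg]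
      field_simp
    linarith
  rw [e1, hN τ _ (desc_m hc hR hR₂ h0).2.le (by rw [h4]; exact h5)]
  exact hp _ (by simp only; linarith)

omit [FiniteDimensional ℝ E] [FiniteDimensional ℝ F] [IsManifold 𝓘(ℝ, E) ∞ V]
  [IsManifold 𝓘(ℝ, F) ∞ W] in
theorem desc_j_smooth (hc : Core E F Φ ι φ m) {R : ℝ} (hR : 0 < R)
    (hR₂ : ∀ v, Φ v ≠ 0 → 3 < Real.log (R / ‖Φ v‖)) {v : V} (hv : Φ v ≠ 0) :
    ContMDiffAt 𝓘(ℝ, E) 𝓘(ℝ, F) ∞ (descJ Φ ι R) v := by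
  have hn : 0 < ‖Φ v‖ := norm_pos_iff.2 hv
  have h1 : ContDiffAt ℝ ∞ (fun z : ℂ => Real.log (R / ‖z‖)) (Φ v) :=
    (contDiffAt_const.div (contDiffAt_norm ℝ hv) hn.ne').log (div_pos hR hn).ne'
  have h2 : ContMDiffAt 𝓘(ℝ, E) 𝓘(ℝ, ℝ) ∞ (fun w => Real.log (R / ‖Φ w‖)) v :=
    h1.contMDiffAt.comp v (hc.smoothV v)
  have h3 : ContMDiffAt 𝓘(ℝ, E) (I3 E) ∞
      (fun w => ((Real.log (R / ‖Φ w‖), w, 0) : ℝ × V × R2)) v :=
    h2.prodMk (contMDiffAt_id.prodMk contMDiffAt_const)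
  have h4 := (hc.isEnd.localDiffeo (Real.log (R / ‖Φ v‖), v, 0)
    (by simp only; linarith [hR₂ v hv])).contMDiffAt
  exact h4.comp v h3

omit [FiniteDimensional ℝ E] [FiniteDimensional ℝ F] [IsManifold 𝓘(ℝ, E) ∞ V]
  [IsManifold 𝓘(ℝ, F) ∞ W] in
theorem desc_smooth (hc : Core E F Φ ι φ m) (hh : IsHeight F ι φ h)
    {G G' : ℝ → W → W} (hG : Isotopy F φ m G G') {R N : ℝ} (hR : 0 < R)
    (hR₁ : ∀ x, ‖m x‖ = R → 3 < h x) (hR₂ : ∀ v, Φ v ≠ 0 → 3 < Real.log (R / ‖Φ v‖))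
    (hN : ∀ τ x, ‖m x‖ ≤ R → N ≤ h x → G τ x = x)
    {p : W → V} (hp : ∀ y : ℝ × V × R2, 0 < y.1 → p (ι y) = y.2.1)
    (hp' : ∀ y : ℝ × V × R2, 0 < y.1 → ContMDiffAt 𝓘(ℝ, F) 𝓘(ℝ, E) ∞ p (ι y)) :
    ContMDiff (𝓘(ℝ, ℝ).prod 𝓘(ℝ, E)) 𝓘(ℝ, E) ∞
      (fun q : ℝ × V => descG Φ ι R p G q.1 q.2) := by
  rintro ⟨τ, v⟩
  have hΦ : Continuous fun q : ℝ × V => Φ q.2 := hc.smoothV.continuous.comp continuous_snd
  by_cases hv : Φ v = 0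
  · refine contMDiffAt_snd.congr_of_eventuallyEq ?_
    have : ∀ᶠ q : ℝ × V in 𝓝 (τ, v), ‖Φ q.2‖ < R * Real.exp (-N) :=
      (isOpen_lt hΦ.norm continuous_const).mem_nhds
        (by simp only [mem_ofPred_eq, hv, norm_zero]; positivity)
    filter_upwards [this] with q hq
    exact desc_near hc hh hR hR₂ hN hp q.1 hq
  · obtain ⟨⟨y, hy, hy'⟩, -⟩ := desc_key hc hh hG hR hR₁ hR₂ hp τ hv
    have h1 : ContMDiffAt (𝓘(ℝ, ℝ).prod 𝓘(ℝ, E)) (𝓘(ℝ, ℝ).prod 𝓘(ℝ, F)) ∞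
        (fun q : ℝ × V => (q.1, descJ Φ ι R q.2)) (τ, v) :=
      contMDiffAt_fst.prodMk (ContMDiffAt.comp (g := descJ Φ ι R) (f := Prod.snd) (τ, v)
        (desc_j_smooth hc hR hR₂ hv) contMDiffAt_snd)
    have h2 := (hG.smooth (τ, descJ Φ ι R v)).comp (τ, v) h1
    have h3 := hp' y hy
    rw [hy'] at h3
    have h4 := h3.comp (τ, v) h2
    refine h4.congr_of_eventuallyEq ?_
    have : ∀ᶠ q : ℝ × V in 𝓝 (τ, v), Φ q.2 ≠ 0 :=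
      (isOpen_ne_fun hΦ continuous_const).mem_nhds hv
    filter_upwards [this] with q hq
    simp [descG, hq]

/-- An equivariant isotopy of a far level of the moment map descends to V. -/
theorem Core.descent [Nonempty V] (hc : Core E F Φ ι φ m) (hh : IsHeight F ι φ h)
    {G G' : ℝ → W → W} (hG : Isotopy F φ m G G') {R N : ℝ} (hR : 0 < R)
    (hR₁ : ∀ x, ‖m x‖ = R → 3 < h x) (hR₂ : ∀ v, Φ v ≠ 0 → 3 < Real.log (R / ‖Φ v‖))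
    (hN : ∀ τ x, ‖m x‖ ≤ R → N ≤ h x → G τ x = x) {ψ : V → V} (h0 : ∀ v, Φ v = 0 → ψ v = v)
    (h1 : ∀ v, Φ v ≠ 0 → ∃ s, 0 < s ∧ G 1 (ι (Real.log (R / ‖Φ v‖), v, 0)) = ι (s, ψ v, 0)) :
    SmoothlyTrivial E Φ ψ := by
  obtain ⟨p, hp, -⟩ := hc.isEnd.descend (J := 𝓘(ℝ, E)) (g := fun y : ℝ × V × R2 => y.2.1)
    (fun y _ => contMDiffAt_fst.comp y contMDiffAt_snd) (fun _ _ _ _ _ => rfl)
    (Classical.arbitrary V)
  have hp1 : ∀ y : ℝ × V × R2, 0 < y.1 → p (ι y) = y.2.1 := fun y hy => (hp y hy).1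
  have hp2 := fun y hy => (hp y hy).2
  have hN' : ∀ τ x, ‖m x‖ ≤ R → N ≤ h x → G' τ x = x := by
    intro τ x h1 h2
    have := hG.left τ x
    rwa [hN τ x h1 h2] at this
  refine ⟨descG Φ ι R p G, descG Φ ι R p G', desc_smooth hc hh hG hR hR₁ hR₂ hN hp1 hp2,
    desc_smooth hc hh (desc_symm hG) hR hR₁ hR₂ hN' hp1 hp2,
    fun τ v => ⟨desc_inv hc hh hG hR hR₁ hR₂ hp1 τ v,
      desc_inv hc hh (desc_symm hG) hR hR₁ hR₂ hp1 τ v⟩, fun v => ?_, fun τ v => ?_, ?_⟩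
  · by_cases hv : Φ v = 0
    · simp [descG, hv, h0 v hv]
    · obtain ⟨s, hs, hs'⟩ := h1 v hv
      constructor
      · simp only [descG, hv, if_false, hG.zero]
        exact hp1 _ (by simp only; linarith [hR₂ v hv])
      · simp only [descG, hv, if_false, descJ, hs']
        exact hp1 _ hs
  · by_cases hv : Φ v = 0
    · exact ⟨1, one_pos, by simp [descG, hv]⟩
    · obtain ⟨-, -, -, c, hc0, hc1⟩ := desc_key hc hh hG hR hR₁ hR₂ hp1 τ hv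
      exact ⟨c, hc0, by simpa [descG, hv] using hc1⟩
  · have : ∀ᶠ v in 𝓝ˢ {v | Φ v = 0}, ‖Φ v‖ < R * Real.exp (-N) := by
      refine (isOpen_lt hc.smoothV.continuous.norm continuous_const).mem_nhdsSet.2 ?_
      intro v hv
      simp only [mem_ofPred_eq] at hv ⊢
      rw [hv, norm_zero]
      positivity
    filter_upwards [this] with v hv τ
    exact desc_near hc hh hR hR₂ hN hp1 τ hv

end Pool.Agent.P.MP_49bf82_gt
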