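import Pool.Agent.P.MP_49bf82_gt.VF

open Manifold Set Filter Topology
open scoped ContDiff RealInnerProductSpace

namespace Pool.Agent.P.MP_49bf82_gt

open Pool.Agent.P.MP_e3ee0c_gt

variable {F : Type*} [NormedAddCommGroup F] [NormedSpace ℝ F] [FiniteDimensional ℝ F]
  {W : Type*} [TopologicalSpace W] [ChartedSpace F W] [IsManifold 𝓘(ℝ, F) ∞ W]

variable {φ : R2 → W → W}

theorem IsAction.smooth_at (h : IsAction F φ) (t : R2) : ContMDiff 𝓘(ℝ, F) 𝓘(ℝ, F) ∞ (φ t) := by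
  exact h.smooth.comp (contMDiff_const.prodMk contMDiff_id)

theorem IsAction.smooth_orbit (h : IsAction F φ) (x : W) :
    ContMDiff 𝓘(ℝ, R2) 𝓘(ℝ, F) ∞ (fun t => φ t x) := by
  exact h.smooth.comp (contMDiff_id.prodMk contMDiff_const)

theorem IsAction.dif_add (h : IsAction F φ) (s t : R2) (x : W) (u : F) :
    dif F F (φ (s + t)) x u = dif F F (φ s) (φ t x) (dif F F (φ t) x u) := by
  have e : φ (s + t) = fun y => φ s (φ t y) := funext fun y => h.add s t y
  rw [e, dif_comp ((h.smooth_at s).mdifferentiableAt (by simp))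
    ((h.smooth_at t).mdifferentiableAt (by simp))]
  rfl

theorem IsAction.dif_zero (h : IsAction F φ) (x : W) (u : F) : dif F F (φ 0) x u = u := by
  have e : φ 0 = id := funext fun y => h.zero y
  rw [e]
  exact congrArg (fun L : F →L[ℝ] F => L u) (mfderiv_id (I := 𝓘(ℝ, F)) (x := x))

theorem IsAction.rv_add (h : IsAction F φ) (k : Fin 2 → ℤ) (t : R2) : φ (rv k + t) = φ t := by
  funext x
  rw [h.add]
  exact h.periodic k _

theorem IsAction.gen_vf (h : IsAction F φ) (ξ : R2) : VF (gen F φ ξ) := by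
  intro x
  have hf : ContMDiff (𝓘(ℝ, F).prod 𝓘(ℝ, R2)) 𝓘(ℝ, F) ∞
      (Function.uncurry fun (x : W) (t : R2) => φ t x) :=
    h.smooth.comp (contMDiff_snd.prodMk contMDiff_fst)
  have h1 := push (J := 𝓘(ℝ, F)) (I₁ := 𝓘(ℝ, R2)) (I₂ := 𝓘(ℝ, F))
    (fun (x : W) (t : R2) => φ t x) (fun _ => 0) (fun _ => ξ) (x₀ := x) (hf _)
    ((tangent_model_iff (J := 𝓘(ℝ, F)) (fun _ : W => (0 : R2)) (fun _ => ξ) x).2
      ⟨contMDiffAt_const, contMDiffAt_const⟩)
  refine h1.congr_of_eventuallyEq (Eventually.of_forall fun z => ?_)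
  exact Bundle.TotalSpace.ext (h.zero z).symm HEq.rfl

theorem IsAction.gen_inv (h : IsAction F φ) (ξ : R2) : Inv φ (gen F φ ξ) := by
  intro t x
  have e : (fun s => φ s (φ t x)) = fun s => φ t (φ s x) := funext fun s => by
    rw [← h.add, ← h.add, add_comm]
  unfold gen
  rw [e, dif_comp (g := φ t) (f := fun s => φ s x) ((h.smooth_at t).mdifferentiableAt (by simp))
    ((h.smooth_orbit x).mdifferentiableAt (by simp)), h.zero]
  rfl

theorem IsAction.gen_curve (h : IsAction F φ) (ξ : R2) (x : W) :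
    IsMIntegralCurve (I := 𝓘(ℝ, F)) (fun s : ℝ => φ (s • ξ) x) (gen F φ ξ) := by
  intro s₀
  have e : (fun s : ℝ => φ (s • ξ) x)
      = (fun t => φ t (φ (s₀ • ξ) x)) ∘ fun s : ℝ => (s - s₀) • ξ := funext fun s => by
    simp only [Function.comp]
    rw [← h.add, ← add_smul, sub_add_cancel]
  have h1 : HasMFDerivAt 𝓘(ℝ, ℝ) 𝓘(ℝ, R2) (fun s : ℝ => (s - s₀) • ξ) s₀
      ((1 : ℝ →L[ℝ] ℝ).smulRight ξ) := by
    have := ((hasDerivAt_id s₀).sub_const s₀).smul_const ξ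
    rw [one_smul] at this
    exact this.hasFDerivAt.hasMFDerivAt
  have h2 : ∀ p : R2, p = 0 → HasMFDerivAt 𝓘(ℝ, R2) 𝓘(ℝ, F) (fun t => φ t (φ (s₀ • ξ) x)) p
      (dif R2 F (fun t => φ t (φ (s₀ • ξ) x)) 0) := by
    rintro p rfl
    exact hasMF_dif ((h.smooth_orbit _).mdifferentiableAt (by simp))
  have h3 := (h2 _ (by simp)).comp s₀ h1
  have h4 : (dif R2 F (fun t => φ t (φ (s₀ • ξ) x)) 0).comp ((1 : ℝ →L[ℝ] ℝ).smulRight ξ)
      = (1 : ℝ →L[ℝ] ℝ).smulRight (gen F φ ξ (φ (s₀ • ξ) x)) := by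
    ext
    simp [gen]
  have h5 : HasMFDerivAt 𝓘(ℝ, ℝ) 𝓘(ℝ, F)
      ((fun t => φ t (φ (s₀ • ξ) x)) ∘ fun s : ℝ => (s - s₀) • ξ) s₀
      ((1 : ℝ →L[ℝ] ℝ).smulRight (gen F φ ξ (φ (s₀ • ξ) x))) := h4 ▸ h3
  exact h5.congr_of_eventuallyEq (Eventually.of_forall fun s => congrFun e s)

theorem IsAction.gen_of_fix (h : IsAction F φ) {ξ : R2} {x : W} (hx : ∀ s : ℝ, φ (s • ξ) x = x) :
    gen F φ ξ x = 0 := by
  have h1 := h.gen_curve ξ x
  have e : (fun s : ℝ => φ (s • ξ) x) = fun _ => x := funext hx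
  rw [e] at h1
  have h2 := hasMFDerivAt_unique (h1 0) (hasMFDerivAt_const x (0 : ℝ))
  have h3 : (1 : ℝ) • gen F φ ξ x = 0 := congrArg (fun L : ℝ →L[ℝ] F => L 1) h2
  rwa [one_smul] at h3

theorem IsAction.fix_of_gen [T2Space W] (h : IsAction F φ) {ξ : R2} {x : W}
    (hx : gen F φ ξ x = 0) (s : ℝ) : φ (s • ξ) x = x := by
  have h1 := isMIntegralCurve_Ioo_eq_of_contMDiff_boundaryless (t₀ := 0)
    (h.gen_vf ξ).contMDiff_one (h.gen_curve ξ x) (isMIntegralCurve_const hx)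
    (by simp [h.zero])
  exact congrFun h1 s

/-- The action of a circle subgroup, as an action of the torus through the first factor. -/
theorem IsAction.circle (h : IsAction F φ) (k : Fin 2 → ℤ) :
    IsAction F (fun t => φ (t 0 • rv k)) ∧
      ∀ x, gen F (fun t => φ (t 0 • rv k)) ![1, 0] x = gen F φ (rv k) x := by
  let l : R2 →L[ℝ] R2 := (ContinuousLinearMap.proj (R := ℝ) (φ := fun _ : Fin 2 => ℝ) 0).smulRight
    (rv k)
  have hl : ∀ t : R2, l t = t 0 • rv k := fun t => rfl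
  refine ⟨⟨?_, fun x => ?_, fun s t x => ?_, fun j x => ?_⟩, fun x => ?_⟩
  · exact h.smooth.comp ((l.contDiff.contMDiff.comp contMDiff_fst).prodMk contMDiff_snd)
  · simp [h.zero]
  · simp only [Pi.add_apply, add_smul, h.add]
  · have e : ((j 0 : ℤ) : ℝ) • rv k = fun i => (((j 0 • k) i : ℤ) : ℝ) := by
      funext i
      simp [rv]
    show φ (((j 0 : ℤ) : ℝ) • rv k) x = x
    rw [e]
    exact h.periodic _ x
  · have h1 := dif_comp (E := R2) (F := R2) (G := F) (g := fun t => φ t x) (f := l) (x := 0)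
      ((h.smooth_orbit x).mdifferentiableAt (by simp)) l.mdifferentiableAt
    have h2 : dif R2 R2 l 0 = l := by rw [dif_fderiv, l.fderiv]
    rw [h2, map_zero] at h1
    have h3 : l ![1, 0] = rv k := by simp [hl]
    show dif R2 F (fun t => φ (l t) x) 0 ![1, 0] = _
    rw [h1, ContinuousLinearMap.comp_apply, h3]
    rfl

end Pool.Agent.P.MP_49bf82_gt
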