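import Pool.Agent.P.MP_49bf82_gt.MFlowA

open Manifold Set Filter Topology
open scoped ContDiff RealInnerProductSpace

namespace Pool.Agent.P.MP_49bf82_gt

open Pool.Agent.P.MP_e3ee0c_gt

variable {F : Type*} [NormedAddCommGroup F] [NormedSpace ℝ F] [FiniteDimensional ℝ F]
  {W : Type*} [TopologicalSpace W] [ChartedSpace F W] [IsManifold 𝓘(ℝ, F) ∞ W]

/-- A field that vanishes outside a compact set is complete. -/
theorem VF.complete_of_compact [T2Space W] {Y : W → F} (hY : VF Y) {K : Set W} (hK : IsCompact K)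
    (h0 : ∀ x ∉ K, Y x = 0) (x : W) :
    ∃ γ : ℝ → W, γ 0 = x ∧ IsMIntegralCurve (I := 𝓘(ℝ, F)) γ Y := by
  have key : ∃ ε > 0, ∀ y ∈ K, ∃ γ : ℝ → W, γ 0 = y ∧
      IsMIntegralCurveOn (I := 𝓘(ℝ, F)) γ Y (Ioo (-ε) ε) := by
    refine hK.induction_on (p := fun s => ∃ ε > 0, ∀ y ∈ s, ∃ γ : ℝ → W, γ 0 = y ∧
      IsMIntegralCurveOn (I := 𝓘(ℝ, F)) γ Y (Ioo (-ε) ε)) ⟨1, one_pos, fun y hy => hy.elim⟩
      ?_ ?_ ?_
    · rintro s t hst ⟨ε, hε, h⟩
      exact ⟨ε, hε, fun y hy => h y (hst hy)⟩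
    · rintro s t ⟨ε, hε, h⟩ ⟨ε', hε', h'⟩
      refine ⟨min ε ε', lt_min hε hε', fun y hy => ?_⟩
      rcases hy with hy | hy
      · obtain ⟨γ, h1, h2⟩ := h y hy
        exact ⟨γ, h1, h2.mono (Ioo_subset_Ioo (neg_le_neg (min_le_left _ _)) (min_le_left _ _))⟩
      · obtain ⟨γ, h1, h2⟩ := h' y hy
        exact ⟨γ, h1, h2.mono (Ioo_subset_Ioo (neg_le_neg (min_le_right _ _)) (min_le_right _ _))⟩
    · intro p _
      obtain ⟨ε, hε, U, hU, hp, P, hP⟩ := hY.local_flow p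
      exact ⟨U, mem_nhdsWithin_of_mem_nhds (hU.mem_nhds hp), ε, hε,
        fun y hy => ⟨fun t => P (t, y), (hP y hy).1, (hP y hy).2.1⟩⟩
  obtain ⟨ε, hε, h⟩ := key
  refine exists_isMIntegralCurve_of_isMIntegralCurveOn (I := 𝓘(ℝ, F)) hY.contMDiff_one hε
    (fun y => ?_) x
  by_cases hy : y ∈ K
  · exact h y hy
  · exact ⟨fun _ => y, rfl,
      (isMIntegralCurve_const (I := 𝓘(ℝ, F)) (v := Y) (h0 y hy)).isMIntegralCurveOn _⟩

/-- A field along which a proper function changes at bounded speed is complete. -/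
theorem VF.complete [T2Space W] {Y : W → F} (hY : VF Y) {h : W → ℝ}
    (hh : ContMDiff 𝓘(ℝ, F) 𝓘(ℝ, ℝ) ∞ h) (hc : ∀ c, IsCompact {x | h x ≤ c}) {C : ℝ}
    (hC : ∀ x, |dif F ℝ h x (Y x)| ≤ C) (x : W) :
    ∃ γ : ℝ → W, γ 0 = x ∧ IsMIntegralCurve (I := 𝓘(ℝ, F)) γ Y := by
  refine (exists_isMIntegralCurve_iff_exists_isMIntegralCurveOn_Ioo (I := 𝓘(ℝ, F))
    hY.contMDiff_one x).2 fun a => ?_
  have hC0 : 0 ≤ C := (abs_nonneg _).trans (hC x)
  set N : ℝ := h x + C * |a| with hN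
  set c : W → ℝ := fun z => Real.smoothTransition (N + 1 - h z) with hcdef
  have hcs : ContMDiff 𝓘(ℝ, F) 𝓘(ℝ, ℝ) ∞ c :=
    (Real.smoothTransition.contDiff.comp (contDiff_const.sub contDiff_id)).contMDiff.comp hh
  have hY' : VF fun z => c z • Y z := fun z => (hY z).smul (hcs z)
  obtain ⟨γ, h1, h2⟩ := hY'.complete_of_compact (hc (N + 1)) (fun z hz => by
    have hz' : N + 1 - h z ≤ 0 := by
      have : N + 1 < h z := not_le.1 hz
      linarith
    simp only [hcdef, Real.smoothTransition.zero_of_nonpos hz', zero_smul]) x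
  have hd : ∀ t, HasDerivAt (fun s => h (γ s)) (dif F ℝ h (γ t) (c (γ t) • Y (γ t))) t :=
    fun t => hasDerivAt_comp_curve (h2 t) (hh.mdifferentiableAt (by simp))
  have hb : ∀ t, ‖dif F ℝ h (γ t) (c (γ t) • Y (γ t))‖ ≤ C := by
    intro t
    rw [map_smul, norm_smul, Real.norm_of_nonneg (Real.smoothTransition.nonneg _),
      Real.norm_eq_abs]
    exact (mul_le_of_le_one_left (abs_nonneg _) (Real.smoothTransition.le_one _)).trans (hC _)
  refine ⟨γ, h1, fun t ht => ?_⟩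
  have h3 : ‖h (γ t) - h (γ 0)‖ ≤ C * ‖t - 0‖ :=
    convex_univ.norm_image_sub_le_of_norm_hasDerivWithin_le (f := fun s => h (γ s))
      (fun s _ => (hd s).hasDerivWithinAt) (fun s _ => hb s) (mem_univ 0) (mem_univ t)
  rw [h1, sub_zero, Real.norm_eq_abs, Real.norm_eq_abs] at h3
  have h4 : |t| ≤ |a| := (abs_lt.2 ht).le.trans (le_abs_self a)
  have h5 : 1 ≤ N + 1 - h (γ t) := by
    have := (abs_le.1 h3).2
    have := mul_le_mul_of_nonneg_left h4 hC0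
    linarith
  have h6 : c (γ t) • Y (γ t) = Y (γ t) := by
    simp only [hcdef, Real.smoothTransition.one_of_one_le h5, one_smul]
  have h7 := h2 t
  simp only [h6] at h7
  exact h7.hasMFDerivWithinAt

end Pool.Agent.P.MP_49bf82_gt
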