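import Pool.Agent.P.MP_49bf82_gt.MFlowB
import Pool.Agent.P.MP_49bf82_gt.MFlowC
import Pool.Agent.P.MP_49bf82_gt.Gen

open Manifold Set Filter Topology
open scoped ContDiff RealInnerProductSpace

namespace Pool.Agent.P.MP_49bf82_gt

open Pool.Agent.P.MP_e3ee0c_gt

variable {F : Type*} [NormedAddCommGroup F] [NormedSpace ℝ F] [FiniteDimensional ℝ F]
  {W : Type*} [TopologicalSpace W] [ChartedSpace F W] [IsManifold 𝓘(ℝ, F) ∞ W]

variable {φ : R2 → W → W} {Y : W → F} {P : ℝ → W → W}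

theorem IsFlow.eqOn [T2Space W] (hP : IsFlow Y P) (hY : VF Y) {γ : ℝ → W} {a b : ℝ}
    (h0 : (0 : ℝ) ∈ Ioo a b) (hγ : ∀ t ∈ Ioo a b, HasMFDerivAt 𝓘(ℝ, ℝ) 𝓘(ℝ, F) γ t
      ((1 : ℝ →L[ℝ] ℝ).smulRight (Y (γ t)))) : ∀ t ∈ Ioo a b, P t (γ 0) = γ t := by
  intro t ht
  exact isMIntegralCurveOn_Ioo_eqOn_of_contMDiff_boundaryless (I := 𝓘(ℝ, F)) h0 hY.contMDiff_one
    ((hP.curve (γ 0)).isMIntegralCurveOn _) (fun s hs => (hγ s hs).hasMFDerivWithinAt)
    (hP.zero _) ht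

theorem IsFlow.equiv [T2Space W] (hP : IsFlow Y P) (hY : VF Y) (hφ : IsAction F φ) (hi : Inv φ Y)
    (s : ℝ) (t : R2) (x : W) : P s (φ t x) = φ t (P s x) := by
  have h1 : IsMIntegralCurve (I := 𝓘(ℝ, F)) (fun r => φ t (P r x)) Y := by
    intro r
    have a := (hasMF_dif (((hφ.smooth_at t) (P r x)).mdifferentiableAt (by simp))).comp r
      (hP.curve x r)
    refine a.congr_mfderiv ?_
    ext
    change dif F F (φ t) (P r x) ((1 : ℝ) • Y (P r x)) = (1 : ℝ) • Y (φ t (P r x))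
    rw [one_smul, one_smul, hi]
  have := isMIntegralCurve_Ioo_eq_of_contMDiff_boundaryless (t₀ := 0) hY.contMDiff_one
    (hP.curve (φ t x)) h1 (by simp only [hP.zero])
  exact congrFun this s

theorem IsFlow.translate (hP : IsFlow Y P) {m : W → ℂ} (hm : ContMDiff 𝓘(ℝ, F) 𝓘(ℝ, ℂ) ∞ m)
    {c : ℂ} (h : ∀ x, dif F ℂ m x (Y x) = c) (s : ℝ) (x : W) : m (P s x) = m x + s * c := by
  have h1 : ∀ r : ℝ, HasDerivAt (fun r : ℝ => m (P r x) - r * c) 0 r := fun r => by
    have a := hasDerivAt_comp_curve (hP.curve x r) ((hm _).mdifferentiableAt (by simp))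
    rw [h] at a
    have b := (Complex.ofRealCLM.hasDerivAt (x := r)).mul_const c
    exact (a.sub b).congr_deriv (by simp)
  have := is_const_of_deriv_eq_zero (fun r => (h1 r).differentiableAt) (fun r => (h1 r).deriv) s 0
  simp only [hP.zero, Complex.ofReal_zero, zero_mul, sub_zero] at this
  exact sub_eq_iff_eq_add.1 this

theorem IsFlow.rotate (hP : IsFlow Y P) {m : W → ℂ} (hm : ContMDiff 𝓘(ℝ, F) 𝓘(ℝ, ℂ) ∞ m)
    {c : ℂ} (h : ∀ x, dif F ℂ m x (Y x) = c * m x) (s : ℝ) (x : W) :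
    m (P s x) = Complex.exp (c * s) * m x := by
  have h1 : ∀ r : ℝ, HasDerivAt (fun r : ℝ => Complex.exp (-(c * r)) * m (P r x)) 0 r := fun r => by
    have a := hasDerivAt_comp_curve (hP.curve x r) ((hm _).mdifferentiableAt (by simp))
    rw [h] at a
    have b := (((Complex.ofRealCLM.hasDerivAt (x := r)).const_mul c).neg).cexp
    have d := b.mul a
    refine d.congr_deriv ?_
    simp
    ring
  have := is_const_of_deriv_eq_zero (fun r => (h1 r).differentiableAt) (fun r => (h1 r).deriv) s 0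
  simp only [hP.zero, Complex.ofReal_zero, mul_zero, neg_zero, Complex.exp_zero, one_mul] at this
  rw [← this, ← mul_assoc, ← Complex.exp_add]
  simp

/-- The flow of an invariant field along which the height changes at bounded speed. -/
theorem exists_mover [T2Space W] (hY : VF Y) (hφ : IsAction F φ) (hi : Inv φ Y) {h : W → ℝ}
    (hh : ContMDiff 𝓘(ℝ, F) 𝓘(ℝ, ℝ) ∞ h) (hc : ∀ c, IsCompact {x | h x ≤ c}) {C : ℝ}
    (hC : ∀ x, |dif F ℝ h x (Y x)| ≤ C) : ∃ P, IsFlow Y P ∧ Mover F φ h C P := by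
  obtain ⟨P, hP⟩ := hY.flow_of_complete (hY.complete hh hc hC)
  refine ⟨P, hP, hP.smooth, hP.zero, hP.add, hP.equiv hY hφ hi, fun s x => ?_⟩
  have := Convex.norm_image_sub_le_of_norm_hasDerivWithin_le (f := fun r : ℝ => h (P r x))
    (f' := fun r => dif F ℝ h (P r x) (Y (P r x))) (s := univ) (C := C) (x := 0) (y := s)
    (fun r _ => (hasDerivAt_comp_curve (hP.curve x r)
      ((hh _).mdifferentiableAt (by simp))).hasDerivWithinAt)
    (fun r _ => hC _) convex_univ (mem_univ _) (mem_univ _)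
  simpa [hP.zero] using this

end Pool.Agent.P.MP_49bf82_gt
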