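import Pool.Agent.P.MP_49bf82_gt.RotF
import Pool.Agent.P.MP_49bf82_gt.FlowT

open Manifold Set Filter Topology
open scoped ContDiff RealInnerProductSpace

namespace Pool.Agent.P.MP_49bf82_gt

open Pool.Agent.P.MP_e3ee0c_gt

variable {E F : Type*} [NormedAddCommGroup E] [NormedSpace ℝ E] [FiniteDimensional ℝ E]
  [NormedAddCommGroup F] [NormedSpace ℝ F] [FiniteDimensional ℝ F]
  {V W : Type*} [TopologicalSpace V] [ChartedSpace E V] [IsManifold 𝓘(ℝ, E) ∞ V]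
  [TopologicalSpace W] [ChartedSpace F W] [IsManifold 𝓘(ℝ, F) ∞ W]
  {Φ : V → ℂ} {ι : ℝ × V × R2 → W} {φ : R2 → W → W} {m : W → ℂ} {h : W → ℝ}
  {f : ℝ → V → V} {a : ℝ × V → ℝ} {σ : W → F →L[ℝ] F →L[ℝ] ℝ}

variable {Z Y : W → F} {Q : ℝ → W → W}

theorem IsFlow.eq_ft [T2Space W] (hQ : IsFlow Y Q) (hY : VF Y) (ht : Turn E Φ f a)
    (hZ : IsRot ι f a Z) (hYZ : ∀ y : ℝ × V × R2, 3 ≤ y.1 → Y (ι y) = Z (ι y)) {y : ℝ × V × R2}
    {b c : ℝ} (h0 : (0 : ℝ) ∈ Ioo b c) (hy : ∀ t ∈ Ioo b c, 3 ≤ (ft f a t y).1) :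
    ∀ t ∈ Ioo b c, Q t (ι y) = ι (ft f a t y) := by
  intro t htt
  have key := hQ.eqOn hY (γ := fun s => ι (ft f a s y)) h0 (fun t ht' => by
    have h3 := hy t ht'
    rw [hYZ _ h3]
    exact hZ.curve y t (by linarith)) t htt
  simpa [ht.ft_zero] using key

theorem IsFlow.far [CompactSpace V] [T2Space W] (hQ : IsFlow Y Q) (hY : VF Y)
    (hc : Core E F Φ ι φ m) (hh : IsHeight F ι φ h) (ht : Turn E Φ f a) (hZ : IsRot ι f a Z)
    (hYZ : ∀ y : ℝ × V × R2, 3 ≤ y.1 → Y (ι y) = Z (ι y)) (R : ℝ) :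
    ∃ N₀, ∀ q, ‖m q‖ ≤ R → N₀ ≤ h q → Q 1 q = q ∧ (m q = 0 → ∀ s, Q s q = q) := by
  obtain ⟨δ, hδ, hδ'⟩ := ht.exists_delta hc.smoothV.continuous
  obtain ⟨M, hM⟩ := ((isCompact_Icc (a := (-1 : ℝ)) (b := 2)).prod
    (isCompact_univ (X := V))).exists_bound_of_continuousOn ht.smooth.continuous.continuousOn
  refine ⟨max (3 + |M|) (|R| / δ), fun q hq hN => ?_⟩
  have hM0 := abs_nonneg M
  have h1 : 3 + |M| ≤ h q := (le_max_left _ _).trans hN
  have h2 : |R| / δ ≤ h q := (le_max_right _ _).trans hN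
  obtain ⟨y, hy, rfl⟩ := hh.big q (by linarith)
  rw [hh.onEnd y hy] at h1 h2
  have hm := hc.onEnd y (by linarith)
  constructor
  · have hn : Real.exp y.1 * ‖Φ y.2.1‖ ≤ R := by
      have := hq
      rw [hm, norm_mul, Complex.norm_real, Real.norm_eq_abs, abs_of_pos (Real.exp_pos _)] at this
      exact this
    have hlt : ‖Φ y.2.1‖ < δ := by
      by_contra hcon
      have hge : δ ≤ ‖Φ y.2.1‖ := not_lt.mp hcon
      have e1 : y.1 + 1 ≤ Real.exp y.1 := Real.add_one_le_exp _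
      have e2 : |R| ≤ y.1 * δ := by rwa [div_le_iff₀ hδ] at h2
      have e3 : Real.exp y.1 * δ ≤ Real.exp y.1 * ‖Φ y.2.1‖ :=
        mul_le_mul_of_nonneg_left hge (Real.exp_pos _).le
      have e4 : (y.1 + 1) * δ ≤ Real.exp y.1 * δ := mul_le_mul_of_nonneg_right e1 hδ.le
      have e5 := le_abs_self R
      nlinarith
    obtain ⟨hf1, ha1⟩ := hδ' _ hlt
    have key := hQ.eq_ft hY ht hZ hYZ (y := y) (b := -1) (c := 2) (by norm_num) (fun t htt => by
      have := hM (t, y.2.1) ⟨⟨htt.1.le, htt.2.le⟩, mem_univ _⟩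
      rw [Real.norm_eq_abs] at this
      have e1 := le_abs_self (a (t, y.2.1))
      have e2 := le_abs_self M
      show 3 ≤ y.1 - a (t, y.2.1)
      linarith) 1 (by norm_num)
    rw [key]
    simp [ft, hf1, ha1]
  · intro h0 s
    have hΦ : Φ y.2.1 = 0 := by
      rw [hm] at h0
      rcases mul_eq_zero.mp h0 with h' | h'
      · exact absurd h' (by exact_mod_cast (Real.exp_pos _).ne')
      · exact h'
    have hs := abs_nonneg s
    have key := hQ.eq_ft hY ht hZ hYZ (y := y) (b := -(|s| + 1)) (c := |s| + 1)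
      ⟨by linarith, by linarith⟩ (fun t _ => by
        show 3 ≤ y.1 - a (t, y.2.1)
        rw [ht.fix t _ hΦ]
        linarith) s ⟨by linarith [neg_abs_le s], by linarith [le_abs_self s]⟩
    rw [key]
    simp [ft, ht.fix s _ hΦ, ht.flow.fix s _ hΦ]

theorem Core.exists_radius (hc : Core E F Φ ι φ m) (hh : IsHeight F ι φ h) :
    ∃ R > 0, (∀ x, ‖m x‖ = R → 3 < h x) ∧ ∀ v, Φ v ≠ 0 → 3 < Real.log (R / ‖Φ v‖) := by
  obtain ⟨M, hM⟩ := (hh.compact 3).exists_bound_of_continuousOn hc.smooth.continuous.continuousOn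
  have hM0 := abs_nonneg M
  have hM1 := le_abs_self M
  refine ⟨|M| + 1, by linarith, fun x hx => ?_, fun v hv => ?_⟩
  · by_contra hcon
    have := hM x (not_lt.mp hcon)
    linarith
  · have h3 : h (ι (3, v, 0)) = 3 := hh.onEnd (3, v, 0) (by norm_num)
    have := hM (ι (3, v, 0)) h3.le
    rw [hc.onEnd (3, v, 0) (by norm_num), norm_mul, Complex.norm_real, Real.norm_eq_abs,
      abs_of_pos (Real.exp_pos _)] at this
    have hp : 0 < ‖Φ v‖ := norm_pos_iff.mpr hv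
    rw [Real.lt_log_iff_exp_lt (div_pos (by linarith) hp), lt_div_iff₀ hp]
    have e : Real.exp 3 * ‖Φ v‖ ≤ M := this
    linarith

theorem IsFlow.one [T2Space W] (hQ : IsFlow Y Q) (hY : VF Y) (ht : Turn E Φ f a)
    (hZ : IsRot ι f a Z) (hYZ : ∀ y : ℝ × V × R2, 3 ≤ y.1 → Y (ι y) = Z (ι y)) {R : ℝ}
    (hR : 0 < R) (hR' : ∀ v, Φ v ≠ 0 → 3 < Real.log (R / ‖Φ v‖)) {v : V} (hv : Φ v ≠ 0) :
    ∃ s, 0 < s ∧ Q 1 (ι (Real.log (R / ‖Φ v‖), v, 0)) = ι (s, f 1 v, 0) := by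
  have hp : 0 < ‖Φ v‖ := norm_pos_iff.mpr hv
  have h3 : ∀ t, 3 < (ft f a t (Real.log (R / ‖Φ v‖), v, (0 : R2))).1 := by
    intro t
    have e := congrArg norm (ht.ft_exp t (Real.log (R / ‖Φ v‖), v, (0 : R2)))
    have e1 : ‖Complex.exp (2 * Real.pi * Complex.I * t)‖ = 1 := by
      rw [show (2 * Real.pi * Complex.I * t : ℂ) = ((2 * Real.pi * t : ℝ) : ℂ) * Complex.I by
        push_cast; ring]
      exact Complex.norm_exp_ofReal_mul_I _
    rw [norm_mul, norm_mul, norm_mul, e1, one_mul, Complex.norm_real, Complex.norm_real,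
      Real.norm_eq_abs, Real.norm_eq_abs, abs_of_pos (Real.exp_pos _),
      abs_of_pos (Real.exp_pos _)] at e
    have e2 : Real.exp (Real.log (R / ‖Φ v‖)) * ‖Φ v‖ = R := by
      rw [Real.exp_log (div_pos hR hp), div_mul_cancel₀ _ hp.ne']
    set z := ft f a t (Real.log (R / ‖Φ v‖), v, (0 : R2)) with hz
    have e3 : Real.exp z.1 * ‖Φ z.2.1‖ = R := e.trans e2
    have hz0 : Φ z.2.1 ≠ 0 := by
      intro h0
      rw [h0, norm_zero, mul_zero] at e3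
      exact hR.ne e3
    have hp' : 0 < ‖Φ z.2.1‖ := norm_pos_iff.mpr hz0
    have e4 : R / ‖Φ z.2.1‖ = Real.exp z.1 := by
      rw [div_eq_iff hp'.ne', e3]
    have := hR' _ hz0
    rwa [e4, Real.log_exp] at this
  have key := hQ.eq_ft hY ht hZ hYZ (y := (Real.log (R / ‖Φ v‖), v, (0 : R2))) (b := -1) (c := 2)
    (by norm_num) (fun t _ => (h3 t).le) 1 (by norm_num)
  exact ⟨(ft f a 1 (Real.log (R / ‖Φ v‖), v, (0 : R2))).1, by linarith [h3 1], key⟩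

end Pool.Agent.P.MP_49bf82_gt
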