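import Pool.Agent.P.MP_49bf82_gt.RotF
import Pool.Agent.P.MP_49bf82_gt.AvgVF
import Pool.Agent.P.MP_49bf82_gt.Lift

open Manifold Set Filter Topology
open scoped ContDiff RealInnerProductSpace

namespace Pool.Agent.P.MP_49bf82_gt

open Pool.Agent.P.MP_e3ee0c_gt

variable {E F : Type*} [NormedAddCommGroup E] [NormedSpace ℝ E] [FiniteDimensional ℝ E]
  [NormedAddCommGroup F] [NormedSpace ℝ F] [FiniteDimensional ℝ F]
  {V W : Type*} [TopologicalSpace V] [ChartedSpace E V] [IsManifold 𝓘(ℝ, E) ∞ V]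
  [TopologicalSpace W] [ChartedSpace F W] [IsManifold 𝓘(ℝ, F) ∞ W]
  {Φ : V → ℂ} {ι : ℝ × V × R2 → W} {φ : R2 → W → W} {m : W → ℂ} {h : W → ℝ}
  {f : ℝ → V → V} {a : ℝ × V → ℝ} {σ : W → F →L[ℝ] F →L[ℝ] ℝ}

theorem fields_local {w : W → ℂ} (hm : ContMDiff 𝓘(ℝ, F) 𝓘(ℝ, ℂ) ∞ m)
    (hh : ContMDiff 𝓘(ℝ, F) 𝓘(ℝ, ℝ) ∞ h) (hw : ContMDiff 𝓘(ℝ, F) 𝓘(ℝ, ℂ) ∞ w) {p : W}
    (hs : Function.Surjective (dif F ℂ m p)) {u : F} (hu : dif F ℂ m p u = w p) {n : ℝ}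
    (hn : |dif F ℝ h p u| < n) :
    ∃ Y : W → F, ∀ᶠ z in 𝓝 p, VFAt Y z ∧ dif F ℂ m z (Y z) = w z ∧ |dif F ℝ h z (Y z)| < n := by
  obtain ⟨Y, hY, hev⟩ := local_lift hm hw hs hu
  have h1 : ContinuousAt (fun z => |dif F ℝ h z (Y z)|) p :=
    ((hev.self_of_nhds.1.dif_apply (hh p)).continuousAt).abs
  have h2 : ∀ᶠ z in 𝓝 p, |dif F ℝ h z (Y z)| < n :=
    h1.eventually (gt_mem_nhds (by simpa only [hY] using hn))
  refine ⟨Y, ?_⟩
  filter_upwards [hev, h2] with z hz hz2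
  exact ⟨hz.1, hz.2, hz2⟩

theorem fields_bound {w : W → ℂ} (hm : ContMDiff 𝓘(ℝ, F) 𝓘(ℝ, ℂ) ∞ m)
    (hh : ContMDiff 𝓘(ℝ, F) 𝓘(ℝ, ℝ) ∞ h) (hw : ContMDiff 𝓘(ℝ, F) 𝓘(ℝ, ℂ) ∞ w)
    (hs : ∀ x, Function.Surjective (dif F ℂ m x)) {K : Set W} (hK : IsCompact K) :
    ∃ n : ℝ, ∀ x ∈ K, ∃ u, dif F ℂ m x u = w x ∧ |dif F ℝ h x u| < n := by
  refine hK.induction_on
    (p := fun s => ∃ n : ℝ, ∀ x ∈ s, ∃ u, dif F ℂ m x u = w x ∧ |dif F ℝ h x u| < n)
    ⟨0, fun x hx => hx.elim⟩ ?_ ?_ ?_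
  · rintro s t hst ⟨n, hn⟩
    exact ⟨n, fun x hx => hn x (hst hx)⟩
  · rintro s t ⟨n, hn⟩ ⟨k, hk⟩
    refine ⟨max n k, ?_⟩
    rintro x (hx | hx)
    · obtain ⟨u, h1, h2⟩ := hn x hx
      exact ⟨u, h1, h2.trans_le (le_max_left _ _)⟩
    · obtain ⟨u, h1, h2⟩ := hk x hx
      exact ⟨u, h1, h2.trans_le (le_max_right _ _)⟩
  · intro p _
    obtain ⟨u, hu⟩ := hs p (w p)
    obtain ⟨Y, hY⟩ := fields_local hm hh hw (hs p) hu (lt_add_one _)
    exact ⟨_, mem_nhdsWithin_of_mem_nhds hY, _, fun x hx => ⟨Y x, hx.2.1, hx.2.2⟩⟩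

theorem fields_inv {G : Type*} [NormedAddCommGroup G] [NormedSpace ℝ G] {g : W → G}
    (hφ : IsAction F φ) (hg : ContMDiff 𝓘(ℝ, F) 𝓘(ℝ, G) ∞ g) (hi : ∀ t x, g (φ t x) = g x)
    (t : R2) (x : W) (u : F) : dif F G g (φ t x) (dif F F (φ t) x u) = dif F G g x u := by
  have h1 := dif_comp (g := g) (f := φ t) (x := x) ((hg _).mdifferentiableAt (by simp))
    ((hφ.smooth_at t x).mdifferentiableAt (by simp))
  have h2 : (fun y => g (φ t y)) = g := funext (hi t)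
  rw [h2] at h1
  rw [h1]; rfl

omit [FiniteDimensional ℝ F] [IsManifold 𝓘(ℝ, F) ∞ W] in
theorem fields_convex (m : W → ℂ) (h : W → ℝ) (x : W) (c : ℂ) (n : ℝ) :
    Convex ℝ {u : F | dif F ℂ m x u = c ∧ |dif F ℝ h x u| ≤ n} ∧
      IsClosed {u : F | dif F ℂ m x u = c ∧ |dif F ℝ h x u| ≤ n} := by
  have e : {u : F | dif F ℂ m x u = c ∧ |dif F ℝ h x u| ≤ n} =
      (dif F ℂ m x) ⁻¹' {c} ∩ (dif F ℝ h x) ⁻¹' Icc (-n) n := by
    ext u; simp [abs_le]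
  rw [e]
  exact ⟨((convex_singleton c).linear_preimage (dif F ℂ m x).toLinearMap).inter
      ((convex_Icc _ _).linear_preimage (dif F ℝ h x).toLinearMap),
    (isClosed_singleton.preimage (dif F ℂ m x).continuous).inter
      (isClosed_Icc.preimage (dif F ℝ h x).continuous)⟩

theorem Core.exists_lift [T2Space W] [SigmaCompactSpace W] (hc : Core E F Φ ι φ m)
    (hh : IsHeight F ι φ h) (hs : ∀ x, Function.Surjective (dif F ℂ m x)) (c : ℂ) :
    ∃ (Y : W → F) (C : ℝ), VF Y ∧ Inv φ Y ∧ (∀ x, dif F ℂ m x (Y x) = c) ∧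
      ∀ x, |dif F ℝ h x (Y x)| ≤ C := by
  have hw : ContMDiff 𝓘(ℝ, F) 𝓘(ℝ, ℂ) ∞ (fun _ : W => c) := contMDiff_const
  obtain ⟨n, hn⟩ := fields_bound hc.smooth hh.smooth hw hs (hh.compact 3)
  have key : ∀ x, ∃ u, dif F ℂ m x u = c ∧ |dif F ℝ h x u| < n := by
    intro x
    by_cases hx : h x ≤ 3
    · exact hn x hx
    have hx' : 3 < h x := not_le.1 hx
    obtain ⟨y, hy, rfl⟩ := hh.big x (by linarith)
    rw [hh.onEnd y hy] at hx'
    have h3 : h (ι (3, y.2.1, y.2.2)) ≤ 3 := (hh.onEnd (3, y.2.1, y.2.2) (by norm_num)).le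
    obtain ⟨u, h1, h2⟩ := hn _ h3
    obtain ⟨b, rfl⟩ := (hc.isEnd.bijective (y := (3, y.2.1, y.2.2)) (by norm_num)).2 u
    rw [hc.dif_m (by norm_num)] at h1
    rw [hh.dif_h hc.isEnd (by norm_num)] at h2
    refine ⟨dEnd E F ι y (Real.exp (3 - y.1) • b), ?_, ?_⟩
    · rw [hc.dif_m (by linarith), ← h1]
      have e : (Real.exp y.1 : ℂ) * (Real.exp (3 - y.1) : ℂ) = (Real.exp 3 : ℂ) := by
        rw [← Complex.ofReal_mul, ← Real.exp_add]; simp
      simp only [Prod.smul_fst, Prod.smul_snd, map_smul, smul_eq_mul, Complex.real_smul,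
        Complex.ofReal_mul]
      rw [← e]; ring
    · rw [hh.dif_h hc.isEnd (by linarith), Prod.smul_fst, smul_eq_mul, abs_mul,
        abs_of_pos (Real.exp_pos _)]
      have : Real.exp (3 - y.1) ≤ 1 := Real.exp_le_one_iff.2 (by linarith)
      exact (mul_le_of_le_one_left (abs_nonneg _) this).trans_lt h2
  obtain ⟨Y, h1, h2, h3⟩ := hc.action.exists_field
    (fun x => {u : F | dif F ℂ m x u = c ∧ |dif F ℝ h x u| ≤ n})
    (fun x => (fields_convex m h x c n).1) (fun x => (fields_convex m h x c n).2)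
    (fun t x u hu => ⟨by rw [fields_inv hc.action hc.smooth hc.invariant]; exact hu.1,
      by rw [fields_inv hc.action hh.smooth hh.invariant]; exact hu.2⟩)
    (fun x => by
      obtain ⟨u, h1, h2⟩ := key x
      obtain ⟨Y, hY⟩ := fields_local hc.smooth hh.smooth hw (hs x) h1 h2
      exact ⟨Y, hY.mono fun z hz => ⟨hz.1, hz.2.1, hz.2.2.le⟩⟩)
  exact ⟨Y, n, h1, h2, fun x => (h3 x).1, fun x => (h3 x).2⟩

theorem Core.exists_rot [CompactSpace V] [T2Space W] [SigmaCompactSpace W]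
    (hc : Core E F Φ ι φ m) (hh : IsHeight F ι φ h) (hs : ∀ x, Function.Surjective (dif F ℂ m x))
    (ht : Turn E Φ f a) {Z : W → F} (hZ : IsRot ι f a Z) :
    ∃ (Y : W → F) (C : ℝ), VF Y ∧ Inv φ Y ∧
      (∀ x, dif F ℂ m x (Y x) = 2 * Real.pi * Complex.I * m x) ∧
      (∀ x, |dif F ℝ h x (Y x)| ≤ C) ∧ ∀ y : ℝ × V × R2, 3 ≤ y.1 → Y (ι y) = Z (ι y) := by
  have hw : ContMDiff 𝓘(ℝ, F) 𝓘(ℝ, ℂ) ∞ (fun x : W => 2 * Real.pi * Complex.I * m x) :=
    ((contDiff_const.mul contDiff_id : ContDiff ℝ ∞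
      (fun z : ℂ => 2 * Real.pi * Complex.I * z)).contMDiff).comp hc.smooth
  obtain ⟨n, hn⟩ := fields_bound hc.smooth hh.smooth hw hs (hh.compact 3)
  obtain ⟨k, hk⟩ := hZ.dif_h ht hh
  obtain ⟨Y, h1, h2, h3⟩ := hc.action.exists_field
    (fun x => {u : F | dif F ℂ m x u = 2 * Real.pi * Complex.I * m x ∧
      |dif F ℝ h x u| ≤ max n k} ∩ {u : F | 3 ≤ h x → u = Z x})
    (fun x => (fields_convex m h x _ _).1.inter (by
      by_cases hx : 3 ≤ h x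
      · simp [hx]
      · simpa [hx] using convex_univ))
    (fun x => (fields_convex m h x _ _).2.inter (by
      by_cases hx : 3 ≤ h x
      · simp [hx]
      · simp [hx]))
    (fun t x u hu => by
      refine ⟨⟨?_, ?_⟩, fun hx => ?_⟩
      · rw [fields_inv hc.action hc.smooth hc.invariant, hc.invariant]; exact hu.1.1
      · rw [fields_inv hc.action hh.smooth hh.invariant]; exact hu.1.2
      · rw [hh.invariant] at hx
        obtain ⟨y, hy, rfl⟩ := hh.big x (by linarith)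
        rw [hu.2 hx]
        exact hZ.inv ht hc.isEnd hc.action (by linarith) t)
    (fun x => by
      by_cases hx : h x < 3
      · obtain ⟨u, h1, h2⟩ := hn x hx.le
        obtain ⟨Y, hY⟩ := fields_local hc.smooth hh.smooth hw (hs x) h1 h2
        refine ⟨Y, ?_⟩
        filter_upwards [hY, (hh.smooth.continuous.continuousAt (x := x)).eventually
          (gt_mem_nhds hx)] with z hz hz3
        exact ⟨hz.1, ⟨hz.2.1, hz.2.2.le.trans (le_max_left _ _)⟩,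
          fun h3 => absurd hz3 (not_lt.2 h3)⟩
      · have hx2 : 2 < h x := by linarith [not_lt.1 hx]
        refine ⟨Z, ?_⟩
        filter_upwards [(hh.smooth.continuous.continuousAt (x := x)).eventually
          (lt_mem_nhds hx2)] with z hz
        obtain ⟨y, hy, rfl⟩ := hh.big z hz.le
        rw [hh.onEnd y hy] at hz
        exact ⟨hZ.smooth y (by linarith), ⟨hZ.dif_m ht hc (by linarith),
          (hk y hz).trans (le_max_right _ _)⟩, fun _ => rfl⟩)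
  refine ⟨Y, max n k, h1, h2, fun x => (h3 x).1.1, fun x => (h3 x).1.2, fun y hy => ?_⟩
  exact (h3 (ι y)).2 (by rw [hh.onEnd y (by linarith)]; exact hy)

end Pool.Agent.P.MP_49bf82_gt
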