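import Pool.Agent.P.MP_49bf82_gt.Gen

open Manifold Set Filter Topology
open scoped ContDiff RealInnerProductSpace

namespace Pool.Agent.P.MP_49bf82_gt

open Pool.Agent.P.MP_e3ee0c_gt

variable {E F : Type*} [NormedAddCommGroup E] [NormedSpace ℝ E] [FiniteDimensional ℝ E]
  [NormedAddCommGroup F] [NormedSpace ℝ F] [FiniteDimensional ℝ F]
  {V W : Type*} [TopologicalSpace V] [ChartedSpace E V] [IsManifold 𝓘(ℝ, E) ∞ V]
  [TopologicalSpace W] [ChartedSpace F W] [IsManifold 𝓘(ℝ, F) ∞ W]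
  {Φ : V → ℂ} {ι : ℝ × V × R2 → W} {φ : R2 → W → W} {m : W → ℂ} {h : W → ℝ}
  {f : ℝ → V → V} {a : ℝ × V → ℝ} {σ : W → F →L[ℝ] F →L[ℝ] ℝ}

omit [FiniteDimensional ℝ E] [FiniteDimensional ℝ F] [IsManifold 𝓘(ℝ, E) ∞ V]
  [IsManifold 𝓘(ℝ, F) ∞ W] in
theorem height_near (he : IsEnd E F ι φ) {c : ℝ} {y : ℝ × V × R2} (hy : 0 < y.1) (hc : c < y.1) :
    ∀ᶠ x in 𝓝 (ι y), c < ((he.localDiffeo y hy).localInverse x).1 ∧
      ι ((he.localDiffeo y hy).localInverse x) = x := by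
  have hf := he.localDiffeo y hy
  have h1 : ContinuousAt (he.localDiffeo y hy).localInverse (ι y) :=
    (he.localDiffeo y hy).localInverse_contMDiffAt.continuousAt
  have h2 : (he.localDiffeo y hy).localInverse (ι y) = y :=
    (he.localDiffeo y hy).localInverse_left_inv (he.localDiffeo y hy).localInverse_mem_target
  have h3 : ∀ᶠ z in 𝓝 ((he.localDiffeo y hy).localInverse (ι y)), c < z.1 := by
    rw [h2]
    exact (isOpen_lt continuous_const continuous_fst).mem_nhds hc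
  exact (h1.eventually h3).and (he.localDiffeo y hy).localInverse_eventuallyEq_right

theorem IsEnd.isOpen (he : IsEnd E F ι φ) {c : ℝ} (hc : 0 ≤ c) : IsOpen (ι '' {y | c < y.1}) := by
  rw [isOpen_iff_mem_nhds]
  rintro _ ⟨y, hy, rfl⟩
  filter_upwards [height_near he (hc.trans_lt hy) hy] with x hx
  exact ⟨_, hx.1, hx.2⟩

theorem IsEnd.periodic (he : IsEnd E F ι φ) (hφ : IsAction F φ) {s : ℝ} (hs : 0 < s) (v : V)
    (u : R2) (k : Fin 2 → ℤ) : ι (s, v, u + rv k) = ι (s, v, u) := by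
  rw [← he.equivariant s v u (rv k) hs]
  exact hφ.periodic k _

/-- Periodic maps on the product descend to the end. -/
theorem IsEnd.descend (he : IsEnd E F ι φ) {E₀ H₀ N : Type*} [NormedAddCommGroup E₀]
    [NormedSpace ℝ E₀] [TopologicalSpace H₀] {J : ModelWithCorners ℝ E₀ H₀} [TopologicalSpace N]
    [ChartedSpace H₀ N] {g : ℝ × V × R2 → N}
    (hg : ∀ y : ℝ × V × R2, 0 < y.1 → ContMDiffAt (I3 E) J ∞ g y)
    (hp : ∀ s v u (k : Fin 2 → ℤ), 0 < s → g (s, v, u + rv k) = g (s, v, u)) (n₀ : N) :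
    ∃ g' : W → N, (∀ y : ℝ × V × R2, 0 < y.1 → g' (ι y) = g y ∧
      ContMDiffAt 𝓘(ℝ, F) J ∞ g' (ι y)) ∧ ∀ x ∉ ι '' {y | 0 < y.1}, g' x = n₀ := by
  classical
  let g' : W → N := fun x => if hx : x ∈ ι '' {y | 0 < y.1} then g hx.choose else n₀
  have h1 : ∀ y : ℝ × V × R2, 0 < y.1 → g' (ι y) = g y := by
    intro y hy
    have hx : ι y ∈ ι '' {y | 0 < y.1} := ⟨y, hy, rfl⟩
    have h2 : g' (ι y) = g hx.choose := dif_pos hx
    obtain ⟨h3, h4⟩ := hx.choose_spec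
    obtain ⟨e1, e2, k, e3⟩ := he.inj _ y h3 hy h4
    have h5 : hx.choose = (y.1, y.2.1, y.2.2 + rv k) := Prod.ext e1 (Prod.ext e2 e3)
    rw [h2, h5, hp _ _ _ k hy]
  refine ⟨g', fun y hy => ⟨h1 y hy, ?_⟩, fun x hx => dif_neg hx⟩
  have h2 : (he.localDiffeo y hy).localInverse (ι y) = y :=
    (he.localDiffeo y hy).localInverse_left_inv (he.localDiffeo y hy).localInverse_mem_target
  have h3 : ContMDiffAt 𝓘(ℝ, F) J ∞ (g ∘ (he.localDiffeo y hy).localInverse) (ι y) :=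
    ContMDiffAt.comp (ι y) (by rw [h2]; exact hg y hy)
      (he.localDiffeo y hy).localInverse_contMDiffAt
  refine h3.congr_of_eventuallyEq ?_
  filter_upwards [height_near he hy hy] with x hx
  have := h1 _ hx.1
  rw [hx.2] at this
  exact this

theorem IsEnd.exists_height (he : IsEnd E F ι φ) (hφ : IsAction F φ) :
    ∃ h : W → ℝ, IsHeight F ι φ h := by
  have hg : ContMDiff (I3 E) 𝓘(ℝ, ℝ) ∞
      (fun y : ℝ × V × R2 => y.1 * Real.smoothTransition (y.1 - 1)) := by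
    have h1 : ContDiff ℝ ∞ (fun s : ℝ => s * Real.smoothTransition (s - 1)) :=
      contDiff_id.mul (Real.smoothTransition.contDiff.comp (contDiff_id.sub contDiff_const))
    exact h1.contMDiff.comp contMDiff_fst
  obtain ⟨h, h1, h2⟩ := he.descend (fun y _ => hg y) (fun _ _ _ _ _ => rfl) (0 : ℝ)
  have hsm : ContMDiff 𝓘(ℝ, F) 𝓘(ℝ, ℝ) ∞ h := by
    intro x
    by_cases hx : x ∈ ι '' {y | 0 < y.1}
    · obtain ⟨y, hy, rfl⟩ := hx
      exact (h1 y hy).2
    · have hx' : x ∉ ι '' {y | 1 ≤ y.1} := fun ⟨y, hy, e⟩ =>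
        hx ⟨y, lt_of_lt_of_le one_pos (show (1 : ℝ) ≤ y.1 from hy), e⟩
      refine (contMDiffAt_const (c := (0 : ℝ))).congr_of_eventuallyEq ?_
      filter_upwards [(he.closed 1 one_pos).isOpen_compl.mem_nhds hx'] with z hz
      by_cases hz' : z ∈ ι '' {y | 0 < y.1}
      · obtain ⟨y, hy, rfl⟩ := hz'
        have hlt : y.1 < 1 := not_le.1 fun h' => hz ⟨y, h', rfl⟩
        rw [(h1 y hy).1, Real.smoothTransition.zero_of_nonpos (by linarith), mul_zero]
      · exact h2 z hz'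
  have hon : ∀ y : ℝ × V × R2, 2 ≤ y.1 → h (ι y) = y.1 := fun y hy => by
    rw [(h1 y (by linarith)).1, Real.smoothTransition.one_of_one_le (by linarith), mul_one]
  refine ⟨h, hsm, fun t x => ?_, hon, fun x hx => ?_, fun c => ?_⟩
  · by_cases hx : x ∈ ι '' {y | 0 < y.1}
    · obtain ⟨⟨s, v, u⟩, hy, rfl⟩ := hx
      rw [he.equivariant s v u t hy, (h1 (s, v, u + t) hy).1, (h1 (s, v, u) hy).1]
    · rw [h2 x hx, h2]
      rintro ⟨⟨s, v, u⟩, hy, e⟩
      refine hx ⟨(s, v, u + -t), hy, ?_⟩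
      rw [← he.equivariant s v u (-t) hy, e, ← hφ.add, neg_add_cancel, hφ.zero]
  · by_cases hx' : x ∈ ι '' {y | 0 < y.1}
    · obtain ⟨y, hy, rfl⟩ := hx'
      refine ⟨y, ?_, rfl⟩
      rw [(h1 y hy).1] at hx
      have h3 := Real.smoothTransition.le_one (y.1 - 1)
      have hy' : 0 < y.1 := hy
      nlinarith
    · rw [h2 x hx'] at hx
      norm_num at hx
  · refine (he.compact (max c 2) (lt_of_lt_of_le two_pos (le_max_right _ _))).of_isClosed_subset
      (isClosed_le hsm.continuous continuous_const) ?_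
    rintro x hx ⟨y, hy, rfl⟩
    have hy' : max c 2 < y.1 := hy
    have hx' : h (ι y) ≤ c := hx
    rw [hon y ((le_max_right _ _).trans hy'.le)] at hx'
    exact absurd ((le_max_left _ _).trans_lt hy') (not_lt.2 hx')

end Pool.Agent.P.MP_49bf82_gt
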