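import Pool.Agent.P.MP_49bf82_gt.Base

open Manifold Set Filter Topology
open scoped ContDiff RealInnerProductSpace

namespace Pool.Agent.P.MP_49bf82_gt

open Pool.Agent.P.MP_e3ee0c_gt

variable {F : Type*} [NormedAddCommGroup F] [NormedSpace ℝ F] [FiniteDimensional ℝ F]
  {W : Type*} [TopologicalSpace W] [ChartedSpace F W] [IsManifold 𝓘(ℝ, F) ∞ W]

variable {φ : R2 → W → W} {m : W → ℂ} {h : W → ℝ}

/-- translation of the moment value by `-r w` -/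
def isoT (P₁ P₂ : ℝ → W → W) (r : ℝ) (w : ℂ) (x : W) : W := P₂ (-(r * w.im)) (P₁ (-(r * w.re)) x)

/-- the inverse translation -/
def isoT' (P₁ P₂ : ℝ → W → W) (r : ℝ) (w : ℂ) (x : W) : W := P₁ (r * w.re) (P₂ (r * w.im) x)

/-- the rotation conjugated by the translation -/
def isoA (m : W → ℂ) (P₁ P₂ Q : ℝ → W → W) (r s : ℝ) (x : W) : W :=
  isoT' P₁ P₂ r (m x) (Q s (isoT P₁ P₂ r (m x) x))

omit [FiniteDimensional ℝ F] [IsManifold 𝓘(ℝ, F) ∞ W] in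
theorem iso_neg {P : ℝ → W → W} {C : ℝ} (hP : Mover F φ h C P) (s : ℝ) (x : W) :
    P (-s) (P s x) = x := by
  rw [← hP.add, neg_add_cancel, hP.zero]

omit [FiniteDimensional ℝ F] [IsManifold 𝓘(ℝ, F) ∞ W] in
theorem iso_neg' {P : ℝ → W → W} {C : ℝ} (hP : Mover F φ h C P) (s : ℝ) (x : W) :
    P s (P (-s) x) = x := by
  rw [← hP.add, add_neg_cancel, hP.zero]

omit [FiniteDimensional ℝ F] [IsManifold 𝓘(ℝ, F) ∞ W] in
theorem iso_smooth {P : ℝ → W → W} {C : ℝ} (hP : Mover F φ h C P) {a : ℝ × W → ℝ} {x : ℝ × W → W}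
    (ha : ContMDiff (𝓘(ℝ, ℝ).prod 𝓘(ℝ, F)) 𝓘(ℝ, ℝ) ∞ a)
    (hx : ContMDiff (𝓘(ℝ, ℝ).prod 𝓘(ℝ, F)) 𝓘(ℝ, F) ∞ x) :
    ContMDiff (𝓘(ℝ, ℝ).prod 𝓘(ℝ, F)) 𝓘(ℝ, F) ∞ fun q => P (a q) (x q) :=
  hP.smooth.comp (ha.prodMk hx)

theorem exists_isotopy (hm : ContMDiff 𝓘(ℝ, F) 𝓘(ℝ, ℂ) ∞ m) (hi : ∀ t x, m (φ t x) = m x)
    {P₁ P₂ Q : ℝ → W → W} {C₁ C₂ C₃ : ℝ} (hP₁ : Mover F φ h C₁ P₁) (hP₂ : Mover F φ h C₂ P₂)
    (hQ : Mover F φ h C₃ Q) (h1 : ∀ s x, m (P₁ s x) = m x + s * 1)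
    (h2 : ∀ s x, m (P₂ s x) = m x + s * Complex.I)
    (h3 : ∀ s x, m (Q s x) = Complex.exp (2 * Real.pi * Complex.I * s) * m x) {R N₀ : ℝ}
    (far : ∀ q, ‖m q‖ ≤ R → N₀ ≤ h q → Q 1 q = q ∧ (m q = 0 → ∀ s, Q s q = q)) :
    ∃ G G' : ℝ → W → W, Isotopy F φ m G G' ∧ (∀ x, G 1 x = Q 1 x) ∧
      ∃ N, ∀ τ x, ‖m x‖ ≤ R → N ≤ h x → G τ x = x := by
  have TT : ∀ r w x, isoT P₁ P₂ r w (isoT' P₁ P₂ r w x) = x := fun r w x => by
    simp only [isoT, isoT', iso_neg hP₁, iso_neg hP₂]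
  have TT' : ∀ r w x, isoT' P₁ P₂ r w (isoT P₁ P₂ r w x) = x := fun r w x => by
    simp only [isoT, isoT', iso_neg' hP₁, iso_neg' hP₂]
  have mT : ∀ r w x, m (isoT P₁ P₂ r w x) = m x - r * w := fun r w x => by
    simp only [isoT, h1, h2]
    apply Complex.ext <;> simp <;> ring
  have mT' : ∀ r w x, m (isoT' P₁ P₂ r w x) = m x + r * w := fun r w x => by
    simp only [isoT', h1, h2]
    apply Complex.ext <;> simp
  have mA : ∀ r s x, (r = 1 ∨ s = 1 ∨ s = -1) → m (isoA m P₁ P₂ Q r s x) = m x := by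
    intro r s x hrs
    simp only [isoA, mT', h3, mT]
    rcases hrs with rfl | rfl | rfl
    · simp
    · simp
    · simp [Complex.exp_neg]
  have AA : ∀ r s x, (r = 1 ∨ s = 1 ∨ s = -1) →
      isoA m P₁ P₂ Q r (-s) (isoA m P₁ P₂ Q r s x) = x := by
    intro r s x hrs
    rw [isoA, mA r s x hrs, isoA, TT, iso_neg hQ, TT']
  have Ae : ∀ r s t x, isoA m P₁ P₂ Q r s (φ t x) = φ t (isoA m P₁ P₂ Q r s x) := by
    intro r s t x
    simp only [isoA, isoT, isoT', hi, hP₁.equiv, hP₂.equiv, hQ.equiv]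
  have As : ∀ {a b : ℝ × W → ℝ} {x : ℝ × W → W},
      ContMDiff (𝓘(ℝ, ℝ).prod 𝓘(ℝ, F)) 𝓘(ℝ, ℝ) ∞ a → ContMDiff (𝓘(ℝ, ℝ).prod 𝓘(ℝ, F)) 𝓘(ℝ, ℝ) ∞ b →
      ContMDiff (𝓘(ℝ, ℝ).prod 𝓘(ℝ, F)) 𝓘(ℝ, F) ∞ x →
      ContMDiff (𝓘(ℝ, ℝ).prod 𝓘(ℝ, F)) 𝓘(ℝ, F) ∞ fun q => isoA m P₁ P₂ Q (a q) (b q) (x q) := by
    intro a b x ha hb hx
    have hre : ContMDiff (𝓘(ℝ, ℝ).prod 𝓘(ℝ, F)) 𝓘(ℝ, ℝ) ∞ fun q => a q * (m (x q)).re :=
      ha.mul (Complex.reCLM.contDiff.contMDiff.comp (hm.comp hx))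
    have him : ContMDiff (𝓘(ℝ, ℝ).prod 𝓘(ℝ, F)) 𝓘(ℝ, ℝ) ∞ fun q => a q * (m (x q)).im :=
      ha.mul (Complex.imCLM.contDiff.contMDiff.comp (hm.comp hx))
    exact iso_smooth hP₁ hre (iso_smooth hP₂ him (iso_smooth hQ hb
      (iso_smooth hP₂ him.neg (iso_smooth hP₁ hre.neg hx))))
  have ht : ContMDiff (𝓘(ℝ, ℝ).prod 𝓘(ℝ, F)) 𝓘(ℝ, ℝ) ∞
      fun q : ℝ × W => Real.smoothTransition q.1 :=
    (Real.smoothTransition.contDiff (n := ⊤)).contMDiff.comp contMDiff_fst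
  have ht1 : ContMDiff (𝓘(ℝ, ℝ).prod 𝓘(ℝ, F)) 𝓘(ℝ, ℝ) ∞
      fun q : ℝ × W => 1 - Real.smoothTransition q.1 := contMDiff_const.sub ht
  have hT : ∀ r x, 0 ≤ r → r ≤ 1 → ‖m x‖ ≤ R → N₀ + (|C₁| + |C₂|) * |R| ≤ h x →
      ‖m (isoT P₁ P₂ r (m x) x)‖ ≤ R ∧ N₀ ≤ h (isoT P₁ P₂ r (m x) x) := by
    intro r x r0 r1 hR hN
    constructor
    · rw [mT, show m x - r * m x = ((1 - r : ℝ) : ℂ) * m x by push_cast; ring, norm_mul,
        Complex.norm_real, Real.norm_of_nonneg (by linarith)]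
      nlinarith [norm_nonneg (m x)]
    · have a1 := hP₁.height (-(r * (m x).re)) x
      have a2 := hP₂.height (-(r * (m x).im)) (P₁ (-(r * (m x).re)) x)
      have b1 : |-(r * (m x).re)| ≤ |R| := by
        rw [abs_neg, abs_mul, abs_of_nonneg r0]
        nlinarith [Complex.abs_re_le_norm (m x), le_abs_self R, abs_nonneg (m x).re]
      have b2 : |-(r * (m x).im)| ≤ |R| := by
        rw [abs_neg, abs_mul, abs_of_nonneg r0]
        nlinarith [Complex.abs_im_le_norm (m x), le_abs_self R, abs_nonneg (m x).im]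
      have c1 : C₁ * |-(r * (m x).re)| ≤ |C₁| * |R| :=
        mul_le_mul (le_abs_self _) b1 (abs_nonneg _) (abs_nonneg _)
      have c2 : C₂ * |-(r * (m x).im)| ≤ |C₂| * |R| :=
        mul_le_mul (le_abs_self _) b2 (abs_nonneg _) (abs_nonneg _)
      have d1 := (abs_le.1 (a1.trans c1)).1
      have d2 := (abs_le.1 (a2.trans c2)).1
      unfold isoT
      linarith
  refine ⟨fun τ x => isoA m P₁ P₂ Q (1 - Real.smoothTransition τ) 1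
      (isoA m P₁ P₂ Q 1 (-(1 - Real.smoothTransition τ)) x),
    fun τ x => isoA m P₁ P₂ Q 1 (1 - Real.smoothTransition τ)
      (isoA m P₁ P₂ Q (1 - Real.smoothTransition τ) (-1) x),
    ⟨As ht1 contMDiff_const (As contMDiff_const ht1.neg contMDiff_snd),
      As contMDiff_const ht1 (As ht1 contMDiff_const contMDiff_snd), fun τ x => ?_, fun τ x => ?_,
      fun x => ?_, fun τ x => ?_, fun τ t x => by rw [Ae, Ae]⟩, fun x => ?_,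
    N₀ + (|C₁| + |C₂|) * |R|, fun τ x hR hN => ?_⟩
  · rw [AA _ 1 _ (Or.inr (Or.inl rfl))]
    simpa only [neg_neg] using AA 1 (-(1 - Real.smoothTransition τ)) x (Or.inl rfl)
  · rw [AA 1 _ _ (Or.inl rfl)]
    simpa only [neg_neg] using AA _ (-1) x (Or.inr (Or.inr rfl))
  · rw [Real.smoothTransition.zero, sub_zero]
    simpa only [neg_neg] using AA 1 (-1) x (Or.inl rfl)
  · rw [mA _ _ _ (Or.inr (Or.inl rfl)), mA _ _ _ (Or.inl rfl)]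
  · have : isoA m P₁ P₂ Q 1 0 x = x := by rw [isoA, hQ.zero, TT']
    simp only [Real.smoothTransition.one, sub_self, neg_zero, this]
    simp [isoA, isoT, isoT', hP₁.zero, hP₂.zero]
  · have a1 := hT 1 x zero_le_one le_rfl hR hN
    have a2 := hT (1 - Real.smoothTransition τ) x (by linarith [Real.smoothTransition.le_one τ])
      (by linarith [Real.smoothTransition.nonneg τ]) hR hN
    have b1 : isoA m P₁ P₂ Q 1 (-(1 - Real.smoothTransition τ)) x = x := by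
      rw [isoA, (far _ a1.1 a1.2).2 (by simp [mT]), TT']
    show isoA m P₁ P₂ Q _ 1 (isoA m P₁ P₂ Q 1 _ x) = x
    rw [b1, isoA, (far _ a2.1 a2.2).1, TT']

end Pool.Agent.P.MP_49bf82_gt
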