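import Pool.Agent.P.MP_49bf82_gt.Base

open Manifold Set Filter Topology
open scoped ContDiff RealInnerProductSpace

namespace Pool.Agent.P.MP_49bf82_gt

open Pool.Agent.P.MP_e3ee0c_gt

variable {G : Type*} [NormedAddCommGroup G] [InnerProductSpace ℝ G] [FiniteDimensional ℝ G]

section
variable {ι : Type*} [Fintype ι] (b : OrthonormalBasis ι ℝ G)

/-- the diagonal operator with entries f -/
noncomputable def linaD (f : ι → ℝ) : G →L[ℝ] G :=
  ∑ i, f i • (innerSL ℝ (b i)).smulRight (b i)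

omit [FiniteDimensional ℝ G] in
theorem lina_apply (f : ι → ℝ) (y : G) : linaD b f y = ∑ i, (f i * ⟪b i, y⟫) • b i := by
  simp [linaD, smul_smul]

omit [FiniteDimensional ℝ G] in
theorem lina_coord (f : ι → ℝ) (y : G) (j : ι) : ⟪b j, linaD b f y⟫ = f j * ⟪b j, y⟫ := by
  rw [lina_apply]
  exact b.orthonormal.inner_right_fintype _ j

omit [FiniteDimensional ℝ G] in
theorem lina_ext {y z : G} (h : ∀ j, ⟪b j, y⟫ = ⟪b j, z⟫) : y = z := by
  rw [← b.sum_repr' y, ← b.sum_repr' z]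
  exact Finset.sum_congr rfl fun j _ => by rw [h j]

omit [FiniteDimensional ℝ G] in
theorem lina_inner (y z : G) : ⟪y, z⟫ = ∑ i, ⟪b i, y⟫ * ⟪b i, z⟫ := by
  rw [← b.sum_inner_mul_inner y z]
  exact Finset.sum_congr rfl fun i _ => by rw [real_inner_comm]

end

theorem lina_gap {ι : Type*} [Fintype ι] (c : ι → ℝ) :
    ∃ l : ℝ, 0 < l ∧ ∀ i, c i ≠ 0 → l ≤ |c i| := by
  have : ∀ᶠ l in 𝓝[>] (0 : ℝ), ∀ i, c i ≠ 0 → l ≤ |c i| := by
    refine eventually_all.2 fun i => ?_
    by_cases hi : c i = 0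
    · exact Eventually.of_forall fun _ h => absurd hi h
    · filter_upwards [mem_nhdsWithin_of_mem_nhds (Iic_mem_nhds (abs_pos.2 hi))] with _ h _ using h
  obtain ⟨l, h1, h2⟩ := (this.and self_mem_nhdsWithin).exists
  exact ⟨l, h2, h1⟩

/-- Spectral decomposition of the symmetric form B (A u) v. -/
theorem Pair.exists_split {A : G →L[ℝ] G} {B : G →L[ℝ] G →L[ℝ] ℝ} (h : Pair A B) :
    ∃ N P l, Split A B N P l := by
  classical
  obtain ⟨S, hS⟩ : ∃ S : G →ₗ[ℝ] G, ∀ u v, ⟪S u, v⟫ = B (A u) v := by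
    refine ⟨{ toFun := fun u => (InnerProductSpace.toDual ℝ G).symm (B (A u))
              map_add' := fun u v => by rw [map_add, map_add, map_add]
              map_smul' := fun c u => by simp }, fun u v => ?_⟩
    exact InnerProductSpace.toDual_symm_apply
  have hsym : S.IsSymmetric := fun u v => by
    rw [hS, real_inner_comm, hS, h.symm]
  obtain ⟨b, c, hb⟩ : ∃ (b : OrthonormalBasis (Fin (Module.finrank ℝ G)) ℝ G)
      (c : Fin (Module.finrank ℝ G) → ℝ), ∀ i, S (b i) = c i • b i :=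
    ⟨hsym.eigenvectorBasis rfl, hsym.eigenvalues rfl,
      fun i => hsym.apply_eigenvectorBasis rfl i⟩
  have hc : ∀ j y, ⟪b j, S y⟫ = c j * ⟪b j, y⟫ := fun j y => by
    rw [← hsym, hb, real_inner_smul_left]
  have hB : ∀ y z, B (A y) z = ∑ i, c i * ⟪b i, y⟫ * ⟪b i, z⟫ := fun y z => by
    rw [← hS, lina_inner b]
    exact Finset.sum_congr rfl fun i _ => by rw [hc]
  have hker : ∀ z, S z = 0 → A z = 0 := fun z hz =>
    h.nondeg _ fun v => by rw [← hS, hz, inner_zero_left]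
  obtain ⟨l, hl, hl'⟩ := lina_gap c
  obtain ⟨n, hn⟩ : ∃ n : Fin (Module.finrank ℝ G) → ℝ, ∀ i, n i = if 0 < c i then 1 else 0 :=
    ⟨_, fun _ => rfl⟩
  obtain ⟨p, hp⟩ : ∃ p : Fin (Module.finrank ℝ G) → ℝ, ∀ i, p i = if c i < 0 then 1 else 0 :=
    ⟨_, fun _ => rfl⟩
  have tri : ∀ i, (0 < c i ∧ l ≤ c i ∧ n i = 1 ∧ p i = 0) ∨ (c i ≤ -l ∧ n i = 0 ∧ p i = 1) ∨
      (c i = 0 ∧ n i = 0 ∧ p i = 0) := by
    intro i
    rcases lt_trichotomy 0 (c i) with h1 | h1 | h1
    · have := hl' i h1.ne'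
      rw [abs_of_pos h1] at this
      exact Or.inl ⟨h1, this, by rw [hn, if_pos h1], by rw [hp, if_neg h1.le.not_gt]⟩
    · exact Or.inr (Or.inr ⟨h1.symm, by rw [hn, if_neg h1.ge.not_gt],
        by rw [hp, if_neg h1.le.not_gt]⟩)
    · have := hl' i h1.ne
      rw [abs_of_neg h1] at this
      exact Or.inr (Or.inl ⟨by linarith, by rw [hn, if_neg h1.le.not_gt], by rw [hp, if_pos h1]⟩)
  refine ⟨linaD b n, linaD b p, l, hl, fun y => ?_, fun y => ?_, fun y => ?_, fun y => ?_,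
    fun y => ?_, fun y => ?_, fun y => ?_, fun y z => ⟨?_, ?_⟩, ?_⟩
  · have : A (y - linaD b n y - linaD b p y) = 0 := by
      refine hker _ (lina_ext b fun j => ?_)
      rw [hc, inner_sub_right, inner_sub_right, lina_coord, lina_coord, inner_zero_right]
      rcases tri j with ⟨-, -, h1, h2⟩ | ⟨-, h1, h2⟩ | ⟨h0, -, -⟩
      · rw [h1, h2]; ring
      · rw [h1, h2]; ring
      · rw [h0, zero_mul]
    rw [map_sub, map_sub, sub_sub, sub_eq_zero] at this
    exact this
  · refine lina_ext b fun j => ?_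
    rw [lina_coord, lina_coord]
    rcases tri j with ⟨-, -, h1, -⟩ | ⟨-, h1, -⟩ | ⟨-, h1, -⟩ <;> rw [h1] <;> ring
  · refine lina_ext b fun j => ?_
    rw [lina_coord, lina_coord]
    rcases tri j with ⟨-, -, -, h1⟩ | ⟨-, -, h1⟩ | ⟨-, -, h1⟩ <;> rw [h1] <;> ring
  · refine lina_ext b fun j => ?_
    rw [lina_coord, lina_coord, inner_zero_right]
    rcases tri j with ⟨-, -, h1, h2⟩ | ⟨-, h1, h2⟩ | ⟨-, h1, h2⟩ <;> rw [h1, h2] <;> ring
  · refine lina_ext b fun j => ?_
    rw [lina_coord, lina_coord, inner_zero_right]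
    rcases tri j with ⟨-, -, h1, h2⟩ | ⟨-, h1, h2⟩ | ⟨-, h1, h2⟩ <;> rw [h1, h2] <;> ring
  · rw [hB, ← real_inner_self_eq_norm_sq, lina_inner b, Finset.mul_sum]
    refine Finset.sum_le_sum fun j _ => ?_
    rw [lina_coord]
    rcases tri j with ⟨-, h0, h1, -⟩ | ⟨-, h1, -⟩ | ⟨-, h1, -⟩
    · rw [h1, one_mul, mul_assoc]
      exact mul_le_mul_of_nonneg_right h0 (mul_self_nonneg _)
    · rw [h1]; simp
    · rw [h1]; simp
  · rw [hB, ← real_inner_self_eq_norm_sq, lina_inner b, ← neg_mul, Finset.mul_sum]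
    refine Finset.sum_le_sum fun j _ => ?_
    rw [lina_coord]
    rcases tri j with ⟨-, -, -, h1⟩ | ⟨h0, -, h1⟩ | ⟨-, -, h1⟩
    · rw [h1]; simp
    · rw [h1, one_mul, mul_assoc]
      exact mul_le_mul_of_nonneg_right h0 (mul_self_nonneg _)
    · rw [h1]; simp
  · rw [hB]
    refine Finset.sum_eq_zero fun j _ => ?_
    rw [lina_coord, lina_coord]
    rcases tri j with ⟨-, -, h1, h2⟩ | ⟨-, h1, h2⟩ | ⟨-, h1, h2⟩ <;> rw [h1, h2] <;> ring
  · rw [hB]
    refine Finset.sum_eq_zero fun j _ => ?_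
    rw [lina_coord, lina_coord]
    rcases tri j with ⟨-, -, h1, h2⟩ | ⟨-, h1, h2⟩ | ⟨-, h1, h2⟩ <;> rw [h1, h2] <;> ring
  · rintro ⟨y, hy⟩
    obtain ⟨i, hi⟩ : ∃ i, 0 < c i := by
      by_contra hcon
      refine hy (lina_ext b fun j => ?_)
      rw [lina_coord, inner_zero_right, hn, if_neg fun h' => hcon ⟨j, h'⟩, zero_mul]
    have hfix : ∀ w, S w = c i • w → linaD b n w = w := fun w hw => by
      refine lina_ext b fun j => ?_
      rw [lina_coord]
      have h1 := hc j w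
      rw [hw, real_inner_smul_right] at h1
      by_cases h2 : ⟪b j, w⟫ = 0
      · rw [h2, mul_zero]
      · rw [hn, if_pos (mul_right_cancel₀ h2 h1 ▸ hi), one_mul]
    have hcomm : S (A (b i)) = c i • A (b i) := by
      rw [← map_smul, ← hb]
      refine ext_inner_right ℝ fun v => ?_
      rw [hS, h.skewA, hS, h.symm, h.skew]
    have h11 : ⟪b i, b i⟫ = 1 := by
      rw [real_inner_self_eq_norm_sq, b.orthonormal.1 i, one_pow]
    have hne : A (b i) ≠ 0 := by
      intro h0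
      have h1 := hS (b i) (b i)
      rw [h0, map_zero, hb, real_inner_smul_left, h11, mul_one] at h1
      exact hi.ne' h1
    have horth : ⟪b i, A (b i)⟫ = 0 := by
      have h1 := h.skewA (b i) (b i)
      rw [real_inner_comm] at h1
      linarith
    have hli : LinearIndependent ℝ
        ![(⟨b i, b i, hfix _ (hb i)⟩ : LinearMap.range (linaD b n : G →ₗ[ℝ] G)),
          ⟨A (b i), A (b i), hfix _ hcomm⟩] := by
      rw [LinearIndependent.pair_iff]
      intro s t hst
      have h1 : s • b i + t • A (b i) = 0 := congrArg Subtype.val hst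
      have h2 := congrArg (fun w => ⟪b i, w⟫) h1
      simp only [inner_add_right, real_inner_smul_right, h11, horth, inner_zero_right, mul_one,
        mul_zero, add_zero] at h2
      rw [h2, zero_smul, zero_add] at h1
      exact ⟨h2, (smul_eq_zero.1 h1).resolve_right hne⟩
    have := hli.cardinal_lift_le_rank
    simp only [Cardinal.mk_fintype, Fintype.card_fin, Cardinal.lift_natCast, Cardinal.lift_uzero]
      at this
    exact lt_of_lt_of_le Cardinal.one_lt_two this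

end Pool.Agent.P.MP_49bf82_gt
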