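import Pool.Agent.P.MP_49bf82_gt.VF
import Pool.Agent.Lib.Flow.Tools

open Manifold Set Filter Topology
open scoped ContDiff RealInnerProductSpace

namespace Pool.Agent.P.MP_49bf82_gt

open Pool.Agent.P.MP_e3ee0c_gt

variable {F : Type*} [NormedAddCommGroup F] [NormedSpace ℝ F] [FiniteDimensional ℝ F]
  {W : Type*} [TopologicalSpace W] [ChartedSpace F W] [IsManifold 𝓘(ℝ, F) ∞ W]

/-- A smooth local flow of a field on an open subset of the model space. -/
theorem mflowa_model {Z : F → F} {T : Set F} (hT : IsOpen T) (hZ : ∀ z ∈ T, ContDiffAt ℝ ∞ Z z)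
    {a : F} (ha : a ∈ T) : ∃ ε > 0, ∃ r > 0, ∃ P : ℝ × F → F, ContDiff ℝ ∞ P ∧
      (∀ y, P (0, y) = y) ∧ ∀ y ∈ Metric.ball a r, ∀ t ∈ Ioo (-ε) ε,
        P (t, y) ∈ T ∧ HasDerivAt (fun s => P (s, y)) (Z (P (t, y))) t := by
  have : CompleteSpace F := FiniteDimensional.complete ℝ F
  obtain ⟨ρ0, hρ0, hb⟩ := Metric.isOpen_iff.1 hT a ha
  set ρ := ρ0 / 4 with hρ
  have hρ' : 0 < ρ := by positivity
  have hsub : Metric.closedBall a (3 * ρ) ⊆ T :=
    (Metric.closedBall_subset_ball (by rw [hρ]; linarith)).trans hb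
  let f : ContDiffBump a := ⟨2 * ρ, 3 * ρ, by positivity, by linarith⟩
  let v : F → F := fun y => f y • Z y
  have hv : ContDiff ℝ ∞ v := by
    rw [contDiff_iff_contDiffAt]
    intro y
    by_cases hy : y ∈ T
    · exact f.contDiff.contDiffAt.smul (hZ y hy)
    · have h1 : y ∉ tsupport f := by
        rw [f.tsupport_eq]; exact fun h => hy (hsub h)
      refine (contDiffAt_const (c := (0 : F))).congr_of_eventuallyEq ?_
      filter_upwards [notMem_tsupport_iff_eventuallyEq.1 h1] with z hz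
      simp only [v, hz, Pi.zero_apply, zero_smul]
  have hc : HasCompactSupport v := by
    refine HasCompactSupport.intro (isCompact_closedBall a (3 * ρ)) fun y hy => ?_
    rw [Metric.mem_closedBall, not_le] at hy
    simp only [v, f.zero_of_le_dist hy.le, zero_smul]
  obtain ⟨P, hP, h0, hd, -⟩ := Lib.Flow.exists_flow_of_hasCompactSupport (n := ⊤) (by simp) v hv hc
  have key : ∀ᶠ t in 𝓝 (0 : ℝ), ∀ y ∈ Metric.closedBall a ρ, P (t, y) ∈ Metric.ball a (2 * ρ) := by
    refine (isCompact_closedBall a ρ).eventually_forall_of_forall_eventually fun y hy => ?_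
    refine hP.continuous.continuousAt.eventually_mem (Metric.isOpen_ball.mem_nhds ?_)
    rw [h0]
    exact Metric.closedBall_subset_ball (by linarith) hy
  obtain ⟨ε, hε, hk⟩ := Metric.eventually_nhds_iff.1 key
  refine ⟨ε, hε, ρ, hρ', P, hP, h0, fun y hy t ht => ?_⟩
  have hm := hk (y := t) (by simpa [Real.dist_eq, abs_lt] using ht) y
    (Metric.ball_subset_closedBall hy)
  refine ⟨hsub (Metric.ball_subset_closedBall (Metric.ball_subset_ball (by linarith) hm)), ?_⟩
  have := hd t y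
  simp only [v, f.one_of_mem_closedBall (Metric.ball_subset_closedBall hm), one_smul] at this
  exact this

/-- A smooth local flow. -/
theorem VF.local_flow {Y : W → F} (hY : VF Y) (p : W) :
    ∃ ε > 0, ∃ U, IsOpen U ∧ p ∈ U ∧ ∃ P : ℝ × W → W, ∀ x ∈ U, P (0, x) = x ∧
      IsMIntegralCurveOn (I := 𝓘(ℝ, F)) (fun t => P (t, x)) Y (Ioo (-ε) ε) ∧
      ∀ t ∈ Ioo (-ε) ε, ContMDiffAt (𝓘(ℝ, ℝ).prod 𝓘(ℝ, F)) 𝓘(ℝ, F) ∞ P (t, x) := by
  have hZ : ∀ z ∈ (chartAt F p).target, ContDiffAt ℝ ∞ (chartField Y p) z := by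
    intro z hz
    have := (vfAt_iff_chart (Y := Y) p ((chartAt F p).map_target hz)).1 (hY _)
    rwa [(chartAt F p).right_inv hz] at this
  obtain ⟨ε, hε, r, hr, P, hP, h0, hf⟩ := mflowa_model (chartAt F p).open_target hZ
    (mem_chart_target F p)
  refine ⟨ε, hε, (chartAt F p).source ∩ chartAt F p ⁻¹' Metric.ball (chartAt F p p) r,
    (chartAt F p).isOpen_inter_preimage Metric.isOpen_ball,
    ⟨mem_chart_source F p, Metric.mem_ball_self hr⟩,
    fun q => (chartAt F p).symm (P (q.1, chartAt F p q.2)), fun x hx => ⟨?_, ?_, ?_⟩⟩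
  · simp only [h0, (chartAt F p).left_inv hx.1]
  · intro t ht
    obtain ⟨h1, h2⟩ := hf _ hx.2 t ht
    refine HasMFDerivAt.hasMFDerivWithinAt ?_
    have h3 := hasMF_dif ((chart_symm_smooth p h1).mdifferentiableAt (by simp))
    have h4 := h3.comp t (f := fun s => P (s, chartAt F p x)) h2.hasFDerivAt.hasMFDerivAt
    refine h4.congr_mfderiv ?_
    have h5 := dif_symm_chart p ((chartAt F p).map_target h1)
      (Y ((chartAt F p).symm (P (t, chartAt F p x))))
    rw [(chartAt F p).right_inv h1] at h5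
    refine ContinuousLinearMap.ext_ring ?_
    change dif F F (chartAt F p).symm (P (t, chartAt F p x))
      ((1 : ℝ) • chartField Y p (P (t, chartAt F p x))) =
        (1 : ℝ) • Y ((chartAt F p).symm (P (t, chartAt F p x)))
    rw [one_smul, one_smul]
    exact h5
  · intro t ht
    obtain ⟨h1, -⟩ := hf _ hx.2 t ht
    have h2 : ContMDiffAt (𝓘(ℝ, ℝ).prod 𝓘(ℝ, F)) 𝓘(ℝ, ℝ × F) ∞
        (fun q : ℝ × W => (q.1, chartAt F p q.2)) (t, x) :=
      contMDiffAt_fst.prodMk_space ((chart_smooth p hx.1).comp (t, x) contMDiffAt_snd)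
    exact (chart_symm_smooth p h1).comp (t, x) (hP.contMDiff.contMDiffAt.comp (t, x) h2)

end Pool.Agent.P.MP_49bf82_gt
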