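import Pool.Agent.P.MP_49bf82_gt.MFlowA

open Manifold Set Filter Topology
open scoped ContDiff RealInnerProductSpace

namespace Pool.Agent.P.MP_49bf82_gt

open Pool.Agent.P.MP_e3ee0c_gt

variable {F : Type*} [NormedAddCommGroup F] [NormedSpace ℝ F] [FiniteDimensional ℝ F]
  {W : Type*} [TopologicalSpace W] [ChartedSpace F W] [IsManifold 𝓘(ℝ, F) ∞ W]

theorem mflowb_local [T2Space W] {Y : W → F} (hY : VF Y) {P : ℝ → W → W}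
    (h0 : ∀ x, P 0 x = x) (hc : ∀ x, IsMIntegralCurve (I := 𝓘(ℝ, F)) (fun t => P t x) Y) (p : W) :
    ∃ ε > 0, ∃ U, IsOpen U ∧ p ∈ U ∧ ∀ x ∈ U, ∀ t ∈ Ioo (-ε) ε,
      ContMDiffAt (𝓘(ℝ, ℝ).prod 𝓘(ℝ, F)) 𝓘(ℝ, F) ∞ (fun q : ℝ × W => P q.1 q.2) (t, x) := by
  obtain ⟨ε, hε, U, hU, hp, Q, hQ⟩ := hY.local_flow p
  refine ⟨ε, hε, U, hU, hp, fun x hx t ht => ?_⟩
  refine ((hQ x hx).2.2 t ht).congr_of_eventuallyEq ?_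
  have hmem : Ioo (-ε) ε ×ˢ U ∈ 𝓝 (t, x) := (isOpen_Ioo.prod hU).mem_nhds ⟨ht, hx⟩
  filter_upwards [hmem] with q hq
  have h := isMIntegralCurveOn_Ioo_eqOn_of_contMDiff_boundaryless (I := 𝓘(ℝ, F)) (t₀ := 0)
    (a := -ε) (b := ε) ⟨by linarith, hε⟩ hY.contMDiff_one ((hc q.2).isMIntegralCurveOn _)
    (hQ q.2 hq.2).2.1 (by rw [h0, (hQ q.2 hq.2).1])
  exact h hq.1

omit [FiniteDimensional ℝ F] [IsManifold 𝓘(ℝ, F) ∞ W] in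
theorem mflowb_step {P : ℝ → W → W} (hadd : ∀ s t x, P (s + t) x = P s (P t x)) {x : W} {t t₁ : ℝ}
    (h1 : ContMDiffAt 𝓘(ℝ, F) 𝓘(ℝ, F) ∞ (P t₁) x)
    (h2 : ContMDiffAt (𝓘(ℝ, ℝ).prod 𝓘(ℝ, F)) 𝓘(ℝ, F) ∞ (fun q : ℝ × W => P q.1 q.2)
      (t - t₁, P t₁ x)) :
    ContMDiffAt (𝓘(ℝ, ℝ).prod 𝓘(ℝ, F)) 𝓘(ℝ, F) ∞ (fun q : ℝ × W => P q.1 q.2) (t, x) := by
  have ha : ContMDiffAt (𝓘(ℝ, ℝ).prod 𝓘(ℝ, F)) 𝓘(ℝ, ℝ) ∞ (fun q : ℝ × W => q.1 - t₁) (t, x) :=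
    contMDiffAt_fst.sub contMDiffAt_const
  have hb : ContMDiffAt (𝓘(ℝ, ℝ).prod 𝓘(ℝ, F)) 𝓘(ℝ, F) ∞ (fun q : ℝ × W => P t₁ q.2) (t, x) :=
    ContMDiffAt.comp (t, x) (g := P t₁) (f := fun q : ℝ × W => q.2) h1 contMDiffAt_snd
  have hc := ContMDiffAt.comp (t, x) (g := fun q : ℝ × W => P q.1 q.2)
    (f := fun q : ℝ × W => (q.1 - t₁, P t₁ q.2)) h2 (ha.prodMk hb)
  have he : ((fun q : ℝ × W => P q.1 q.2) ∘ fun q : ℝ × W => (q.1 - t₁, P t₁ q.2)) =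
      fun q : ℝ × W => P q.1 q.2 := by
    funext q
    simp only [Function.comp_apply]
    rw [← hadd, sub_add_cancel]
  rwa [he] at hc

omit [FiniteDimensional ℝ F] [IsManifold 𝓘(ℝ, F) ∞ W] in
theorem mflowb_slice {P : ℝ → W → W} {x : W} {t : ℝ}
    (h : ContMDiffAt (𝓘(ℝ, ℝ).prod 𝓘(ℝ, F)) 𝓘(ℝ, F) ∞ (fun q : ℝ × W => P q.1 q.2) (t, x)) :
    ContMDiffAt 𝓘(ℝ, F) 𝓘(ℝ, F) ∞ (P t) x :=
  ContMDiffAt.comp x (g := fun q : ℝ × W => P q.1 q.2) (f := fun y : W => (t, y)) h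
    (contMDiffAt_const.prodMk contMDiffAt_id)

/-- A complete smooth field has a smooth flow. -/
theorem VF.flow_of_complete [T2Space W] {Y : W → F} (hY : VF Y)
    (hex : ∀ x, ∃ γ : ℝ → W, γ 0 = x ∧ IsMIntegralCurve (I := 𝓘(ℝ, F)) γ Y) :
    ∃ P, IsFlow Y P := by
  choose γ h0 hc using hex
  let P : ℝ → W → W := fun t x => γ x t
  have hP0 : ∀ x, P 0 x = x := h0
  have hPc : ∀ x, IsMIntegralCurve (I := 𝓘(ℝ, F)) (fun t => P t x) Y := hc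
  have hadd : ∀ s t x, P (s + t) x = P s (P t x) := by
    intro s t x
    have h := isMIntegralCurve_Ioo_eq_of_contMDiff_boundaryless (I := 𝓘(ℝ, F)) (t₀ := 0)
      hY.contMDiff_one ((hc x).comp_add t) (hc (γ x t)) (by simp [h0])
    exact congrFun h s
  have hslice : ∀ x t, ContMDiffAt 𝓘(ℝ, F) 𝓘(ℝ, F) ∞ (P t) x := by
    intro x t
    have hloc : ∀ t₀ : ℝ, ∀ᶠ s in 𝓝 t₀, ∀ᶠ u in 𝓝 t₀,
        ContMDiffAt 𝓘(ℝ, F) 𝓘(ℝ, F) ∞ (P s) x → ContMDiffAt 𝓘(ℝ, F) 𝓘(ℝ, F) ∞ (P u) x := by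
      intro t₀
      obtain ⟨ε, hε, U, hU, hp, hs⟩ := mflowb_local hY hP0 hPc (P t₀ x)
      have h1 : ∀ᶠ s in 𝓝 t₀, P s x ∈ U :=
        (hPc x).continuous.continuousAt.preimage_mem_nhds (hU.mem_nhds hp)
      have h2 : ∀ᶠ s in 𝓝 t₀, s ∈ Ioo (t₀ - ε / 2) (t₀ + ε / 2) :=
        Ioo_mem_nhds (by linarith) (by linarith)
      filter_upwards [h1, h2] with s hs1 hs2
      filter_upwards [h2] with u hu hsm
      exact mflowb_slice (mflowb_step hadd hsm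
        (hs _ hs1 _ ⟨by linarith [hs2.2, hu.1], by linarith [hs2.1, hu.2]⟩))
    have hopen : IsOpen {s : ℝ | ContMDiffAt 𝓘(ℝ, F) 𝓘(ℝ, F) ∞ (P s) x} := by
      rw [isOpen_iff_mem_nhds]
      intro s hs
      filter_upwards [(hloc s).self_of_nhds] with u hu
      exact hu hs
    have hclosed : IsClosed {s : ℝ | ContMDiffAt 𝓘(ℝ, F) 𝓘(ℝ, F) ∞ (P s) x} := by
      rw [← isOpen_compl_iff, isOpen_iff_mem_nhds]
      intro s hs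
      filter_upwards [hloc s] with u hu hu'
      exact hs (hu.self_of_nhds hu')
    have hne : {s : ℝ | ContMDiffAt 𝓘(ℝ, F) 𝓘(ℝ, F) ∞ (P s) x}.Nonempty := by
      refine ⟨0, ?_⟩
      have : P 0 = id := funext hP0
      show ContMDiffAt 𝓘(ℝ, F) 𝓘(ℝ, F) ∞ (P 0) x
      rw [this]
      exact contMDiffAt_id
    have huniv := IsClopen.eq_univ ⟨hclosed, hopen⟩ hne
    have ht : t ∈ {s : ℝ | ContMDiffAt 𝓘(ℝ, F) 𝓘(ℝ, F) ∞ (P s) x} := huniv ▸ mem_univ t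
    exact ht
  refine ⟨P, ⟨?_, hP0, hadd, hPc⟩⟩
  rintro ⟨t, x⟩
  obtain ⟨ε, hε, U, hU, hp, hs⟩ := mflowb_local hY hP0 hPc (P t x)
  exact mflowb_step hadd (hslice x t) (hs _ hp _ ⟨by linarith, by linarith⟩)

end Pool.Agent.P.MP_49bf82_gt
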