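import Pool.Agent.P.MP_49bf82_gt.Norm
import Pool.Agent.P.MP_49bf82_gt.CritB
import Pool.Agent.P.MP_49bf82_gt.Fields
import Pool.Agent.P.MP_49bf82_gt.Far
import Pool.Agent.P.MP_49bf82_gt.Iso
import Pool.Agent.P.MP_49bf82_gt.Desc

open Manifold Set Filter Topology
open scoped ContDiff RealInnerProductSpace

namespace Pool.Agent.P.MP_49bf82_gt

open Pool.Agent.P.MP_e3ee0c_gt

variable {E F : Type*} [NormedAddCommGroup E] [NormedSpace ℝ E] [FiniteDimensional ℝ E]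
  [NormedAddCommGroup F] [NormedSpace ℝ F] [FiniteDimensional ℝ F]
  {V W : Type*} [TopologicalSpace V] [ChartedSpace E V] [IsManifold 𝓘(ℝ, E) ∞ V]
  [TopologicalSpace W] [ChartedSpace F W] [IsManifold 𝓘(ℝ, F) ∞ W]
  {Φ : V → ℂ} {ι : ℝ × V × R2 → W} {φ : R2 → W → W} {m : W → ℂ} {h : W → ℝ}
  {f : ℝ → V → V} {a : ℝ × V → ℝ} {σ : W → F →L[ℝ] F →L[ℝ] ℝ}

theorem main [CompactSpace V] [ConnectedSpace V] [T2Space W] [ConnectedSpace W]
    {α : V → E →L[ℝ] ℝ} {μ : W → R2} (hΦ : ContMDiff 𝓘(ℝ, E) 𝓘(ℝ, ℂ) ∞ Φ)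
    (hF : IsEquivariantFilling α Φ σ ι φ μ) (hf : IsMonodromyFlow E Φ f) :
    SmoothlyTrivial E Φ (f 1) := by
  obtain ⟨m, hc, hH⟩ := hF.exists_core hΦ
  obtain ⟨h, hh⟩ := hc.isEnd.exists_height hc.action
  haveI : SigmaCompactSpace W := by
    refine SigmaCompactSpace.of_countable {K | ∃ n : ℕ, K = {x | h x ≤ n}}
      ((countable_range fun n : ℕ => {x | h x ≤ n}).mono ?_) ?_ ?_
    · rintro _ ⟨n, rfl⟩; exact ⟨n, rfl⟩
    · rintro _ ⟨n, rfl⟩; exact hh.compact n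
    · refine eq_univ_of_forall fun x => ?_
      obtain ⟨n, hn⟩ := exists_nat_ge (h x)
      exact ⟨_, ⟨n, rfl⟩, hn⟩
  have hd := hc.dense_ne (hH.surjective_end hc.isEnd)
  have hs := hc.surjective hH hh (hf.exists_neg hd)
  obtain ⟨a, ht⟩ := hf.exists_turn hd
  obtain ⟨Z, hZ⟩ := ht.exists_rot hc.isEnd hc.action
  obtain ⟨Y₁, C₁, a1, a2, a3, a4⟩ := hc.exists_lift hh hs 1
  obtain ⟨Y₂, C₂, b1, b2, b3, b4⟩ := hc.exists_lift hh hs Complex.I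
  obtain ⟨Y₃, C₃, c1, c2, c3, c4, c5⟩ := hc.exists_rot hh hs ht hZ
  obtain ⟨P₁, p1, p1'⟩ := exists_mover a1 hc.action a2 hh.smooth hh.compact a4
  obtain ⟨P₂, p2, p2'⟩ := exists_mover b1 hc.action b2 hh.smooth hh.compact b4
  obtain ⟨Q, q, q'⟩ := exists_mover c1 hc.action c2 hh.smooth hh.compact c4
  obtain ⟨R, hR, r1, r2⟩ := hc.exists_radius hh
  obtain ⟨N₀, hN₀⟩ := q.far c1 hc hh ht hZ c5 R
  obtain ⟨G, G', hG, hG1, N, hN⟩ := exists_isotopy hc.smooth hc.invariant p1' p2' q'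
    (p1.translate hc.smooth a3) (p2.translate hc.smooth b3) (q.rotate hc.smooth c3) hN₀
  refine hc.descent hh hG hR r1 r2 hN (hf.fix 1) fun v hv => ?_
  rw [hG1]
  exact q.one c1 ht hZ c5 hR r2 hv

end Pool.Agent.P.MP_49bf82_gt
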