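import Pool.Agent.P.MP_49bf82_gt.EndD
import Pool.Agent.P.MP_49bf82_gt.Fix

open Manifold Set Filter Topology
open scoped ContDiff RealInnerProductSpace

namespace Pool.Agent.P.MP_49bf82_gt

open Pool.Agent.P.MP_e3ee0c_gt

variable {E F : Type*} [NormedAddCommGroup E] [NormedSpace ℝ E] [FiniteDimensional ℝ E]
  [NormedAddCommGroup F] [NormedSpace ℝ F] [FiniteDimensional ℝ F]
  {V W : Type*} [TopologicalSpace V] [ChartedSpace E V] [IsManifold 𝓘(ℝ, E) ∞ V]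
  [TopologicalSpace W] [ChartedSpace F W] [IsManifold 𝓘(ℝ, F) ∞ W]
  {Φ : V → ℂ} {ι : ℝ × V × R2 → W} {φ : R2 → W → W} {m : W → ℂ} {h : W → ℝ}
  {f : ℝ → V → V} {a : ℝ × V → ℝ} {σ : W → F →L[ℝ] F →L[ℝ] ℝ}

/-- The plane as the complex line. -/
noncomputable def normL : R2 →L[ℝ] ℂ :=
  (ContinuousLinearMap.proj (R := ℝ) (φ := fun _ : Fin 2 => ℝ) 0).smulRight (1 : ℂ) -
    (ContinuousLinearMap.proj (R := ℝ) (φ := fun _ : Fin 2 => ℝ) 1).smulRight Complex.I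

theorem norm_pr_L (ξ t : R2) : pr ξ (normL t) = dotProduct t ξ := by
  simp [pr_apply, normL, dotProduct, Fin.sum_univ_two]
  ring

theorem norm_pr_ext {z w : ℂ} (hzw : ∀ ξ, pr ξ z = pr ξ w) : z = w := by
  have h0 := hzw ![1, 0]
  have h1 := hzw ![0, 1]
  simp only [pr_apply, Matrix.cons_val_zero, Matrix.cons_val_one, one_mul, zero_mul, sub_zero,
    zero_sub, neg_inj] at h0 h1
  exact Complex.ext h0 h1

omit [FiniteDimensional ℝ F] [IsManifold 𝓘(ℝ, F) ∞ W] in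
theorem norm_dif {μ : W → R2} (hμ : ContMDiff 𝓘(ℝ, F) 𝓘(ℝ, R2) ∞ μ) (c : ℂ) (x : W) (w : F) :
    dif F ℂ (fun z => normL (μ z) - c) x w = normL (dif F R2 μ x w) := by
  have h1 : MDifferentiableAt 𝓘(ℝ, F) 𝓘(ℝ, R2) μ x := (hμ x).mdifferentiableAt (by simp)
  have h2 : HasFDerivAt (fun t : R2 => normL t - c) normL (μ x) :=
    normL.hasFDerivAt.sub_const c
  have h3 := dif_comp (g := fun t : R2 => normL t - c) (f := μ) (x := x)
    h2.differentiableAt.mdifferentiableAt h1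
  rw [h3, dif_fderiv, h2.fderiv]
  rfl

omit [FiniteDimensional ℝ F] [IsManifold 𝓘(ℝ, F) ∞ W] in
theorem norm_smooth {μ : W → R2} (hμ : ContMDiff 𝓘(ℝ, F) 𝓘(ℝ, R2) ∞ μ) (c : ℂ) :
    ContMDiff 𝓘(ℝ, F) 𝓘(ℝ, ℂ) ∞ (fun z => normL (μ z) - c) := by
  have h2 : ContDiff ℝ ∞ (fun t : R2 => normL t - c) := normL.contDiff.sub contDiff_const
  exact h2.contMDiff.comp hμ

omit [FiniteDimensional ℝ E] [IsManifold 𝓘(ℝ, E) ∞ V] in
theorem norm_symp (α : V → E →L[ℝ] ℝ) (s : ℝ) (v : V) (ξ : R2) (b : ℝ × E × R2) :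
    -symp α Φ s v (0, 0, ξ) b =
      pr ξ ((Real.exp s : ℂ) * ((b.1 : ℂ) * Φ v + dif E ℂ Φ v b.2.1)) := by
  rw [pr_apply]
  simp only [symp, bour, extD, map_zero, zero_apply, Complex.mul_re,
    Complex.mul_im, Complex.ofReal_re, Complex.ofReal_im, Complex.add_re, Complex.add_im,
    Complex.zero_re, Complex.zero_im]
  ring

theorem norm_end {α : V → E →L[ℝ] ℝ} {μ : W → R2}
    (hF : IsEquivariantFilling α Φ σ ι φ μ) (hΦ : ContMDiff 𝓘(ℝ, E) 𝓘(ℝ, ℂ) ∞ Φ)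
    (y : ℝ × V × R2) (hy : 0 < y.1) :
    HasMFDerivAt (I3 E) 𝓘(ℝ, ℂ)
      (fun z : ℝ × V × R2 => (normL (μ (ι z)) - 0) - (Real.exp z.1 : ℂ) * Φ z.2.1) y 0 := by
  have hm : MDifferentiableAt 𝓘(ℝ, F) 𝓘(ℝ, ℂ) (fun z => normL (μ z) - 0) (ι y) :=
    (norm_smooth hF.smooth 0 (ι y)).mdifferentiableAt (by simp)
  have hι : MDifferentiableAt (I3 E) 𝓘(ℝ, F) ι y :=
    (hF.isEnd.localDiffeo y hy).contMDiffAt.mdifferentiableAt (by simp)
  have h1 : MDifferentiableAt (I3 E) 𝓘(ℝ, ℂ) (fun z => normL (μ (ι z)) - 0) y := hm.comp y hι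
  obtain ⟨h2, h3⟩ := hasMFDerivAt_expPhi hΦ y
  have h4 := h1.hasMFDerivAt.sub h2.hasMFDerivAt
  refine h4.congr_mfderiv ?_
  refine ContinuousLinearMap.ext fun b : ℝ × E × R2 => ?_
  have h5 := hF.isEnd.dif_dEnd hy hm b
  have h6 : dif F ℂ (fun z => normL (μ z) - 0) (ι y) (dEnd E F ι y b) =
      (Real.exp y.1 : ℂ) * ((b.1 : ℂ) * Φ y.2.1 + dif E ℂ Φ y.2.1 b.2.1) := by
    refine norm_pr_ext fun ξ => ?_
    rw [norm_dif hF.smooth, norm_pr_L, hF.hamiltonian, hF.isEnd.gen_eq hy, hF.form y hy,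
      norm_symp]
  have h7 := h3 b
  exact sub_eq_zero.2 (h5.symm.trans (h6.trans h7.symm))

/-- Normalisation of the moment map. -/
theorem IsEquivariantFilling.exists_core [ConnectedSpace V] {α : V → E →L[ℝ] ℝ} {μ : W → R2}
    (hF : IsEquivariantFilling α Φ σ ι φ μ) (hΦ : ContMDiff 𝓘(ℝ, E) 𝓘(ℝ, ℂ) ∞ Φ) :
    ∃ m : W → ℂ, Core E F Φ ι φ m ∧ Ham σ φ m := by
  obtain ⟨v0⟩ : Nonempty V := inferInstance
  have hU : IsOpen {y : ℝ × V × R2 | 0 < y.1} := isOpen_lt continuous_const continuous_fst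
  have hc : IsPreconnected {y : ℝ × V × R2 | 0 < y.1} := by
    have h1 : IsPreconnected (Ioi (0 : ℝ) ×ˢ (univ : Set (V × R2))) :=
      isPreconnected_Ioi.prod isPreconnected_univ
    have h2 : {y : ℝ × V × R2 | 0 < y.1} = Ioi (0 : ℝ) ×ˢ (univ : Set (V × R2)) := by
      ext y
      simp
    rw [h2]
    exact h1
  refine ⟨fun z => normL (μ z) - (normL (μ (ι (1, v0, 0))) - (Real.exp 1 : ℂ) * Φ v0),
    ⟨hF.action, hF.isEnd, hΦ, norm_smooth hF.smooth _, fun y hy => ?_, fun t x => ?_⟩,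
    ⟨hF.symplectic, fun x ξ w => ?_⟩⟩
  · have h1 := const_of_mfderiv hU hc (fun z hz => norm_end hF hΦ z hz) (x := y)
      (y := (1, v0, 0)) hy (show (0 : ℝ) < 1 from one_pos)
    simp only [sub_zero] at h1
    rw [← h1]
    ring
  · simp only [hF.invariant]
  · rw [norm_dif hF.smooth, norm_pr_L, hF.hamiltonian]

end Pool.Agent.P.MP_49bf82_gt
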