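import Pool.Agent.P.MP_49bf82_gt.EndD
import Pool.Agent.P.MP_49bf82_gt.Cocycle

open Manifold Set Filter Topology
open scoped ContDiff RealInnerProductSpace

namespace Pool.Agent.P.MP_49bf82_gt

open Pool.Agent.P.MP_e3ee0c_gt

variable {E F : Type*} [NormedAddCommGroup E] [NormedSpace ℝ E] [FiniteDimensional ℝ E]
  [NormedAddCommGroup F] [NormedSpace ℝ F] [FiniteDimensional ℝ F]
  {V W : Type*} [TopologicalSpace V] [ChartedSpace E V] [IsManifold 𝓘(ℝ, E) ∞ V]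
  [TopologicalSpace W] [ChartedSpace F W] [IsManifold 𝓘(ℝ, F) ∞ W]
  {Φ : V → ℂ} {ι : ℝ × V × R2 → W} {φ : R2 → W → W} {m : W → ℂ} {h : W → ℝ}
  {f : ℝ → V → V} {a : ℝ × V → ℝ} {σ : W → F →L[ℝ] F →L[ℝ] ℝ}

variable {Z : W → F}

omit [FiniteDimensional ℝ F] [IsManifold 𝓘(ℝ, F) ∞ W] in
theorem rotf_mk {b b' : W} {v v' : F} (h1 : b = b') (h2 : v = v') :
    (⟨b, v⟩ : TangentBundle 𝓘(ℝ, F) W) = ⟨b', v'⟩ := by
  subst h1 h2
  rfl

omit [FiniteDimensional ℝ F] [IsManifold 𝓘(ℝ, F) ∞ W] in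
theorem rotf_shift {γ : ℝ → W} {v : F} (t : ℝ)
    (hγ : HasMFDerivAt 𝓘(ℝ, ℝ) 𝓘(ℝ, F) γ 0 ((1 : ℝ →L[ℝ] ℝ).smulRight v)) :
    HasMFDerivAt 𝓘(ℝ, ℝ) 𝓘(ℝ, F) (fun s => γ (s - t)) t ((1 : ℝ →L[ℝ] ℝ).smulRight v) := by
  have h1 : HasMFDerivAt 𝓘(ℝ, ℝ) 𝓘(ℝ, ℝ) (fun s : ℝ => s - t) t (ContinuousLinearMap.id ℝ ℝ) :=
    ((hasFDerivAt_id t).sub_const t).hasMFDerivAt
  have h2 : HasMFDerivAt 𝓘(ℝ, ℝ) 𝓘(ℝ, F) γ (t - t) ((1 : ℝ →L[ℝ] ℝ).smulRight v) := by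
    rw [sub_self]
    exact hγ
  exact HasMFDerivAt.comp (f := fun s : ℝ => s - t) t h2 h1

omit [FiniteDimensional ℝ F] [IsManifold 𝓘(ℝ, F) ∞ W] in
theorem rotf_has {γ : ℝ → W} (hγ : MDifferentiableAt 𝓘(ℝ, ℝ) 𝓘(ℝ, F) γ 0) :
    HasMFDerivAt 𝓘(ℝ, ℝ) 𝓘(ℝ, F) γ 0 ((1 : ℝ →L[ℝ] ℝ).smulRight (dif ℝ F γ 0 1)) := by
  have e : (1 : ℝ →L[ℝ] ℝ).smulRight (dif ℝ F γ 0 1) = dif ℝ F γ 0 := by
    ext
    simp
  exact (hasMF_dif hγ).congr_mfderiv e.symm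

theorem rotf_ev (ht : Turn E Φ f a) {c : ℝ} {y : ℝ × V × R2} (hy : c < y.1) :
    ∀ᶠ s in 𝓝 (0 : ℝ), c < (ft f a s y).1 := by
  have h1 : Continuous fun s : ℝ => (ft f a s y).1 :=
    continuous_fst.comp (ht.ft_smooth.continuous.comp (continuous_id.prodMk continuous_const))
  refine h1.continuousAt.eventually (lt_mem_nhds (show c < (ft f a 0 y).1 from ?_))
  rwa [ht.ft_zero]

theorem rotf_smooth (ht : Turn E Φ f a) (he : IsEnd E F ι φ) {y : ℝ × V × R2} (hy : 0 < y.1) :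
    ContMDiffAt ((I3 E).prod 𝓘(ℝ, ℝ)) 𝓘(ℝ, F) ∞
      (Function.uncurry fun (z : ℝ × V × R2) (s : ℝ) => ι (ft f a s z)) (y, 0) := by
  have h1 : ContMDiffAt (I3 E) 𝓘(ℝ, F) ∞ ι (ft f a 0 y) :=
    (he.localDiffeo _ (by rwa [ht.ft_zero])).contMDiffAt
  exact ContMDiffAt.comp (f := fun q : (ℝ × V × R2) × ℝ => ft f a q.2 q.1) (y, 0) h1
    (ht.ft_smooth.comp (contMDiff_snd.prodMk contMDiff_fst) (y, 0))

theorem rotf_zero (hZ : IsRot ι f a Z) (ht : Turn E Φ f a) {y : ℝ × V × R2} (hy : 0 < y.1) :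
    HasMFDerivAt 𝓘(ℝ, ℝ) 𝓘(ℝ, F) (fun s => ι (ft f a s y)) 0
      ((1 : ℝ →L[ℝ] ℝ).smulRight (Z (ι y))) := by
  have h1 := hZ.curve y 0 (by rwa [ht.ft_zero])
  have e : Z (ι (ft f a 0 y)) = Z (ι y) := by rw [ht.ft_zero]
  exact e ▸ h1

theorem rotf_deriv (hZ : IsRot ι f a Z) (ht : Turn E Φ f a) {y : ℝ × V × R2} (hy : 0 < y.1)
    {G : Type*} [NormedAddCommGroup G] [NormedSpace ℝ G] {g : W → G}
    (hg : ContMDiff 𝓘(ℝ, F) 𝓘(ℝ, G) ∞ g) :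
    HasDerivAt (fun s => g (ι (ft f a s y))) (dif F G g (ι y) (Z (ι y))) 0 := by
  have h1 := hasDerivAt_comp_curve (rotf_zero hZ ht hy) ((hg _).mdifferentiableAt (by simp))
  rwa [ht.ft_zero] at h1

theorem Turn.exists_rot (ht : Turn E Φ f a) (he : IsEnd E F ι φ) (hφ : IsAction F φ)
    [Nonempty W] : ∃ Z : W → F, IsRot ι f a Z := by
  obtain ⟨g', hg, -⟩ := he.descend (J := 𝓘(ℝ, F).tangent)
    (g := fun y => (⟨ι (ft f a 0 y), dif ℝ F (fun s => ι (ft f a s y)) 0 1⟩ :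
      TangentBundle 𝓘(ℝ, F) W))
    (fun y hy => push (fun (z : ℝ × V × R2) (s : ℝ) => ι (ft f a s z)) (fun _ => 0) (fun _ => 1)
      (rotf_smooth ht he hy) contMDiffAt_const)
    (fun s v u k hs => by
      have h1 : (fun r => ι (ft f a r (s, v, u + rv k))) =ᶠ[𝓝 0] fun r => ι (ft f a r (s, v, u)) := by
        filter_upwards [rotf_ev ht (y := (s, v, u)) hs] with r hr
        exact he.periodic hφ hr _ _ k
      exact rotf_mk h1.eq_of_nhds (by rw [dif_congr h1]))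
    ⟨Classical.arbitrary W, (0 : F)⟩
  have key : ∀ (p : TangentBundle 𝓘(ℝ, F) W) (b : W) (v : F), p = ⟨b, v⟩ →
      p.1 = b ∧ (show F from p.2) = v := by
    rintro p b v rfl
    exact ⟨rfl, rfl⟩
  refine ⟨fun x => (g' x).2, fun y hy => ?_, fun y t hy => ?_⟩
  · refine (hg y hy).2.congr_of_eventuallyEq ?_
    filter_upwards [(he.isOpen le_rfl).mem_nhds ⟨y, hy, rfl⟩]
    rintro _ ⟨z, hz, rfl⟩
    have h1 := (key _ _ _ (hg z hz).1).1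
    rw [ht.ft_zero] at h1
    exact rotf_mk h1.symm rfl
  · have h1 := (key _ _ _ (hg _ hy).1).2
    have h2 : MDifferentiableAt 𝓘(ℝ, ℝ) 𝓘(ℝ, F) (fun s => ι (ft f a s (ft f a t y))) 0 :=
      (ContMDiffAt.comp (f := fun s : ℝ => (ft f a t y, s)) 0 (rotf_smooth ht he hy)
        (contMDiffAt_const.prodMk contMDiffAt_id)).mdifferentiableAt (by simp)
    have h3 := rotf_shift t (rotf_has h2)
    rw [← h1] at h3
    have e : (fun s => ι (ft f a (s - t) (ft f a t y))) = fun s => ι (ft f a s y) := by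
      funext s
      rw [← ht.ft_add, sub_add_cancel]
    exact h3.congr_of_eventuallyEq (Eventually.of_forall fun s => (congrFun e s).symm)

theorem IsRot.dif_m (hZ : IsRot ι f a Z) (ht : Turn E Φ f a) (hc : Core E F Φ ι φ m)
    {y : ℝ × V × R2} (hy : 0 < y.1) :
    dif F ℂ m (ι y) (Z (ι y)) = 2 * Real.pi * Complex.I * m (ι y) := by
  have h1 := rotf_deriv hZ ht hy hc.smooth
  have h2 : HasDerivAt (fun s : ℝ => Complex.exp (2 * Real.pi * Complex.I * s) * m (ι y))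
      (2 * Real.pi * Complex.I * m (ι y)) 0 := by
    have h3 := (((hasDerivAt_id (0 : ℝ)).ofReal_comp.const_mul
      (2 * Real.pi * Complex.I)).cexp).mul_const (m (ι y))
    simpa using h3
  refine h1.unique (h2.congr_of_eventuallyEq ?_)
  filter_upwards [rotf_ev ht hy] with s hs
  rw [hc.onEnd _ hs, ht.ft_exp, hc.onEnd _ hy]

theorem IsRot.dif_h [CompactSpace V] (hZ : IsRot ι f a Z) (ht : Turn E Φ f a)
    (hh : IsHeight F ι φ h) :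
    ∃ C, ∀ y : ℝ × V × R2, 2 < y.1 → |dif F ℝ h (ι y) (Z (ι y))| ≤ C := by
  have h1 : Continuous fun v : V => dif ℝ ℝ (fun s => a (s, v)) 0 1 := by
    refine continuous_iff_continuousAt.2 fun v => ?_
    have h2 := push (J := 𝓘(ℝ, E)) (I₁ := 𝓘(ℝ, ℝ)) (I₂ := 𝓘(ℝ, ℝ))
      (fun (w : V) (s : ℝ) => a (s, w)) (fun _ => 0) (fun _ => 1) (x₀ := v)
      (ht.smooth.comp (contMDiff_snd.prodMk contMDiff_fst) (v, 0)) contMDiffAt_const
    exact ((tangent_model_iff _ _ v).1 h2).2.continuousAt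
  obtain ⟨C, hC⟩ := (isCompact_range h1.abs).bddAbove
  refine ⟨C, fun y hy => ?_⟩
  have h2 := rotf_deriv hZ ht (show 0 < y.1 by linarith) hh.smooth
  have h3 : MDifferentiableAt 𝓘(ℝ, ℝ) 𝓘(ℝ, ℝ) (fun s => a (s, y.2.1)) 0 :=
    (ht.smooth.comp (contMDiff_id.prodMk contMDiff_const) 0).mdifferentiableAt (by simp)
  have h4 : HasDerivAt (fun s => a (s, y.2.1)) (dif ℝ ℝ (fun s => a (s, y.2.1)) 0 1) 0 :=
    hasDerivAt_comp_curve (g := fun x : ℝ => x) (rotf_has h3) mdifferentiableAt_id |>.congr_deriv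
      (by rw [dif_fderiv, fderiv_fun_id]; rfl)
  have h5 := h2.unique ((h4.const_sub y.1).congr_of_eventuallyEq (by
    filter_upwards [rotf_ev ht hy] with s hs
    exact hh.onEnd _ hs.le))
  rw [h5, abs_neg]
  exact hC ⟨y.2.1, rfl⟩

theorem IsRot.inv (hZ : IsRot ι f a Z) (ht : Turn E Φ f a) (he : IsEnd E F ι φ)
    (hφ : IsAction F φ) {y : ℝ × V × R2} (hy : 0 < y.1) (t : R2) :
    dif F F (φ t) (ι y) (Z (ι y)) = Z (φ t (ι y)) := by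
  have h1 := rotf_zero hZ ht hy
  have h2 := rotf_zero hZ ht (y := (y.1, y.2.1, y.2.2 + t)) hy
  have h3 := HasMFDerivAt.comp (g := φ t) 0
    (hasMF_dif ((hφ.smooth_at t _).mdifferentiableAt (by simp))) h1
  have h4 : (φ t ∘ fun s => ι (ft f a s y)) =ᶠ[𝓝 0]
      fun s => ι (ft f a s (y.1, y.2.1, y.2.2 + t)) := by
    filter_upwards [rotf_ev ht hy] with s hs
    exact he.equivariant _ _ _ t hs
  have h5 : (dif F F (φ t) (ι (ft f a 0 y))).comp ((1 : ℝ →L[ℝ] ℝ).smulRight (Z (ι y))) =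
      (1 : ℝ →L[ℝ] ℝ).smulRight (Z (ι (y.1, y.2.1, y.2.2 + t))) :=
    hasMFDerivAt_unique h3 (h2.congr_of_eventuallyEq h4)
  have h6 := congrArg (fun L : ℝ →L[ℝ] F => L 1) h5
  rw [ht.ft_zero, ← he.equivariant _ _ _ t hy] at h6
  simpa using h6

end Pool.Agent.P.MP_49bf82_gt
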