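import Pool.Agent.P.MP_49bf82_gt.SForm
import Pool.Agent.P.MP_49bf82_gt.Fields

open Manifold Set Filter Topology
open scoped ContDiff

namespace Pool.Agent.P.MP_49bf82_gt

open Pool.Agent.P.MP_e3ee0c_gt

variable {F : Type*} [NormedAddCommGroup F] [NormedSpace ℝ F] [FiniteDimensional ℝ F]
  {W : Type*} [TopologicalSpace W] [ChartedSpace F W] [IsManifold 𝓘(ℝ, F) ∞ W]
  {x : W} {c : W → ℝ} {Y Y' : W → F} {σ : W → F →L[ℝ] F →L[ℝ] ℝ} {m : W → ℂ}
  {P : ℝ → W → W} {φ : R2 → W → W} {g g' : W → W}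

/-- The flow of Y preserves σ on the levels of m, infinitesimally at x. -/
structure Adm (σ : W → F →L[ℝ] F →L[ℝ] ℝ) (m : W → ℂ) (Y : W → F) (x : W) : Prop where
  vf : VFAt Y x
  ker : ∀ u v, dif F ℂ m x u = 0 → dif F ℂ m x v = 0 → extD (fun z => σ z (Y z)) x u v = 0

/-- The map g preserves σ on the level of m at x. -/
structure PK (σ : W → F →L[ℝ] F →L[ℝ] ℝ) (m : W → ℂ) (g : W → W) (x : W) : Prop where
  md : MDifferentiableAt 𝓘(ℝ, F) 𝓘(ℝ, F) g x
  ker : ∀ u, dif F ℂ m x u = 0 → dif F ℂ m (g x) (dif F F g x u) = 0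
  form : ∀ u v, dif F ℂ m x u = 0 → dif F ℂ m x v = 0 →
    σ (g x) (dif F F g x u) (dif F F g x v) = σ x u v

theorem VFAt.add (hY : VFAt Y x) (hY' : VFAt Y' x) : VFAt (fun z => Y z + Y' z) x :=
  ContMDiffAt.add_section hY hY'

theorem Adm.congr (h : Adm σ m Y x) (e : Y' =ᶠ[𝓝 x] Y) : Adm σ m Y' x :=
  ⟨h.vf.congr e, fun u v hu hv => by
    rw [extD_congr (β := fun z => σ z (Y z)) (e.mono fun z hz => by simp only [hz])]
    exact h.ker u v hu hv⟩

theorem Adm.add (hσ : IsSymplectic σ) (h : Adm σ m Y x) (h' : Adm σ m Y' x) :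
    Adm σ m (fun z => Y z + Y' z) x :=
  ⟨h.vf.add h'.vf, fun u v hu hv => by
    simp only [map_add]
    rw [((sm_contract hσ h.vf).1.add (sm_contract hσ h'.vf).1).2, h.ker u v hu hv,
      h'.ker u v hu hv, add_zero]⟩

theorem Adm.smul (hσ : IsSymplectic σ) (hm : ContMDiff 𝓘(ℝ, F) 𝓘(ℝ, ℂ) ∞ m) (h : Adm σ m Y x)
    {k : ℂ → ℝ} (hk : ContDiff ℝ ∞ k) : Adm σ m (fun z => k (m z) • Y z) x := by
  have hc : ContMDiffAt 𝓘(ℝ, F) 𝓘(ℝ, ℝ) ∞ (fun z => k (m z)) x := hk.contMDiff.comp hm x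
  have hd : ∀ u, dif F ℂ m x u = 0 → dif F ℝ (fun z => k (m z)) x u = 0 := fun u hu => by
    rw [dif_comp (hk.contMDiff.mdifferentiableAt (by simp)) (hm.mdifferentiableAt (by simp)),
      ContinuousLinearMap.comp_apply, hu, map_zero]
  refine ⟨h.vf.smul hc, fun u v hu hv => ?_⟩
  simp only [map_smul]
  rw [((sm_contract hσ h.vf).1.smul hc).2, h.ker u v hu hv, hd u hu, hd v hv]
  simp

/-- Locally Hamiltonian fields. -/
theorem adm_dual (hσ : IsSymplectic σ) {α : W → F →L[ℝ] ℝ} {θ : W → ℝ}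
    (hθ : ContMDiffAt 𝓘(ℝ, F) 𝓘(ℝ, ℝ) ∞ θ x) (e : α =ᶠ[𝓝 x] dif F ℝ θ) :
    Adm σ m (dual σ α) x :=
  ⟨((sm_dif hθ).1.congr e).dual hσ, fun u v _ _ => by
    simp only [dual_spec hσ]
    rw [extD_congr e, (sm_dif hθ).2]⟩

omit [FiniteDimensional ℝ F] [IsManifold 𝓘(ℝ, F) ∞ W] in
theorem IsFlow.slice (hP : IsFlow Y P) (t : ℝ) (x : W) :
    MDifferentiableAt 𝓘(ℝ, F) 𝓘(ℝ, F) (P t) x :=
  (mflowb_slice (hP.smooth (t, x))).mdifferentiableAt (by simp)

omit [FiniteDimensional ℝ F] [IsManifold 𝓘(ℝ, F) ∞ W] in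
theorem dif_id' (e : ∀ z, g z = z) (x : W) (u : F) : dif F F g x u = u := by
  rw [show g = id from funext e]
  exact congrArg (fun L : F →L[ℝ] F => L u) (mfderiv_id (I := 𝓘(ℝ, F)) (x := x))

omit [FiniteDimensional ℝ F] [IsManifold 𝓘(ℝ, F) ∞ W] in
theorem IsFlow.const (hP : IsFlow Y P) (Ω : W → F → F → ℝ) (u v : F) (t : ℝ)
    (h : ∀ r ∈ uIcc 0 t, HasDerivAt (fun s => Ω (P s (P r x))
      (dif F F (P s) (P r x) (dif F F (P r) x u)) (dif F F (P s) (P r x) (dif F F (P r) x v))) 0 0) :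
    Ω (P t x) (dif F F (P t) x u) (dif F F (P t) x v) = Ω x u v := by
  have h1 : ∀ r ∈ uIcc 0 t, HasDerivAt
      (fun s => Ω (P s x) (dif F F (P s) x u) (dif F F (P s) x v)) 0 r := by
    intro r hr
    have h2 := h r hr
    rw [← sub_self r] at h2
    have h3 := h2.comp_sub_const r r
    refine (h3.congr_of_eventuallyEq (.of_forall fun s => ?_)).congr_deriv (sub_self r)
    have e : P s = fun z => P (s - r) (P r z) := funext fun z => by rw [← hP.add, sub_add_cancel]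
    have e2 := dif_comp (hP.slice (s - r) (P r x)) (hP.slice r x)
    rw [← e] at e2
    simp only [e2, ContinuousLinearMap.comp_apply]
    rw [← hP.add, sub_add_cancel]
  have h4 := (convex_uIcc (𝕜 := ℝ) 0 t).norm_image_sub_le_of_norm_hasDerivWithin_le (C := 0)
    (fun r hr => (h1 r hr).hasDerivWithinAt) (fun r _ => by simp) left_mem_uIcc right_mem_uIcc
  rw [zero_mul, norm_le_zero_iff, sub_eq_zero, hP.zero, dif_id' hP.zero, dif_id' hP.zero] at h4
  exact h4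

omit [FiniteDimensional ℝ F] [IsManifold 𝓘(ℝ, F) ∞ W] in
theorem ker_pres (hm : ContMDiff 𝓘(ℝ, F) 𝓘(ℝ, ℂ) ∞ m) (hg : MDifferentiableAt 𝓘(ℝ, F) 𝓘(ℝ, F) g x)
    {L : ℂ → ℂ} (hL : Differentiable ℝ L) (e : ∀ z, m (g z) = L (m z)) {u : F}
    (hu : dif F ℂ m x u = 0) : dif F ℂ m (g x) (dif F F g x u) = 0 := by
  have h1 := dif_comp (g := m) (hm.mdifferentiableAt (by simp)) hg
  rw [funext e, dif_comp (hL _).mdifferentiableAt (hm.mdifferentiableAt (by simp))] at h1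
  have h2 := congrArg (fun A : F →L[ℝ] ℂ => A u) h1
  simp only [ContinuousLinearMap.comp_apply, hu, map_zero] at h2
  exact h2.symm

theorem IsFlow.pk (hP : IsFlow Y P) (hσ : IsSymplectic σ) (hm : ContMDiff 𝓘(ℝ, F) 𝓘(ℝ, ℂ) ∞ m)
    {L : ℝ → ℂ → ℂ} (hL : ∀ s, Differentiable ℝ (L s)) (e : ∀ s z, m (P s z) = L s (m z)) {t : ℝ}
    (h : ∀ r ∈ uIcc 0 t, Adm σ m Y (P r x)) : PK σ m (P t) x := by
  refine ⟨hP.slice t x, fun u hu => ker_pres hm (hP.slice t x) (hL t) (e t) hu,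
    fun u v hu hv => hP.const (fun z a b => σ z a b) u v t fun r hr => ?_⟩
  refine ((hP.fam _).lie (hσ.smooth _) _ _).congr_deriv ?_
  rw [(sm_contract hσ (h r hr).vf).2]
  exact (h r hr).ker _ _ (ker_pres hm (hP.slice r x) (hL r) (e r) hu)
    (ker_pres hm (hP.slice r x) (hL r) (e r) hv)

/-- Conversely, the generator of a flow that preserves the form on the level is admissible. -/
theorem IsFlow.adm (hP : IsFlow Y P) (hY : VF Y) (hσ : IsSymplectic σ)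
    (h : ∀ t, PK σ m (P t) x) : Adm σ m Y x := by
  refine ⟨hY x, fun u v hu hv => ?_⟩
  rw [← (sm_contract hσ (hY x)).2]
  refine ((hP.fam x).lie (hσ.smooth x) u v).unique ?_
  simp only [fun t => (h t).form u v hu hv]
  exact hasDerivAt_const _ _

omit [FiniteDimensional ℝ F] [IsManifold 𝓘(ℝ, F) ∞ W] in
theorem PK.comp (h' : PK σ m g' (g x)) (h : PK σ m g x) : PK σ m (fun z => g' (g z)) x := by
  refine ⟨h'.md.comp x h.md, fun u hu => ?_, fun u v hu hv => ?_⟩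
  · rw [dif_comp h'.md h.md]
    exact h'.ker _ (h.ker u hu)
  · rw [dif_comp h'.md h.md, ← h.form u v hu hv]
    exact h'.form _ _ (h.ker u hu) (h.ker v hv)

theorem IsAction.flow (h : IsAction F φ) (ξ : R2) : IsFlow (gen F φ ξ) fun s => φ (s • ξ) :=
  ⟨h.smooth.comp ((contMDiff_fst.smul contMDiff_const).prodMk contMDiff_snd),
    fun x => by simp only [zero_smul, h.zero], fun s t x => by simp only [add_smul, h.add],
    h.gen_curve ξ⟩

/-- A Hamiltonian action preserves the form. -/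
theorem Ham.pres (hH : Ham σ φ m) (hφ : IsAction F φ) (hm : ContMDiff 𝓘(ℝ, F) 𝓘(ℝ, ℂ) ∞ m)
    (t : R2) (x : W) (u v : F) : σ (φ t x) (dif F F (φ t) x u) (dif F F (φ t) x v) = σ x u v := by
  have h1 := (hφ.flow t).const (x := x) (fun z a b => σ z a b) u v 1 fun r _ => by
    refine (((hφ.flow t).fam _).lie (hH.symplectic.smooth _) _ _).congr_deriv ?_
    have hθ : ContMDiff 𝓘(ℝ, F) 𝓘(ℝ, ℝ) ∞ fun z => (-pr t) (m z) :=
      (-pr t).contDiff.contMDiff.comp hm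
    rw [(sm_contract hH.symplectic (hφ.gen_vf t _)).2,
      extD_congr (β := dif F ℝ fun z => (-pr t) (m z)) (.of_forall fun z => ?_), (sm_dif (hθ _)).2]
    ext w
    rw [dif_comp (-pr t).mdifferentiableAt (hm.mdifferentiableAt (by simp)), dif_fderiv,
      (-pr t).fderiv]
    simp [hH.ham]
  simpa only [one_smul] using h1

/-- The dual of an invariant form is invariant. -/
theorem Ham.dual_inv (hH : Ham σ φ m) (hφ : IsAction F φ) (hm : ContMDiff 𝓘(ℝ, F) 𝓘(ℝ, ℂ) ∞ m)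
    {α : W → F →L[ℝ] ℝ} {t : R2} (h : ∀ u, α (φ t x) (dif F F (φ t) x u) = α x u) :
    dif F F (φ t) x (dual σ α x) = dual σ α (φ t x) := by
  refine sigma_ext hH.symplectic (x := φ t x) fun w => ?_
  obtain ⟨u, rfl⟩ : ∃ u, dif F F (φ t) x u = w := by
    refine ⟨dif F F (φ (-t)) (φ t x) w, ?_⟩
    have h1 := hφ.dif_add t (-t) (φ t x) w
    rw [add_neg_cancel, hφ.dif_zero, ← hφ.add, neg_add_cancel, hφ.zero] at h1
    exact h1.symm
  rw [hH.pres hφ hm, dual_spec hH.symplectic, dual_spec hH.symplectic, h]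

omit [IsManifold 𝓘(ℝ, F) ∞ W] in
theorem Ham.dif_dual (hH : Ham σ φ m) (α : W → F →L[ℝ] ℝ) (x : W) (ξ : R2) :
    pr ξ (dif F ℂ m x (dual σ α x)) = α x (gen F φ ξ x) := by
  rw [hH.ham, hH.symplectic.skew, neg_neg, dual_spec hH.symplectic]

theorem IsFlow.agree [T2Space W] {P' : ℝ → W → W} (hP : IsFlow Y P) (hP' : IsFlow Y' P') (hY : VF Y)
    {a b : ℝ} (h0 : (0 : ℝ) ∈ Ioo a b) (h : ∀ t ∈ Ioo a b, Y (P' t x) = Y' (P' t x)) :
    ∀ t ∈ Ioo a b, P t x = P' t x := fun t ht => by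
  have := hP.eqOn hY (γ := fun s => P' s x) h0 (fun s hs => by
    rw [h s hs]
    exact hP'.curve x s) t ht
  rwa [hP'.zero] at this

end Pool.Agent.P.MP_49bf82_gt
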