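import Pool.Agent.P.MP_49bf82_gt.SAdm

open Manifold Set Filter Topology
open scoped ContDiff

namespace Pool.Agent.P.MP_49bf82_gt

open Pool.Agent.P.MP_e3ee0c_gt

variable {E F : Type*} [NormedAddCommGroup E] [NormedSpace ℝ E] [FiniteDimensional ℝ E]
  [NormedAddCommGroup F] [NormedSpace ℝ F] [FiniteDimensional ℝ F]
  {V W : Type*} [TopologicalSpace V] [ChartedSpace E V] [IsManifold 𝓘(ℝ, E) ∞ V]
  [TopologicalSpace W] [ChartedSpace F W] [IsManifold 𝓘(ℝ, F) ∞ W]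
  {Φ : V → ℂ} {ι : ℝ × V × R2 → W} {φ : R2 → W → W} {m : W → ℂ} {h : W → ℝ}
  {σ : W → F →L[ℝ] F →L[ℝ] ℝ} {e : W → F →L[ℝ] R2}

theorem IsEnd.dEnd_shift (he : IsEnd E F ι φ) (hφ : IsAction F φ) {y : ℝ × V × R2} (hy : 0 < y.1)
    (t : R2) (b : ℝ × E × R2) :
    dif F F (φ t) (ι y) (dEnd E F ι y b) = dEnd E F ι (y.1, y.2.1, y.2.2 + t) b := by
  have h1 := mfderiv_comp y ((hφ.smooth_at t (ι y)).mdifferentiableAt (by simp)) (endd_mdiff he hy)
  have s2 := hasMFDerivAt_snd (I := 𝓘(ℝ, ℝ)) (I' := 𝓘(ℝ, E).prod 𝓘(ℝ, R2)) y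
  have h2 := (hasMFDerivAt_fst (I := 𝓘(ℝ, ℝ)) (I' := 𝓘(ℝ, E).prod 𝓘(ℝ, R2)) y).prodMk
    ((HasMFDerivAt.comp y (hasMFDerivAt_fst (I := 𝓘(ℝ, E)) (I' := 𝓘(ℝ, R2)) y.2) s2).prodMk
      (HasMFDerivAt.comp y ((hasFDerivAt_id y.2.2).add_const t).hasMFDerivAt
        (HasMFDerivAt.comp y (hasMFDerivAt_snd (I := 𝓘(ℝ, E)) (I' := 𝓘(ℝ, R2)) y.2) s2)))
  have h3 := (HasMFDerivAt.comp y
    (endd_mdiff he (y := (y.1, y.2.1, y.2.2 + t)) hy).hasMFDerivAt h2).congr_of_eventuallyEq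
      (f₁ := φ t ∘ ι) ((endd_pos hy).mono fun z hz => he.equivariant z.1 z.2.1 z.2.2 t hz)
  exact congrArg (fun L : (ℝ × E × R2) →L[ℝ] F => L b) (h1.symm.trans h3.mfderiv)

theorem IsEnd.dEnd_eq (he : IsEnd E F ι φ) (hφ : IsAction F φ) {y z : ℝ × V × R2} (hy : 0 < y.1)
    (hz : 0 < z.1) (hyz : ι y = ι z) (b : ℝ × E × R2) : dEnd E F ι y b = dEnd E F ι z b := by
  obtain ⟨e1, e2, k, e3⟩ := he.inj y z hy hz hyz
  have h1 := he.dEnd_shift hφ hz (rv k) b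
  rw [dif_id' (g := φ (rv k)) (hφ.periodic k)] at h1
  rw [h1]
  congr 2
  exact Prod.ext e1 (Prod.ext e2 e3)

theorem angle_loc (he : IsEnd E F ι φ) {y : ℝ × V × R2} (hy : 0 < y.1) :
    ∃ θ : W → R2, ∀ᶠ x in 𝓝 (ι y), ContMDiffAt 𝓘(ℝ, F) 𝓘(ℝ, R2) ∞ θ x ∧
      ∃ z : ℝ × V × R2, 0 < z.1 ∧ ι z = x ∧ ∀ b, dif F R2 θ x (dEnd E F ι z b) = b.2.2 := by
  have hf := he.localDiffeo y hy
  refine ⟨fun x => (hf.localInverse x).2.2, ?_⟩
  filter_upwards [height_near he hy hy,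
    hf.localInverse_open_source.mem_nhds hf.localInverse_mem_source] with x h1 h2
  have h3 : ContMDiffAt 𝓘(ℝ, F) 𝓘(ℝ, R2) ∞ (fun x => (hf.localInverse x).2.2) x :=
    contMDiffAt_snd.comp x (contMDiffAt_snd.comp x
      (hf.localInverse_contMDiffOn.contMDiffAt (hf.localInverse_open_source.mem_nhds h2)))
  refine ⟨h3, hf.localInverse x, h1.1, h1.2, fun b => ?_⟩
  have h4 := he.dif_dEnd (g := fun x => (hf.localInverse x).2.2) h1.1
    (by rw [h1.2]; exact h3.mdifferentiableAt (by simp)) b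
  rw [h1.2] at h4
  rw [h4]
  have h5 := (HasMFDerivAt.comp (hf.localInverse x)
    (hasMFDerivAt_snd (I := 𝓘(ℝ, E)) (I' := 𝓘(ℝ, R2)) (hf.localInverse x).2)
    (hasMFDerivAt_snd (I := 𝓘(ℝ, ℝ)) (I' := 𝓘(ℝ, E).prod 𝓘(ℝ, R2))
      (hf.localInverse x))).congr_of_eventuallyEq
      (f₁ := fun z => (hf.localInverse (ι z)).2.2) (by
        filter_upwards [hf.localInverse.open_target.mem_nhds (hf.localInverse.map_source h2)]
          with z hz
        rw [hf.localInverse_left_inv hz]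
        rfl)
  exact congrArg (fun L : (ℝ × E × R2) →L[ℝ] R2 => L b) h5.mfderiv

variable (E) in
/-- The angle form on the end. -/
def IsAngle (ι : ℝ × V × R2 → W) (e : W → F →L[ℝ] R2) : Prop :=
  ∀ y : ℝ × V × R2, 0 < y.1 → ∀ b, e (ι y) (dEnd E F ι y b) = b.2.2

theorem IsEnd.exists_angle (he : IsEnd E F ι φ) (hφ : IsAction F φ) :
    ∃ e : W → F →L[ℝ] R2, IsAngle E ι e := by
  have key : ∀ x, ∃ l : F →L[ℝ] R2, ∀ y : ℝ × V × R2, 0 < y.1 → ι y = x →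
      ∀ b, l (dEnd E F ι y b) = b.2.2 := by
    intro x
    by_cases hx : ∃ y : ℝ × V × R2, 0 < y.1 ∧ ι y = x
    · obtain ⟨y₀, h0, rfl⟩ := hx
      obtain ⟨θ, hθ⟩ := angle_loc he h0
      obtain ⟨-, z, h1, h2, h3⟩ := hθ.self_of_nhds
      exact ⟨_, fun y hy e b => by rw [he.dEnd_eq hφ hy h1 (e.trans h2.symm), h3]⟩
    · exact ⟨0, fun y hy e => (hx ⟨y, hy, e⟩).elim⟩
  choose e h using key
  exact ⟨e, fun y hy => h _ y hy rfl⟩

theorem IsAngle.loc (ha : IsAngle E ι e) (he : IsEnd E F ι φ) {y : ℝ × V × R2} (hy : 0 < y.1) :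
    ∃ θ : W → R2, ∀ᶠ x in 𝓝 (ι y), ContMDiffAt 𝓘(ℝ, F) 𝓘(ℝ, R2) ∞ θ x ∧ e x = dif F R2 θ x := by
  obtain ⟨θ, hθ⟩ := angle_loc he hy
  refine ⟨θ, hθ.mono ?_⟩
  rintro _ ⟨h1, z, hz, rfl, h2⟩
  refine ⟨h1, ContinuousLinearMap.ext fun w => ?_⟩
  obtain ⟨b, rfl⟩ := (he.bijective hz).2 w
  rw [ha z hz, h2]

theorem IsAngle.inv (ha : IsAngle E ι e) (he : IsEnd E F ι φ) (hφ : IsAction F φ)
    {y : ℝ × V × R2} (hy : 0 < y.1) (t : R2) (w : F) :
    e (φ t (ι y)) (dif F F (φ t) (ι y) w) = e (ι y) w := by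
  obtain ⟨b, rfl⟩ := (he.bijective hy).2 w
  rw [he.dEnd_shift hφ hy, show φ t (ι y) = ι (y.1, y.2.1, y.2.2 + t) from
    he.equivariant _ _ _ t hy, ha y hy, ha (y.1, y.2.1, y.2.2 + t) hy]

theorem IsAngle.gen (ha : IsAngle E ι e) (he : IsEnd E F ι φ) {y : ℝ × V × R2} (hy : 0 < y.1)
    (ξ : R2) : e (ι y) (gen F φ ξ (ι y)) = ξ := by
  rw [he.gen_eq hy, ha y hy]

/-- A cutoff that vanishes below height 3 and is 1 above height 4. -/
theorem vf_cut (hh : IsHeight F ι φ h) {Y : W → F}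
    (hY : ∀ y : ℝ × V × R2, 0 < y.1 → VFAt Y (ι y)) :
    VF fun x => Real.smoothTransition (h x - 3) • Y x := by
  intro x
  by_cases hx : 2 ≤ h x
  · obtain ⟨y, hy, rfl⟩ := hh.big x hx
    exact (hY y (by linarith)).smul
      ((Real.smoothTransition.contDiff.comp (contDiff_id.sub contDiff_const)).contMDiff.comp
        hh.smooth _)
  · refine VFAt.congr (Y := fun _ => 0) (Bundle.contMDiffAt_zeroSection ℝ _) ?_
    filter_upwards [(hh.smooth.continuous.continuousAt (x := x)).eventually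
      (gt_mem_nhds (not_le.1 hx))] with z hz
    rw [Real.smoothTransition.zero_of_nonpos (by linarith), zero_smul]

theorem dif_gen_inv {G : Type*} [NormedAddCommGroup G] [NormedSpace ℝ G] {g : W → G}
    (hφ : IsAction F φ) (hg : ContMDiff 𝓘(ℝ, F) 𝓘(ℝ, G) ∞ g) (hi : ∀ t x, g (φ t x) = g x)
    (ξ : R2) (x : W) : dif F G g x (gen F φ ξ x) = 0 := by
  have h1 := dif_comp (g := g) (f := fun t => φ t x) (x := 0) (hg.mdifferentiableAt (by simp))
    ((hφ.smooth_orbit x).mdifferentiableAt (by simp))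
  simp only [hi, hφ.zero] at h1
  have h2 : dif R2 G (fun _ : R2 => g x) 0 = 0 := mfderiv_const
  exact (congrArg (fun L : R2 →L[ℝ] G => L ξ) (h1.symm.trans h2) :)

/-- A lift that does not turn the angle far out on the end. -/
theorem Core.exists_flat [T2Space W] [SigmaCompactSpace W] (hc : Core E F Φ ι φ m)
    (hh : IsHeight F ι φ h) (hs : ∀ x, Function.Surjective (dif F ℂ m x)) (ha : IsAngle E ι e) :
    ∃ (Y : W → F) (C : ℝ), VF Y ∧ Inv φ Y ∧ (∀ x, dif F ℂ m x (Y x) = 1) ∧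
      (∀ x, |dif F ℝ h x (Y x)| ≤ C) ∧ ∀ x, 4 ≤ h x → e x (Y x) = 0 := by
  obtain ⟨Y, C, h1, h2, h3, h4⟩ := hc.exists_lift hh hs 1
  have eg : ∀ (ξ : R2) x, gen F φ ξ x = ξ 0 • gen F φ ![1, 0] x + ξ 1 • gen F φ ![0, 1] x := by
    intro ξ x
    unfold gen
    rw [← map_smul, ← map_smul, ← map_add]
    congr 1
    ext i
    fin_cases i <;> simp
  have h5 : ∀ y : ℝ × V × R2, 0 < y.1 → VFAt (fun x => gen F φ (-e x (Y x)) x) (ι y) := by
    intro y hy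
    obtain ⟨θ, hθ⟩ := ha.loc hc.isEnd hy
    have h6 : ContMDiffAt 𝓘(ℝ, F) 𝓘(ℝ, R2) ∞ (fun x => -e x (Y x)) (ι y) :=
      (((h1 _).dif_apply hθ.self_of_nhds.1).congr_of_eventuallyEq
        (hθ.mono fun x hx => by simp only [hx.2])).neg
    have h7 := fun i : Fin 2 => (contDiff_apply ℝ ℝ i).contMDiff.contMDiffAt.comp (ι y) h6
    exact (((hc.action.gen_vf ![1, 0] _).smul (h7 0)).add
      ((hc.action.gen_vf ![0, 1] _).smul (h7 1))).congr (.of_forall fun x => eg _ x)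
  refine ⟨fun x => Y x + Real.smoothTransition (h x - 3) • gen F φ (-e x (Y x)) x, C,
    fun x => (h1 x).add (vf_cut hh h5 x), fun t x => ?_, fun x => ?_, fun x => ?_, fun x hx => ?_⟩
  · simp only [map_add, map_smul, hh.invariant, h2 t x, hc.action.gen_inv _ t x]
    by_cases hx : 2 ≤ h x
    · obtain ⟨y, hy, rfl⟩ := hh.big x hx
      rw [← h2 t, ha.inv hc.isEnd hc.action (by linarith)]
    · rw [Real.smoothTransition.zero_of_nonpos (by linarith), zero_smul, zero_smul]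
  · simp only [map_add, map_smul, dif_gen_inv hc.action hc.smooth hc.invariant, h3, smul_zero,
      add_zero]
  · simp only [map_add, map_smul, dif_gen_inv hc.action hh.smooth hh.invariant, smul_zero,
      add_zero, h4]
  · obtain ⟨y, hy, rfl⟩ := hh.big x (by linarith)
    simp only [map_add, map_smul, ha.gen hc.isEnd (show 0 < y.1 by linarith)]
    rw [Real.smoothTransition.one_of_one_le (by linarith), one_smul, add_neg_cancel]

end Pool.Agent.P.MP_49bf82_gt
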