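import Pool.Agent.P.MP_49bf82_gt.SPull
import Pool.Agent.P.MP_49bf82_gt.Norm

open Manifold Set Filter Topology
open scoped ContDiff

namespace Pool.Agent.P.MP_49bf82_gt

open Pool.Agent.P.MP_e3ee0c_gt

variable {E F : Type*} [NormedAddCommGroup E] [NormedSpace ℝ E] [FiniteDimensional ℝ E]
  [NormedAddCommGroup F] [NormedSpace ℝ F] [FiniteDimensional ℝ F]
  {V W : Type*} [TopologicalSpace V] [ChartedSpace E V] [IsManifold 𝓘(ℝ, E) ∞ V]
  [TopologicalSpace W] [ChartedSpace F W] [IsManifold 𝓘(ℝ, F) ∞ W]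
  {Φ : V → ℂ} {ι : ℝ × V × R2 → W} {φ : R2 → W → W} {m : W → ℂ} {h : W → ℝ}
  {σ : W → F →L[ℝ] F →L[ℝ] ℝ} {A : W → F →L[ℝ] R2} {ρ N : ℝ} {α : V → E →L[ℝ] ℝ}

/-- The pairing with c as a functional on the plane. -/
noncomputable def prL (c : ℂ) : R2 →L[ℝ] ℝ :=
  c.re • ContinuousLinearMap.proj (R := ℝ) (φ := fun _ : Fin 2 => ℝ) 0 -
    c.im • ContinuousLinearMap.proj (R := ℝ) (φ := fun _ : Fin 2 => ℝ) 1

theorem prL_apply (c : ℂ) (ξ : R2) : prL c ξ = pr ξ c := by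
  simp [prL, pr_apply, mul_comm]

/-- The locally Hamiltonian lift of the constant field c. -/
noncomputable def Dc (σ : W → F →L[ℝ] F →L[ℝ] ℝ) (A : W → F →L[ℝ] R2) (c : ℂ) : W → F :=
  dual σ fun x => (prL c).comp (A x)

theorem Conn.adm (hA : Conn E ι φ m h ρ N A) (hσ : IsSymplectic σ) (c : ℂ) {x : W}
    (hx : ‖m x‖ ≤ ρ ∨ N ≤ h x) : Adm σ m (Dc σ A c) x := by
  obtain ⟨θ, h1, h2⟩ := hA.loc x hx
  obtain ⟨h3, h4⟩ := spull_lin h1 h2 (prL c)
  exact adm_dual hσ h3 h4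

theorem Conn.dinv (hA : Conn E ι φ m h ρ N A) (hH : Ham σ φ m) (hc : Core E F Φ ι φ m) (c : ℂ)
    {x : W} (hx : ‖m x‖ ≤ ρ ∨ N ≤ h x) (t : R2) :
    dif F F (φ t) x (Dc σ A c x) = Dc σ A c (φ t x) :=
  hH.dual_inv hc.action hc.smooth fun u => by
    simp only [ContinuousLinearMap.comp_apply, hA.inv x hx]

theorem Conn.dm (hA : Conn E ι φ m h ρ N A) (hH : Ham σ φ m) (c : ℂ) {x : W}
    (hx : ‖m x‖ ≤ ρ ∨ N ≤ h x) : dif F ℂ m x (Dc σ A c x) = c :=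
  norm_pr_ext fun ξ => by
    rw [Dc, hH.dif_dual, ContinuousLinearMap.comp_apply, hA.gen x hx, prL_apply]

variable (F) in
/-- The form on the end is the symplectisation form. -/
def OnEnd (α : V → E →L[ℝ] ℝ) (Φ : V → ℂ) (σ : W → F →L[ℝ] F →L[ℝ] ℝ) (ι : ℝ × V × R2 → W) : Prop :=
  ∀ y : ℝ × V × R2, 0 < y.1 → ∀ a b,
    σ (ι y) (dEnd E F ι y a) (dEnd E F ι y b) = symp α Φ y.1 y.2.1 a b

theorem Conn.dh (hA : Conn E ι φ m h ρ N A) (hσ : IsSymplectic σ) (hc : Core E F Φ ι φ m)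
    (hh : IsHeight F ι φ h) (hf : OnEnd F α Φ σ ι) (c : ℂ) :
    ∃ C, ∀ x, ‖m x‖ ≤ ρ → |dif F ℝ h x (Dc σ A c x)| ≤ C := by
  have hK : IsCompact ({x | h x ≤ N} ∩ {x | ‖m x‖ ≤ ρ ∨ N ≤ h x}) :=
    (hh.compact N).inter_right ((isClosed_le hc.smooth.continuous.norm continuous_const).union
      (isClosed_le continuous_const hh.smooth.continuous))
  obtain ⟨C, hC⟩ := hK.exists_bound_of_continuousOn (f := fun x => dif F ℝ h x (Dc σ A c x))
    fun x hx => ((hA.adm hσ c hx.2).vf.dif_apply (hh.smooth x)).continuousAt.continuousWithinAt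
  refine ⟨C, fun x hx => ?_⟩
  by_cases h1 : h x ≤ N
  · exact hC x ⟨h1, Or.inl hx⟩
  have hN := hA.big
  have h2 := not_le.1 h1
  obtain ⟨y, hy, rfl⟩ := hh.big x (by linarith)
  rw [hh.onEnd y hy] at h2
  have h3 : h (ι (N, y.2.1, y.2.2)) = N := hh.onEnd (N, y.2.1, y.2.2) (by simp only; linarith)
  have h4 := hC _ ⟨h3.le, Or.inr h3.ge⟩
  have p0 : 0 < ((N, y.2.1, y.2.2) : ℝ × V × R2).1 := by simp only; linarith
  have p1 : 0 < y.1 := by linarith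
  obtain ⟨b, hb⟩ := (hc.isEnd.bijective p0).2 (Dc σ A c (ι (N, y.2.1, y.2.2)))
  have h5 : Dc σ A c (ι y) = dEnd E F ι y (Real.exp (N - y.1) • b) := by
    refine sigma_ext hσ (x := ι y) fun w => ?_
    obtain ⟨d, rfl⟩ := (hc.isEnd.bijective p1).2 w
    have a1 := hf _ p0 b d
    rw [hb, Dc, dual_spec hσ, ContinuousLinearMap.comp_apply, hA.far _ le_rfl] at a1
    rw [Dc, dual_spec hσ, ContinuousLinearMap.comp_apply, hA.far _ h2.le, map_smul, map_smul,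
      smul_apply, hf y p1, a1, smul_eq_mul, symp, symp, ← mul_assoc, ← Real.exp_add,
      sub_add_cancel]
  rw [← hb, hh.dif_h hc.isEnd (by simp only; linarith), Real.norm_eq_abs] at h4
  rw [h5, hh.dif_h hc.isEnd (by linarith), Prod.smul_fst, smul_eq_mul, abs_mul,
    abs_of_pos (Real.exp_pos _)]
  exact (mul_le_of_le_one_left (abs_nonneg _) (Real.exp_le_one_iff.2 (by linarith))).trans h4

/-- Interpolation of two fields by a function of m. -/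
noncomputable def mix (ψ : ContDiffBump (0 : ℂ)) (m : W → ℂ) (D Y : W → F) (x : W) : F :=
  ψ (m x) • D x + (1 - ψ (m x)) • Y x

section mix

variable {ψ : ContDiffBump (0 : ℂ)} {D Y : W → F} {x : W}

omit [FiniteDimensional ℝ F] [TopologicalSpace W] [ChartedSpace F W] [IsManifold 𝓘(ℝ, F) ∞ W]

theorem mix_out (hx : ψ.rOut ≤ ‖m x‖) : mix ψ m D Y x = Y x := by
  rw [mix, ψ.zero_of_le_dist (by rwa [dist_zero_right]), zero_smul, sub_zero, one_smul, zero_add]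

theorem mix_in (hx : ‖m x‖ ≤ ψ.rIn) : mix ψ m D Y x = D x := by
  rw [mix, ψ.one_of_mem_closedBall (by rwa [mem_closedBall_zero_iff]), one_smul, sub_self,
    zero_smul, add_zero]

theorem mix_eq (hx : D x = Y x) : mix ψ m D Y x = Y x := by
  rw [mix, hx, ← add_smul, add_sub_cancel, one_smul]

theorem mix_mem {S : Set F} (hS : Convex ℝ S) (hD : ‖m x‖ ≤ ψ.rOut → D x ∈ S) (hY : Y x ∈ S) :
    mix ψ m D Y x ∈ S := by
  rcases le_total ‖m x‖ ψ.rOut with h1 | h1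
  · exact hS (hD h1) hY ψ.nonneg (sub_nonneg.2 ψ.le_one) (add_sub_cancel _ _)
  · rwa [mix_out h1]

end mix

variable {ψ : ContDiffBump (0 : ℂ)} {D Y : W → F} {x : W}

theorem mix_vf (hm : ContMDiff 𝓘(ℝ, F) 𝓘(ℝ, ℂ) ∞ m) (hD : ∀ x, ‖m x‖ ≤ ψ.rOut → VFAt D x)
    (hY : VF Y) : VF (mix ψ m D Y) := by
  intro x
  rcases le_or_gt ‖m x‖ ψ.rOut with h1 | h1
  · have h2 : ContMDiffAt 𝓘(ℝ, F) 𝓘(ℝ, ℝ) ∞ (fun z => ψ (m z)) x := ψ.contDiff.contMDiff.comp hm x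
    exact ((hD x h1).smul h2).add ((hY x).smul (contMDiffAt_const.sub h2))
  · refine (hY x).congr ?_
    filter_upwards [hm.continuous.norm.continuousAt.eventually (lt_mem_nhds h1)] with z hz
    exact mix_out hz.le

omit [FiniteDimensional ℝ F] [IsManifold 𝓘(ℝ, F) ∞ W] in
theorem mix_inv (hi : ∀ t x, m (φ t x) = m x)
    (hD : ∀ x, ‖m x‖ ≤ ψ.rOut → ∀ t, dif F F (φ t) x (D x) = D (φ t x)) (hY : Inv φ Y) :
    Inv φ (mix ψ m D Y) := by
  intro t x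
  rcases le_total ‖m x‖ ψ.rOut with h1 | h1
  · simp only [mix, map_add, map_smul, hi, hD x h1, hY t x]
  · rw [mix_out h1, mix_out (by rwa [hi]), hY t x]

theorem mix_adm_in (hm : ContMDiff 𝓘(ℝ, F) 𝓘(ℝ, ℂ) ∞ m) (hx : ‖m x‖ < ψ.rIn)
    (hD : Adm σ m D x) : Adm σ m (mix ψ m D Y) x := by
  refine hD.congr ?_
  filter_upwards [hm.continuous.norm.continuousAt.eventually (gt_mem_nhds hx)] with z hz
  exact mix_in hz.le

theorem mix_adm (hσ : IsSymplectic σ) (hm : ContMDiff 𝓘(ℝ, F) 𝓘(ℝ, ℂ) ∞ m)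
    (hD : ‖m x‖ ≤ ψ.rOut → Adm σ m D x) (hY : ψ.rIn ≤ ‖m x‖ → Adm σ m Y x) :
    Adm σ m (mix ψ m D Y) x := by
  rcases lt_or_ge ‖m x‖ ψ.rIn with h1 | h1
  · exact mix_adm_in hm h1 (hD (h1.trans ψ.rIn_lt_rOut).le)
  rcases le_or_gt ‖m x‖ ψ.rOut with h2 | h2
  · exact ((hD h2).smul hσ hm ψ.contDiff).add hσ
      ((hY h1).smul hσ hm (k := fun z => 1 - ψ z) (contDiff_const.sub ψ.contDiff))
  · refine (hY h1).congr ?_
    filter_upwards [hm.continuous.norm.continuousAt.eventually (lt_mem_nhds h2)] with z hz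
    exact mix_out hz.le

/-- A flow that translates m and preserves the form on the levels inside a disc. -/
theorem Conn.exists_trans [T2Space W] [SigmaCompactSpace W] {r : ℝ} (hr : 0 < r)
    (hA : Conn E ι φ m h (r + 1) N A) (hH : Ham σ φ m) (hc : Core E F Φ ι φ m)
    (hh : IsHeight F ι φ h) (hf : OnEnd F α Φ σ ι) (hs : ∀ x, Function.Surjective (dif F ℂ m x))
    {c : ℂ} (hc1 : ‖c‖ = 1) : ∃ (P : ℝ → W → W) (C : ℝ), Mover F φ h C P ∧
      (∀ s x, m (P s x) = m x + s * c) ∧ ∀ s x, ‖m x‖ + |s| < r → PK σ m (P s) x := by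
  obtain ⟨Y, C, h1, h2, h3, h4⟩ := hc.exists_lift hh hs c
  obtain ⟨C', h5⟩ := hA.dh hH.symplectic hc hh hf c
  let ψ : ContDiffBump (0 : ℂ) := ⟨r, r + 1, hr, lt_add_one r⟩
  have h6 : ∀ x, mix ψ m (Dc σ A c) Y x ∈
      {u : F | dif F ℂ m x u = c ∧ |dif F ℝ h x u| ≤ max C C'} := fun x =>
    mix_mem (fields_convex m h x c _).1
      (fun hx => ⟨hA.dm hH c (Or.inl hx), (h5 x hx).trans (le_max_right _ _)⟩)
      ⟨h3 x, (h4 x).trans (le_max_left _ _)⟩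
  obtain ⟨P, hP, hM⟩ := exists_mover
    (mix_vf (ψ := ψ) hc.smooth (fun x hx => (hA.adm hH.symplectic c (Or.inl hx)).vf) h1) hc.action
    (mix_inv hc.invariant (fun x hx => hA.dinv hH hc c (Or.inl hx)) h2) hh.smooth hh.compact
    fun x => (h6 x).2
  have h7 := hP.translate hc.smooth fun x => (h6 x).1
  refine ⟨P, _, hM, h7, fun s x hx => hP.pk hH.symplectic hc.smooth (L := fun s z => z + s * c)
    (fun s => differentiable_id.add_const _) h7 fun t ht => ?_⟩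
  have h8 : ‖m (P t x)‖ < r := by
    rw [h7]
    have a1 := norm_add_le (m x) (t * c)
    rw [norm_mul, hc1, mul_one, Complex.norm_real, Real.norm_eq_abs] at a1
    have a2 : |t| ≤ |s| := by simpa using abs_sub_left_of_mem_uIcc ht
    linarith
  exact mix_adm_in hc.smooth h8 (hA.adm hH.symplectic c (Or.inl (by linarith)))

end Pool.Agent.P.MP_49bf82_gt
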