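import Pool.Agent.P.MP_49bf82_gt.SLie

open Manifold Set Filter Topology
open scoped ContDiff

namespace Pool.Agent.P.MP_49bf82_gt

open Pool.Agent.P.MP_e3ee0c_gt

variable {F : Type*} [NormedAddCommGroup F] [NormedSpace ℝ F]
  {W : Type*} [TopologicalSpace W] [ChartedSpace F W] [IsManifold 𝓘(ℝ, F) ∞ W]
  {α β : W → F →L[ℝ] ℝ} {x : W} {c g : W → ℝ} {Y : W → F} {σ : W → F →L[ℝ] F →L[ℝ] ℝ}

/-- A 1-form that is smooth at x. -/
def Sm (α : W → F →L[ℝ] ℝ) (x : W) : Prop := ContDiffAt ℝ ∞ (chartOne α x) (chartAt F x x)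

theorem sform_ev {p : W → Prop} (h : ∀ᶠ z in 𝓝 x, p z) :
    ∀ᶠ z in 𝓝 (chartAt F x x), p ((chartAt F x).symm z) := by
  refine (chart_symm_smooth x (mem_chart_target F x)).continuousAt.eventually ?_
  rwa [(chartAt F x).left_inv (mem_chart_source F x)]

theorem chartOne_congr (h : α =ᶠ[𝓝 x] β) : chartOne α x =ᶠ[𝓝 (chartAt F x x)] chartOne β x := by
  filter_upwards [sform_ev (F := F) h] with z hz
  simp only [chartOne, hz]

theorem Sm.congr (hβ : Sm β x) (h : α =ᶠ[𝓝 x] β) : Sm α x :=
  ContDiffAt.congr_of_eventuallyEq hβ (chartOne_congr h)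

theorem extD_congr (h : α =ᶠ[𝓝 x] β) (u v : F) : extD α x u v = extD β x u v := by
  simp only [extD, (chartOne_congr h).fderiv_eq]

omit [IsManifold 𝓘(ℝ, F) ∞ W] in
theorem Sm.add (hα : Sm α x) (hβ : Sm β x) : Sm (fun z => α z + β z) x ∧
    ∀ u v, extD (fun z => α z + β z) x u v = extD α x u v + extD β x u v := by
  have e : chartOne (fun z => α z + β z) x = fun z => chartOne α x z + chartOne β x z := by
    funext z
    simp only [chartOne, ContinuousLinearMap.add_comp]
  refine ⟨by unfold Sm; rw [e]; exact ContDiffAt.add hα hβ, fun u v => ?_⟩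
  simp only [extD, e]
  rw [fderiv_fun_add (hα.differentiableAt (by simp)) (hβ.differentiableAt (by simp))]
  simp only [add_apply]
  ring

theorem sform_fun {G : Type*} [NormedAddCommGroup G] [NormedSpace ℝ G] {g : W → G}
    (hg : ContMDiffAt 𝓘(ℝ, F) 𝓘(ℝ, G) ∞ g x) :
    ContDiffAt ℝ ∞ (fun z => g ((chartAt F x).symm z)) (chartAt F x x) ∧
      fderiv ℝ (fun z => g ((chartAt F x).symm z)) (chartAt F x x) = dif F G g x := by
  have hl := (chartAt F x).left_inv (mem_chart_source F x)
  have cs := chart_symm_smooth x (mem_chart_target F x)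
  have hg' : ContMDiffAt 𝓘(ℝ, F) 𝓘(ℝ, G) ∞ g ((chartAt F x).symm (chartAt F x x)) := by rwa [hl]
  refine ⟨contMDiffAt_iff_contDiffAt.1 (hg'.comp _ cs), ?_⟩
  rw [← dif_fderiv, dif_comp (hg'.mdifferentiableAt (by simp)) (cs.mdifferentiableAt (by simp)), hl]
  ext v
  rw [ContinuousLinearMap.comp_apply, dif_chart_symm_self]

theorem Sm.smul (hα : Sm α x) (hc : ContMDiffAt 𝓘(ℝ, F) 𝓘(ℝ, ℝ) ∞ c x) :
    Sm (fun z => c z • α z) x ∧ ∀ u v, extD (fun z => c z • α z) x u v =
      c x * extD α x u v + (dif F ℝ c x u * α x v - dif F ℝ c x v * α x u) := by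
  have e : chartOne (fun z => c z • α z) x =
      fun z => c ((chartAt F x).symm z) • chartOne α x z := by
    funext z
    simp only [chartOne, ContinuousLinearMap.smul_comp]
  obtain ⟨h1, h2⟩ := sform_fun hc
  refine ⟨by unfold Sm; rw [e]; exact h1.smul hα, fun u v => ?_⟩
  simp only [extD, e]
  rw [fderiv_fun_smul (h1.differentiableAt (by simp)) (hα.differentiableAt (by simp)), h2,
    (chartAt F x).left_inv (mem_chart_source F x), chartOne_self]
  simp only [add_apply, smul_apply,
    ContinuousLinearMap.smulRight_apply, smul_eq_mul]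
  ring

theorem sm_dif (hg : ContMDiffAt 𝓘(ℝ, F) 𝓘(ℝ, ℝ) ∞ g x) :
    Sm (dif F ℝ g) x ∧ ∀ u v, extD (dif F ℝ g) x u v = 0 := by
  obtain ⟨h1, -⟩ := sform_fun hg
  have h2 : ∀ᶠ z in 𝓝 x, ContMDiffAt 𝓘(ℝ, F) 𝓘(ℝ, ℝ) 1 g z :=
    (contMDiffAt_iff_contMDiffAt_nhds (by simp)).1 (hg.of_le (by simp))
  have e : chartOne (dif F ℝ g) x =ᶠ[𝓝 (chartAt F x x)]
      fderiv ℝ (fun z => g ((chartAt F x).symm z)) := by
    filter_upwards [sform_ev (F := F) h2,
      (chartAt F x).open_target.mem_nhds (mem_chart_target F x)] with z hz hz'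
    rw [← dif_fderiv, dif_comp (hz.mdifferentiableAt (by simp))
      ((chart_symm_smooth x hz').mdifferentiableAt (by simp))]
    rfl
  refine ⟨(h1.fderiv_right (by simp)).congr_of_eventuallyEq e, fun u v => ?_⟩
  have hs := h1.isSymmSndFDerivAt (by rw [minSmoothness_of_isRCLikeNormedField]; norm_cast)
  simp only [extD, e.fderiv_eq]
  exact sub_eq_zero.2 (hs u v)

variable [FiniteDimensional ℝ F]

theorem Sm.apply (hα : Sm α x) (hY : VFAt Y x) :
    ContMDiffAt 𝓘(ℝ, F) 𝓘(ℝ, ℝ) ∞ (fun z => α z (Y z)) x ∧ ∀ u,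
      fderiv ℝ (chartOne α x) (chartAt F x x) (Y x) u +
        α x (fderiv ℝ (chartField Y x) (chartAt F x x) u) =
      extD α x (Y x) u + dif F ℝ (fun z => α z (Y z)) x u := by
  have hx := mem_chart_source F x
  have h1 := (vfAt_iff_chart x hx).1 hY
  have h2 : ContDiffAt ℝ ∞ (fun z => chartOne α x z (chartField Y x z)) (chartAt F x x) :=
    ContDiffAt.clm_apply hα h1
  have e : (fun z => α z (Y z)) =ᶠ[𝓝 x]
      fun z => chartOne α x (chartAt F x z) (chartField Y x (chartAt F x z)) := by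
    filter_upwards [(chartAt F x).open_source.mem_nhds hx] with z hz
    rw [chartField_apply Y x hz, chartOne_apply α x hz]
  refine ⟨(ContMDiffAt.comp (g := fun z => chartOne α x z (chartField Y x z)) x
    (contMDiffAt_iff_contDiffAt.2 h2) (chart_smooth x hx)).congr_of_eventuallyEq e, fun u => ?_⟩
  rw [dif_congr e, dif_comp (g := fun z => chartOne α x z (chartField Y x z))
    (h2.differentiableAt (by simp)).mdifferentiableAt
    ((chart_smooth x hx).mdifferentiableAt (by simp)), dif_chart_self, dif_fderiv,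
    ((hα.differentiableAt (by simp)).hasFDerivAt.clm_apply
      (h1.differentiableAt (by simp)).hasFDerivAt).fderiv]
  simp [extD, chartOne_self, chartField_self]

theorem sm_contract (hσ : IsSymplectic σ) (hY : VFAt Y x) :
    Sm (fun z => σ z (Y z)) x ∧ ∀ u v, lie σ Y x u v = extD (fun z => σ z (Y z)) x u v := by
  have hx := mem_chart_source F x
  have h1 := (vfAt_iff_chart x hx).1 hY
  have hs := hσ.smooth x
  have e : chartOne (fun z => σ z (Y z)) x =ᶠ[𝓝 (chartAt F x x)]
      fun z => chartForm σ x z (chartField Y x z) := by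
    filter_upwards [(chartAt F x).open_target.mem_nhds (mem_chart_target F x)] with z hz
    ext v
    have := dif_symm_chart x ((chartAt F x).map_target hz) (Y ((chartAt F x).symm z))
    rw [(chartAt F x).right_inv hz] at this
    simp only [chartOne, chartForm, chartField, ContinuousLinearMap.comp_apply,
      ContinuousLinearMap.bilinearComp_apply, this]
  refine ⟨(hs.clm_apply h1).congr_of_eventuallyEq e, fun u v => ?_⟩
  have d1 := hs.differentiableAt (by simp)
  have skew : ∀ w a b, fderiv ℝ (chartForm σ x) (chartAt F x x) w a b =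
      -fderiv ℝ (chartForm σ x) (chartAt F x x) w b a := by
    intro w a b
    have k1 := (d1.hasFDerivAt.clm_apply (hasFDerivAt_const a _)).clm_apply
      (hasFDerivAt_const b _)
    have k2 := ((d1.hasFDerivAt.clm_apply (hasFDerivAt_const b _)).clm_apply
      (hasFDerivAt_const a _)).neg
    have k3 : (fun z => chartForm σ x z a b) = -fun z => chartForm σ x z b a := by
      funext z
      simp only [chartForm, ContinuousLinearMap.bilinearComp_apply, Pi.neg_apply]
      exact hσ.skew _ _ _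
    rw [k3] at k1
    have := congrArg (fun L : F →L[ℝ] ℝ => L w) (k1.unique k2)
    simpa using this
  simp only [extD, e.fderiv_eq, lie]
  rw [(d1.hasFDerivAt.clm_apply (h1.differentiableAt (by simp)).hasFDerivAt).fderiv]
  have c := hσ.closed x (Y x) u v
  have s1 := skew u v (Y x)
  have s2 := hσ.skew x (fderiv ℝ (chartField Y x) (chartAt F x x) v) u
  simp only [add_apply, ContinuousLinearMap.comp_apply,
    ContinuousLinearMap.flip_apply, chartForm_self, chartField_self]
  linarith

/-- The vector field dual to a 1-form. -/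
noncomputable def dual (σ : W → F →L[ℝ] F →L[ℝ] ℝ) (α : W → F →L[ℝ] ℝ) (x : W) : F :=
  (σ x).inverse (α x)

omit [IsManifold 𝓘(ℝ, F) ∞ W] in
theorem sform_inv (hσ : IsSymplectic σ) (x : W) : (σ x).IsInvertible := by
  have hi : Function.Injective (σ x : F →ₗ[ℝ] F →L[ℝ] ℝ) :=
    (injective_iff_map_eq_zero _).2 fun u hu => hσ.nondeg x u fun v =>
      congrArg (fun L : F →L[ℝ] ℝ => L v) hu
  have hr : Module.finrank ℝ F = Module.finrank ℝ (F →L[ℝ] ℝ) := by
    rw [← (LinearMap.toContinuousLinearMap (𝕜 := ℝ) (E := F) (F' := ℝ)).finrank_eq]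
    exact Subspace.dual_finrank_eq.symm
  exact ⟨(LinearEquiv.ofBijective _
    ⟨hi, (LinearMap.injective_iff_surjective_of_finrank_eq_finrank hr).1 hi⟩).toContinuousLinearEquiv,
    by ext u v; rfl⟩

omit [IsManifold 𝓘(ℝ, F) ∞ W] in
theorem dual_spec (hσ : IsSymplectic σ) (α : W → F →L[ℝ] ℝ) (x : W) : σ x (dual σ α x) = α x :=
  (sform_inv hσ x).self_apply_inverse _

omit [IsManifold 𝓘(ℝ, F) ∞ W] [FiniteDimensional ℝ F] in
theorem sigma_ext (hσ : IsSymplectic σ) {u v : F} (h : ∀ w, σ x u w = σ x v w) : u = v :=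
  sub_eq_zero.1 (hσ.nondeg x _ fun w => by
    rw [map_sub, sub_apply, h, sub_self])

theorem Sm.dual (hσ : IsSymplectic σ) (hα : Sm α x) : VFAt (dual σ α) x := by
  have : CompleteSpace F := FiniteDimensional.complete ℝ F
  have hx := mem_chart_source F x
  have h0 : (chartForm σ x (chartAt F x x)).IsInvertible := by
    rw [chartForm_self]
    exact sform_inv hσ x
  rw [vfAt_iff_chart x hx]
  refine ((ContDiffAt.comp (g := ContinuousLinearMap.inverse) (chartAt F x x)
    h0.contDiffAt_map_inverse (hσ.smooth x)).clm_apply hα).congr_of_eventuallyEq ?_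
  obtain ⟨e, he⟩ := h0
  have h2 := (hσ.smooth x).continuousAt.eventually_mem (he ▸ e.nhds)
  filter_upwards [h2, (chartAt F x).open_target.mem_nhds (mem_chart_target F x)] with z h3 hz
  have h4 : (chartForm σ x z).IsInvertible := h3
  refine (h4.inverse_apply_eq.2 ?_).symm
  ext v
  have := dif_symm_chart x ((chartAt F x).map_target hz)
    (MP_49bf82_gt.dual σ α ((chartAt F x).symm z))
  rw [(chartAt F x).right_inv hz] at this
  simp only [chartOne, chartForm, chartField, ContinuousLinearMap.comp_apply,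
    ContinuousLinearMap.bilinearComp_apply, this, dual_spec hσ]

end Pool.Agent.P.MP_49bf82_gt
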