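import Pool.Agent.P.MP_49bf82_gt.Iso
import Pool.Agent.P.MP_49bf82_gt.SAdm

open Manifold Set Filter Topology
open scoped ContDiff

namespace Pool.Agent.P.MP_49bf82_gt

open Pool.Agent.P.MP_e3ee0c_gt

variable {F : Type*} [NormedAddCommGroup F] [NormedSpace ℝ F] [FiniteDimensional ℝ F]
  {W : Type*} [TopologicalSpace W] [ChartedSpace F W] [IsManifold 𝓘(ℝ, F) ∞ W]

variable {φ : R2 → W → W} {m : W → ℂ} {h : W → ℝ} {σ : W → F →L[ℝ] F →L[ℝ] ℝ}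

omit [FiniteDimensional ℝ F] [IsManifold 𝓘(ℝ, F) ∞ W] in
theorem pk_param (hm : ContMDiff 𝓘(ℝ, F) 𝓘(ℝ, ℂ) ∞ m) {B : ℂ × W → W}
    (hB : ContMDiff (𝓘(ℝ, ℂ).prod 𝓘(ℝ, F)) 𝓘(ℝ, F) ∞ B) {x : W}
    (hk : PK σ m (fun z => B (m x, z)) x) : PK σ m (fun z => B (m z, z)) x := by
  have h0 := (hB.mdifferentiableAt (x := (m x, x)) (by simp)).hasMFDerivAt
  have h1 := HasMFDerivAt.comp (f := fun z => (m z, z)) x h0
    ((hasMF_dif (hm.mdifferentiableAt (by simp))).prodMk (hasMFDerivAt_id x))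
  have h2 := HasMFDerivAt.comp (f := fun z => (m x, z)) x h0
    ((hasMFDerivAt_const (m x) x).prodMk (hasMFDerivAt_id x))
  have e : ∀ u, dif F ℂ m x u = 0 →
      dif F F (fun z => B (m z, z)) x u = dif F F (fun z => B (m x, z)) x u := fun u hu => by
    refine (congrArg (fun L : F →L[ℝ] F => L u) h1.mfderiv).trans
      (Eq.trans ?_ (congrArg (fun L : F →L[ℝ] F => L u) h2.mfderiv).symm)
    show mfderiv (𝓘(ℝ, ℂ).prod 𝓘(ℝ, F)) 𝓘(ℝ, F) B (m x, x) (dif F ℂ m x u, u) =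
      mfderiv (𝓘(ℝ, ℂ).prod 𝓘(ℝ, F)) 𝓘(ℝ, F) B (m x, x) (0, u)
    rw [hu]
  exact ⟨h1.mdifferentiableAt, fun u hu => by rw [e u hu]; exact hk.ker u hu,
    fun u v hu hv => by rw [e u hu, e v hv]; exact hk.form u v hu hv⟩

omit [FiniteDimensional ℝ F] [IsManifold 𝓘(ℝ, F) ∞ W] in
theorem pk_isoA (hm : ContMDiff 𝓘(ℝ, F) 𝓘(ℝ, ℂ) ∞ m)
    {P₁ P₂ Q : ℝ → W → W} {C₁ C₂ C₃ : ℝ} (hP₁ : Mover F φ h C₁ P₁) (hP₂ : Mover F φ h C₂ P₂)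
    (hQ : Mover F φ h C₃ Q) (h1 : ∀ s x, m (P₁ s x) = m x + s * 1)
    (h2 : ∀ s x, m (P₂ s x) = m x + s * Complex.I) (h3 : ∀ s x, ‖m (Q s x)‖ = ‖m x‖) {R : ℝ}
    (k1 : ∀ s x, ‖m x‖ + |s| ≤ 5 * R → PK σ m (P₁ s) x)
    (k2 : ∀ s x, ‖m x‖ + |s| ≤ 5 * R → PK σ m (P₂ s) x) (k3 : ∀ s x, PK σ m (Q s) x)
    {r : ℝ} (r0 : 0 ≤ r) (r1 : r ≤ 1) (s : ℝ) {x : W} (hx : ‖m x‖ ≤ R) :
    PK σ m (isoA m P₁ P₂ Q r s) x := by
  have sm : ∀ {P : ℝ → W → W} {C : ℝ}, Mover F φ h C P → ∀ {a : ℂ × W → ℝ} {y : ℂ × W → W},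
      ContMDiff (𝓘(ℝ, ℂ).prod 𝓘(ℝ, F)) 𝓘(ℝ, ℝ) ∞ a → ContMDiff (𝓘(ℝ, ℂ).prod 𝓘(ℝ, F)) 𝓘(ℝ, F) ∞ y →
      ContMDiff (𝓘(ℝ, ℂ).prod 𝓘(ℝ, F)) 𝓘(ℝ, F) ∞ fun q => P (a q) (y q) :=
    fun hP _ _ ha hy => hP.smooth.comp (ha.prodMk hy)
  have hre : ContMDiff (𝓘(ℝ, ℂ).prod 𝓘(ℝ, F)) 𝓘(ℝ, ℝ) ∞ fun q : ℂ × W => r * q.1.re :=
    contMDiff_const.mul (Complex.reCLM.contDiff.contMDiff.comp contMDiff_fst)
  have him : ContMDiff (𝓘(ℝ, ℂ).prod 𝓘(ℝ, F)) 𝓘(ℝ, ℝ) ∞ fun q : ℂ × W => r * q.1.im :=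
    contMDiff_const.mul (Complex.imCLM.contDiff.contMDiff.comp contMDiff_fst)
  refine pk_param (B := fun q => isoT' P₁ P₂ r q.1 (Q s (isoT P₁ P₂ r q.1 q.2))) hm
    (sm hP₁ hre (sm hP₂ him (sm hQ contMDiff_const (sm hP₂ him.neg (sm hP₁ hre.neg contMDiff_snd)))))
    ?_
  have n1 : ∀ s x, ‖m (P₁ s x)‖ ≤ ‖m x‖ + |s| := fun s x => by
    rw [h1]
    simpa using norm_add_le (m x) (s * 1)
  have n2 : ∀ s x, ‖m (P₂ s x)‖ ≤ ‖m x‖ + |s| := fun s x => by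
    rw [h2]
    simpa using norm_add_le (m x) (s * Complex.I)
  have b1 : |r * (m x).re| ≤ R := by
    rw [abs_mul, abs_of_nonneg r0]
    nlinarith [Complex.abs_re_le_norm (m x), abs_nonneg (m x).re]
  have b2 : |r * (m x).im| ≤ R := by
    rw [abs_mul, abs_of_nonneg r0]
    nlinarith [Complex.abs_im_le_norm (m x), abs_nonneg (m x).im]
  have b3 := abs_neg (r * (m x).re)
  have b4 := abs_neg (r * (m x).im)
  have R0 := (norm_nonneg _).trans hx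
  have a1 := n1 (-(r * (m x).re)) x
  have a2 := n2 (-(r * (m x).im)) (P₁ (-(r * (m x).re)) x)
  have a3 := h3 s (P₂ (-(r * (m x).im)) (P₁ (-(r * (m x).re)) x))
  have a4 := n2 (r * (m x).im) (Q s (P₂ (-(r * (m x).im)) (P₁ (-(r * (m x).re)) x)))
  have c1 := (k2 (-(r * (m x).im)) _ (by linarith)).comp (k1 (-(r * (m x).re)) x (by linarith))
  have c2 := (k2 (r * (m x).im) _ (by linarith)).comp ((k3 s _).comp c1)
  exact ((k1 (r * (m x).re) _ (by linarith)).comp c2 :)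

omit [FiniteDimensional ℝ F] [IsManifold 𝓘(ℝ, F) ∞ W] in
theorem exists_isotopy_pk (hm : ContMDiff 𝓘(ℝ, F) 𝓘(ℝ, ℂ) ∞ m) (hi : ∀ t x, m (φ t x) = m x)
    {P₁ P₂ Q : ℝ → W → W} {C₁ C₂ C₃ : ℝ} (hP₁ : Mover F φ h C₁ P₁) (hP₂ : Mover F φ h C₂ P₂)
    (hQ : Mover F φ h C₃ Q) (h1 : ∀ s x, m (P₁ s x) = m x + s * 1)
    (h2 : ∀ s x, m (P₂ s x) = m x + s * Complex.I)
    (h3 : ∀ s x, m (Q s x) = Complex.exp (2 * Real.pi * Complex.I * s) * m x) {R N₀ : ℝ}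
    (far : ∀ q, ‖m q‖ ≤ R → N₀ ≤ h q → Q 1 q = q ∧ (m q = 0 → ∀ s, Q s q = q))
    (k1 : ∀ s x, ‖m x‖ + |s| ≤ 5 * R → PK σ m (P₁ s) x)
    (k2 : ∀ s x, ‖m x‖ + |s| ≤ 5 * R → PK σ m (P₂ s) x) (k3 : ∀ s x, PK σ m (Q s) x)
    (h4 : ∀ s x, ‖m (Q s x)‖ = ‖m x‖) :
    ∃ G G' : ℝ → W → W, Isotopy F φ m G G' ∧ (∀ x, G 1 x = Q 1 x) ∧
      (∀ τ x, ‖m x‖ ≤ R → PK σ m (G τ) x) ∧ ∃ N, ∀ τ x, ‖m x‖ ≤ R → N ≤ h x → G τ x = x := by
  have TT : ∀ r w x, isoT P₁ P₂ r w (isoT' P₁ P₂ r w x) = x := fun r w x => by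
    simp only [isoT, isoT', iso_neg hP₁, iso_neg hP₂]
  have TT' : ∀ r w x, isoT' P₁ P₂ r w (isoT P₁ P₂ r w x) = x := fun r w x => by
    simp only [isoT, isoT', iso_neg' hP₁, iso_neg' hP₂]
  have mT : ∀ r w x, m (isoT P₁ P₂ r w x) = m x - r * w := fun r w x => by
    simp only [isoT, h1, h2]
    apply Complex.ext <;> simp <;> ring
  have mT' : ∀ r w x, m (isoT' P₁ P₂ r w x) = m x + r * w := fun r w x => by
    simp only [isoT', h1, h2]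
    apply Complex.ext <;> simp
  have mA : ∀ r s x, (r = 1 ∨ s = 1 ∨ s = -1) → m (isoA m P₁ P₂ Q r s x) = m x := by
    intro r s x hrs
    simp only [isoA, mT', h3, mT]
    rcases hrs with rfl | rfl | rfl
    · simp
    · simp
    · simp [Complex.exp_neg]
  have AA : ∀ r s x, (r = 1 ∨ s = 1 ∨ s = -1) →
      isoA m P₁ P₂ Q r (-s) (isoA m P₁ P₂ Q r s x) = x := by
    intro r s x hrs
    rw [isoA, mA r s x hrs, isoA, TT, iso_neg hQ, TT']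
  have Ae : ∀ r s t x, isoA m P₁ P₂ Q r s (φ t x) = φ t (isoA m P₁ P₂ Q r s x) := by
    intro r s t x
    simp only [isoA, isoT, isoT', hi, hP₁.equiv, hP₂.equiv, hQ.equiv]
  have As : ∀ {a b : ℝ × W → ℝ} {x : ℝ × W → W},
      ContMDiff (𝓘(ℝ, ℝ).prod 𝓘(ℝ, F)) 𝓘(ℝ, ℝ) ∞ a → ContMDiff (𝓘(ℝ, ℝ).prod 𝓘(ℝ, F)) 𝓘(ℝ, ℝ) ∞ b →
      ContMDiff (𝓘(ℝ, ℝ).prod 𝓘(ℝ, F)) 𝓘(ℝ, F) ∞ x →
      ContMDiff (𝓘(ℝ, ℝ).prod 𝓘(ℝ, F)) 𝓘(ℝ, F) ∞ fun q => isoA m P₁ P₂ Q (a q) (b q) (x q) := by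
    intro a b x ha hb hx
    have hre : ContMDiff (𝓘(ℝ, ℝ).prod 𝓘(ℝ, F)) 𝓘(ℝ, ℝ) ∞ fun q => a q * (m (x q)).re :=
      ha.mul (Complex.reCLM.contDiff.contMDiff.comp (hm.comp hx))
    have him : ContMDiff (𝓘(ℝ, ℝ).prod 𝓘(ℝ, F)) 𝓘(ℝ, ℝ) ∞ fun q => a q * (m (x q)).im :=
      ha.mul (Complex.imCLM.contDiff.contMDiff.comp (hm.comp hx))
    exact iso_smooth hP₁ hre (iso_smooth hP₂ him (iso_smooth hQ hb
      (iso_smooth hP₂ him.neg (iso_smooth hP₁ hre.neg hx))))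
  have ht : ContMDiff (𝓘(ℝ, ℝ).prod 𝓘(ℝ, F)) 𝓘(ℝ, ℝ) ∞
      fun q : ℝ × W => Real.smoothTransition q.1 :=
    (Real.smoothTransition.contDiff (n := ⊤)).contMDiff.comp contMDiff_fst
  have ht1 : ContMDiff (𝓘(ℝ, ℝ).prod 𝓘(ℝ, F)) 𝓘(ℝ, ℝ) ∞
      fun q : ℝ × W => 1 - Real.smoothTransition q.1 := contMDiff_const.sub ht
  have hT : ∀ r x, 0 ≤ r → r ≤ 1 → ‖m x‖ ≤ R → N₀ + (|C₁| + |C₂|) * |R| ≤ h x →
      ‖m (isoT P₁ P₂ r (m x) x)‖ ≤ R ∧ N₀ ≤ h (isoT P₁ P₂ r (m x) x) := by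
    intro r x r0 r1 hR hN
    constructor
    · rw [mT, show m x - r * m x = ((1 - r : ℝ) : ℂ) * m x by push_cast; ring, norm_mul,
        Complex.norm_real, Real.norm_of_nonneg (by linarith)]
      nlinarith [norm_nonneg (m x)]
    · have a1 := hP₁.height (-(r * (m x).re)) x
      have a2 := hP₂.height (-(r * (m x).im)) (P₁ (-(r * (m x).re)) x)
      have b1 : |-(r * (m x).re)| ≤ |R| := by
        rw [abs_neg, abs_mul, abs_of_nonneg r0]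
        nlinarith [Complex.abs_re_le_norm (m x), le_abs_self R, abs_nonneg (m x).re]
      have b2 : |-(r * (m x).im)| ≤ |R| := by
        rw [abs_neg, abs_mul, abs_of_nonneg r0]
        nlinarith [Complex.abs_im_le_norm (m x), le_abs_self R, abs_nonneg (m x).im]
      have c1 : C₁ * |-(r * (m x).re)| ≤ |C₁| * |R| :=
        mul_le_mul (le_abs_self _) b1 (abs_nonneg _) (abs_nonneg _)
      have c2 : C₂ * |-(r * (m x).im)| ≤ |C₂| * |R| :=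
        mul_le_mul (le_abs_self _) b2 (abs_nonneg _) (abs_nonneg _)
      have d1 := (abs_le.1 (a1.trans c1)).1
      have d2 := (abs_le.1 (a2.trans c2)).1
      unfold isoT
      linarith
  refine ⟨fun τ x => isoA m P₁ P₂ Q (1 - Real.smoothTransition τ) 1
      (isoA m P₁ P₂ Q 1 (-(1 - Real.smoothTransition τ)) x),
    fun τ x => isoA m P₁ P₂ Q 1 (1 - Real.smoothTransition τ)
      (isoA m P₁ P₂ Q (1 - Real.smoothTransition τ) (-1) x),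
    ⟨As ht1 contMDiff_const (As contMDiff_const ht1.neg contMDiff_snd),
      As contMDiff_const ht1 (As ht1 contMDiff_const contMDiff_snd), fun τ x => ?_, fun τ x => ?_,
      fun x => ?_, fun τ x => ?_, fun τ t x => by rw [Ae, Ae]⟩, fun x => ?_,
    fun τ x hx => (pk_isoA hm hP₁ hP₂ hQ h1 h2 h4 k1 k2 k3
      (by linarith [Real.smoothTransition.le_one τ]) (by linarith [Real.smoothTransition.nonneg τ])
      1 (by rwa [mA _ _ _ (Or.inl rfl)])).comp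
      (pk_isoA hm hP₁ hP₂ hQ h1 h2 h4 k1 k2 k3 zero_le_one le_rfl _ hx),
    N₀ + (|C₁| + |C₂|) * |R|, fun τ x hR hN => ?_⟩
  · rw [AA _ 1 _ (Or.inr (Or.inl rfl))]
    simpa only [neg_neg] using AA 1 (-(1 - Real.smoothTransition τ)) x (Or.inl rfl)
  · rw [AA 1 _ _ (Or.inl rfl)]
    simpa only [neg_neg] using AA _ (-1) x (Or.inr (Or.inr rfl))
  · rw [Real.smoothTransition.zero, sub_zero]
    simpa only [neg_neg] using AA 1 (-1) x (Or.inl rfl)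
  · rw [mA _ _ _ (Or.inr (Or.inl rfl)), mA _ _ _ (Or.inl rfl)]
  · have : isoA m P₁ P₂ Q 1 0 x = x := by rw [isoA, hQ.zero, TT']
    simp only [Real.smoothTransition.one, sub_self, neg_zero, this]
    simp [isoA, isoT, isoT', hP₁.zero, hP₂.zero]
  · have a1 := hT 1 x zero_le_one le_rfl hR hN
    have a2 := hT (1 - Real.smoothTransition τ) x (by linarith [Real.smoothTransition.le_one τ])
      (by linarith [Real.smoothTransition.nonneg τ]) hR hN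
    have b1 : isoA m P₁ P₂ Q 1 (-(1 - Real.smoothTransition τ)) x = x := by
      rw [isoA, (far _ a1.1 a1.2).2 (by simp [mT]), TT']
    show isoA m P₁ P₂ Q _ 1 (isoA m P₁ P₂ Q 1 _ x) = x
    rw [b1, isoA, (far _ a2.1 a2.2).1, TT']

end Pool.Agent.P.MP_49bf82_gt
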