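import Pool.Agent.P.MP_49bf82_gt.FlowT

open Manifold Set Filter Topology
open scoped ContDiff

namespace Pool.Agent.P.MP_49bf82_gt

open Pool.Agent.P.MP_e3ee0c_gt

variable {F : Type*} [NormedAddCommGroup F] [NormedSpace ℝ F]

theorem slie_mixed {P : ℝ × F → F} {z : F} (hP : ContDiffAt ℝ ∞ P (0, z)) {X : F → F}
    (hX : ∀ᶠ y in 𝓝 z, HasDerivAt (fun t => P (t, y)) (X y) 0) (u : F) :
    HasDerivAt (fun t => fderiv ℝ (fun y => P (t, y)) z u) (fderiv ℝ X z u) 0 := by
  have h1 : ContDiffAt ℝ 1 (fderiv ℝ P) (0, z) := hP.fderiv_right (by norm_cast)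
  have d1 := (h1.differentiableAt (by simp)).hasFDerivAt
  have hs : IsSymmSndFDerivAt ℝ P (0, z) := hP.isSymmSndFDerivAt (by
    rw [minSmoothness_of_isRCLikeNormedField]; norm_cast)
  have hd : ∀ᶠ q in 𝓝 ((0 : ℝ), z), DifferentiableAt ℝ P q :=
    ((hP.of_le (show (1 : WithTop ℕ∞) ≤ ∞ by norm_cast)).eventually (by simp)).mono
      fun q hq => hq.differentiableAt (by simp)
  have c1 : HasDerivAt (fun t : ℝ => (t, z)) (1, 0) 0 :=
    (hasDerivAt_id (0 : ℝ)).prodMk (hasDerivAt_const _ z)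
  have c2 : HasFDerivAt (fun y : F => ((0 : ℝ), y)) (ContinuousLinearMap.inr ℝ ℝ F) z :=
    hasFDerivAt_prodMk_right 0 z
  have e1 : (fun t => fderiv ℝ (fun y => P (t, y)) z u) =ᶠ[𝓝 0]
      fun t => fderiv ℝ P (t, z) (0, u) := by
    filter_upwards [c1.continuousAt.eventually hd] with t ht
    have := (ht.hasFDerivAt.comp z (hasFDerivAt_prodMk_right t z)).fderiv
    exact congrArg (fun L : F →L[ℝ] F => L u) this
  have e2 : X =ᶠ[𝓝 z] fun y => fderiv ℝ P (0, y) (1, 0) := by
    filter_upwards [c2.continuousAt.eventually hd, hX] with y hy hy'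
    exact hy'.unique (hy.hasFDerivAt.comp_hasDerivAt (0 : ℝ)
      ((hasDerivAt_id (0 : ℝ)).prodMk (hasDerivAt_const _ y)))
  have g1 := ((d1.comp_hasDerivAt (0 : ℝ) c1).clm_apply
    (hasDerivAt_const _ ((0 : ℝ), u))).congr_of_eventuallyEq e1
  have g2 := ((d1.comp z c2).clm_apply (hasFDerivAt_const ((1 : ℝ), (0 : F)) _)).fderiv
  refine g1.congr_deriv ?_
  rw [e2.fderiv_eq]
  refine Eq.trans ?_ (congrArg (fun L : F →L[ℝ] F => L u) g2).symm
  simpa using hs (1, 0) (0, u)

variable {W : Type*} [TopologicalSpace W] [ChartedSpace F W] [IsManifold 𝓘(ℝ, F) ∞ W]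

/-- A family of maps that starts at the identity near x with velocity Y. -/
structure Fam (P : ℝ → W → W) (Y : W → F) (x : W) : Prop where
  smooth : ∀ᶠ q in 𝓝 ((0 : ℝ), x),
    ContMDiffAt (𝓘(ℝ, ℝ).prod 𝓘(ℝ, F)) 𝓘(ℝ, F) ∞ (fun q : ℝ × W => P q.1 q.2) q
  zero : ∀ᶠ z in 𝓝 x, P 0 z = z
  vel : ∀ᶠ z in 𝓝 x,
    HasMFDerivAt 𝓘(ℝ, ℝ) 𝓘(ℝ, F) (fun t => P t z) 0 ((1 : ℝ →L[ℝ] ℝ).smulRight (Y z))

theorem Fam.chart {P : ℝ → W → W} {Y : W → F} {x : W} (h : Fam P Y x) :
    (∀ᶠ t in 𝓝 (0 : ℝ), P t x ∈ (chartAt F x).source) ∧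
    HasDerivAt (fun t => chartAt F x (P t x)) (Y x) 0 ∧ ∀ u,
      dif F F (chartAt F x) (P 0 x) (dif F F (P 0) x u) = u ∧
      HasDerivAt (fun t => dif F F (chartAt F x) (P t x) (dif F F (P t) x u))
        (fderiv ℝ (chartField Y x) (chartAt F x x) u) 0 := by
  have hx := mem_chart_source F x
  have h0 := h.zero.self_of_nhds
  have hl := (chartAt F x).left_inv hx
  have c1 : ContinuousAt (fun t : ℝ => (t, x)) 0 := by fun_prop
  have a1 : ∀ᶠ t in 𝓝 (0 : ℝ), P t x ∈ (chartAt F x).source :=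
    (ContinuousAt.comp (f := fun t : ℝ => (t, x)) h.smooth.self_of_nhds.continuousAt
      c1).eventually_mem
      (by simpa only [Function.comp_apply, h0] using (chartAt F x).open_source.mem_nhds hx)
  have hv : ∀ᶠ z in 𝓝 x, HasDerivAt (fun t => chartAt F x (P t z))
      (dif F F (chartAt F x) z (Y z)) 0 := by
    filter_upwards [h.zero, h.vel, (chartAt F x).open_source.mem_nhds hx] with z z0 zv zs
    have := hasDerivAt_comp_curve (g := chartAt F x) zv
      (by rw [z0]; exact (chart_smooth x zs).mdifferentiableAt (by simp))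
    rwa [z0] at this
  have cs := chart_symm_smooth x (mem_chart_target F x)
  refine ⟨a1, by simpa only [dif_chart_self, ContinuousLinearMap.id_apply] using hv.self_of_nhds,
    fun u => ⟨?_, ?_⟩⟩
  · rw [h0, dif_chart_self, dif_congr (g := id) h.zero]
    exact congrArg (fun L : F →L[ℝ] F => L u) (mfderiv_id (I := 𝓘(ℝ, F)) (x := x))
  have s1 : ContMDiffAt 𝓘(ℝ, ℝ × F) (𝓘(ℝ, ℝ).prod 𝓘(ℝ, F)) ∞
      (fun q : ℝ × F => (q.1, (chartAt F x).symm q.2)) (0, chartAt F x x) :=
    contDiff_fst.contMDiff.contMDiffAt.prodMk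
      (ContMDiffAt.comp (f := fun q : ℝ × F => q.2) (0, chartAt F x x) cs
        contDiff_snd.contMDiff.contMDiffAt)
  have s2 : ContDiffAt ℝ ∞ (fun q : ℝ × F => chartAt F x (P q.1 ((chartAt F x).symm q.2)))
      (0, chartAt F x x) := by
    refine contMDiffAt_iff_contDiffAt.1 (ContMDiffAt.comp (g := chartAt F x) _
      (chart_smooth x (by simpa only [hl, h0] using hx))
      (ContMDiffAt.comp (g := fun q : ℝ × W => P q.1 q.2) _ ?_ s1))
    simpa only [hl] using h.smooth.self_of_nhds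
  have hv' : ∀ᶠ z in 𝓝 ((chartAt F x).symm (chartAt F x x)), HasDerivAt
      (fun t => chartAt F x (P t z)) (dif F F (chartAt F x) z (Y z)) 0 := by
    rw [hl]
    exact hv
  have s3 := slie_mixed s2 (X := chartField Y x) (cs.continuousAt.eventually hv') u
  refine s3.congr_of_eventuallyEq ?_
  filter_upwards [a1, c1.eventually h.smooth] with t t1 t2
  have d1 := (mflowb_slice t2).mdifferentiableAt (by simp)
  have d2 := (chart_smooth x t1).mdifferentiableAt (by simp)
  rw [← dif_fderiv, dif_comp (g := fun z => chartAt F x (P t z)) (f := (chartAt F x).symm)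
    (by rw [hl]; exact d2.comp x d1) (cs.mdifferentiableAt (by simp)), hl, dif_comp d2 d1]
  simp only [ContinuousLinearMap.comp_apply, dif_chart_symm_self]

/-- The Lie derivative of a field of bilinear forms. -/
noncomputable def lie (σ : W → F →L[ℝ] F →L[ℝ] ℝ) (Y : W → F) (x : W) (u v : F) : ℝ :=
  fderiv ℝ (chartForm σ x) (chartAt F x x) (Y x) u v +
    σ x (fderiv ℝ (chartField Y x) (chartAt F x x) u) v +
    σ x u (fderiv ℝ (chartField Y x) (chartAt F x x) v)

theorem Fam.lie {P : ℝ → W → W} {Y : W → F} {x : W} (h : Fam P Y x)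
    {σ : W → F →L[ℝ] F →L[ℝ] ℝ} (hσ : ContDiffAt ℝ ∞ (chartForm σ x) (chartAt F x x)) (u v : F) :
    HasDerivAt (fun t => σ (P t x) (dif F F (P t) x u) (dif F F (P t) x v)) (lie σ Y x u v) 0 := by
  obtain ⟨h1, h2, h3⟩ := h.chart
  have h0 := h.zero.self_of_nhds
  have d1 : HasFDerivAt (chartForm σ x) (fderiv ℝ (chartForm σ x) (chartAt F x x))
      (chartAt F x (P 0 x)) := by
    rw [h0]
    exact (hσ.differentiableAt (by simp)).hasFDerivAt
  have d0 : HasDerivAt (fun t => chartForm σ x (chartAt F x (P t x)))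
      (fderiv ℝ (chartForm σ x) (chartAt F x x) (Y x)) 0 :=
    HasFDerivAt.comp_hasDerivAt (l := chartForm σ x) (f := fun t => chartAt F x (P t x)) 0 d1 h2
  have d2 := (d0.clm_apply (h3 u).2).clm_apply (h3 v).2
  refine (d2.congr_of_eventuallyEq ?_).congr_deriv ?_
  · filter_upwards [h1] with t ht
    exact (chartForm_apply σ x ht _ _).symm
  · rw [(h3 u).1, (h3 v).1, h0, chartForm_self]
    rfl

theorem chartOne_apply (α : W → F →L[ℝ] ℝ) (p : W) {q : W} (hq : q ∈ (chartAt F p).source)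
    (u : F) : chartOne α p (chartAt F p q) (dif F F (chartAt F p) q u) = α q u := by
  simp only [chartOne, ContinuousLinearMap.comp_apply, dif_symm_chart p hq,
    (chartAt F p).left_inv hq]

theorem chartOne_self (α : W → F →L[ℝ] ℝ) (p : W) : chartOne α p (chartAt F p p) = α p := by
  ext u
  have := chartOne_apply α p (mem_chart_source F p) u
  rwa [dif_chart_self] at this

theorem Fam.lie_one {P : ℝ → W → W} {Y : W → F} {x : W} (h : Fam P Y x)
    {α : W → F →L[ℝ] ℝ} (hα : ContDiffAt ℝ ∞ (chartOne α x) (chartAt F x x)) (u : F) :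
    HasDerivAt (fun t => α (P t x) (dif F F (P t) x u))
      (fderiv ℝ (chartOne α x) (chartAt F x x) (Y x) u +
        α x (fderiv ℝ (chartField Y x) (chartAt F x x) u)) 0 := by
  obtain ⟨h1, h2, h3⟩ := h.chart
  have h0 := h.zero.self_of_nhds
  have d1 : HasFDerivAt (chartOne α x) (fderiv ℝ (chartOne α x) (chartAt F x x))
      (chartAt F x (P 0 x)) := by
    rw [h0]
    exact (hα.differentiableAt (by simp)).hasFDerivAt
  have d0 : HasDerivAt (fun t => chartOne α x (chartAt F x (P t x)))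
      (fderiv ℝ (chartOne α x) (chartAt F x x) (Y x)) 0 :=
    HasFDerivAt.comp_hasDerivAt (l := chartOne α x) (f := fun t => chartAt F x (P t x)) 0 d1 h2
  have d2 := d0.clm_apply (h3 u).2
  refine (d2.congr_of_eventuallyEq ?_).congr_deriv ?_
  · filter_upwards [h1] with t ht
    exact (chartOne_apply α x ht _).symm
  · rw [(h3 u).1, h0, chartOne_self]

theorem IsFlow.fam {P : ℝ → W → W} {Y : W → F} (h : IsFlow Y P) (x : W) : Fam P Y x :=
  ⟨.of_forall h.smooth, .of_forall h.zero, .of_forall fun z => by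
    have := h.curve z 0
    simpa only [h.zero] using this⟩

end Pool.Agent.P.MP_49bf82_gt
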