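import Pool.Agent.P.MP_49bf82_gt.STurn
import Pool.Agent.P.MP_49bf82_gt.SIso
import Pool.Agent.P.MP_49bf82_gt.Desc
import Pool.Agent.P.MP_49bf82_gt.CritB

open Manifold Set Filter Topology
open scoped ContDiff

namespace Pool.Agent.P.MP_49bf82_gt

open Pool.Agent.P.MP_e3ee0c_gt

variable {E F : Type*} [NormedAddCommGroup E] [NormedSpace ℝ E] [FiniteDimensional ℝ E]
  [NormedAddCommGroup F] [NormedSpace ℝ F] [FiniteDimensional ℝ F]
  {V W : Type*} [TopologicalSpace V] [ChartedSpace E V] [IsManifold 𝓘(ℝ, E) ∞ V]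
  [TopologicalSpace W] [ChartedSpace F W] [IsManifold 𝓘(ℝ, F) ∞ W]
  {Φ : V → ℂ} {ι : ℝ × V × R2 → W} {φ : R2 → W → W} {m : W → ℂ} {h : W → ℝ}
  {σ : W → F →L[ℝ] F →L[ℝ] ℝ} {α : V → E →L[ℝ] ℝ} {p : W → V} {f : ℝ → V → V}

theorem desc_pages (hc : Core E F Φ ι φ m) (hh : IsHeight F ι φ h) (hp : IsProj E F ι p)
    (hf : OnEnd F α Φ σ ι) (hα : ∀ v, Sm α v) {G G' : ℝ → W → W} (hG : Isotopy F φ m G G') {R : ℝ}
    (hR : 0 < R) (hR₁ : ∀ x, ‖m x‖ = R → 3 < h x)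
    (hR₂ : ∀ v, Φ v ≠ 0 → 3 < Real.log (R / ‖Φ v‖))
    (hk : ∀ τ x, ‖m x‖ ≤ R → PK σ m (G τ) x) (τ : ℝ) : PageSymplectic α Φ (descG Φ ι R p G τ) := by
  intro v hv a b ha hb
  have hn : ‖Φ v‖ ≠ 0 := norm_ne_zero_iff.2 hv
  have ev : ∀ᶠ w in 𝓝 v, Φ w ≠ 0 := hc.smoothV.continuous.continuousAt.eventually_ne hv
  have j1 := (desc_j_smooth hc hR hR₂ hv).mdifferentiableAt (by simp)
  have p0 : 0 < ((Real.log (R / ‖Φ v‖), v, 0) : ℝ × V × R2).1 := by
    simp only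
    linarith [hR₂ v hv]
  have m1 := (desc_m hc hR hR₂ hv).2
  have g1 : DifferentiableAt ℝ (fun z : ℂ => ((R / ‖z‖ : ℝ) : ℂ) * z) (Φ v) :=
    (Complex.ofRealCLM.differentiableAt.comp _ ((contDiffAt_const.div
      (contDiffAt_norm ℝ (n := 1) hv) hn).differentiableAt (by simp))).mul differentiableAt_id
  have k0 : ∀ u, PageTangent Φ v u → dif F ℂ m (descJ Φ ι R v) (dif E F (descJ Φ ι R) v u) = 0 := by
    rintro u ⟨c, hu⟩
    have a1 := dif_comp (g := m) (hc.smooth.mdifferentiableAt (by simp)) j1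
    rw [dif_congr (g := fun w => ((R / ‖Φ w‖ : ℝ) : ℂ) * Φ w)
      (ev.mono fun w hw => (desc_m hc hR hR₂ hw).1),
      dif_comp (g := fun z : ℂ => ((R / ‖z‖ : ℝ) : ℂ) * z) g1.mdifferentiableAt
        (hc.smoothV.mdifferentiableAt (by simp))] at a1
    have a2 := congrArg (fun L : E →L[ℝ] ℂ => L u) a1
    simp only [ContinuousLinearMap.comp_apply, hu, dif_fderiv] at a2
    rw [← a2, ray_deriv g1 c (hasDerivAt_const _ (((R / ‖Φ v‖ : ℝ) : ℂ) * Φ v)) fun t ht => ?_,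
      smul_zero]
    have : (t : ℂ) ≠ 0 := Complex.ofReal_ne_zero.2 ht.ne'
    rw [norm_mul, Complex.norm_real, Real.norm_of_nonneg ht.le]
    push_cast
    field_simp
  have k1 : ∀ u, dif F E p (descJ Φ ι R v) (dif E F (descJ Φ ι R) v u) = u := fun u => by
    have a1 := dif_comp (g := p) (f := descJ Φ ι R) ((hp _ p0).2.mdifferentiableAt (by simp)) j1
    rw [dif_congr (f := fun w => p (descJ Φ ι R w)) (g := fun w => w) (ev.mono fun w hw => (hp (Real.log (R / ‖Φ w‖), w, 0)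
      (by simp only; linarith [hR₂ w hw])).1)] at a1
    exact (congrArg (fun L : E →L[ℝ] E => L u) a1).symm.trans (dif_id' (fun _ => rfl) v u)
  obtain ⟨⟨y, hy, ey⟩, -⟩ := desc_key hc hh hG hR hR₁ hR₂ (fun y hy => (hp y hy).1) τ hv
  have pk := hk τ _ m1.le
  have k2 : ∀ u, dif E E (descG Φ ι R p G τ) v u = dif F E p (G τ (descJ Φ ι R v))
      (dif F F (G τ) (descJ Φ ι R v) (dif E F (descJ Φ ι R) v u)) := fun u => by
    rw [dif_congr (g := fun w => p (G τ (descJ Φ ι R w))) (ev.mono fun w hw => by simp [descG, hw]),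
      dif_comp (g := p) (f := fun w => G τ (descJ Φ ι R w))
        (by rw [← ey]; exact (hp y hy).2.mdifferentiableAt (by simp)) (pk.md.comp v j1),
      dif_comp pk.md j1]
    rfl
  have s1 : σ (descJ Φ ι R v) _ _ = ‖m (descJ Φ ι R v)‖ * pageForm α Φ (p (descJ Φ ι R v))
      (dif F E p (descJ Φ ι R v) _) (dif F E p (descJ Φ ι R v) _) :=
    sigma_ker hc hp hf hα p0 (norm_pos_iff.1 (hR.trans_eq m1.symm)) (k0 a ha) (k0 b hb)
  have s2 := sigma_ker hc hp hf hα hy (norm_pos_iff.1 (by rw [ey, hG.pres, m1]; exact hR))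
    (by rw [ey]; exact pk.ker _ (k0 a ha)) (by rw [ey]; exact pk.ker _ (k0 b hb))
  rw [ey, pk.form _ _ (k0 a ha) (k0 b hb), s1, hG.pres, m1, k1, k1, ← k2, ← k2,
    show p (descJ Φ ι R v) = v from (hp _ p0).1] at s2
  rw [show descG Φ ι R p G τ v = p (G τ (descJ Φ ι R v)) by simp [descG, hv]]
  exact (mul_left_cancel₀ hR.ne' s2).symm

theorem main_symplectic [CompactSpace V] [ConnectedSpace V] [T2Space W] [ConnectedSpace W]
    {μ : W → R2} (hα : ∀ v, Sm α v) (hΦ : ContMDiff 𝓘(ℝ, E) 𝓘(ℝ, ℂ) ∞ Φ)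
    (hF : IsEquivariantFilling α Φ σ ι φ μ) (hf : IsSymplecticMonodromyFlow α Φ f) :
    SymplecticallyTrivial α Φ (f 1) := by
  obtain ⟨m, hc, hH⟩ := hF.exists_core hΦ
  obtain ⟨h, hh⟩ := hc.isEnd.exists_height hc.action
  have : SigmaCompactSpace W := by
    refine SigmaCompactSpace.of_countable {K | ∃ n : ℕ, K = {x | h x ≤ n}}
      ((countable_range fun n : ℕ => {x | h x ≤ n}).mono ?_) ?_ ?_
    · rintro _ ⟨n, rfl⟩; exact ⟨n, rfl⟩
    · rintro _ ⟨n, rfl⟩; exact hh.compact n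
    · refine eq_univ_of_forall fun x => ?_
      obtain ⟨n, hn⟩ := exists_nat_ge (h x)
      exact ⟨_, ⟨n, rfl⟩, hn⟩
  have hd := hc.dense_ne (hH.surjective_end hc.isEnd)
  have hs := hc.surjective hH hh (hf.flow.exists_neg hd)
  obtain ⟨a, ht⟩ := hf.flow.exists_turn hd
  obtain ⟨p, hp, -⟩ := hc.isEnd.descend (J := 𝓘(ℝ, E)) (g := fun y : ℝ × V × R2 => y.2.1)
    (fun y _ => contMDiffAt_fst.comp y contMDiffAt_snd) (fun _ _ _ _ _ => rfl)
    (Classical.arbitrary V)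
  obtain ⟨R, hR0, r1, r2, r3⟩ := hc.exists_outer hh
  obtain ⟨N₁, A, hA⟩ := hc.exists_conn hh hs (5 * (R + 2) + 1 + 1)
  obtain ⟨P₁, C₁, a1, a2, a3⟩ := hA.exists_trans (by linarith) hH hc hh hF.form hs (c := 1) norm_one
  obtain ⟨P₂, C₂, b1, b2, b3⟩ := hA.exists_trans (by linarith) hH hc hh hF.form hs Complex.norm_I
  have hR₂ := r3 (R + 2) (by linarith)
  obtain ⟨Q, C₃, N₀, c1, c2, c3, c4, c5⟩ := hA.exists_turner hH hc hh hp hF.form hα hs ht hf hR0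
    (by linarith) r1 r2 hR₂
  obtain ⟨G, G', hG, hG1, hk, N, hN⟩ := exists_isotopy_pk hc.smooth hc.invariant a1 b1 c1 a2 b2 c2 c4
    (fun s x hx => a3 s x (by linarith)) (fun s x hx => b3 s x (by linarith)) c3
    (fun s x => by rw [c2, norm_mul, norm_turn, one_mul])
  have hR : 0 < R + 2 := by linarith
  have hR₁ : ∀ x, ‖m x‖ = R + 2 → 3 < h x := fun x hx => r1 x (by linarith)
  have hp1 : ∀ y : ℝ × V × R2, 0 < y.1 → p (ι y) = y.2.1 := fun y hy => (hp y hy).1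
  have hp2 := fun y hy => (hp y hy).2
  have hN' : ∀ τ x, ‖m x‖ ≤ R + 2 → N ≤ h x → G' τ x = x := by
    intro τ x h1 h2
    have := hG.left τ x
    rwa [hN τ x h1 h2] at this
  refine ⟨descG Φ ι (R + 2) p G, descG Φ ι (R + 2) p G', desc_smooth hc hh hG hR hR₁ hR₂ hN hp1 hp2,
    desc_smooth hc hh (desc_symm hG) hR hR₁ hR₂ hN' hp1 hp2,
    fun τ v => ⟨desc_inv hc hh hG hR hR₁ hR₂ hp1 τ v,
      desc_inv hc hh (desc_symm hG) hR hR₁ hR₂ hp1 τ v⟩, fun v => ?_, fun τ v => ?_,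
    desc_pages hc hh hp hF.form hα hG hR hR₁ hR₂ hk, ?_⟩
  · by_cases hv : Φ v = 0
    · simp [descG, hv, hf.flow.fix 1 v hv]
    · obtain ⟨s, hs, hs'⟩ := c5 v hv
      constructor
      · simp only [descG, hv, if_false, hG.zero]
        exact hp1 _ (by simp only; linarith [hR₂ v hv])
      · simp only [descG, hv, if_false, descJ, hG1, hs']
        exact hp1 _ hs
  · by_cases hv : Φ v = 0
    · exact ⟨1, one_pos, by simp [descG, hv]⟩
    · obtain ⟨-, -, -, c, hc0, hc1⟩ := desc_key hc hh hG hR hR₁ hR₂ hp1 τ hv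
      exact ⟨c, hc0, by simpa [descG, hv] using hc1⟩
  · have : ∀ᶠ v in 𝓝ˢ {v | Φ v = 0}, ‖Φ v‖ < (R + 2) * Real.exp (-N) := by
      refine (isOpen_lt hc.smoothV.continuous.norm continuous_const).mem_nhdsSet.2 ?_
      intro v hv
      simp only [mem_ofPred_eq] at hv ⊢
      rw [hv, norm_zero]
      positivity
    filter_upwards [this] with v hv τ
    exact desc_near hc hh hR hR₂ hN hp1 τ hv

end Pool.Agent.P.MP_49bf82_gt
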