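import Pool.Agent.P.MP_49bf82_gt.SFields
import Pool.Agent.P.MP_49bf82_gt.SDefs
import Pool.Agent.P.MP_49bf82_gt.Far

open Manifold Set Filter Topology
open scoped ContDiff

namespace Pool.Agent.P.MP_49bf82_gt

open Pool.Agent.P.MP_e3ee0c_gt

variable {E F : Type*} [NormedAddCommGroup E] [NormedSpace ℝ E] [FiniteDimensional ℝ E]
  [NormedAddCommGroup F] [NormedSpace ℝ F] [FiniteDimensional ℝ F]
  {V W : Type*} [TopologicalSpace V] [ChartedSpace E V] [IsManifold 𝓘(ℝ, E) ∞ V]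
  [TopologicalSpace W] [ChartedSpace F W] [IsManifold 𝓘(ℝ, F) ∞ W]
  {Φ : V → ℂ} {ι : ℝ × V × R2 → W} {φ : R2 → W → W} {m : W → ℂ} {h : W → ℝ}
  {σ : W → F →L[ℝ] F →L[ℝ] ℝ} {α : V → E →L[ℝ] ℝ} {p : W → V}
  {f : ℝ → V → V} {a : ℝ × V → ℝ}

theorem ray_deriv {G : Type*} [NormedAddCommGroup G] [NormedSpace ℝ G] {g : ℂ → G} {z : ℂ}
    (hg : DifferentiableAt ℝ g z) (c : ℝ) {k : ℝ → G} {d : G} (hk : HasDerivAt k d 1)
    (e : ∀ t : ℝ, 0 < t → g (t * z) = k t) : fderiv ℝ g z (c * z) = c • d := by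
  have h1 : HasDerivAt (fun t : ℝ => (t : ℂ) * z) z 1 := by
    simpa using (Complex.ofRealCLM.hasDerivAt (x := 1)).mul_const z
  have h2 : HasFDerivAt g (fderiv ℝ g z) (((1 : ℝ) : ℂ) * z) := by
    simpa using hg.hasFDerivAt
  have h3 := (HasFDerivAt.comp_hasDerivAt (f := fun t : ℝ => (t : ℂ) * z) 1 h2 h1).unique
    (hk.congr_of_eventuallyEq ((lt_mem_nhds one_pos).mono fun t ht => e t ht))
  rw [← Complex.real_smul, map_smul, h3]

omit [FiniteDimensional ℝ E] in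
theorem page_eq (hΦ : ContMDiff 𝓘(ℝ, E) 𝓘(ℝ, ℂ) ∞ Φ) {v : V} (hα : Sm α v) (hv : Φ v ≠ 0)
    {u w : E} {c d : ℝ} (hu : dif E ℂ Φ v u = c * Φ v) (hw : dif E ℂ Φ v w = d * Φ v) :
    ‖Φ v‖ * pageForm α Φ v u w = extD α v u w - c * α v w + d * α v u := by
  have hn : ‖Φ v‖ ≠ 0 := norm_ne_zero_iff.2 hv
  have h1 : ContDiffAt ℝ ∞ (fun z : ℂ => ‖z‖⁻¹) (Φ v) := (contDiffAt_norm ℝ hv).inv hn
  have h2 : ∀ (u : E) (c : ℝ), dif E ℂ Φ v u = c * Φ v →
      dif E ℝ (fun w => ‖Φ w‖⁻¹) v u = c * -‖Φ v‖⁻¹ := by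
    intro u c hu
    rw [dif_comp (g := fun z : ℂ => ‖z‖⁻¹) (h1.differentiableAt (by simp)).mdifferentiableAt
      (hΦ.mdifferentiableAt (by simp)), ContinuousLinearMap.comp_apply, hu, dif_fderiv]
    refine ray_deriv (h1.differentiableAt (by simp)) c (k := fun t => t⁻¹ * ‖Φ v‖⁻¹)
      (by simpa using (hasDerivAt_inv (one_ne_zero (α := ℝ))).mul_const ‖Φ v‖⁻¹) fun t ht => ?_
    rw [norm_mul, Complex.norm_real, Real.norm_of_nonneg ht.le, mul_inv]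
  rw [pageForm, (hα.smul (c := fun w => ‖Φ w‖⁻¹) (h1.contMDiffAt.comp v (hΦ v))).2, h2 u c hu, h2 w d hw]
  field_simp
  ring

variable (E F) in
/-- The projection of the end to V. -/
def IsProj (ι : ℝ × V × R2 → W) (p : W → V) : Prop :=
  ∀ y : ℝ × V × R2, 0 < y.1 → p (ι y) = y.2.1 ∧ ContMDiffAt 𝓘(ℝ, F) 𝓘(ℝ, E) ∞ p (ι y)

theorem IsProj.dif_p (hp : IsProj E F ι p) (he : IsEnd E F ι φ) {y : ℝ × V × R2} (hy : 0 < y.1)
    (b : ℝ × E × R2) : dif F E p (ι y) (dEnd E F ι y b) = b.2.1 := by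
  have h1 := mfderiv_comp y ((hp y hy).2.mdifferentiableAt (by simp)) (endd_mdiff he hy)
  have h2 := (HasMFDerivAt.comp y (hasMFDerivAt_fst (I := 𝓘(ℝ, E)) (I' := 𝓘(ℝ, R2)) y.2)
    (hasMFDerivAt_snd (I := 𝓘(ℝ, ℝ)) (I' := 𝓘(ℝ, E).prod 𝓘(ℝ, R2)) y)).congr_of_eventuallyEq
      (f₁ := p ∘ ι) ((endd_pos hy).mono fun z hz => (hp z hz).1)
  exact congrArg (fun L : (ℝ × E × R2) →L[ℝ] E => L b) (h1.symm.trans h2.mfderiv)

theorem spage_ker (hc : Core E F Φ ι φ m) {y : ℝ × V × R2} (hy : 0 < y.1) {b : ℝ × E × R2}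
    (hb : dif F ℂ m (ι y) (dEnd E F ι y b) = 0) :
    dif E ℂ Φ y.2.1 b.2.1 = ((-b.1 : ℝ) : ℂ) * Φ y.2.1 := by
  rw [hc.dif_m hy, mul_eq_zero] at hb
  have := hb.resolve_left (Complex.ofReal_ne_zero.2 (Real.exp_pos _).ne')
  rw [Complex.ofReal_neg, neg_mul]
  exact eq_neg_of_add_eq_zero_right this

theorem page_tangent (hc : Core E F Φ ι φ m) (hp : IsProj E F ι p) {y : ℝ × V × R2} (hy : 0 < y.1)
    {u : F} (hu : dif F ℂ m (ι y) u = 0) : PageTangent Φ (p (ι y)) (dif F E p (ι y) u) := by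
  obtain ⟨b, rfl⟩ := (hc.isEnd.bijective hy).2 u
  rw [hp.dif_p hc.isEnd hy, (hp y hy).1]
  exact ⟨_, spage_ker hc hy hu⟩

/-- On a level of m the form is a multiple of the pulled back page form. -/
theorem sigma_ker (hc : Core E F Φ ι φ m) (hp : IsProj E F ι p) (hf : OnEnd F α Φ σ ι)
    (hα : ∀ v, Sm α v) {y : ℝ × V × R2} (hy : 0 < y.1) (h0 : m (ι y) ≠ 0) {u w : F}
    (hu : dif F ℂ m (ι y) u = 0) (hw : dif F ℂ m (ι y) w = 0) :
    σ (ι y) u w = ‖m (ι y)‖ * pageForm α Φ (p (ι y)) (dif F E p (ι y) u) (dif F E p (ι y) w) := by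
  obtain ⟨b, rfl⟩ := (hc.isEnd.bijective hy).2 u
  obtain ⟨d, rfl⟩ := (hc.isEnd.bijective hy).2 w
  have h1 := spage_ker hc hy hu
  have h2 := spage_ker hc hy hw
  rw [hc.onEnd y hy] at h0
  rw [hp.dif_p hc.isEnd hy, hp.dif_p hc.isEnd hy, (hp y hy).1, hf y hy, hc.onEnd y hy, norm_mul,
    Complex.norm_real, Real.norm_of_nonneg (Real.exp_pos _).le, mul_assoc,
    page_eq hc.smoothV (hα _) (right_ne_zero_of_mul h0) h1 h2, symp, h1, h2]
  simp only [bour, Complex.mul_re, Complex.mul_im, Complex.ofReal_re, Complex.ofReal_im]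
  ring

theorem Core.exists_outer (hc : Core E F Φ ι φ m) (hh : IsHeight F ι φ h) :
    ∃ R > 0, (∀ x, R ≤ ‖m x‖ → 3 < h x) ∧
      (∀ y : ℝ × V × R2, R ≤ Real.exp y.1 * ‖Φ y.2.1‖ → 3 < y.1) ∧
      ∀ r, R ≤ r → ∀ v, Φ v ≠ 0 → 3 < Real.log (r / ‖Φ v‖) := by
  obtain ⟨M, hM⟩ := (hh.compact 3).exists_bound_of_continuousOn hc.smooth.continuous.continuousOn
  have hM0 := abs_nonneg M
  have hM1 := le_abs_self M
  have key : ∀ y : ℝ × V × R2, |M| + 1 ≤ Real.exp y.1 * ‖Φ y.2.1‖ → 3 < y.1 := by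
    intro y hy
    by_contra hcon
    have h3 : h (ι (3, y.2.1, 0)) = 3 := hh.onEnd (3, y.2.1, 0) (by norm_num)
    have := hM (ι (3, y.2.1, 0)) h3.le
    rw [hc.onEnd (3, y.2.1, 0) (by norm_num), norm_mul, Complex.norm_real,
      Real.norm_of_nonneg (Real.exp_pos _).le] at this
    have h4 := mul_le_mul_of_nonneg_right (Real.exp_le_exp.2 (not_lt.1 hcon)) (norm_nonneg (Φ y.2.1))
    simp only at this
    linarith
  refine ⟨|M| + 1, by linarith, fun x hx => ?_, key, fun r hr v hv => ?_⟩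
  · by_contra hcon
    have := hM x (not_lt.mp hcon)
    linarith
  · have hp : 0 < ‖Φ v‖ := norm_pos_iff.mpr hv
    refine key (Real.log (r / ‖Φ v‖), v, 0) ?_
    simp only
    rwa [Real.exp_log (div_pos (by linarith) hp), div_mul_cancel₀ _ hp.ne']

theorem norm_turn (s : ℝ) : ‖Complex.exp (2 * Real.pi * Complex.I * s)‖ = 1 := by
  rw [show (2 * Real.pi * Complex.I * s : ℂ) = ((2 * Real.pi * s : ℝ) : ℂ) * Complex.I by
    push_cast; ring]
  exact Complex.norm_exp_ofReal_mul_I _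

/-- The lifted monodromy flow is admissible on far levels of m. -/
theorem IsFlow.adm_outer [T2Space W] {Y Z : W → F} {Q : ℝ → W → W} (hQ : IsFlow Y Q) (hY : VF Y)
    (hσ : IsSymplectic σ) (hc : Core E F Φ ι φ m) (hh : IsHeight F ι φ h) (hp : IsProj E F ι p)
    (hf : OnEnd F α Φ σ ι) (hα : ∀ v, Sm α v) (ht : Turn E Φ f a) (hZ : IsRot ι f a Z)
    (hYZ : ∀ y : ℝ × V × R2, 3 ≤ y.1 → Y (ι y) = Z (ι y))
    (hm : ∀ x, dif F ℂ m x (Y x) = 2 * Real.pi * Complex.I * m x)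
    (hs : ∀ t, PageSymplectic α Φ (f t)) {R : ℝ} (hR : 0 < R) (r1 : ∀ x, R ≤ ‖m x‖ → 3 < h x)
    (r2 : ∀ y : ℝ × V × R2, R ≤ Real.exp y.1 * ‖Φ y.2.1‖ → 3 < y.1) {x : W} (hx : R < ‖m x‖) :
    Adm σ m Y x := by
  have hrot := hQ.rotate hc.smooth hm
  have hn : ∀ s z, ‖m (Q s z)‖ = ‖m z‖ := fun s z => by rw [hrot, norm_mul, norm_turn, one_mul]
  have hE : ∀ z, R ≤ ‖m z‖ → ∃ y : ℝ × V × R2, 0 < y.1 ∧ ι y = z := fun z hz => by
    obtain ⟨y, hy, e⟩ := hh.big z (by linarith [r1 z hz])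
    exact ⟨y, by linarith, e⟩
  have hpq : ∀ s z, R ≤ ‖m z‖ → p (Q s z) = f s (p z) := by
    intro s z hz
    obtain ⟨y, hy, rfl⟩ := hE z hz
    have h3 : ∀ t, 3 < (ft f a t y).1 := fun t => r2 _ (by
      have e := congrArg norm (ht.ft_exp t y)
      rw [norm_mul, norm_mul, norm_turn, one_mul, ← hc.onEnd y hy, Complex.norm_real,
        Real.norm_of_nonneg (Real.exp_pos _).le] at e
      rwa [e])
    have hs0 := abs_nonneg s
    rw [hQ.eq_ft hY ht hZ hYZ (y := y) (b := -(|s| + 1)) (c := |s| + 1)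
      ⟨by linarith, by linarith⟩ (fun t _ => (h3 t).le) s
      ⟨by linarith [neg_abs_le s], by linarith [le_abs_self s]⟩,
      (hp _ (by linarith [h3 s])).1, (hp y hy).1]
    rfl
  refine hQ.adm hY hσ fun t => ?_
  have hk : ∀ u, dif F ℂ m x u = 0 → dif F ℂ m (Q t x) (dif F F (Q t) x u) = 0 := fun u hu =>
    ker_pres hc.smooth (hQ.slice t x) (L := fun z => Complex.exp (2 * Real.pi * Complex.I * t) * z)
      (differentiable_id.const_mul _) (hrot t) hu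
  refine ⟨hQ.slice t x, hk, fun u v hu hv => ?_⟩
  obtain ⟨y', hy', e'⟩ := hE (Q t x) (by rw [hn]; exact hx.le)
  obtain ⟨y, hy, rfl⟩ := hE x hx.le
  have m0 : m (ι y) ≠ 0 := norm_pos_iff.1 (hR.trans hx)
  have a1 := sigma_ker hc hp hf hα hy' (norm_pos_iff.1 (by rw [e', hn]; exact hR.trans hx))
    (by rw [e']; exact hk u hu) (by rw [e']; exact hk v hv)
  have a2 : (fun z => p (Q t z)) =ᶠ[𝓝 (ι y)] fun z => f t (p z) := by
    filter_upwards [hc.smooth.continuous.norm.continuousAt.eventually (lt_mem_nhds hx)] with z hz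
    exact hpq t z hz.le
  have a3 := dif_congr (E := F) (F := E) a2
  have a4 : MDifferentiableAt 𝓘(ℝ, F) 𝓘(ℝ, E) p (Q t (ι y)) := by
    rw [← e']
    exact (hp y' hy').2.mdifferentiableAt (by simp)
  rw [dif_comp a4 (hQ.slice t _), dif_comp
    ((mflowb_slice (ht.flow.smooth (t, _))).mdifferentiableAt (by simp))
    ((hp y hy).2.mdifferentiableAt (by simp))] at a3
  have a5 : ∀ w, dif F E p (Q t (ι y)) (dif F F (Q t) (ι y) w) =
      dif E E (f t) (p (ι y)) (dif F E p (ι y) w) := fun w =>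
    congrArg (fun L : F →L[ℝ] E => L w) a3
  rw [e'] at a1
  rw [a1, sigma_ker hc hp hf hα hy m0 hu hv, hn, a5, a5, hpq t _ hx.le,
    hs t _ ?_ _ _ (page_tangent hc hp hy hu) (page_tangent hc hp hy hv)]
  rw [(hp y hy).1]
  rw [hc.onEnd y hy] at m0
  exact right_ne_zero_of_mul m0

end Pool.Agent.P.MP_49bf82_gt
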