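import Pool.Agent.P.MP_49bf82_gt.SAngle

open Manifold Set Filter Topology
open scoped ContDiff

namespace Pool.Agent.P.MP_49bf82_gt

open Pool.Agent.P.MP_e3ee0c_gt

variable {E F : Type*} [NormedAddCommGroup E] [NormedSpace ℝ E] [FiniteDimensional ℝ E]
  [NormedAddCommGroup F] [NormedSpace ℝ F] [FiniteDimensional ℝ F]
  {V W : Type*} [TopologicalSpace V] [ChartedSpace E V] [IsManifold 𝓘(ℝ, E) ∞ V]
  [TopologicalSpace W] [ChartedSpace F W] [IsManifold 𝓘(ℝ, F) ∞ W]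
  {Φ : V → ℂ} {ι : ℝ × V × R2 → W} {φ : R2 → W → W} {m : W → ℂ} {h : W → ℝ}
  {σ : W → F →L[ℝ] F →L[ℝ] ℝ} {e : W → F →L[ℝ] R2}

variable (E) in
/-- A flat invariant connection form that is the angle form far out on the end. -/
structure Conn (ι : ℝ × V × R2 → W) (φ : R2 → W → W) (m : W → ℂ) (h : W → ℝ) (ρ N : ℝ)
    (A : W → F →L[ℝ] R2) : Prop where
  loc : ∀ x, ‖m x‖ ≤ ρ ∨ N ≤ h x →
    ∃ θ : W → R2, ContMDiffAt 𝓘(ℝ, F) 𝓘(ℝ, R2) ∞ θ x ∧ A =ᶠ[𝓝 x] dif F R2 θ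
  inv : ∀ x, ‖m x‖ ≤ ρ ∨ N ≤ h x → ∀ t w, A (φ t x) (dif F F (φ t) x w) = A x w
  gen : ∀ x, ‖m x‖ ≤ ρ ∨ N ≤ h x → ∀ ξ, A x (gen F φ ξ x) = ξ
  far : ∀ y : ℝ × V × R2, N ≤ y.1 → ∀ b, A (ι y) (dEnd E F ι y b) = b.2.2
  big : 4 ≤ N

omit [FiniteDimensional ℝ F] [IsManifold 𝓘(ℝ, F) ∞ W] in
theorem spull_lin {θ : W → R2} {A : W → F →L[ℝ] R2} {x : W}
    (hθ : ContMDiffAt 𝓘(ℝ, F) 𝓘(ℝ, R2) ∞ θ x) (hA : A =ᶠ[𝓝 x] dif F R2 θ) (l : R2 →L[ℝ] ℝ)
    [IsManifold 𝓘(ℝ, F) ∞ W] :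
    ContMDiffAt 𝓘(ℝ, F) 𝓘(ℝ, ℝ) ∞ (fun z => l (θ z)) x ∧
      (fun z => l.comp (A z)) =ᶠ[𝓝 x] dif F ℝ fun z => l (θ z) := by
  refine ⟨l.contDiff.contMDiff.contMDiffAt.comp x hθ, ?_⟩
  have h2 : ∀ᶠ z in 𝓝 x, ContMDiffAt 𝓘(ℝ, F) 𝓘(ℝ, R2) 1 θ z :=
    (contMDiffAt_iff_contMDiffAt_nhds (by simp)).1 (hθ.of_le (by simp))
  filter_upwards [hA, h2] with z h3 h4
  rw [dif_comp l.mdifferentiableAt (h4.mdifferentiableAt (by simp)), dif_fderiv, l.fderiv, h3]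

theorem Core.exists_conn [T2Space W] [SigmaCompactSpace W] (hc : Core E F Φ ι φ m)
    (hh : IsHeight F ι φ h) (hs : ∀ x, Function.Surjective (dif F ℂ m x)) (ρ : ℝ) :
    ∃ (N : ℝ) (A : W → F →L[ℝ] R2), Conn E ι φ m h ρ N A := by
  obtain ⟨e, ha⟩ := hc.isEnd.exists_angle hc.action
  obtain ⟨Y, C, h1, h2, h3, h4, h5⟩ := hc.exists_flat hh hs ha
  obtain ⟨P, hP, hM⟩ := exists_mover h1 hc.action h2 hh.smooth hh.compact h4
  obtain ⟨M, hb⟩ := (hh.compact 3).exists_bound_of_continuousOn hc.smooth.continuous.continuousOn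
  obtain ⟨T, hT⟩ : ∃ T, T = |ρ| + |M| + 1 := ⟨_, rfl⟩
  have hT0 : 0 ≤ T := by rw [hT]; positivity
  have hN : ∀ x, 5 + |C| * T ≤ h x → ∀ r ∈ uIcc 0 T, 4 < h (P r x) := by
    intro x hx r hr
    rw [uIcc_of_le hT0] at hr
    have a1 := (abs_le.1 (hM.height r x)).1
    have a2 : C * |r| ≤ |C| * T :=
      mul_le_mul (le_abs_self C) (by rw [abs_of_nonneg hr.1]; exact hr.2) (abs_nonneg r)
        (abs_nonneg C)
    linarith
  have hE : ∀ x, ‖m x‖ ≤ ρ ∨ 5 + |C| * T ≤ h x → ∃ y : ℝ × V × R2, 0 < y.1 ∧ ι y = P T x := by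
    intro x hx
    have : 2 ≤ h (P T x) := by
      rcases hx with hx | hx
      · by_contra hcon
        have a1 := hb (P T x) (show h (P T x) ≤ 3 by linarith)
        rw [hP.translate hc.smooth h3, mul_one] at a1
        have a2 := norm_sub_le (m x + T) (m x)
        rw [add_sub_cancel_left, Complex.norm_real, Real.norm_of_nonneg hT0] at a2
        linarith [le_abs_self ρ, le_abs_self M]
      · linarith [hN x hx T right_mem_uIcc]
    obtain ⟨y, hy, e⟩ := hh.big _ this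
    exact ⟨y, by linarith, e⟩
  have hsm : ∀ x, ContMDiffAt 𝓘(ℝ, F) 𝓘(ℝ, F) ∞ (P T) x := fun x => mflowb_slice (hP.smooth (T, x))
  refine ⟨5 + |C| * T, fun x => (e (P T x)).comp (dif F F (P T) x), fun x hx => ?_,
    fun x hx t w => ?_, fun x hx ξ => ?_, fun y hy b => ?_, by linarith [mul_nonneg (abs_nonneg C) hT0]⟩
  · obtain ⟨y, hy, ey⟩ := hE x hx
    obtain ⟨θ, hθ⟩ := ha.loc hc.isEnd hy
    rw [ey] at hθ
    refine ⟨fun z => θ (P T z), hθ.self_of_nhds.1.comp x (hsm x), ?_⟩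
    filter_upwards [(hsm x).continuousAt.eventually hθ] with z hz
    rw [dif_comp (hz.1.mdifferentiableAt (by simp)) (hP.slice T z), hz.2]
  · obtain ⟨y, hy, ey⟩ := hE x hx
    have a1 := dif_comp (hP.slice T (φ t x)) ((hc.action.smooth_at t x).mdifferentiableAt (by simp))
    have a2 := dif_comp ((hc.action.smooth_at t (P T x)).mdifferentiableAt (by simp)) (hP.slice T x)
    simp only [hM.equiv] at a1
    have a3 := congrArg (fun L : F →L[ℝ] F => L w) (a1.symm.trans a2)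
    simp only [ContinuousLinearMap.comp_apply] at a3 ⊢
    rw [a3, hM.equiv, ← ey, ha.inv hc.isEnd hc.action hy]
  · obtain ⟨y, hy, ey⟩ := hE x hx
    have a1 := dif_comp (g := P T) (f := fun t => φ t x) (x := 0) (hP.slice T _)
      ((hc.action.smooth_orbit x).mdifferentiableAt (by simp))
    simp only [hM.equiv, hc.action.zero] at a1
    have a2 : gen F φ ξ (P T x) = dif F F (P T) x (gen F φ ξ x) :=
      congrArg (fun L : R2 →L[ℝ] F => L ξ) a1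
    rw [ContinuousLinearMap.comp_apply, ← a2, ← ey, ha.gen hc.isEnd hy]
  · have hy2 : 2 ≤ y.1 := by linarith [mul_nonneg (abs_nonneg C) hT0]
    rw [← ha y (by linarith) b]
    funext i
    refine hP.const (x := ι y) (fun z u _ => e z u i) (dEnd E F ι y b) 0 T fun r hr => ?_
    have a1 := hN (ι y) (by rwa [hh.onEnd y hy2]) r hr
    obtain ⟨z, hz, ez⟩ := hh.big (P r (ι y)) (by linarith)
    obtain ⟨θ, hθ⟩ := ha.loc hc.isEnd (show 0 < z.1 by linarith)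
    rw [ez] at hθ
    obtain ⟨a2, a3⟩ := spull_lin hθ.self_of_nhds.1 (hθ.mono fun _ h => h.2)
      (ContinuousLinearMap.proj i)
    have a4 := (sm_dif a2).1.congr a3
    refine ((hP.fam _).lie_one a4 _).congr_deriv ?_
    rw [(a4.apply (h1 _)).2, extD_congr a3, (sm_dif a2).2, zero_add,
      dif_congr (g := fun _ => (0 : ℝ))]
    · exact congrArg (fun L : F →L[ℝ] ℝ => L _) mfderiv_const
    · filter_upwards [(hh.smooth.continuous.continuousAt (x := P r (ι y))).eventually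
        (lt_mem_nhds a1)] with w hw
      simp [h5 w hw.le]

end Pool.Agent.P.MP_49bf82_gt
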