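import Pool.Agent.P.MP_49bf82_gt.SPage

open Manifold Set Filter Topology
open scoped ContDiff

namespace Pool.Agent.P.MP_49bf82_gt

open Pool.Agent.P.MP_e3ee0c_gt

variable {E F : Type*} [NormedAddCommGroup E] [NormedSpace ℝ E] [FiniteDimensional ℝ E]
  [NormedAddCommGroup F] [NormedSpace ℝ F] [FiniteDimensional ℝ F]
  {V W : Type*} [TopologicalSpace V] [ChartedSpace E V] [IsManifold 𝓘(ℝ, E) ∞ V]
  [TopologicalSpace W] [ChartedSpace F W] [IsManifold 𝓘(ℝ, F) ∞ W]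
  {Φ : V → ℂ} {ι : ℝ × V × R2 → W} {φ : R2 → W → W} {m : W → ℂ} {h : W → ℝ}
  {σ : W → F →L[ℝ] F →L[ℝ] ℝ} {α : V → E →L[ℝ] ℝ} {p : W → V}
  {f : ℝ → V → V} {a : ℝ × V → ℝ} {A : W → F →L[ℝ] R2} {ρ N : ℝ} {Z : W → F}

variable (E) in
/-- The generator of a flow on V. -/
noncomputable def genV (f : ℝ → V → V) (v : V) : E := dif ℝ E (fun t => f t v) 0 1

theorem srot_md (hf : IsMonodromyFlow E Φ f) (v : V) :
    HasMFDerivAt 𝓘(ℝ, ℝ) 𝓘(ℝ, E) (fun t => f t v) 0 ((1 : ℝ →L[ℝ] ℝ).smulRight (genV E f v)) :=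
  rotf_has ((hf.smooth.comp (contMDiff_id.prodMk contMDiff_const) 0).mdifferentiableAt (by simp))

theorem srot_vf (hf : IsMonodromyFlow E Φ f) : VF (genV E f) := by
  intro v
  have h2 := push (J := 𝓘(ℝ, E)) (I₁ := 𝓘(ℝ, ℝ)) (I₂ := 𝓘(ℝ, E))
    (fun (w : V) (s : ℝ) => f s w) (fun _ => 0) (fun _ => 1) (x₀ := v)
    (hf.smooth.comp (contMDiff_snd.prodMk contMDiff_fst) (v, 0)) contMDiffAt_const
  exact h2.congr_of_eventuallyEq (.of_forall fun w => rotf_mk (hf.zero w).symm rfl)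

theorem srot_cartan (hf : IsMonodromyFlow E Φ f) {v : V} (hα : Sm α v)
    (hv : ∀ t u, α (f t v) (dif E E (f t) v u) = α v u) (u : E) :
    extD α v (genV E f v) u = -dif E ℝ (fun w => α w (genV E f w)) v u := by
  have h1 : Fam f (genV E f) v :=
    ⟨.of_forall hf.smooth, .of_forall hf.zero, .of_forall (srot_md hf)⟩
  have h2 := h1.lie_one hα u
  simp only [hv] at h2
  have h3 := h2.unique (hasDerivAt_const _ _)
  rw [(hα.apply (srot_vf hf v)).2] at h3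
  linarith

theorem srot_Z (hZ : IsRot ι f a Z) (ht : Turn E Φ f a) (he : IsEnd E F ι φ) {y : ℝ × V × R2}
    (hy : 0 < y.1) (ha : ∀ t, a (t, y.2.1) = 0) :
    Z (ι y) = dEnd E F ι y (0, genV E f y.2.1, 0) := by
  have h1 := rotf_zero hZ ht hy
  have h2 := (hasMFDerivAt_const (I := 𝓘(ℝ, ℝ)) (I' := 𝓘(ℝ, ℝ)) y.1 (0 : ℝ)).prodMk
    ((srot_md ht.flow y.2.1).prodMk
      (hasMFDerivAt_const (I := 𝓘(ℝ, ℝ)) (I' := 𝓘(ℝ, R2)) y.2.2 (0 : ℝ)))
  have h0 : ∀ z, z = y → HasMFDerivAt (I3 E) 𝓘(ℝ, F) ι z (dEnd E F ι y) := by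
    rintro _ rfl
    exact (endd_mdiff he hy).hasMFDerivAt
  have h3 := (HasMFDerivAt.comp (0 : ℝ) (h0 _ (by simp [ht.flow.zero])) h2).congr_of_eventuallyEq
    (f₁ := fun s => ι (ft f a s y)) (.of_forall fun s => by simp [ft, ha])
  have h4 := congrArg (fun L : ℝ →L[ℝ] F => L 1) (hasMFDerivAt_unique h1 h3)
  have h5 : (1 : ℝ) • Z (ι y) = dEnd E F ι y (0, (1 : ℝ) • genV E f y.2.1, 0) := h4
  rwa [one_smul, one_smul] at h5

theorem exists_ham (hc : Core E F Φ ι φ m) (hh : IsHeight F ι φ h) {g : V → ℝ}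
    (hg : ContMDiff 𝓘(ℝ, E) 𝓘(ℝ, ℝ) ∞ g) :
    ∃ K : W → ℝ, ContMDiff 𝓘(ℝ, F) 𝓘(ℝ, ℝ) ∞ K ∧ (∀ t x, K (φ t x) = K x) ∧
      ∀ y : ℝ × V × R2, 4 < y.1 → ∀ b, dif F ℝ K (ι y) (dEnd E F ι y b) =
        -(Real.exp y.1 * (b.1 * g y.2.1 + dif E ℝ g y.2.1 b.2.1)) := by
  have h0 : ContMDiff (I3 E) 𝓘(ℝ, ℝ) ∞ fun y : ℝ × V × R2 => -(Real.exp y.1 * g y.2.1) :=
    ((Real.contDiff_exp.contMDiff.comp contMDiff_fst).mul
      (hg.comp (contMDiff_fst.comp contMDiff_snd))).neg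
  obtain ⟨H, h1, -⟩ := hc.isEnd.descend (fun y _ => h0 y) (fun _ _ _ _ _ => rfl) (0 : ℝ)
  have hsm : ContMDiff 𝓘(ℝ, F) 𝓘(ℝ, ℝ) ∞ fun x => Real.smoothTransition (h x - 3) * H x := by
    intro x
    by_cases hx : 2 ≤ h x
    · obtain ⟨y, hy, rfl⟩ := hh.big x hx
      exact ((Real.smoothTransition.contDiff.comp (contDiff_id.sub contDiff_const)).contMDiff.comp
        hh.smooth _).mul (h1 y (by linarith)).2
    · refine (contMDiffAt_const (c := (0 : ℝ))).congr_of_eventuallyEq ?_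
      filter_upwards [(hh.smooth.continuous.continuousAt (x := x)).eventually
        (gt_mem_nhds (not_le.1 hx))] with z hz
      rw [Real.smoothTransition.zero_of_nonpos (by linarith), zero_mul]
  refine ⟨_, hsm, fun t x => ?_, fun y hy b => ?_⟩
  · rw [hh.invariant]
    by_cases hx : 2 ≤ h x
    · obtain ⟨y, hy, rfl⟩ := hh.big x hx
      have p0 : 0 < y.1 := by linarith
      rw [show φ t (ι y) = ι (y.1, y.2.1, y.2.2 + t) from hc.isEnd.equivariant _ _ _ t p0,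
        (h1 y p0).1, (h1 (y.1, y.2.1, y.2.2 + t) p0).1]
    · rw [Real.smoothTransition.zero_of_nonpos (by linarith), zero_mul, zero_mul]
  · rw [hc.isEnd.dif_dEnd (by linarith) (hsm.mdifferentiableAt (by simp))]
    have a1 := HasMFDerivAt.comp y (Real.hasDerivAt_exp y.1).hasFDerivAt.hasMFDerivAt
      (hasMFDerivAt_fst (I := 𝓘(ℝ, ℝ)) (I' := 𝓘(ℝ, E).prod 𝓘(ℝ, R2)) y)
    have a2 := HasMFDerivAt.comp y (hasMF_dif (hg.mdifferentiableAt (x := y.2.1) (by simp)))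
      (HasMFDerivAt.comp y (hasMFDerivAt_fst (I := 𝓘(ℝ, E)) (I' := 𝓘(ℝ, R2)) y.2)
        (hasMFDerivAt_snd (I := 𝓘(ℝ, ℝ)) (I' := 𝓘(ℝ, E).prod 𝓘(ℝ, R2)) y))
    have a3 := (a1.mul' a2).neg.congr_of_eventuallyEq
      (f₁ := fun z => Real.smoothTransition (h (ι z) - 3) * H (ι z))
      ((endd_pos hy).mono fun z hz => by
        show Real.smoothTransition (h (ι z) - 3) * H (ι z) = -(Real.exp z.1 * g z.2.1)
        rw [hh.onEnd z (by linarith), Real.smoothTransition.one_of_one_le (by linarith), one_mul,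
          (h1 z (by linarith)).1])
    refine (congrArg (fun L : (ℝ × E × R2) →L[ℝ] ℝ => L b) a3.mfderiv).trans ?_
    show -(Real.exp y.1 * dif E ℝ g y.2.1 b.2.1 + (b.1 • Real.exp y.1) * g y.2.1) = _
    rw [smul_eq_mul]
    ring

theorem Core.exists_far [CompactSpace V] (hc : Core E F Φ ι φ m) {q : V → Prop}
    (hq : ∀ᶠ v in 𝓝ˢ {v | Φ v = 0}, q v) (ρ : ℝ) :
    ∃ N, ∀ y : ℝ × V × R2, 0 < y.1 → N ≤ y.1 → ‖m (ι y)‖ ≤ ρ → q y.2.1 := by
  obtain ⟨O, hO, h1, h2⟩ := mem_nhdsSet_iff_exists.1 hq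
  obtain ⟨δ, hδ, h3⟩ := hO.isClosed_compl.isCompact.exists_forall_le' (a := 0)
    hc.smoothV.continuous.norm.continuousOn fun w hw => norm_pos_iff.2 fun h0 => hw (h1 h0)
  refine ⟨|ρ| / δ, fun y hy hN hm => h2 ?_⟩
  by_contra hv
  rw [hc.onEnd y hy, norm_mul, Complex.norm_real, Real.norm_of_nonneg (Real.exp_pos _).le] at hm
  have e1 := mul_le_mul (Real.add_one_le_exp y.1) (h3 _ hv) hδ.le (Real.exp_pos _).le
  rw [div_le_iff₀ hδ] at hN
  nlinarith [le_abs_self ρ]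

/-- An admissible rotation field on a disc that is the lifted monodromy field near the binding. -/
theorem Conn.exists_inner [CompactSpace V] (hA : Conn E ι φ m h ρ N A) (hH : Ham σ φ m)
    (hc : Core E F Φ ι φ m) (hh : IsHeight F ι φ h) (hf : OnEnd F α Φ σ ι) (hα : ∀ v, Sm α v)
    (ht : Turn E Φ f a) (hZ : IsRot ι f a Z) (hs : IsSymplecticMonodromyFlow α Φ f) :
    ∃ (D : W → F) (N' : ℝ), ∀ x, ‖m x‖ ≤ ρ → Adm σ m D x ∧
      (∀ t, dif F F (φ t) x (D x) = D (φ t x)) ∧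
      dif F ℂ m x (D x) = 2 * Real.pi * Complex.I * m x ∧ (N' ≤ h x → D x = Z x) := by
  have hσ := hH.symplectic
  obtain ⟨K, k1, k2, k3⟩ := exists_ham hc hh (g := fun v => α v (genV E f v))
    fun v => ((hα v).apply (srot_vf ht.flow v)).1
  obtain ⟨N₁, hN₁⟩ := hc.exists_far hs.strict ρ
  refine ⟨fun x => ((-(2 * Real.pi) * (m x).im) • Dc σ A 1 x +
    (2 * Real.pi * (m x).re) • Dc σ A Complex.I x) + dual σ (dif F ℝ K) x,
    max (max N 5) N₁, fun x hx => ⟨?_, fun t => ?_, ?_, fun hx' => ?_⟩⟩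
  · exact (((hA.adm hσ 1 (Or.inl hx)).smul hσ hc.smooth (k := fun z => -(2 * Real.pi) * z.im)
      (contDiff_const.mul Complex.imCLM.contDiff)).add hσ
      ((hA.adm hσ Complex.I (Or.inl hx)).smul hσ hc.smooth (k := fun z => 2 * Real.pi * z.re)
      (contDiff_const.mul Complex.reCLM.contDiff))).add hσ (adm_dual hσ (k1 x) EventuallyEq.rfl)
  · simp only [map_add, map_smul, hA.dinv hH hc _ (Or.inl hx), hc.invariant,
      hH.dual_inv hc.action hc.smooth (fields_inv hc.action k1 k2 t x)]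
  · have a1 : dif F ℂ m x (dual σ (dif F ℝ K) x) = 0 := norm_pr_ext fun ξ => by
      rw [hH.dif_dual, dif_gen_inv hc.action k1 k2, map_zero]
    simp only [map_add, map_smul, hA.dm hH _ (Or.inl hx), a1]
    apply Complex.ext <;> simp
  · have n1 : N ≤ h x := ((le_max_left _ _).trans (le_max_left _ _)).trans hx'
    have n2 : 5 ≤ h x := ((le_max_right _ _).trans (le_max_left _ _)).trans hx'
    have n3 : N₁ ≤ h x := (le_max_right _ _).trans hx'
    obtain ⟨y, hy, rfl⟩ := hh.big x (by linarith)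
    rw [hh.onEnd y hy] at n1 n2 n3
    have p0 : 0 < y.1 := by linarith
    have st := hN₁ y p0 n3 hx
    have ha : ∀ t, a (t, y.2.1) = 0 := fun t => by
      by_cases h0 : Φ y.2.1 = 0
      · exact ht.fix t _ h0
      · have := (st t).1
        rw [ht.turn, cocycle_norm, mul_eq_right₀ (norm_ne_zero_iff.2 h0)] at this
        exact Real.exp_eq_one_iff _ |>.1 this
    have z1 := srot_Z hZ ht hc.isEnd p0 ha
    have z2 := hZ.dif_m ht hc p0
    rw [z1, hc.dif_m p0] at z2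
    refine sigma_ext hσ (x := ι y) fun w => ?_
    obtain ⟨b, rfl⟩ := (hc.isEnd.bijective p0).2 w
    have z3 := congrArg Complex.re z2
    have z4 := congrArg Complex.im z2
    rw [z1, hf y p0, symp, srot_cartan ht.flow (hα _) fun t => (st t).2]
    simp only [map_add, map_smul, add_apply, smul_apply, Dc, dual_spec hσ,
      ContinuousLinearMap.comp_apply, hA.far y n1, k3 y (by linarith), prL_apply, pr_apply, bour,
      smul_eq_mul]
    simp at z3 z4 ⊢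
    rw [← Complex.ofReal_exp, Complex.ofReal_re] at z3 z4
    linear_combination (-b.2.2 0) * z3 + b.2.2 1 * z4

end Pool.Agent.P.MP_49bf82_gt
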