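import Pool.Agent.P.MP_49bf82_gt.SRot

open Manifold Set Filter Topology
open scoped ContDiff

namespace Pool.Agent.P.MP_49bf82_gt

open Pool.Agent.P.MP_e3ee0c_gt

variable {E F : Type*} [NormedAddCommGroup E] [NormedSpace ℝ E] [FiniteDimensional ℝ E]
  [NormedAddCommGroup F] [NormedSpace ℝ F] [FiniteDimensional ℝ F]
  {V W : Type*} [TopologicalSpace V] [ChartedSpace E V] [IsManifold 𝓘(ℝ, E) ∞ V]
  [TopologicalSpace W] [ChartedSpace F W] [IsManifold 𝓘(ℝ, F) ∞ W]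
  {Φ : V → ℂ} {ι : ℝ × V × R2 → W} {φ : R2 → W → W} {m : W → ℂ} {h : W → ℝ}
  {σ : W → F →L[ℝ] F →L[ℝ] ℝ} {α : V → E →L[ℝ] ℝ} {p : W → V}
  {f : ℝ → V → V} {a : ℝ × V → ℝ} {A : W → F →L[ℝ] R2} {ρ N : ℝ} {Z : W → F}

/-- A flow that rotates m, preserves the form on all levels and lifts the monodromy flow. -/
theorem Conn.exists_turner [CompactSpace V] [T2Space W] [SigmaCompactSpace W]
    (hA : Conn E ι φ m h ρ N A) (hH : Ham σ φ m) (hc : Core E F Φ ι φ m) (hh : IsHeight F ι φ h)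
    (hp : IsProj E F ι p) (hf : OnEnd F α Φ σ ι) (hα : ∀ v, Sm α v)
    (hsur : ∀ x, Function.Surjective (dif F ℂ m x)) (ht : Turn E Φ f a)
    (hs : IsSymplecticMonodromyFlow α Φ f) {R : ℝ} (hR : 0 < R) (hρ : R + 2 ≤ ρ)
    (r1 : ∀ x, R ≤ ‖m x‖ → 3 < h x)
    (r2 : ∀ y : ℝ × V × R2, R ≤ Real.exp y.1 * ‖Φ y.2.1‖ → 3 < y.1)
    (r3 : ∀ v, Φ v ≠ 0 → 3 < Real.log ((R + 2) / ‖Φ v‖)) [Nonempty W] :
    ∃ (Q : ℝ → W → W) (C N₀ : ℝ), Mover F φ h C Q ∧
      (∀ s x, m (Q s x) = Complex.exp (2 * Real.pi * Complex.I * s) * m x) ∧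
      (∀ s x, PK σ m (Q s) x) ∧
      (∀ q, ‖m q‖ ≤ R + 2 → N₀ ≤ h q → Q 1 q = q ∧ (m q = 0 → ∀ s, Q s q = q)) ∧
      ∀ v, Φ v ≠ 0 → ∃ s, 0 < s ∧
        Q 1 (ι (Real.log ((R + 2) / ‖Φ v‖), v, 0)) = ι (s, f 1 v, 0) := by
  have hσ := hH.symplectic
  obtain ⟨Z, hZ⟩ := ht.exists_rot hc.isEnd hc.action
  obtain ⟨Y, C, c1, c2, c3, c4, c5⟩ := hc.exists_rot hh hsur ht hZ
  obtain ⟨Q₀, q, q'⟩ := exists_mover c1 hc.action c2 hh.smooth hh.compact c4
  obtain ⟨N₀, hN₀⟩ := q.far c1 hc hh ht hZ c5 (R + 2)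
  obtain ⟨D, N', hD⟩ := hA.exists_inner hH hc hh hf hα ht hZ hs
  let ψ : ContDiffBump (0 : ℂ) := ⟨R + 1, R + 2, by linarith, by linarith⟩
  have hD' := fun x (hx : ‖m x‖ ≤ ψ.rOut) => hD x (hx.trans hρ)
  have v1 : VF (mix ψ m D Y) := mix_vf hc.smooth (fun x hx => (hD' x hx).1.vf) c1
  have v2 : ∀ x, max N' 3 ≤ h x → mix ψ m D Y x = Y x := fun x hx => by
    rcases le_total ‖m x‖ ψ.rOut with h1 | h1
    · have n1 := (le_max_right _ _).trans hx
      refine mix_eq (((hD' x h1).2.2.2 ((le_max_left _ _).trans hx)).trans ?_)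
      obtain ⟨y, hy, rfl⟩ := hh.big x (by linarith)
      exact (c5 y (by rwa [hh.onEnd y hy] at n1)).symm
    · exact mix_out h1
  have v3 : ∀ x, dif F ℂ m x (mix ψ m D Y x) = 2 * Real.pi * Complex.I * m x := fun x =>
    mix_mem (S := dif F ℂ m x ⁻¹' {2 * Real.pi * Complex.I * m x})
      ((convex_singleton _).linear_preimage (dif F ℂ m x).toLinearMap)
      (fun hx => (hD' x hx).2.2.1) (c3 x)
  obtain ⟨C', hC'⟩ := (hh.compact (max N' 3)).exists_bound_of_continuousOn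
    (f := fun x => dif F ℝ h x (mix ψ m D Y x))
    fun x _ => ((v1 x).dif_apply (hh.smooth x)).continuousAt.continuousWithinAt
  obtain ⟨Q, hQ, hM⟩ := exists_mover v1 hc.action
    (mix_inv hc.invariant (fun x hx => (hD' x hx).2.1) c2) hh.smooth hh.compact (C := max C C')
    fun x => by
      rcases le_total (h x) (max N' 3) with h1 | h1
      · exact (hC' x h1).trans (le_max_right _ _)
      · rw [v2 x h1]
        exact (c4 x).trans (le_max_left _ _)
  have hrot := hQ.rotate hc.smooth v3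
  refine ⟨Q, _, max N₀ (max N' 3 + |C| * 2), hM, hrot, fun s x => hQ.pk hσ hc.smooth
    (L := fun s z => Complex.exp (2 * Real.pi * Complex.I * s) * z)
    (fun s => differentiable_id.const_mul _) hrot fun r _ =>
      mix_adm hσ hc.smooth (fun hx => (hD' _ hx).1) fun hx =>
        q.adm_outer c1 hσ hc hh hp hf hα ht hZ c5 c3 hs.pages hR r1 r2
          (lt_of_lt_of_le (lt_add_one R) hx), fun x hx hN => ?_, fun v hv => ?_⟩
  · obtain ⟨a1, a2⟩ := hN₀ x hx ((le_max_left _ _).trans hN)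
    have n1 := (le_max_right _ _).trans hN
    have hC := abs_nonneg C
    constructor
    · rw [hQ.agree q v1 (a := -1) (b := 2) (by norm_num) (fun t ht' => v2 _ ?_) 1 (by norm_num), a1]
      have b1 := (abs_le.1 (q'.height t x)).1
      have b2 : C * |t| ≤ |C| * 2 := mul_le_mul (le_abs_self C)
        (abs_le.2 ⟨by linarith [ht'.1], ht'.2.le⟩) (abs_nonneg t) hC
      linarith
    · intro h0 s
      have hs0 := abs_nonneg s
      rw [hQ.agree q v1 (a := -(|s| + 1)) (b := |s| + 1) ⟨by linarith, by linarith⟩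
        (fun t _ => v2 _ (by rw [a2 h0]; linarith)) s
        ⟨by linarith [neg_abs_le s], by linarith [le_abs_self s]⟩, a2 h0]
  · obtain ⟨s, s0, s1⟩ := q.one c1 ht hZ c5 (by linarith) r3 hv
    refine ⟨s, s0, Eq.trans (hQ.agree q v1 (a := -1) (b := 2) (by norm_num)
      (fun t _ => mix_out ?_) 1 (by norm_num)) s1⟩
    have hn : 0 < ‖Φ v‖ := norm_pos_iff.2 hv
    rw [q.rotate hc.smooth c3, norm_mul, norm_turn, one_mul,
      hc.onEnd _ (by simp only; linarith [r3 v hv]), norm_mul, Complex.norm_real,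
      Real.norm_of_nonneg (Real.exp_pos _).le, Real.exp_log (div_pos (by linarith) hn),
      div_mul_cancel₀ _ hn.ne']

end Pool.Agent.P.MP_49bf82_gt
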