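import Pool.Agent.P.MP_49bf82_gt.Base

open Manifold Set Filter Topology
open scoped ContDiff RealInnerProductSpace

namespace Pool.Agent.P.MP_49bf82_gt

open Pool.Agent.P.MP_e3ee0c_gt

variable {F : Type*} [NormedAddCommGroup F] [NormedSpace ℝ F] [FiniteDimensional ℝ F]
  {W : Type*} [TopologicalSpace W] [ChartedSpace F W] [IsManifold 𝓘(ℝ, F) ∞ W]

section general

variable {E₀ H₀ N E₁ H₁ M₁ E₂ H₂ M₂ : Type*}
  [NormedAddCommGroup E₀] [NormedSpace ℝ E₀] [TopologicalSpace H₀] {J : ModelWithCorners ℝ E₀ H₀}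
  [TopologicalSpace N] [ChartedSpace H₀ N]
  [NormedAddCommGroup E₁] [NormedSpace ℝ E₁] [TopologicalSpace H₁] {I₁ : ModelWithCorners ℝ E₁ H₁}
  [TopologicalSpace M₁] [ChartedSpace H₁ M₁] [IsManifold I₁ ∞ M₁]
  [NormedAddCommGroup E₂] [NormedSpace ℝ E₂] [TopologicalSpace H₂] {I₂ : ModelWithCorners ℝ E₂ H₂}
  [TopologicalSpace M₂] [ChartedSpace H₂ M₂] [IsManifold I₂ ∞ M₂]

/-- Pushing a smooth family of tangent vectors by a smooth family of maps. -/
theorem push [IsManifold J 1 N] (f : N → M₁ → M₂) (g : N → M₁) (v : N → E₁) {x₀ : N}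
    (hf : ContMDiffAt (J.prod I₁) I₂ ∞ (Function.uncurry f) (x₀, g x₀))
    (hv : ContMDiffAt J I₁.tangent ∞ (fun x => (⟨g x, v x⟩ : TangentBundle I₁ M₁)) x₀) :
    ContMDiffAt J I₂.tangent ∞
      (fun x => (⟨f x (g x), mfderiv I₁ I₂ (f x) (g x) (v x)⟩ : TangentBundle I₂ M₂)) x₀ := by
  have hg : ContMDiffAt J I₁ ∞ g x₀ := (Bundle.contMDiffAt_totalSpace.1 hv).1
  have h2 : ContMDiffAt J I₂ ∞ (fun x => f x (g x)) x₀ :=
    ContMDiffAt.comp x₀ (g := Function.uncurry f) (f := fun x => (x, g x)) hf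
      (contMDiffAt_id.prodMk hg)
  exact ContMDiffAt.clm_apply_of_inCoordinates (b₁ := g) (b₂ := fun x => f x (g x))
    (ϕ := fun x => mfderiv I₁ I₂ (f x) (g x)) (v := fun x => v x)
    (hf.mfderiv f g hg (by simp)) hv h2

/-- The same for one map. -/
theorem push_one [IsManifold J 1 N] (f : M₁ → M₂) (g : N → M₁) (v : N → E₁) {x₀ : N}
    (hf : ContMDiffAt I₁ I₂ ∞ f (g x₀))
    (hv : ContMDiffAt J I₁.tangent ∞ (fun x => (⟨g x, v x⟩ : TangentBundle I₁ M₁)) x₀) :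
    ContMDiffAt J I₂.tangent ∞
      (fun x => (⟨f (g x), mfderiv I₁ I₂ f (g x) (v x)⟩ : TangentBundle I₂ M₂)) x₀ := by
  exact push (fun _ => f) g v (ContMDiffAt.comp (x₀, g x₀) (g := f) hf contMDiffAt_snd) hv

/-- Maps to the tangent bundle of a vector space. -/
theorem tangent_model_iff (b v : N → E₁) (x₀ : N) :
    ContMDiffAt J 𝓘(ℝ, E₁).tangent ∞ (fun x => (⟨b x, v x⟩ : TangentBundle 𝓘(ℝ, E₁) E₁)) x₀ ↔
      ContMDiffAt J 𝓘(ℝ, E₁) ∞ b x₀ ∧ ContMDiffAt J 𝓘(ℝ, E₁) ∞ v x₀ := by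
  rw [Bundle.contMDiffAt_totalSpace]
  simp only [trivializationAt_model_space_apply]

end general

theorem VF.contMDiff_one {Y : W → F} (hY : VF Y) :
    ContMDiff 𝓘(ℝ, F) 𝓘(ℝ, F).tangent 1 (fun z => (⟨z, Y z⟩ : TangentBundle 𝓘(ℝ, F) W)) :=
  fun x => (hY x).of_le (by simp)

theorem VFAt.dif_apply {G : Type*} [NormedAddCommGroup G] [NormedSpace ℝ G] {g : W → G} {Y : W → F}
    {x : W} (hY : VFAt Y x) (hg : ContMDiffAt 𝓘(ℝ, F) 𝓘(ℝ, G) ∞ g x) :
    ContMDiffAt 𝓘(ℝ, F) 𝓘(ℝ, G) ∞ (fun z => dif F G g z (Y z)) x := by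
  exact ((tangent_model_iff _ _ x).1 (push_one g (fun z => z) Y hg hY)).2

theorem vfAt_iff_chart {Y : W → F} (p : W) {x : W} (hx : x ∈ (chartAt F p).source) :
    VFAt Y x ↔ ContDiffAt ℝ ∞ (chartField Y p) (chartAt F p x) := by
  have hs := (chartAt F p).open_source.mem_nhds hx
  have ht := (chartAt F p).map_source hx
  constructor
  · intro hY
    have h1 := hY.dif_apply (chart_smooth p hx)
    have h2 : ContMDiffAt 𝓘(ℝ, F) 𝓘(ℝ, F) ∞ (fun z => dif F F (chartAt F p) z (Y z))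
        ((chartAt F p).symm (chartAt F p x)) := by rwa [(chartAt F p).left_inv hx]
    exact contMDiffAt_iff_contDiffAt.1 (h2.comp _ (chart_symm_smooth p ht))
  · intro hY
    have h1 := (tangent_model_iff (J := 𝓘(ℝ, F)) (chartAt F p)
      (fun z => chartField Y p (chartAt F p z)) x).2 ⟨chart_smooth p hx,
        (contMDiffAt_iff_contDiffAt.2 hY).comp x (chart_smooth p hx)⟩
    refine (push_one (chartAt F p).symm _ _ (chart_symm_smooth p ht) h1).congr_of_eventuallyEq ?_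
    filter_upwards [hs] with z hz
    refine Bundle.TotalSpace.ext ((chartAt F p).left_inv hz).symm (heq_of_eq ?_)
    rw [chartField_apply Y p hz]
    exact (dif_symm_chart p hz (Y z)).symm

theorem vfAt_of_chart {Z : F → F} (p : W) {x : W} (hx : x ∈ (chartAt F p).source)
    (hZ : ContDiffAt ℝ ∞ Z (chartAt F p x)) :
    VFAt (fun z => dif F F (chartAt F p).symm (chartAt F p z) (Z (chartAt F p z))) x := by
  rw [vfAt_iff_chart p hx]
  refine hZ.congr_of_eventuallyEq ?_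
  filter_upwards [(chartAt F p).open_target.mem_nhds ((chartAt F p).map_source hx)] with z hz
  simp only [chartField, (chartAt F p).right_inv hz]
  exact congrArg (fun L : F →L[ℝ] F => L (Z z))
    ((mdifferentiable_chart (I := 𝓘(ℝ, F)) p).comp_symm_deriv hz)

theorem VFAt.smul {c : W → ℝ} {Y : W → F} {x : W} (hY : VFAt Y x)
    (hc : ContMDiffAt 𝓘(ℝ, F) 𝓘(ℝ, ℝ) ∞ c x) : VFAt (fun z => c z • Y z) x := by
  exact ContMDiffAt.smul_section hc hY

theorem VFAt.congr {Y Y' : W → F} {x : W} (hY : VFAt Y x) (h : Y' =ᶠ[𝓝 x] Y) : VFAt Y' x := by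
  refine ContMDiffAt.congr_of_eventuallyEq hY ?_
  filter_upwards [h] with z hz
  rw [hz]

omit [FiniteDimensional ℝ F] [IsManifold 𝓘(ℝ, F) ∞ W] in
/-- Chain rule along a curve. -/
theorem hasDerivAt_comp_curve {G : Type*} [NormedAddCommGroup G] [NormedSpace ℝ G] {g : W → G}
    {γ : ℝ → W} {t : ℝ} {v : F}
    (hγ : HasMFDerivAt 𝓘(ℝ, ℝ) 𝓘(ℝ, F) γ t ((1 : ℝ →L[ℝ] ℝ).smulRight v))
    (hg : MDifferentiableAt 𝓘(ℝ, F) 𝓘(ℝ, G) g (γ t)) :
    HasDerivAt (fun s => g (γ s)) (dif F G g (γ t) v) t := by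
  have h1 : HasFDerivAt (fun s => g (γ s)) ((dif F G g (γ t)).comp ((1 : ℝ →L[ℝ] ℝ).smulRight v)) t :=
    hasMFDerivAt_iff_hasFDerivAt.1 (hg.hasMFDerivAt.comp t hγ)
  simpa using h1.hasDerivAt

end Pool.Agent.P.MP_49bf82_gt
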